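import Pool.Agent.Lib.MP_072e06_pr.BoxGeo

/-!
Base points of the standard (nested) partitions.
-/

open MeasureTheory ENNReal
open scoped Classical

namespace MP072e06

variable {d : ℕ}

private lemma side_pos' (n : ℕ) (i : Fin d) : (0 : ℤ) < (side d n i : ℤ) := by
  unfold side
  positivity

lemma mem_Box_base (n : ℕ) (x : V d) : x ∈ Box n (base n x) := by
  rw [mem_Box]
  intro i
  have h := side_pos' n i
  show x i / (side d n i : ℤ) * (side d n i : ℤ) ≤ x i ∧
    x i < x i / (side d n i : ℤ) * (side d n i : ℤ) + (side d n i : ℤ)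
  have h1 := Int.emod_add_mul_ediv (x i) (side d n i : ℤ)
  have h2 := Int.emod_nonneg (x i) h.ne'
  have h3 := Int.emod_lt_of_pos (x i) h
  constructor <;> nlinarith

private lemma ediv_eq_of_mem {a s y : ℤ} (hs : 0 < s) (h1 : a * s ≤ y) (h2 : y < a * s + s) :
    y / s = a := by
  rw [Int.ediv_eq_iff_of_pos hs]
  constructor <;> linarith

lemma base_of_mem {n : ℕ} {x y : V d} (h : y ∈ Box n (base n x)) : base n y = base n x := by
  rw [mem_Box] at h
  funext i
  have hi := h i
  have hs := side_pos' n i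
  show y i / (side d n i : ℤ) * (side d n i : ℤ) = x i / (side d n i : ℤ) * (side d n i : ℤ)
  rw [ediv_eq_of_mem hs hi.1 hi.2]

lemma base_eq_of_le {m n : ℕ} (h : m ≤ n) {x y : V d} (h' : base m y = base m x) :
    base n y = base n x := by
  funext i
  have hm := side_pos' m i
  have h1 : y i / (side d m i : ℤ) * (side d m i : ℤ) = x i / (side d m i : ℤ) * (side d m i : ℤ) :=
    congrFun h' i
  have h2 : y i / (side d m i : ℤ) = x i / (side d m i : ℤ) := by
    exact mul_right_cancel₀ hm.ne' h1
  show y i / (side d n i : ℤ) * (side d n i : ℤ) = x i / (side d n i : ℤ) * (side d n i : ℤ)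
  obtain ⟨c, hc⟩ := side_dvd (d := d) h i
  rw [hc]
  push_cast
  rw [← Int.ediv_ediv_of_nonneg hm.le, ← Int.ediv_ediv_of_nonneg hm.le, h2]

lemma base_add {n K : ℕ} (h : n ≤ K) {u : V d} (hu : ∀ i, (side d K i : ℤ) ∣ u i) (x : V d) :
    base n (x + u) = base n x + u := by
  funext i
  have hn := side_pos' n i
  have h1 : (side d n i : ℤ) ∣ u i :=
    dvd_trans (Int.natCast_dvd_natCast.2 (side_dvd (d := d) h i)) (hu i)
  show (x i + u i) / (side d n i : ℤ) * (side d n i : ℤ) =
    x i / (side d n i : ℤ) * (side d n i : ℤ) + u i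
  rw [Int.add_ediv_of_dvd_right h1, add_mul, Int.ediv_mul_cancel h1]

lemma base_zero (x : V d) : base 0 x = x := by
  funext i
  have h1 : side d 0 i = 1 := by
    unfold side
    have hi := i.2
    have : (0 + d - 1 - (i : ℕ)) / d = 0 := by
      apply Nat.div_eq_of_lt
      omega
    rw [this, pow_zero]
  show x i / (side d 0 i : ℤ) * (side d 0 i : ℤ) = x i
  rw [h1]
  simp

lemma base_dvd (n : ℕ) (x : V d) (i : Fin d) : (side d n i : ℤ) ∣ base n x i :=
  Dvd.intro_left _ rfl

lemma base_of_mem_Box_zero {n : ℕ} {x : V d} (hx : x ∈ Box n (0 : V d)) : base n x = 0 := by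
  rw [mem_Box] at hx
  funext i
  have hi := hx i
  show x i / (side d n i : ℤ) * (side d n i : ℤ) = 0
  have h0 : x i / (side d n i : ℤ) = 0 := by
    apply Int.ediv_eq_zero_of_lt
    · simpa using hi.1
    · simpa using hi.2
  rw [h0, zero_mul]

end MP072e06
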