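import Pool.Agent.Lib.MP_072e06_pr.Sides

/-!
Geometry of the boxes of the binary scheme.
-/

open MeasureTheory ENNReal
open scoped Classical

namespace MP072e06

variable {d : ℕ}

lemma mem_Box {n : ℕ} {v x : V d} :
    x ∈ Box n v ↔ ∀ i, v i ≤ x i ∧ x i < v i + side d n i := by
  simp [Box, Fintype.mem_piFinset, Finset.mem_Ico]

lemma prod_side (hd : 0 < d) (n : ℕ) : ∏ i : Fin d, side d n i = 2 ^ n := by
  haveI : NeZero d := ⟨hd.ne'⟩
  induction n with
  | zero => simp [side_zero]
  | succ n ih =>
    have e : ∀ i : Fin d, side d (n + 1) i = (if i = dir d n then 2 else 1) * side d n i := by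
      intro i
      rw [side_succ]
      split_ifs <;> simp
    simp_rw [e]
    rw [Finset.prod_mul_distrib, ih, Finset.prod_ite_eq' Finset.univ (dir d n) (fun _ => 2)]
    simp only [Finset.mem_univ, if_true]
    ring

lemma card_Box (n : ℕ) (v : V d) (hd : 0 < d) : (Box n v).card = 2 ^ n := by
  rw [Box, Fintype.card_piFinset, ← prod_side hd n]
  apply Finset.prod_congr rfl
  intro i _
  simp

lemma self_mem_Box (n : ℕ) (v : V d) : v ∈ Box n v := by
  rw [mem_Box]
  intro i
  have := side_pos n i
  constructor
  · exact le_rfl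
  · have : (0 : ℤ) < side d n i := by exact_mod_cast this
    omega

lemma Box_nonempty (n : ℕ) (v : V d) : (Box n v).Nonempty := ⟨v, self_mem_Box n v⟩

lemma Box_zero (v : V d) : Box 0 v = {v} := by
  ext x
  rw [mem_Box, Finset.mem_singleton]
  constructor
  · intro h
    funext i
    have := h i
    rw [side_zero] at this
    push_cast at this
    omega
  · rintro rfl i
    rw [side_zero]
    push_cast
    omega

lemma nxt_apply_dir [NeZero d] (n : ℕ) (v : V d) :
    nxt n v (dir d n) = v (dir d n) + rad d n := by
  simp [nxt]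

lemma nxt_apply_ne [NeZero d] (n : ℕ) (v : V d) {i : Fin d} (h : i ≠ dir d n) :
    nxt n v i = v i := by
  simp [nxt, Function.update_of_ne h]

lemma Box_succ [NeZero d] (n : ℕ) (v : V d) : Box (n + 1) v = Box n v ∪ Box n (nxt n v) := by
  ext x
  rw [Finset.mem_union, mem_Box, mem_Box, mem_Box]
  have hr : (0 : ℤ) < rad d n := by exact_mod_cast rad_pos n
  have hs : (side d n (dir d n) : ℤ) = rad d n := by exact_mod_cast side_dir n
  constructor
  · intro h
    by_cases hx : x (dir d n) < v (dir d n) + rad d n
    · left
      intro i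
      have hi := h i
      rw [side_succ] at hi
      by_cases hid : i = dir d n
      · subst hid
        rw [hs]
        exact ⟨hi.1, hx⟩
      · rw [if_neg hid] at hi
        exact hi
    · right
      intro i
      have hi := h i
      rw [side_succ] at hi
      by_cases hid : i = dir d n
      · subst hid
        rw [nxt_apply_dir, hs]
        rw [if_pos rfl] at hi
        push_cast at hi
        rw [hs] at hi
        constructor <;> omega
      · rw [if_neg hid] at hi
        rw [nxt_apply_ne n v hid]
        exact hi
  · rintro (h | h) i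
    · have hi := h i
      rw [side_succ]
      split_ifs with hid
      · push_cast
        omega
      · exact hi
    · have hi := h i
      rw [side_succ]
      split_ifs with hid
      · subst hid
        rw [nxt_apply_dir, hs] at hi
        push_cast
        rw [hs]
        omega
      · rw [nxt_apply_ne n v hid] at hi
        exact hi

lemma Box_disj [NeZero d] (n : ℕ) (v : V d) : Disjoint (Box n v) (Box n (nxt n v)) := by
  rw [Finset.disjoint_left]
  intro x h1 h2
  rw [mem_Box] at h1 h2
  have e1 := h1 (dir d n)
  have e2 := h2 (dir d n)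
  have hs : (side d n (dir d n) : ℤ) = rad d n := by exact_mod_cast side_dir n
  rw [nxt_apply_dir] at e2
  rw [hs] at e1
  omega

lemma add_mem_Box {n : ℕ} {v x u : V d} : x + u ∈ Box n (v + u) ↔ x ∈ Box n v := by
  rw [mem_Box, mem_Box]
  apply forall_congr'
  intro i
  simp only [Pi.add_apply]
  constructor
  · rintro ⟨a, b⟩; constructor <;> omega
  · rintro ⟨a, b⟩; constructor <;> omega

lemma nxt_add [NeZero d] (n : ℕ) (v u : V d) : nxt n (v + u) = nxt n v + u := by
  funext i
  by_cases hid : i = dir d n
  · subst hid
    rw [nxt_apply_dir, Pi.add_apply, Pi.add_apply, nxt_apply_dir]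
    ring
  · rw [nxt_apply_ne _ _ hid, Pi.add_apply, Pi.add_apply, nxt_apply_ne _ _ hid]

lemma avg_Box_succ [NeZero d] (n : ℕ) (v : V d) (h : V d → ℝ) :
    avg (Box (n + 1) v) h = (avg (Box n v) h + avg (Box n (nxt n v)) h) / 2 := by
  have hd : 0 < d := Nat.pos_of_neZero d
  unfold avg
  rw [card_Box _ _ hd, card_Box _ _ hd, card_Box _ _ hd, Box_succ,
    Finset.sum_union (Box_disj n v)]
  push_cast
  rw [pow_succ]
  have : (2 : ℝ) ^ n ≠ 0 := by positivity
  field_simp

/-- Two points of the parent box differ by at most `4 * rad` in each coordinate. -/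
lemma abs_sub_le_of_mem {n : ℕ} {v x y : V d} (hx : x ∈ Box (n + 1) v) (hy : y ∈ Box (n + 1) v)
    (i : Fin d) : |((x i : ℝ) - (y i : ℝ))| ≤ 4 * rad d n := by
  haveI : NeZero d := ⟨by have := i.2; omega⟩
  rw [mem_Box] at hx hy
  have h1 := hx i
  have h2 := hy i
  have hs : side d (n + 1) i ≤ 4 * rad d n := by
    rw [side_succ]
    have := side_le n i
    split_ifs <;> omega
  have hs' : (side d (n + 1) i : ℤ) ≤ 4 * rad d n := by exact_mod_cast hs
  have h3 : |x i - y i| ≤ 4 * rad d n := by
    rw [abs_le]
    constructor <;> omega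
  exact_mod_cast h3

end MP072e06
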