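import Pool.Agent.Lib.MP_072e06_pr.Walk

/-!
Lower bound of the energy by the cells of a partition satisfying a Poincare inequality.
In a cell `b` put `h_A = u` on even points and `w` on odd points, `h_B` the other way round; then
`∑_{(z,x) ∈ b², z ~ x, odd} (u x - w z)² = (En b h_A + En b h_B)/2`, and
`∑_{x ∈ b even} deg x (u x - m_A)² + ∑_{x ∈ b odd} deg x (u x - m_B)²
  ≥ ∑_{x ∈ b} deg x (u x ² - 2 u x m_x)` with `m_x ≤ (∑_b u + ∑_b w)/|b| ≤ 1/|b|` since `deg ≥ 2`.
-/

open MeasureTheory ENNReal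
open scoped Classical

namespace MP072e06

variable {d : ℕ} [NeZero d] {G : SimpleGraph (V d)}

private lemma cellEnergy_parity (u w : V d → ℝ) (b : Finset (V d)) :
    En G b (fun x => if Even (par x) then u x else w x) +
      En G b (fun x => if Even (par x) then w x else u x) =
      2 * ∑ z ∈ b, ∑ x ∈ b,
        (if G.Adj z x ∧ Odd (par z - par x) then (u x - w z) ^ 2 else 0) := by
  have h1 : En G b (fun x => if Even (par x) then u x else w x) +
      En G b (fun x => if Even (par x) then w x else u x) =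
      ∑ z ∈ b, ∑ x ∈ b,
        (if G.Adj z x ∧ Odd (par z - par x) then (u x - w z) ^ 2 else 0) +
      ∑ z ∈ b, ∑ x ∈ b,
        (if G.Adj x z ∧ Odd (par x - par z) then (u z - w x) ^ 2 else 0) := by
    unfold En
    rw [← Finset.sum_add_distrib, ← Finset.sum_add_distrib]
    refine Finset.sum_congr rfl fun z _ => ?_
    rw [← Finset.sum_add_distrib, ← Finset.sum_add_distrib]
    refine Finset.sum_congr rfl fun x _ => ?_
    have hiff : (G.Adj x z ∧ Odd (par x - par z)) ↔ (G.Adj z x ∧ Odd (par z - par x)) := by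
      have h1 : Odd (par x - par z) ↔ Odd (par z - par x) := by
        rw [← neg_sub (par z) (par x), odd_neg]
      rw [G.adj_comm x z, h1]
    by_cases h : G.Adj z x ∧ Odd (par z - par x)
    · rw [if_pos h, if_pos h, if_pos h, if_pos (hiff.2 h)]
      have hodd := h.2
      rw [Int.odd_sub] at hodd
      by_cases hz : Even (par z)
      · have hx : ¬ Even (par x) := fun hx => by
          rw [← Int.not_even_iff_odd] at hodd
          exact (hodd.2 hx) hz
        simp only [hz, hx, if_true, if_false]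
        ring
      · have hx : Even (par x) := by
          rw [← Int.not_even_iff_odd] at hodd
          exact hodd.1 hz
        simp only [hz, hx, if_true, if_false]
        ring
    · rw [if_neg h, if_neg h, if_neg h, if_neg (fun h' => h (hiff.1 h'))]
  rw [h1, two_mul]
  congr 1
  rw [Finset.sum_comm]

private lemma cellEnergy_one (u w : V d → ℝ) (hu : ∀ x, 0 ≤ u x) (hw : ∀ x, 0 ≤ w x)
    (b : Finset (V d)) (hb : b.Nonempty) (p : V d → ℝ) (hp : ∀ x, 0 ≤ p x)
    (hm : ∑ x ∈ b, (u x + w x) ≤ 1)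
    (Λ : ℝ) (hΛ : 0 < Λ)
    (hPI : ∀ h : V d → ℝ, ∑ y ∈ b, p y * (h y - avg b h) ^ 2 ≤ Λ * En G b h) :
    (∑ x ∈ b, p x * u x ^ 2 - 2 * ∑ x ∈ b, p x * u x / b.card) / (2 * Λ) ≤
      ∑ z ∈ b, ∑ x ∈ b,
        (if G.Adj z x ∧ Odd (par z - par x) then (u x - w z) ^ 2 else 0) := by
  have hcard : (0 : ℝ) < b.card := by exact_mod_cast hb.card_pos
  have hA := hPI (fun x => if Even (par x) then u x else w x)
  have hB := hPI (fun x => if Even (par x) then w x else u x)
  set mA : ℝ := avg b (fun x => if Even (par x) then u x else w x) with hmA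
  set mB : ℝ := avg b (fun x => if Even (par x) then w x else u x) with hmB
  have hmA1 : mA ≤ 1 / b.card := by
    rw [hmA, avg]
    refine div_le_div_of_nonneg_right (le_trans (Finset.sum_le_sum fun x _ => ?_) hm) hcard.le
    split_ifs
    · linarith [hw x]
    · linarith [hu x]
  have hmB1 : mB ≤ 1 / b.card := by
    rw [hmB, avg]
    refine div_le_div_of_nonneg_right (le_trans (Finset.sum_le_sum fun x _ => ?_) hm) hcard.le
    split_ifs
    · linarith [hu x]
    · linarith [hw x]
  have hpar := cellEnergy_parity (G := G) u w b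
  have hsum : ∑ x ∈ b, p x * u x ^ 2 - 2 * ∑ x ∈ b, p x * u x / b.card ≤
      ∑ y ∈ b, p y * ((if Even (par y) then u y else w y) - mA) ^ 2 +
      ∑ y ∈ b, p y * ((if Even (par y) then w y else u y) - mB) ^ 2 := by
    rw [Finset.mul_sum, ← Finset.sum_sub_distrib, ← Finset.sum_add_distrib]
    refine Finset.sum_le_sum fun y _ => ?_
    have h0 : p y * u y ^ 2 - 2 * (p y * u y / b.card) =
      p y * (u y ^ 2 - 2 * u y * (1 / b.card)) := by ring
    rw [h0]
    have key : ∀ m : ℝ, m ≤ 1 / b.card → u y ^ 2 - 2 * u y * (1 / b.card) ≤ (u y - m) ^ 2 := by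
      intro m hm'
      have : u y * m ≤ u y * (1 / b.card) := mul_le_mul_of_nonneg_left hm' (hu y)
      nlinarith [sq_nonneg m]
    by_cases hy : Even (par y)
    · simp only [hy, if_true]
      have h1 := mul_le_mul_of_nonneg_left (key mA hmA1) (hp y)
      have h2 : 0 ≤ p y * (w y - mB) ^ 2 := mul_nonneg (hp y) (sq_nonneg _)
      linarith
    · simp only [hy, if_false]
      have h1 := mul_le_mul_of_nonneg_left (key mB hmB1) (hp y)
      have h2 : 0 ≤ p y * (w y - mA) ^ 2 := mul_nonneg (hp y) (sq_nonneg _)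
      linarith
  rw [div_le_iff₀ (by positivity)]
  nlinarith [hA, hB, hsum, hpar]

private lemma cellEnergy_sum (cl : V d → Finset (V d)) (hself : ∀ x, x ∈ cl x)
    (hpart : ∀ x, ∀ y ∈ cl x, cl y = cl x) (F : Finset (V d)) (hF : ∀ x ∈ F, cl x ⊆ F)
    (g : V d → ℝ) : ∑ z ∈ F, g z = ∑ b ∈ F.image cl, ∑ z ∈ b, g z := by
  have hFe : F = (F.image cl).biUnion id := by
    ext x
    simp only [Finset.mem_biUnion, Finset.mem_image, id]
    constructor
    · intro hx
      exact ⟨cl x, ⟨x, hx, rfl⟩, hself x⟩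
    · rintro ⟨b, ⟨y, hy, rfl⟩, hx⟩
      exact hF y hy hx
  conv_lhs => rw [hFe]
  rw [Finset.sum_biUnion]
  · rfl
  · intro b hb b' hb' hne
    simp only [Finset.coe_image, Set.mem_image, Finset.mem_coe] at hb hb'
    obtain ⟨x, hx, rfl⟩ := hb
    obtain ⟨y, hy, rfl⟩ := hb'
    rw [Function.onFun, Finset.disjoint_left]
    intro z hz hz'
    exact hne ((hpart x z hz).symm.trans (hpart y z hz'))

theorem cell_energy (hNN : NN G) (hLF : LF G) (u w : V d → ℝ)
    (hu : ∀ x, 0 ≤ u x) (hw : ∀ x, 0 ≤ w x)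
    (hus : (Function.support u).Finite) (hws : (Function.support w).Finite)
    (hu1 : ∑' x, (deg G x).toReal * u x ≤ 1) (hw1 : ∑' x, (deg G x).toReal * w x ≤ 1)
    (cl : V d → Finset (V d)) (hself : ∀ x, x ∈ cl x) (hpart : ∀ x, ∀ y ∈ cl x, cl y = cl x)
    (Λ : ℝ) (hΛ : 0 < Λ)
    (hPI : ∀ x, ∀ h : V d → ℝ,
      ∑ y ∈ cl x, (deg G y).toReal * (h y - avg (cl x) h) ^ 2 ≤ Λ * En G (cl x) h) :
    (∑' x, (deg G x).toReal * u x ^ 2 - 2 * ∑' x, (deg G x).toReal * u x / (cl x).card) /
        (2 * Λ) ≤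
      ∑' z, ∑' x, (if G.Adj z x then (u x - w z) ^ 2 else 0) := by
  have hdeg : ∀ x, (2 : ℝ) ≤ (deg G x).toReal := fun x => by
    have := ENNReal.toReal_mono (hLF x) (two_le_deg hNN x)
    simpa using this
  have hmass : ∀ (v : V d → ℝ), (∀ x, 0 ≤ v x) → (Function.support v).Finite →
      ∑' x, (deg G x).toReal * v x ≤ 1 → ∀ b : Finset (V d), ∑ x ∈ b, v x ≤ 1 / 2 := by
    intro v hv hvs hv1 b
    have hsm : Summable fun x => (deg G x).toReal * v x := by
      refine summable_of_hasFiniteSupport (hvs.subset ?_)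
      intro x hx
      rw [Function.mem_support] at hx ⊢
      intro h
      exact hx (by rw [h, mul_zero])
    have h1 : ∑ x ∈ b, (deg G x).toReal * v x ≤ ∑' x, (deg G x).toReal * v x :=
      hsm.sum_le_tsum b fun x _ => mul_nonneg ENNReal.toReal_nonneg (hv x)
    have h2 : ∑ x ∈ b, 2 * v x ≤ ∑ x ∈ b, (deg G x).toReal * v x :=
      Finset.sum_le_sum fun x _ => mul_le_mul_of_nonneg_right (hdeg x) (hv x)
    rw [← Finset.mul_sum] at h2
    linarith
  -- the finite set
  set Nb : V d → Finset (V d) := fun x => (neighbor_finite hLF x).toFinset with hNb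
  have hNbm : ∀ x y, y ∈ Nb x ↔ G.Adj x y := by
    intro x y; simp [hNb]
  set S : Finset (V d) := hus.toFinset ∪ hws.toFinset with hS
  set F0 : Finset (V d) := S ∪ S.biUnion Nb with hF0
  set F : Finset (V d) := F0.biUnion cl with hFdef
  have hSF : ∀ x, x ∈ S → x ∈ F := fun x hx => by
    rw [hFdef, Finset.mem_biUnion]
    exact ⟨x, by rw [hF0, Finset.mem_union]; exact Or.inl hx, hself x⟩
  have hNF : ∀ x y, x ∈ S → G.Adj x y → y ∈ F := fun x y hx hxy => by
    rw [hFdef, Finset.mem_biUnion]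
    refine ⟨y, ?_, hself y⟩
    rw [hF0, Finset.mem_union, Finset.mem_biUnion]
    exact Or.inr ⟨x, hx, (hNbm x y).2 hxy⟩
  have hFcl : ∀ x ∈ F, cl x ⊆ F := by
    intro x hx
    rw [hFdef, Finset.mem_biUnion] at hx
    obtain ⟨y, hy, hxy⟩ := hx
    rw [hpart y x hxy, hFdef]
    exact Finset.subset_biUnion_of_mem cl hy
  have huS : ∀ x, x ∉ S → u x = 0 := fun x hx => by
    by_contra h
    exact hx (by rw [hS, Finset.mem_union]; exact Or.inl (by simpa using h))
  have hwS : ∀ x, x ∉ S → w x = 0 := fun x hx => by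
    by_contra h
    exact hx (by rw [hS, Finset.mem_union]; exact Or.inr (by simpa using h))
  have hT1 : ∑' x, (deg G x).toReal * u x ^ 2 = ∑ x ∈ F, (deg G x).toReal * u x ^ 2 :=
    tsum_eq_sum fun x hx => by
      rw [huS x fun h => hx (hSF x h)]; ring
  have hT2 : ∑' x, (deg G x).toReal * u x / (cl x).card =
      ∑ x ∈ F, (deg G x).toReal * u x / (cl x).card :=
    tsum_eq_sum fun x hx => by
      rw [huS x fun h => hx (hSF x h)]; ring
  have hz0 : ∀ z x, G.Adj z x → (z ∉ F ∨ x ∉ F) → (u x - w z) ^ 2 = 0 := by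
    intro z x hzx h
    have hx : x ∉ S := fun hx => by
      rcases h with h | h
      · exact h (hNF x z hx hzx.symm)
      · exact h (hSF x hx)
    have hz : z ∉ S := fun hz => by
      rcases h with h | h
      · exact h (hSF z hz)
      · exact h (hNF z x hz hzx)
    rw [huS x hx, hwS z hz]; ring
  have hT3 : ∑' z, ∑' x, (if G.Adj z x then (u x - w z) ^ 2 else 0) =
      ∑ z ∈ F, ∑ x ∈ F, (if G.Adj z x then (u x - w z) ^ 2 else 0) := by
    rw [tsum_eq_sum (s := F)]
    · refine Finset.sum_congr rfl fun z _ => ?_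
      refine tsum_eq_sum fun x hx => ?_
      split_ifs with h
      · exact hz0 z x h (Or.inr hx)
      · rfl
    · intro z hz
      have : ∀ x, (if G.Adj z x then (u x - w z) ^ 2 else 0) = 0 := by
        intro x
        split_ifs with h
        · exact hz0 z x h (Or.inl hz)
        · rfl
      simp only [this, tsum_zero]
  rw [hT1, hT2, hT3]
  have hlow : ∑ z ∈ F, ∑ x ∈ cl z,
      (if G.Adj z x ∧ Odd (par z - par x) then (u x - w z) ^ 2 else 0) ≤
      ∑ z ∈ F, ∑ x ∈ F, (if G.Adj z x then (u x - w z) ^ 2 else 0) := by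
    refine Finset.sum_le_sum fun z hz => ?_
    refine le_trans (Finset.sum_le_sum (g := fun x => if G.Adj z x then (u x - w z) ^ 2 else 0)
      fun x _ => ?_) (Finset.sum_le_sum_of_subset_of_nonneg (hFcl z hz) fun x _ _ => ?_)
    · by_cases h : G.Adj z x
      · by_cases h' : Odd (par z - par x)
        · simp [h, h']
        · simp only [h, h', and_false, if_false, if_true]
          positivity
      · simp [h]
    · split_ifs
      · positivity
      · rfl
  refine le_trans ?_ hlow
  rw [cellEnergy_sum cl hself hpart F hFcl (fun x => (deg G x).toReal * u x ^ 2),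
    cellEnergy_sum cl hself hpart F hFcl (fun x => (deg G x).toReal * u x / (cl x).card),
    cellEnergy_sum cl hself hpart F hFcl (fun z => ∑ x ∈ cl z,
      (if G.Adj z x ∧ Odd (par z - par x) then (u x - w z) ^ 2 else 0)), Finset.mul_sum,
    ← Finset.sum_sub_distrib, Finset.sum_div]
  refine Finset.sum_le_sum fun b hb => ?_
  rw [Finset.mem_image] at hb
  obtain ⟨x0, hx0, rfl⟩ := hb
  have h1 : ∑ x ∈ cl x0, (deg G x).toReal * u x / (cl x).card =
      ∑ x ∈ cl x0, (deg G x).toReal * u x / (cl x0).card :=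
    Finset.sum_congr rfl fun x hx => by rw [hpart x0 x hx]
  have h2 : ∑ z ∈ cl x0, ∑ x ∈ cl z,
      (if G.Adj z x ∧ Odd (par z - par x) then (u x - w z) ^ 2 else 0) =
      ∑ z ∈ cl x0, ∑ x ∈ cl x0,
      (if G.Adj z x ∧ Odd (par z - par x) then (u x - w z) ^ 2 else 0) :=
    Finset.sum_congr rfl fun z hz => by rw [hpart x0 z hz]
  rw [h1, h2]
  refine cellEnergy_one u w hu hw (cl x0) ⟨x0, hself x0⟩ (fun x => (deg G x).toReal)
    (fun x => ENNReal.toReal_nonneg) ?_ Λ hΛ (hPI x0)
  rw [Finset.sum_add_distrib]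
  have := hmass u hu hus hu1 (cl x0)
  have := hmass w hw hws hw1 (cl x0)
  linarith

end MP072e06
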