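import Pool.Agent.Lib.MP_072e06_pr.NNFlow

/-!
The recursive Poincare inequality: `(a+b)² ≤ A a² + A/(A-1) b²`,
`avg child - avg parent = ±(avg child - avg sibling)/2`.
-/

open MeasureTheory ENNReal
open scoped Classical

namespace MP072e06

variable {d : ℕ} [NeZero d] {G : SimpleGraph (V d)}

private lemma tauPI_sq {A : ℝ} (hA : 1 < A) (a b : ℝ) :
    (a + b) ^ 2 ≤ A * a ^ 2 + A / (A - 1) * b ^ 2 := by
  have h : 0 < A - 1 := by linarith
  have h2 : A / (A - 1) * b ^ 2 = b ^ 2 + b ^ 2 / (A - 1) := by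
    field_simp; ring
  rw [h2]
  have h3 : 0 ≤ ((A - 1) * a - b) ^ 2 / (A - 1) := by positivity
  have h4 : ((A - 1) * a - b) ^ 2 / (A - 1) = (A - 1) * a ^ 2 - 2 * a * b + b ^ 2 / (A - 1) := by
    field_simp; ring
  rw [h4] at h3
  nlinarith

private lemma tauPI_child {A : ℝ} (hA : 1 < A) (S : Finset (V d)) (h : V d → ℝ) (m mi D : ℝ)
    (hm : (mi - m) ^ 2 ≤ D) (T : ℝ≥0∞) (E : ℝ)
    (hS : ∑ x ∈ S, deg G x * ENNReal.ofReal ((h x - mi) ^ 2) ≤ T * ENNReal.ofReal E) :
    ∑ x ∈ S, deg G x * ENNReal.ofReal ((h x - m) ^ 2) ≤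
      ENNReal.ofReal A * (T * ENNReal.ofReal E) +
        ENNReal.ofReal (A / (A - 1)) * degS G S * ENNReal.ofReal D := by
  have hA' : 0 < A - 1 := by linarith
  have hA0 : 0 ≤ A := by linarith
  have hAA : 0 ≤ A / (A - 1) := div_nonneg hA0 hA'.le
  have hpt : ∀ x, ENNReal.ofReal ((h x - m) ^ 2) ≤
      ENNReal.ofReal A * ENNReal.ofReal ((h x - mi) ^ 2) +
        ENNReal.ofReal (A / (A - 1)) * ENNReal.ofReal D := by
    intro x
    rw [← ENNReal.ofReal_mul hA0, ← ENNReal.ofReal_mul hAA, ← ENNReal.ofReal_add (by positivity)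
      (mul_nonneg hAA (le_trans (sq_nonneg _) hm))]
    apply ENNReal.ofReal_le_ofReal
    have := tauPI_sq hA (h x - mi) (mi - m)
    have e : h x - mi + (mi - m) = h x - m := by ring
    rw [e] at this
    have h3 := mul_le_mul_of_nonneg_left hm hAA
    linarith
  calc ∑ x ∈ S, deg G x * ENNReal.ofReal ((h x - m) ^ 2)
      ≤ ∑ x ∈ S, (ENNReal.ofReal A * (deg G x * ENNReal.ofReal ((h x - mi) ^ 2)) +
          ENNReal.ofReal (A / (A - 1)) * deg G x * ENNReal.ofReal D) := by
        apply Finset.sum_le_sum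
        intro x _
        calc deg G x * ENNReal.ofReal ((h x - m) ^ 2)
            ≤ deg G x * (ENNReal.ofReal A * ENNReal.ofReal ((h x - mi) ^ 2) +
              ENNReal.ofReal (A / (A - 1)) * ENNReal.ofReal D) := by gcongr; exact hpt x
          _ = _ := by ring
    _ = ENNReal.ofReal A * (∑ x ∈ S, deg G x * ENNReal.ofReal ((h x - mi) ^ 2)) +
          ENNReal.ofReal (A / (A - 1)) * degS G S * ENNReal.ofReal D := by
        rw [Finset.sum_add_distrib, ← Finset.mul_sum, ← Finset.sum_mul, ← Finset.mul_sum, degS]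
    _ ≤ _ := by gcongr

theorem tau_PI (hNN : NN G) (hLF : LF G) {A : ℝ} (hA : 1 < A) (n : ℕ) (v : V d)
    (h : V d → ℝ) :
    ∑ x ∈ Box n v, deg G x * ENNReal.ofReal ((h x - avg (Box n v) h) ^ 2) ≤
      tau A n v G * ENNReal.ofReal (En G (Box n v) h) := by
  induction n generalizing v with
  | zero =>
    rw [Box_zero]
    simp [avg, tau]
  | succ n ih =>
    have h1 := ih v
    have h2 := ih (nxt n v)
    set m1 := avg (Box n v) h with hm1
    set m2 := avg (Box n (nxt n v)) h with hm2
    have hm : avg (Box (n + 1) v) h = (m1 + m2) / 2 := avg_Box_succ n v h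
    have hD1 : (m1 - avg (Box (n + 1) v) h) ^ 2 ≤ (m1 - m2) ^ 2 := by
      rw [hm]; nlinarith [sq_nonneg (m1 - m2)]
    have hD2 : (m2 - avg (Box (n + 1) v) h) ^ 2 ≤ (m1 - m2) ^ 2 := by
      rw [hm]; nlinarith [sq_nonneg (m1 - m2)]
    have c1 := tauPI_child (G := G) hA (Box n v) h _ m1 _ hD1 _ _ h1
    have c2 := tauPI_child (G := G) hA (Box n (nxt n v)) h _ m2 _ hD2 _ _ h2
    have hphi := phi_bound (G := G) hNN n v h
    rw [← hm1, ← hm2] at hphi
    have hE := En_union_le (G := G) (Box_disj n v) (Box_succ n v).symm.subset h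
    have hE' : ENNReal.ofReal (En G (Box n v) h) + ENNReal.ofReal (En G (Box n (nxt n v)) h) ≤
        ENNReal.ofReal (En G (Box (n + 1) v) h) := by
      rw [← ENNReal.ofReal_add (En_nonneg _ _ _) (En_nonneg _ _ _)]
      exact ENNReal.ofReal_le_ofReal hE
    have hdeg : degS G (Box n v) + degS G (Box n (nxt n v)) = degS G (Box (n + 1) v) := by
      unfold degS
      rw [Box_succ, Finset.sum_union (Box_disj n v)]
    have hsum : ∑ x ∈ Box (n + 1) v, deg G x *
        ENNReal.ofReal ((h x - avg (Box (n + 1) v) h) ^ 2) =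
        ∑ x ∈ Box n v, deg G x * ENNReal.ofReal ((h x - avg (Box (n + 1) v) h) ^ 2) +
        ∑ x ∈ Box n (nxt n v), deg G x *
          ENNReal.ofReal ((h x - avg (Box (n + 1) v) h) ^ 2) := by
      conv_lhs => rw [Box_succ n v]
      rw [Finset.sum_union (Box_disj n v)]
      simp only [Box_succ n v]
    rw [hsum]
    calc _ ≤ (ENNReal.ofReal A * (tau A n v G * ENNReal.ofReal (En G (Box n v) h)) +
          ENNReal.ofReal (A / (A - 1)) * degS G (Box n v) * ENNReal.ofReal ((m1 - m2) ^ 2)) +
          (ENNReal.ofReal A * (tau A n (nxt n v) G *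
            ENNReal.ofReal (En G (Box n (nxt n v)) h)) +
          ENNReal.ofReal (A / (A - 1)) * degS G (Box n (nxt n v)) *
            ENNReal.ofReal ((m1 - m2) ^ 2)) := add_le_add c1 c2
      _ = ENNReal.ofReal A * (tau A n v G * ENNReal.ofReal (En G (Box n v) h) +
            tau A n (nxt n v) G * ENNReal.ofReal (En G (Box n (nxt n v)) h)) +
          ENNReal.ofReal (A / (A - 1)) * (degS G (Box n v) + degS G (Box n (nxt n v))) *
            ENNReal.ofReal ((m1 - m2) ^ 2) := by ring
      _ ≤ ENNReal.ofReal A * (max (tau A n v G) (tau A n (nxt n v) G) *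
            ENNReal.ofReal (En G (Box (n + 1) v) h)) +
          ENNReal.ofReal (A / (A - 1)) * degS G (Box (n + 1) v) *
            (phi n v G * ENNReal.ofReal (En G (Box (n + 1) v) h)) := by
          rw [hdeg]
          gcongr
          calc tau A n v G * ENNReal.ofReal (En G (Box n v) h) +
                tau A n (nxt n v) G * ENNReal.ofReal (En G (Box n (nxt n v)) h)
              ≤ max (tau A n v G) (tau A n (nxt n v) G) * ENNReal.ofReal (En G (Box n v) h) +
                max (tau A n v G) (tau A n (nxt n v) G) *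
                  ENNReal.ofReal (En G (Box n (nxt n v)) h) := by
                gcongr
                · exact le_max_left _ _
                · exact le_max_right _ _
            _ = max (tau A n v G) (tau A n (nxt n v) G) *
                (ENNReal.ofReal (En G (Box n v) h) +
                  ENNReal.ofReal (En G (Box n (nxt n v)) h)) := by ring
            _ ≤ _ := by gcongr
      _ = _ := by
          simp only [tau]
          ring

end MP072e06
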