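import Pool.Agent.Lib.MP_072e06_pr.BaseGeo
import Pool.Agent.Lib.MP_072e06_pr.TauPI

/-!
Properties of the stopping partition.
-/

open MeasureTheory ENNReal
open scoped Classical

namespace MP072e06

variable {d : ℕ} [NeZero d] {G : SimpleGraph (V d)}

private lemma tau_lev_le (A : ℝ) (L : ℝ≥0∞) (K : ℕ) (G : SimpleGraph (V d)) (x : V d) :
    tau A (lev A L K G x) (base (lev A L K G x) x) G ≤ L := by
  have h0 : (fun n => tau A n (base n x) G ≤ L) 0 := by
    show (0 : ℝ≥0∞) ≤ L
    exact zero_le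
  exact Nat.findGreatest_spec (P := fun n => tau A n (base n x) G ≤ L) (Nat.zero_le K) h0

private lemma lev_le (A : ℝ) (L : ℝ≥0∞) (K : ℕ) (G : SimpleGraph (V d)) (x : V d) :
    lev A L K G x ≤ K := Nat.findGreatest_le K

private lemma le_lev {A : ℝ} {L : ℝ≥0∞} {K : ℕ} {G : SimpleGraph (V d)} {x : V d} {n : ℕ}
    (hn : n ≤ K) (h : tau A n (base n x) G ≤ L) : n ≤ lev A L K G x :=
  Nat.le_findGreatest hn h

theorem mem_cell (A : ℝ) (L : ℝ≥0∞) (K : ℕ) (G : SimpleGraph (V d)) (x : V d) :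
    x ∈ cell A L K G x := mem_Box_base _ x

theorem cell_eq (A : ℝ) (L : ℝ≥0∞) (K : ℕ) (G : SimpleGraph (V d)) (x : V d) :
    ∀ y ∈ cell A L K G x, cell A L K G y = cell A L K G x := by
  intro y hy
  have hb : base (lev A L K G x) y = base (lev A L K G x) x := base_of_mem hy
  have hlev : lev A L K G y = lev A L K G x := by
    apply le_antisymm
    · -- lev y ≤ lev x
      by_contra hlt
      rw [not_le] at hlt
      have h1 : base (lev A L K G y) y = base (lev A L K G y) x := base_eq_of_le hlt.le hb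
      have h2 : lev A L K G y ≤ lev A L K G x :=
        le_lev (lev_le A L K G y) (h1 ▸ tau_lev_le A L K G y)
      omega
    · exact le_lev (lev_le A L K G x) (hb.symm ▸ tau_lev_le A L K G x)
  unfold cell
  rw [hlev, hb]

theorem cell_card (A : ℝ) (L : ℝ≥0∞) (K : ℕ) (G : SimpleGraph (V d)) (x : V d) :
    (cell A L K G x).card = 2 ^ lev A L K G x :=
  card_Box _ _ (Nat.pos_of_ne_zero (NeZero.ne d))

private lemma cells_En_nonneg (S : Finset (V d)) (h : V d → ℝ) : 0 ≤ En G S h := by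
  unfold En
  refine Finset.sum_nonneg fun x _ => Finset.sum_nonneg fun y _ => ?_
  split_ifs
  · positivity
  · exact le_rfl

theorem cell_PI (hNN : NN G) (hLF : LF G) {A : ℝ} (hA : 1 < A) {Λ : ℝ} (hΛ : 0 < Λ) (K : ℕ)
    (x : V d) (h : V d → ℝ) :
    ∑ y ∈ cell A (ENNReal.ofReal Λ) K G x,
        (deg G y).toReal * (h y - avg (cell A (ENNReal.ofReal Λ) K G x) h) ^ 2 ≤
      Λ * En G (cell A (ENNReal.ofReal Λ) K G x) h := by
  set n := lev A (ENNReal.ofReal Λ) K G x with hn
  have h1 := tau_PI hNN hLF hA n (base n x) h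
  have h2 : tau A n (base n x) G ≤ ENNReal.ofReal Λ := tau_lev_le A (ENNReal.ofReal Λ) K G x
  have hc : cell A (ENNReal.ofReal Λ) K G x = Box n (base n x) := rfl
  rw [hc]
  have h3 := h1.trans (mul_le_mul_left h2 (ENNReal.ofReal (En G (Box n (base n x)) h)))
  rw [← ENNReal.ofReal_mul hΛ.le] at h3
  have h4 : ∑ y ∈ Box n (base n x), deg G y *
      ENNReal.ofReal ((h y - avg (Box n (base n x)) h) ^ 2) =
      ENNReal.ofReal (∑ y ∈ Box n (base n x),
        (deg G y).toReal * (h y - avg (Box n (base n x)) h) ^ 2) := by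
    rw [ENNReal.ofReal_sum_of_nonneg]
    · refine Finset.sum_congr rfl fun y _ => ?_
      rw [ENNReal.ofReal_mul ENNReal.toReal_nonneg, ENNReal.ofReal_toReal (hLF y)]
    · intro y _
      positivity
  rw [h4] at h3
  exact (ENNReal.ofReal_le_ofReal_iff (mul_nonneg hΛ.le (cells_En_nonneg _ _))).1 h3

theorem inv_lev_le (A : ℝ) (L : ℝ≥0∞) (K : ℕ) (G : SimpleGraph (V d)) (x : V d) :
    (1 : ℝ≥0∞) / 2 ^ lev A L K G x ≤ 1 / 2 ^ K + ∑ n ∈ Finset.range K,
      (1 / 2 ^ n) * (if L < tau A (n + 1) (base (n + 1) x) G then 1 else 0) := by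
  rcases (lev_le A L K G x).eq_or_lt with h | h
  · rw [h]
    exact le_self_add
  · have h1 : L < tau A (lev A L K G x + 1) (base (lev A L K G x + 1) x) G := by
      by_contra hcon
      rw [not_lt] at hcon
      have := le_lev (K := K) (by omega) hcon
      omega
    have h2 : (1 : ℝ≥0∞) / 2 ^ lev A L K G x ≤ ∑ n ∈ Finset.range K,
        (1 / 2 ^ n) * (if L < tau A (n + 1) (base (n + 1) x) G then 1 else 0) := by
      refine le_trans ?_ (Finset.single_le_sum (f := fun n => (1 / 2 ^ n : ℝ≥0∞) *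
        (if L < tau A (n + 1) (base (n + 1) x) G then 1 else 0)) (fun n _ => zero_le)
        (Finset.mem_range.2 h))
      simp only [if_pos h1, mul_one]
      exact le_rfl
    exact h2.trans le_add_self

end MP072e06
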