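import Pool.Agent.Lib.MP_072e06_pr.Model

/-!
# Auxiliary definitions: boxes, energies, Poincare constants, stopping levels
-/

open MeasureTheory ENNReal
open scoped Classical

namespace MP072e06

/-! ## Boxes (binary scheme) -/

/-- The parity class of a vertex. -/
def par {d : ℕ} (x : V d) : ℤ := ∑ i, x i

/-- `r n = 2^(n/d)`: the smallest side of the box of level `n`. -/
def rad (d n : ℕ) : ℕ := 2 ^ (n / d)

/-- The sides of the box of level `n`. -/
def side (d n : ℕ) (i : Fin d) : ℕ := 2 ^ ((n + d - 1 - (i : ℕ)) / d)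

/-- The direction in which the box of level `n` is doubled to get the box of level `n+1`. -/
def dir (d n : ℕ) [NeZero d] : Fin d := Fin.ofNat d n

/-- The box of level `n` with base point `v`; it has `2^n` points. -/
noncomputable def Box {d : ℕ} (n : ℕ) (v : V d) : Finset (V d) :=
  Fintype.piFinset fun i => Finset.Ico (v i) (v i + side d n i)

/-- Base point of the sibling of the box of level `n` with base point `v`. -/
def nxt {d : ℕ} [NeZero d] (n : ℕ) (v : V d) : V d :=
  Function.update v (dir d n) (v (dir d n) + rad d n)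

/-- Base point of the box of level `n` of the standard partition that contains `x`. -/
def base {d : ℕ} (n : ℕ) (x : V d) : V d := fun i => x i / (side d n i : ℤ) * (side d n i : ℤ)

/-- Unweighted average of `h` over `S`. -/
noncomputable def avg {d : ℕ} (S : Finset (V d)) (h : V d → ℝ) : ℝ := (∑ x ∈ S, h x) / S.card

/-- Energy of `h` over the open odd edges inside `S` (ordered pairs: each edge is counted twice). -/
noncomputable def En {d : ℕ} (G : SimpleGraph (V d)) (S : Finset (V d)) (h : V d → ℝ) : ℝ :=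
  ∑ x ∈ S, ∑ y ∈ S, if G.Adj x y ∧ Odd (par x - par y) then (h x - h y) ^ 2 else 0

/-- Optimal constant in `(avg over the box - avg over its sibling)^2 ≤ phi * energy in the parent`. -/
noncomputable def phi {d : ℕ} [NeZero d] (n : ℕ) (v : V d) (G : SimpleGraph (V d)) : ℝ≥0∞ :=
  ⨆ h : V d → ℝ, ENNReal.ofReal ((avg (Box n v) h - avg (Box n (nxt n v)) h) ^ 2) /
    ENNReal.ofReal (En G (Box (n + 1) v) h)

/-- Sum of the degrees over `S`. -/
noncomputable def degS {d : ℕ} (G : SimpleGraph (V d)) (S : Finset (V d)) : ℝ≥0∞ :=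
  ∑ x ∈ S, deg G x

/-- The recursive bound for the Poincare constant of the boxes. -/
noncomputable def tau {d : ℕ} [NeZero d] (A : ℝ) : ℕ → V d → SimpleGraph (V d) → ℝ≥0∞
  | 0, _, _ => 0
  | n + 1, v, G => ENNReal.ofReal A * max (tau A n v G) (tau A n (nxt n v) G) +
      ENNReal.ofReal (A / (A - 1)) * degS G (Box (n + 1) v) * phi n v G

/-- The largest level `n ≤ K` such that the box of level `n` of the standard partition containing
`x` has `tau ≤ L`. -/
noncomputable def lev {d : ℕ} [NeZero d] (A : ℝ) (L : ℝ≥0∞) (K : ℕ) (G : SimpleGraph (V d))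
    (x : V d) : ℕ :=
  Nat.findGreatest (fun n => tau A n (base n x) G ≤ L) K

/-- The cell of `x` in the stopping partition. -/
noncomputable def cell {d : ℕ} [NeZero d] (A : ℝ) (L : ℝ≥0∞) (K : ℕ) (G : SimpleGraph (V d))
    (x : V d) : Finset (V d) :=
  Box (lev A L K G x) (base (lev A L K G x) x)

/-- Indicator of an open coordinate. -/
noncomputable def xi {ι : Type*} (ω : ι → Bool) (e : ι) : ℝ := if ω e = true then 1 else 0

/-! ## Shifts -/

/-- The shifted graph. -/
def shiftG {d : ℕ} (u : V d) (G : SimpleGraph (V d)) : SimpleGraph (V d) := G.comap (· + u)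

@[simp] lemma shiftG_adj {d : ℕ} (u : V d) (G : SimpleGraph (V d)) (x y : V d) :
    (shiftG u G).Adj x y ↔ G.Adj (x + u) (y + u) := Iff.rfl

/-- The shifted environment. -/
def shiftEnv {d : ℕ} (u : V d) (ω : Env d) : Env d := fun e => ω (e.map (· + u))

/-- All nearest-neighbour edges are present. -/
def NN {d : ℕ} (G : SimpleGraph (V d)) : Prop := ∀ x y, x ≠ y → eDist x y ≤ 1 → G.Adj x y

/-- Local finiteness. -/
def LF {d : ℕ} (G : SimpleGraph (V d)) : Prop := ∀ x, deg G x ≠ ∞

lemma lrpGraph_NN {d : ℕ} (ω : Env d) : NN (lrpGraph ω) := fun _ _ h h' => ⟨h, Or.inl h'⟩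

/-- The annealed return probability `E P_0(X_{2t} = 0)`. -/
noncomputable def W (d : ℕ) (s : ℝ) (t : ℕ) : ℝ≥0∞ :=
  ∫⁻ ω, walk (lrpGraph ω) (2 * t) 0 0 ∂(LRP d s)

/-- The error term of the main inequality. -/
noncomputable def Err (d : ℕ) [NeZero d] (s : ℝ) (A : ℝ) (L : ℝ≥0∞) (K : ℕ) : ℝ≥0∞ :=
  (∑ x ∈ Box K (0 : V d), ∫⁻ ω, deg (lrpGraph ω) x / 2 ^ (lev A L K (lrpGraph ω) x) ∂(LRP d s)) /
    2 ^ K

end MP072e06
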