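import Pool.Agent.Lib.MP_072e06_pr.FlowDefs

/-!
Summability of the edge probabilities: `1 - exp(-u) ≤ u`; the summability of `|y|^(-s)` over `ℤ^d` for
`s > d` is in Mathlib (`ZLattice.summable_norm_rpow` or similar, Mathlib/Algebra/Module/ZLattice/Summable.lean) or by
counting.
-/

open MeasureTheory ENNReal
open scoped Classical

namespace MP072e06

/-- The one-dimensional majorant. -/
noncomputable def EdgeSum_g (b : ℝ) (k : ℤ) : ℝ := (max 1 |(k : ℝ)|) ^ (-b)

lemma EdgeSum_g_nonneg (b : ℝ) (k : ℤ) : 0 ≤ EdgeSum_g b k := by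
  unfold EdgeSum_g
  positivity

lemma EdgeSum_g_summable {b : ℝ} (hb : 1 < b) : Summable (EdgeSum_g b) := by
  have h1 : Summable fun n : ℤ => |(n : ℝ)| ^ (-b) := Real.summable_abs_int_rpow hb
  have h2 : Summable fun n : ℤ => if n = 0 then (1 : ℝ) else 0 :=
    summable_of_ne_finset_zero (s := {0}) fun n hn => by
      rw [if_neg]; simpa using hn
  refine (h1.add h2).congr fun n => ?_
  unfold EdgeSum_g
  by_cases hn : n = 0
  · subst hn
    simp [Real.zero_rpow (show -b ≠ 0 by linarith)]
  · rw [if_neg hn, add_zero]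
    congr 1
    have : (1 : ℝ) ≤ |(n : ℝ)| := by
      have := Int.one_le_abs hn
      exact_mod_cast this
    rw [max_eq_right this]

lemma EdgeSum_coord_le {d : ℕ} (y : V d) (i : Fin d) : |(y i : ℝ)| ≤ eDist 0 y := by
  unfold eDist
  rw [← Real.sqrt_sq_eq_abs]
  apply Real.sqrt_le_sqrt
  refine le_trans (le_of_eq ?_) (Finset.single_le_sum (f := fun i => (((0 : V d) i : ℝ) - (y i : ℝ)) ^ 2)
    (fun j _ => sq_nonneg _) (Finset.mem_univ i))
  simp

lemma EdgeSum_le (d : ℕ) [NeZero d] (s : ℝ) (hs : (d : ℝ) < s) (y : V d) :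
    edgeProb d s 0 y ≤ ∏ i, EdgeSum_g (s / d) (y i) := by
  have hd : (0 : ℝ) < d := by exact_mod_cast Nat.pos_of_ne_zero (NeZero.ne d)
  have hs0 : 0 < s := by linarith
  unfold edgeProb
  split_ifs with h
  · rw [Finset.prod_eq_one]
    intro i _
    unfold EdgeSum_g
    have := (EdgeSum_coord_le y i).trans h
    rw [max_eq_left this, Real.one_rpow]
  · push Not at h
    have hD0 : 0 < eDist 0 y := by linarith
    have h1 : 1 - Real.exp (-(eDist 0 y ^ (-s))) ≤ eDist 0 y ^ (-s) := by
      have := Real.add_one_le_exp (-(eDist 0 y ^ (-s)))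
      linarith
    refine h1.trans ?_
    have h2 : eDist 0 y ^ (-s) = ∏ _i : Fin d, eDist 0 y ^ (-(s / d)) := by
      rw [Finset.prod_const, Finset.card_univ, Fintype.card_fin, ← Real.rpow_natCast,
        ← Real.rpow_mul hD0.le]
      congr 1
      field_simp
    rw [h2]
    refine Finset.prod_le_prod (fun i _ => by positivity) fun i _ => ?_
    unfold EdgeSum_g
    refine Real.rpow_le_rpow_of_nonpos (by positivity) ?_ (by
      have : 0 < s / d := by positivity
      linarith)
    exact max_le h.le (EdgeSum_coord_le y i)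

theorem edgeProb_summable (d : ℕ) [NeZero d] (s : ℝ) (hs : (d : ℝ) < s) :
    Summable fun y : V d => edgeProb d s 0 y := by
  have hd : (0 : ℝ) < d := by exact_mod_cast Nat.pos_of_ne_zero (NeZero.ne d)
  have hb : 1 < s / d := by rwa [lt_div_iff₀ hd, one_mul]
  have hg := EdgeSum_g_summable hb
  refine summable_of_sum_le (c := (∑' k, EdgeSum_g (s / d) k) ^ d)
    (fun y => edgeProb_nonneg d s 0 y) fun S => ?_
  refine (Finset.sum_le_sum fun y _ => EdgeSum_le d s hs y).trans ?_
  have hsub : S ⊆ Fintype.piFinset fun i : Fin d => S.image fun y => y i := by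
    intro y hy
    rw [Fintype.mem_piFinset]
    intro i
    exact Finset.mem_image_of_mem _ hy
  refine (Finset.sum_le_sum_of_subset_of_nonneg hsub fun y _ _ =>
    Finset.prod_nonneg fun i _ => EdgeSum_g_nonneg _ _).trans ?_
  rw [← Finset.prod_univ_sum]
  calc ∏ i : Fin d, ∑ k ∈ S.image (fun y => y i), EdgeSum_g (s / d) k
      ≤ ∏ _i : Fin d, ∑' k, EdgeSum_g (s / d) k :=
        Finset.prod_le_prod (fun i _ => Finset.sum_nonneg fun k _ => EdgeSum_g_nonneg _ _)
          fun i _ => hg.sum_le_tsum _ fun k _ => EdgeSum_g_nonneg _ _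
    _ = _ := by simp

end MP072e06
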