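import Pool.Agent.Lib.MP_072e06_pr.FlowDefs

/-!
Measurability of adjacency, degree and walk.
-/

open MeasureTheory ENNReal
open scoped Classical

namespace MP072e06

/-- A function of finitely many Boolean coordinates is measurable. -/
theorem measurable_of_dependsOn {ι β : Type*} [MeasurableSpace β] (f : (ι → Bool) → β)
    (S : Finset ι) (hf : DependsOn f (S : Set ι)) : Measurable f := by
  let ext : ((i : S) → Bool) → (ι → Bool) := fun g i => if h : i ∈ S then g ⟨i, h⟩ else false
  have hfac : f = (fun g : ((i : S) → Bool) => f (ext g)) ∘ (fun ω i => ω i) := by
    funext ω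
    simp only [Function.comp]
    apply hf
    intro i hi
    have hi' : i ∈ S := hi
    simp [ext, hi']
  rw [hfac]
  have h1 : Measurable fun g : ((i : S) → Bool) => f (ext g) := Measurable.of_discrete
  have h2 : Measurable (fun (ω : ι → Bool) (i : S) => ω i) :=
    measurable_pi_lambda _ fun i => measurable_pi_apply _
  exact h1.comp h2

variable {d : ℕ}

theorem measurableSet_adj (x y : V d) : MeasurableSet {ω : Env d | (lrpGraph ω).Adj x y} := by
  have : {ω : Env d | (lrpGraph ω).Adj x y} =
      {ω : Env d | x ≠ y ∧ (eDist x y ≤ 1 ∨ ω s(x, y) = true)} := rfl
  rw [this]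
  apply MeasurableSet.inter (MeasurableSet.const _)
  apply MeasurableSet.union (MeasurableSet.const _)
  have h : Measurable fun ω : Env d => ω s(x, y) := measurable_pi_apply _
  exact h (MeasurableSet.singleton true)

theorem measurable_deg (x : V d) : Measurable fun ω : Env d => deg (lrpGraph ω) x := by
  unfold deg
  apply Measurable.tsum
  intro y
  exact Measurable.ite (measurableSet_adj x y) measurable_const measurable_const

theorem measurable_walk (t : ℕ) (x y : V d) :
    Measurable fun ω : Env d => walk (lrpGraph ω) t x y := by
  induction t generalizing x y with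
  | zero => exact measurable_const
  | succ t ih =>
    simp only [walk]
    apply Measurable.div _ (measurable_deg x)
    apply Measurable.tsum
    intro z
    exact Measurable.ite (measurableSet_adj x z) (ih z y) measurable_const

end MP072e06
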