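import Pool.Agent.Lib.MP_072e06_pr.BoxGeo
import Pool.Agent.Lib.MP_072e06_pr.MeasA

/-!
Measurability.  `phi n v` depends only on the edges inside `Box (n+1) v` (finitely many).
-/

open MeasureTheory ENNReal
open scoped Classical

namespace MP072e06

variable {d : ℕ}

private lemma En_congr {S : Finset (V d)} {ω ω' : Env d}
    (h : ∀ e ∈ (S.sym2 : Set (Sym2 (V d))), ω e = ω' e) (f : V d → ℝ) :
    En (lrpGraph ω) S f = En (lrpGraph ω') S f := by
  unfold En
  refine Finset.sum_congr rfl fun x hx => Finset.sum_congr rfl fun y hy => ?_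
  have h1 : ω s(x, y) = ω' s(x, y) := h s(x, y) (Finset.mk_mem_sym2_iff.2 ⟨hx, hy⟩)
  have h2 : (lrpGraph ω).Adj x y ↔ (lrpGraph ω').Adj x y := by
    show (x ≠ y ∧ (eDist x y ≤ 1 ∨ ω s(x, y) = true)) ↔
      (x ≠ y ∧ (eDist x y ≤ 1 ∨ ω' s(x, y) = true))
    rw [h1]
  simp only [h2]

theorem measurable_phi [NeZero d] (n : ℕ) (v : V d) :
    Measurable fun ω : Env d => phi n v (lrpGraph ω) := by
  apply measurable_of_dependsOn _ (Box (n + 1) v).sym2
  intro ω ω' h
  show phi n v (lrpGraph ω) = phi n v (lrpGraph ω')
  unfold phi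
  exact iSup_congr fun f => by rw [En_congr h f]

theorem measurable_tau [NeZero d] (A : ℝ) (n : ℕ) (v : V d) :
    Measurable fun ω : Env d => tau A n v (lrpGraph ω) := by
  induction n generalizing v with
  | zero => exact measurable_const
  | succ n ih =>
    simp only [tau]
    have hdeg : Measurable fun ω : Env d => degS (lrpGraph ω) (Box (n + 1) v) := by
      unfold degS
      exact Finset.measurable_sum _ fun x _ => measurable_deg x
    exact (((ih v).max (ih (nxt n v))).const_mul _).add
      ((hdeg.const_mul _).mul (measurable_phi n v))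

theorem measurable_lev [NeZero d] (A : ℝ) (L : ℝ≥0∞) (K : ℕ) (x : V d) :
    Measurable fun ω : Env d => lev A L K (lrpGraph ω) x := by
  unfold lev
  apply measurable_findGreatest
  intro k _
  exact measurableSet_le (measurable_tau A k (base k x)) measurable_const

end MP072e06
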