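import Pool.Agent.Lib.MP_072e06_pr.Defs

/-!
Single coordinate resampling for `bernProd` (e.g. by `Measure.eq_infinitePi`: the image of
`bern (p e) ⊗ bernProd p` by `(b, ω) ↦ update ω e b` is `bernProd p`).
-/

open MeasureTheory ENNReal

namespace MP072e06

private lemma bern_apply (p : unitInterval) (t : Set Bool) :
    bern p t = ENNReal.ofReal (p : ℝ) * t.indicator 1 true +
      ENNReal.ofReal (1 - (p : ℝ)) * t.indicator 1 false := by
  have ht : MeasurableSet t := MeasurableSet.of_discrete
  simp [bern, Measure.dirac_apply' _ ht]

private lemma measurable_update' {ι : Type} [DecidableEq ι] (e : ι) (b : Bool) :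
    Measurable fun ω : ι → Bool => Function.update ω e b := by
  rw [measurable_pi_iff]
  intro i
  by_cases h : i = e
  · subst h
    simp
  · simp only [Function.update_of_ne h]
    exact measurable_pi_apply i

private lemma map_update_pi {ι : Type} [DecidableEq ι] (p : ι → unitInterval) (e : ι) (b : Bool)
    (s : Finset ι) (t : ι → Set Bool) :
    (bernProd p).map (fun ω : ι → Bool => Function.update ω e b) (Set.pi s t) =
      if e ∈ s then (t e).indicator 1 b * ∏ i ∈ s.erase e, bern (p i) (t i)
      else ∏ i ∈ s, bern (p i) (t i) := by
  have hm : MeasurableSet (Set.pi (s : Set ι) t) :=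
    MeasurableSet.pi s.countable_toSet fun i _ => MeasurableSet.of_discrete
  rw [Measure.map_apply (measurable_update' e b) hm]
  have hpi : ∀ s' : Finset ι, bernProd p (Set.pi s' t) = ∏ i ∈ s', bern (p i) (t i) := by
    intro s'
    unfold bernProd
    exact Measure.infinitePi_pi _ fun i _ => MeasurableSet.of_discrete
  split_ifs with he
  · by_cases hb : b ∈ t e
    · have : (fun ω : ι → Bool => Function.update ω e b) ⁻¹' (Set.pi (s : Set ι) t) =
          Set.pi ((s.erase e : Finset ι) : Set ι) t := by
        ext ω
        simp only [Set.mem_preimage, Set.mem_pi, Finset.mem_coe, Finset.mem_erase]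
        constructor
        · rintro h i ⟨hi1, hi2⟩
          have := h i hi2
          rwa [Function.update_of_ne hi1] at this
        · intro h i hi
          by_cases hie : i = e
          · subst hie; simpa using hb
          · rw [Function.update_of_ne hie]; exact h i ⟨hie, hi⟩
      rw [this, hpi]
      simp [hb]
    · have : (fun ω : ι → Bool => Function.update ω e b) ⁻¹' (Set.pi (s : Set ι) t) = ∅ := by
        ext ω
        simp only [Set.mem_preimage, Set.mem_pi, Finset.mem_coe, Set.mem_empty_iff_false,
          iff_false]
        intro h
        have := h e he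
        simp at this
        exact hb this
      rw [this]
      simp [hb]
  · have : (fun ω : ι → Bool => Function.update ω e b) ⁻¹' (Set.pi (s : Set ι) t) =
        Set.pi (s : Set ι) t := by
      ext ω
      simp only [Set.mem_preimage, Set.mem_pi, Finset.mem_coe]
      constructor
      · intro h i hi
        have hie : i ≠ e := by rintro rfl; exact he hi
        have := h i hi
        rwa [Function.update_of_ne hie] at this
      · intro h i hi
        have hie : i ≠ e := by rintro rfl; exact he hi
        rw [Function.update_of_ne hie]
        exact h i hi
    rw [this, hpi]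

private lemma bernProd_eq {ι : Type} [DecidableEq ι] (p : ι → unitInterval) (e : ι) :
    ENNReal.ofReal (p e : ℝ) • (bernProd p).map (fun ω : ι → Bool => Function.update ω e true) +
      ENNReal.ofReal (1 - (p e : ℝ)) •
        (bernProd p).map (fun ω : ι → Bool => Function.update ω e false) = bernProd p := by
  conv_rhs => unfold bernProd
  apply Measure.eq_infinitePi
  intro s t _
  simp only [Measure.coe_add, Measure.coe_smul, Pi.add_apply, Pi.smul_apply, smul_eq_mul]
  rw [map_update_pi, map_update_pi]
  split_ifs with he
  · rw [← Finset.mul_prod_erase s _ he, bern_apply (p e) (t e)]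
    ring
  · rw [← add_mul, ← ENNReal.ofReal_add (p e).2.1 (by linarith [(p e).2.2])]
    simp

/-- Resampling of one coordinate of the product Bernoulli measure. -/
theorem lintegral_resample {ι : Type} [DecidableEq ι] (p : ι → unitInterval) (e : ι)
    (f : (ι → Bool) → ℝ≥0∞) (hf : Measurable f) :
    ∫⁻ ω, f ω ∂(bernProd p) =
      ∫⁻ ω, (ENNReal.ofReal (p e : ℝ) * f (Function.update ω e true) +
        ENNReal.ofReal (1 - (p e : ℝ)) * f (Function.update ω e false)) ∂(bernProd p) := by
  conv_lhs => rw [← bernProd_eq p e]
  rw [lintegral_add_measure, lintegral_smul_measure, lintegral_smul_measure,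
    lintegral_map hf (measurable_update' e true), lintegral_map hf (measurable_update' e false),
    lintegral_add_left, lintegral_const_mul, lintegral_const_mul]
  · rfl
  · exact hf.comp (measurable_update' e false)
  · exact hf.comp (measurable_update' e true)
  · exact (hf.comp (measurable_update' e true)).const_mul _

/-- Probability that a coordinate is open. -/
theorem bernProd_open {ι : Type} (p : ι → unitInterval) (e : ι) :
    bernProd p {ω | ω e = true} = ENNReal.ofReal (p e : ℝ) := by
  have h := Measure.infinitePi_pi (μ := fun i => bern (p i)) (s := {e}) (t := fun _ => {true})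
    (fun i _ => MeasurableSet.of_discrete)
  have h2 : Set.pi (({e} : Finset ι) : Set ι) (fun _ => ({true} : Set Bool)) =
      {ω | ω e = true} := by
    ext ω
    simp
  rw [h2] at h
  unfold bernProd
  rw [h]
  simp [bern_apply]

end MP072e06
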