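import Pool.Agent.Lib.MP_072e06_pr.FlowDefs

/-!
Covariance of the walk under shifts.
-/

open MeasureTheory ENNReal
open scoped Classical

namespace MP072e06

variable {d : ℕ}

private lemma eDist_add' (x y u : V d) : eDist (x + u) (y + u) = eDist x y := by
  unfold eDist
  congr 1
  refine Finset.sum_congr rfl fun i _ => ?_
  simp only [Pi.add_apply]
  push_cast
  ring

private lemma add_inj' (x y u : V d) : x + u = y + u ↔ x = y := add_left_inj u

theorem lrpGraph_shiftEnv (u : V d) (ω : Env d) :
    lrpGraph (shiftEnv u ω) = shiftG u (lrpGraph ω) := by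
  ext x y
  rw [shiftG_adj]
  show (x ≠ y ∧ (eDist x y ≤ 1 ∨ shiftEnv u ω s(x, y) = true)) ↔
    (x + u ≠ y + u ∧ (eDist (x + u) (y + u) ≤ 1 ∨ ω s(x + u, y + u) = true))
  rw [eDist_add', ne_eq, ne_eq, add_inj']
  rfl

theorem deg_shiftG (u : V d) (G : SimpleGraph (V d)) (x : V d) :
    deg (shiftG u G) x = deg G (x + u) := by
  unfold deg
  simp only [shiftG_adj]
  exact (Equiv.addRight u).tsum_eq (fun y => if G.Adj (x + u) y then (1 : ℝ≥0∞) else 0)

theorem walk_shiftG (u : V d) (G : SimpleGraph (V d)) (t : ℕ) (x y : V d) :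
    walk (shiftG u G) t x y = walk G t (x + u) (y + u) := by
  induction t generalizing x with
  | zero =>
    show (if x = y then (1 : ℝ≥0∞) else 0) = if x + u = y + u then 1 else 0
    simp only [add_inj']
  | succ t ih =>
    show (∑' z, if (shiftG u G).Adj x z then walk (shiftG u G) t z y else 0) / deg (shiftG u G) x
      = (∑' z, if G.Adj (x + u) z then walk G t z (y + u) else 0) / deg G (x + u)
    rw [deg_shiftG]
    congr 1
    simp only [shiftG_adj, ih]
    exact (Equiv.addRight u).tsum_eq
      (fun z => if G.Adj (x + u) z then walk G t z (y + u) else (0 : ℝ≥0∞))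

end MP072e06
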