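import Pool.Agent.Lib.MP_072e06_pr.BaseGeo
import Pool.Agent.Lib.MP_072e06_pr.ShiftA

/-!
Covariance of `phi`, `tau`, `lev` under shifts of the graph.
-/

open MeasureTheory ENNReal
open scoped Classical

namespace MP072e06

variable {d : ℕ}

private lemma sum_Box_add (n : ℕ) (v u : V d) {M : Type*} [AddCommMonoid M] (f : V d → M) :
    ∑ x ∈ Box n (v + u), f x = ∑ x ∈ Box n v, f (x + u) := by
  refine (Finset.sum_bij (fun x _ => x + u) ?_ ?_ ?_ ?_).symm
  · intro x hx
    exact add_mem_Box.2 hx
  · intro x _ y _ h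
    exact (add_left_inj u).1 h
  · intro y hy
    refine ⟨y - u, ?_, sub_add_cancel y u⟩
    rw [← add_mem_Box (u := u), sub_add_cancel]
    exact hy
  · intro x _
    rfl

private lemma card_Box_add (n : ℕ) (v u : V d) : (Box n (v + u)).card = (Box n v).card := by
  rw [Finset.card_eq_sum_ones, Finset.card_eq_sum_ones, sum_Box_add]

private lemma avg_Box_add (n : ℕ) (v u : V d) (h : V d → ℝ) :
    avg (Box n (v + u)) h = avg (Box n v) (fun x => h (x + u)) := by
  unfold avg
  rw [sum_Box_add, card_Box_add]

private lemma par_add (x u : V d) : par (x + u) = par x + par u := by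
  unfold par
  rw [← Finset.sum_add_distrib]
  rfl

private lemma En_Box_add (G : SimpleGraph (V d)) (n : ℕ) (v u : V d) (h : V d → ℝ) :
    En G (Box n (v + u)) h = En (shiftG u G) (Box n v) (fun x => h (x + u)) := by
  unfold En
  rw [sum_Box_add]
  refine Finset.sum_congr rfl fun x _ => ?_
  rw [sum_Box_add]
  refine Finset.sum_congr rfl fun y _ => ?_
  have h1 : par (x + u) - par (y + u) = par x - par y := by
    rw [par_add, par_add]
    ring
  rw [h1, shiftG_adj]

theorem phi_shiftG [NeZero d] (n : ℕ) (v u : V d) (G : SimpleGraph (V d)) :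
    phi n v (shiftG u G) = phi n (v + u) G := by
  unfold phi
  have hs : Function.Surjective (fun (h : V d → ℝ) => fun x : V d => h (x + u)) := by
    intro g
    refine ⟨fun x => g (x - u), ?_⟩
    funext x
    simp only [add_sub_cancel_right]
  rw [← hs.iSup_comp]
  refine iSup_congr fun h => ?_
  rw [nxt_add, avg_Box_add, avg_Box_add, En_Box_add]

private lemma degS_shift (G : SimpleGraph (V d)) (n : ℕ) (v u : V d) :
    degS (shiftG u G) (Box n v) = degS G (Box n (v + u)) := by
  unfold degS
  rw [sum_Box_add]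
  exact Finset.sum_congr rfl fun x _ => deg_shiftG u G x

theorem tau_shiftG [NeZero d] (A : ℝ) (n : ℕ) (v u : V d) (G : SimpleGraph (V d)) :
    tau A n v (shiftG u G) = tau A n (v + u) G := by
  induction n generalizing v with
  | zero => rfl
  | succ n ih =>
    show ENNReal.ofReal A * max (tau A n v (shiftG u G)) (tau A n (nxt n v) (shiftG u G)) +
      ENNReal.ofReal (A / (A - 1)) * degS (shiftG u G) (Box (n + 1) v) * phi n v (shiftG u G) =
      ENNReal.ofReal A * max (tau A n (v + u) G) (tau A n (nxt n (v + u)) G) +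
      ENNReal.ofReal (A / (A - 1)) * degS G (Box (n + 1) (v + u)) * phi n (v + u) G
    rw [ih, ih, degS_shift, phi_shiftG, nxt_add]

private lemma findGreatest_congr' (K : ℕ) (P Q : ℕ → Prop) [DecidablePred P] [DecidablePred Q]
    (h : ∀ n ≤ K, (P n ↔ Q n)) : Nat.findGreatest P K = Nat.findGreatest Q K := by
  induction K with
  | zero => rfl
  | succ K ih =>
    rw [Nat.findGreatest_succ, Nat.findGreatest_succ, ih fun n hn => h n (by omega)]
    by_cases hp : P (K + 1)
    · rw [if_pos hp, if_pos ((h (K + 1) le_rfl).1 hp)]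
    · rw [if_neg hp, if_neg fun hq => hp ((h (K + 1) le_rfl).2 hq)]

theorem lev_shiftG [NeZero d] (A : ℝ) (L : ℝ≥0∞) (K : ℕ) (G : SimpleGraph (V d)) (u : V d)
    (hu : ∀ i, (side d K i : ℤ) ∣ u i) (x : V d) :
    lev A L K (shiftG u G) x = lev A L K G (x + u) := by
  unfold lev
  refine findGreatest_congr' K _ _ fun n hn => ?_
  rw [tau_shiftG, base_add hn hu]

end MP072e06
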