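import Pool.Agent.Lib.MP_072e06_pr.Defs

/-!
Shift invariance of the law of the environment.
-/

open MeasureTheory ENNReal
open scoped Classical

namespace MP072e06

private lemma edgeProb_shift {d : ℕ} (s : ℝ) (u x y : V d) :
    edgeProb d s (x + u) (y + u) = edgeProb d s x y := by
  have : eDist (x + u) (y + u) = eDist x y := by
    unfold eDist
    congr 1
    refine Finset.sum_congr rfl fun i _ => ?_
    simp
  unfold edgeProb
  rw [this]

private def shiftE {d : ℕ} (u : V d) : Sym2 (V d) ≃ Sym2 (V d) :=
  { toFun := Sym2.map (· + u)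
    invFun := Sym2.map (· - u)
    left_inv := fun e => by
      induction e using Sym2.ind with
      | _ x y => simp
    right_inv := fun e => by
      induction e using Sym2.ind with
      | _ x y => simp }

private lemma edgeProb2_shift {d : ℕ} (s : ℝ) (u : V d) (e : Sym2 (V d)) :
    edgeProb2 d s (shiftE u e) = edgeProb2 d s e := by
  induction e using Sym2.ind with
  | _ x y =>
    apply Subtype.ext
    show edgeProb d s (x + u) (y + u) = edgeProb d s x y
    exact edgeProb_shift s u x y

/-- Shift invariance of the law (no measurability of `f` is needed: the shift is a measurable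
equivalence; e.g. `Measure.infinitePi_map_piCongrLeft`). -/
theorem lintegral_shiftEnv {d : ℕ} (s : ℝ) (u : V d) (f : Env d → ℝ≥0∞) :
    ∫⁻ ω, f (shiftEnv u ω) ∂(LRP d s) = ∫⁻ ω, f ω ∂(LRP d s) := by
  have h := Measure.infinitePi_map_piCongrLeft (μ := fun e => bern (edgeProb2 d s e))
    (shiftE u).symm
  have h2 : (fun e => bern (edgeProb2 d s ((shiftE u).symm e))) =
      fun e => bern (edgeProb2 d s e) := by
    funext e
    have := edgeProb2_shift s u ((shiftE u).symm e)
    rw [Equiv.apply_symm_apply] at this
    rw [this]
  rw [h2] at h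
  have h3 : ∀ ω : Env d, (MeasurableEquiv.piCongrLeft (fun _ : Sym2 (V d) => Bool)
      (shiftE u).symm) ω = shiftEnv u ω := by
    intro ω
    funext e
    have h4 := Equiv.piCongrLeft_apply_apply (P := fun _ : Sym2 (V d) => Bool)
      (shiftE u).symm ω (shiftE u e)
    rw [Equiv.symm_apply_apply] at h4
    exact h4
  unfold LRP bernProd
  conv_rhs => rw [← h]
  rw [lintegral_map_equiv]
  simp only [h3]

end MP072e06
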