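import Pool.Agent.Lib.MP_072e06_pr.EdgeProb
import Pool.Agent.Lib.MP_072e06_pr.EdgeSum
import Pool.Agent.Lib.MP_072e06_pr.Resample
import Pool.Agent.Lib.MP_072e06_pr.ShiftMeasure
import Pool.Agent.Lib.MP_072e06_pr.Meas
import Pool.Agent.Lib.MP_072e06_pr.Shift

/-!
All moments of the degree are finite.  With `D = ∑_y 1[0 ~ y]`:
`E D^(m+1) = ∑_y E[1[0~y] D^m] ≤ ∑_y p(0,y) E (1+D)^m` (resample the edge `{0,y}`; for the
nearest-neighbour edges `p = 1`), and induction on `m`.
-/

open MeasureTheory ENNReal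
open scoped Classical

namespace MP072e06

lemma Degree_update_le {d : ℕ} (y : V d) (b : Bool) (ω : Env d) :
    deg (lrpGraph (Function.update ω s(0, y) b)) (0 : V d) ≤ 1 + deg (lrpGraph ω) 0 := by
  unfold deg
  have h1 : (1 : ℝ≥0∞) = ∑' z : V d, if z = y then 1 else 0 := by
    rw [tsum_ite_eq]
  rw [h1, ← ENNReal.tsum_add]
  refine ENNReal.tsum_le_tsum fun z => ?_
  by_cases hz : z = y
  · rw [if_pos hz]
    split_ifs <;> simp
  · rw [if_neg hz, zero_add]
    have : (lrpGraph (Function.update ω s(0, y) b)).Adj 0 z ↔ (lrpGraph ω).Adj 0 z := by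
      show (0 ≠ z ∧ (eDist 0 z ≤ 1 ∨ Function.update ω s(0, y) b s(0, z) = true)) ↔
        (0 ≠ z ∧ (eDist 0 z ≤ 1 ∨ ω s(0, z) = true))
      rw [Function.update_of_ne]
      intro h
      rw [Sym2.eq_iff] at h
      rcases h with h | h
      · exact hz h.2
      · apply hz
        rw [h.2, h.1]
    simp only [this]
    exact le_rfl

lemma Degree_step {d : ℕ} (s : ℝ) (m : ℕ) (y : V d) :
    ∫⁻ ω, (if (lrpGraph ω).Adj (0 : V d) y then 1 else 0) * deg (lrpGraph ω) (0 : V d) ^ m
      ∂(LRP d s) ≤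
    ENNReal.ofReal (edgeProb d s 0 y) *
      ∫⁻ ω, (1 + deg (lrpGraph ω) (0 : V d)) ^ m ∂(LRP d s) := by
  by_cases h0 : y = 0
  · subst h0
    have : ∀ ω : Env d, (if (lrpGraph ω).Adj (0 : V d) 0 then (1 : ℝ≥0∞) else 0) *
        deg (lrpGraph ω) (0 : V d) ^ m = 0 := by
      intro ω
      rw [if_neg (SimpleGraph.irrefl _), zero_mul]
    simp only [this, lintegral_zero]
    exact bot_le
  by_cases h1 : eDist 0 y ≤ 1
  · have : edgeProb d s 0 y = 1 := by unfold edgeProb; rw [if_pos h1]
    rw [this, ENNReal.ofReal_one, one_mul]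
    refine lintegral_mono fun ω => ?_
    calc (if (lrpGraph ω).Adj (0 : V d) y then (1 : ℝ≥0∞) else 0) * deg (lrpGraph ω) (0 : V d) ^ m
        ≤ 1 * deg (lrpGraph ω) (0 : V d) ^ m := by
          gcongr
          split_ifs <;> simp
      _ ≤ _ := by
          rw [one_mul]
          gcongr
          exact le_add_self
  · have hm : Measurable fun ω : Env d =>
        (if (lrpGraph ω).Adj (0 : V d) y then (1 : ℝ≥0∞) else 0) *
          deg (lrpGraph ω) (0 : V d) ^ m :=
      (Measurable.ite (measurableSet_adj 0 y) measurable_const measurable_const).mul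
        ((measurable_deg 0).pow_const m)
    have hr := lintegral_resample (edgeProb2 d s) s(0, y) _ hm
    unfold LRP
    rw [hr, ← lintegral_const_mul _ (by
      exact ((measurable_const.add (measurable_deg 0)).pow_const m))]
    refine lintegral_mono fun ω => ?_
    have hfalse : ¬ (lrpGraph (Function.update ω s(0, y) false)).Adj (0 : V d) y := by
      show ¬ ((0 : V d) ≠ y ∧ (eDist 0 y ≤ 1 ∨ Function.update ω s(0, y) false s(0, y) = true))
      rw [Function.update_self]
      simp [h1]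
    simp only [if_neg hfalse, zero_mul, mul_zero, add_zero, edgeProb2_mk]
    gcongr
    calc (if (lrpGraph (Function.update ω s(0, y) true)).Adj (0 : V d) y then (1 : ℝ≥0∞) else 0) *
          deg (lrpGraph (Function.update ω s(0, y) true)) (0 : V d) ^ m
        ≤ 1 * deg (lrpGraph (Function.update ω s(0, y) true)) (0 : V d) ^ m := by
          gcongr
          split_ifs <;> simp
      _ ≤ _ := by
          rw [one_mul]
          gcongr
          exact Degree_update_le y true ω

lemma Degree_pow_le (D : ℝ≥0∞) (m : ℕ) : (1 + D) ^ m ≤ 2 ^ m * (1 + D ^ m) := by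
  rcases le_total D 1 with h | h
  · calc (1 + D) ^ m ≤ (1 + 1) ^ m := by gcongr
      _ = 2 ^ m * 1 := by norm_num
      _ ≤ _ := by
        gcongr
        exact le_self_add
  · calc (1 + D) ^ m ≤ (D + D) ^ m := by gcongr
      _ = 2 ^ m * D ^ m := by rw [← two_mul, mul_pow]
      _ ≤ _ := by
        gcongr
        exact le_add_self

theorem deg_moment (d : ℕ) [NeZero d] (s : ℝ) (hs : (d : ℝ) < s) (m : ℕ) :
    ∫⁻ ω, deg (lrpGraph ω) (0 : V d) ^ m ∂(LRP d s) < ∞ := by
  induction m with
  | zero => simp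
  | succ m ih =>
    have hsum : ∑' y : V d, ENNReal.ofReal (edgeProb d s 0 y) < ∞ :=
      (edgeProb_summable d s hs).tsum_ofReal_lt_top
    have h1 : ∫⁻ ω, (1 + deg (lrpGraph ω) (0 : V d)) ^ m ∂(LRP d s) < ∞ := by
      refine lt_of_le_of_lt (lintegral_mono fun ω => Degree_pow_le _ m) ?_
      have hmm : Measurable fun ω : Env d => 1 + deg (lrpGraph ω) (0 : V d) ^ m :=
        measurable_const.add ((measurable_deg 0).pow_const m)
      rw [lintegral_const_mul _ hmm, lintegral_add_left measurable_const]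
      refine ENNReal.mul_lt_top (by simp) (ENNReal.add_lt_top.2 ⟨by simp, ih⟩)
    have h2 : ∫⁻ ω, deg (lrpGraph ω) (0 : V d) ^ (m + 1) ∂(LRP d s) =
        ∑' y : V d, ∫⁻ ω, (if (lrpGraph ω).Adj (0 : V d) y then 1 else 0) *
          deg (lrpGraph ω) (0 : V d) ^ m ∂(LRP d s) := by
      have hmm : ∀ y : V d, AEMeasurable (fun ω : Env d =>
          (if (lrpGraph ω).Adj (0 : V d) y then (1 : ℝ≥0∞) else 0) *
            deg (lrpGraph ω) (0 : V d) ^ m) (LRP d s) := fun y =>
        ((Measurable.ite (measurableSet_adj 0 y) measurable_const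
          measurable_const).mul ((measurable_deg 0).pow_const m)).aemeasurable
      rw [← lintegral_tsum hmm]
      refine lintegral_congr fun ω => ?_
      rw [ENNReal.tsum_mul_right, pow_succ, mul_comm]
      rfl
    rw [h2]
    refine lt_of_le_of_lt (ENNReal.tsum_le_tsum fun y => Degree_step s m y) ?_
    rw [ENNReal.tsum_mul_right]
    exact ENNReal.mul_lt_top hsum h1

theorem ae_LF (d : ℕ) [NeZero d] (s : ℝ) (hs : (d : ℝ) < s) :
    ∀ᵐ ω ∂(LRP d s), LF (lrpGraph ω) := by
  unfold LF
  rw [ae_all_iff]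
  intro x
  have h1 : ∫⁻ ω, deg (lrpGraph ω) x ∂(LRP d s) < ∞ := by
    have h2 : ∀ ω : Env d, deg (lrpGraph ω) x = deg (lrpGraph (shiftEnv x ω)) 0 := by
      intro ω
      rw [lrpGraph_shiftEnv, deg_shiftG, zero_add]
    simp only [h2]
    rw [lintegral_shiftEnv s x (fun ω => deg (lrpGraph ω) 0)]
    have := deg_moment d s hs 1
    simpa using this
  exact (ae_lt_top (measurable_deg x) h1.ne).mono fun ω h => h.ne

end MP072e06
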