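import Pool.Agent.Lib.MP_072e06_pr.EnergyId
import Pool.Agent.Lib.MP_072e06_pr.CellEnergy

/-!
The deterministic inequality (from `energy_identity`, `uu_sq`, `cell_energy`).
-/

open MeasureTheory ENNReal
open scoped Classical

namespace MP072e06

variable {d : ℕ} [NeZero d] {G : SimpleGraph (V d)}

theorem det_ineq (hNN : NN G) (hLF : LF G)
    (cl : V d → Finset (V d)) (hself : ∀ x, x ∈ cl x) (hpart : ∀ x, ∀ y ∈ cl x, cl y = cl x)
    (Λ : ℝ) (hΛ : 0 < Λ)
    (hPI : ∀ x, ∀ h : V d → ℝ,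
      ∑ y ∈ cl x, (deg G y).toReal * (h y - avg (cl x) h) ^ 2 ≤ Λ * En G (cl x) h)
    (a : V d) (t : ℕ) :
    ENNReal.ofReal (1 / (2 * Λ)) * walk G (2 * t) a a + walk G (2 * (t + 1)) a a ≤
      walk G (2 * t) a a +
        ENNReal.ofReal (1 / Λ) * ∑' x, deg G x * walk G t x a / ((cl x).card : ℝ≥0∞) := by
  have hwt : ∀ t x y, walk G t x y ≠ ∞ := fun t x y =>
    ne_top_of_le_ne_top ENNReal.one_ne_top (walk_le_one hNN t x y)
  have hd0 : deg G a ≠ 0 := by
    have := two_le_deg hNN a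
    intro h
    rw [h] at this
    exact absurd this (by norm_num)
  have hda : 0 < (deg G a).toReal := ENNReal.toReal_pos hd0 (hLF a)
  have hE := energy_identity hNN hLF a t
  have hC := cell_energy hNN hLF (uu G a t) (uu G a (t + 1)) (uu_nonneg a t) (uu_nonneg a (t + 1))
    (uu_finite hLF a t) (uu_finite hLF a (t + 1)) (uu_mass hNN hLF a t).le
    (uu_mass hNN hLF a (t + 1)).le cl hself hpart Λ hΛ hPI
  have hS := uu_sq hNN hLF a t
  -- the last sum
  have hterm : ∀ x, (deg G a).toReal * ((deg G x).toReal * uu G a t x / (cl x).card) =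
      (deg G x * walk G t x a / ((cl x).card : ℝ≥0∞)).toReal := by
    intro x
    rw [ENNReal.toReal_div, ENNReal.toReal_mul, ENNReal.toReal_natCast, uu, ENNReal.toReal_div]
    field_simp
  have hcard : ∀ x, ((cl x).card : ℝ≥0∞) ≠ 0 := fun x => by
    have : 0 < (cl x).card := Finset.card_pos.2 ⟨x, hself x⟩
    exact_mod_cast this.ne'
  have htop : ∀ x, deg G x * walk G t x a / ((cl x).card : ℝ≥0∞) ≠ ∞ := fun x =>
    ENNReal.div_ne_top (ENNReal.mul_ne_top (hLF x) (hwt t x a)) (hcard x)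
  have hT : (deg G a).toReal * ∑' x, (deg G x).toReal * uu G a t x / (cl x).card =
      (∑' x, deg G x * walk G t x a / ((cl x).card : ℝ≥0∞)).toReal := by
    rw [← tsum_mul_left, ENNReal.tsum_toReal_eq htop]
    exact tsum_congr hterm
  have hTfin : ∑' x, deg G x * walk G t x a / ((cl x).card : ℝ≥0∞) ≠ ∞ := by
    have hfin := walk_finite (G := G) hLF t a
    rw [tsum_eq_sum (s := hfin.toFinset)]
    · exact ENNReal.sum_ne_top.2 fun x _ => htop x
    · intro x hx
      have : walk G t x a = 0 := by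
        by_contra h
        exact hx (by simpa using h)
      rw [this, mul_zero, ENNReal.zero_div]
  set T : ℝ≥0∞ := ∑' x, deg G x * walk G t x a / ((cl x).card : ℝ≥0∞) with hTdef
  set E : ℝ := ∑' z, ∑' x, (if G.Adj z x then (uu G a t x - uu G a (t + 1) z) ^ 2 else 0) with hEd
  set U : ℝ := ∑' x, (deg G x).toReal * uu G a t x ^ 2 with hU
  set R : ℝ := ∑' x, (deg G x).toReal * uu G a t x / (cl x).card with hR
  -- real inequality
  have hreal : 1 / (2 * Λ) * (walk G (2 * t) a a).toReal + (walk G (2 * (t + 1)) a a).toReal ≤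
      (walk G (2 * t) a a).toReal + 1 / Λ * T.toReal := by
    rw [← hT]
    have h1 : (deg G a).toReal * ((U - 2 * R) / (2 * Λ)) ≤ (deg G a).toReal * E :=
      mul_le_mul_of_nonneg_left hC hda.le
    rw [← hE] at h1
    have h2 : (deg G a).toReal * ((U - 2 * R) / (2 * Λ)) =
        1 / (2 * Λ) * (walk G (2 * t) a a).toReal - 1 / Λ * ((deg G a).toReal * R) := by
      rw [hS]
      field_simp
    rw [h2] at h1
    linarith
  have hL1 : ENNReal.ofReal (1 / (2 * Λ)) * walk G (2 * t) a a + walk G (2 * (t + 1)) a a ≠ ∞ :=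
    ENNReal.add_ne_top.2 ⟨ENNReal.mul_ne_top ENNReal.ofReal_ne_top (hwt _ _ _), hwt _ _ _⟩
  have hL2 : walk G (2 * t) a a + ENNReal.ofReal (1 / Λ) * T ≠ ∞ :=
    ENNReal.add_ne_top.2 ⟨hwt _ _ _, ENNReal.mul_ne_top ENNReal.ofReal_ne_top hTfin⟩
  rw [← ENNReal.toReal_le_toReal hL1 hL2, ENNReal.toReal_add
    (ENNReal.mul_ne_top ENNReal.ofReal_ne_top (hwt _ _ _)) (hwt _ _ _), ENNReal.toReal_add
    (hwt _ _ _) (ENNReal.mul_ne_top ENNReal.ofReal_ne_top hTfin), ENNReal.toReal_mul,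
    ENNReal.toReal_mul, ENNReal.toReal_ofReal (by positivity), ENNReal.toReal_ofReal
    (by positivity)]
  exact hreal

end MP072e06
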