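import Pool.Agent.Lib.MP_072e06_pr.FlowDefs

/-!
Lower bound for the edge probabilities: `1 - exp(-u) ≥ (1 - exp(-1)) u` for `u ∈ [0,1]`, and
`eDist ≤ √d R`; if `eDist ≤ 1` the probability is `1`.
-/

open MeasureTheory ENNReal
open scoped Classical

namespace MP072e06

/-- Concavity: `1 - exp(-u) ≥ (1 - exp(-1)) u` on `[0,1]`. -/
lemma EdgeProb_concave {u : ℝ} (h0 : 0 ≤ u) (h1 : u ≤ 1) :
    (1 - Real.exp (-1)) * u ≤ 1 - Real.exp (-u) := by
  have hc := convexOn_exp.2 (Set.mem_univ (-1 : ℝ)) (Set.mem_univ (0 : ℝ)) h0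
    (by linarith : (0 : ℝ) ≤ 1 - u) (by ring)
  simp only [smul_eq_mul, mul_neg, mul_one, mul_zero, add_zero, Real.exp_zero] at hc
  linarith

theorem edgeProb_lower (d : ℕ) [NeZero d] (s : ℝ) (hs : 0 < s) :
    ∃ κ : ℝ, 0 < κ ∧ ∀ (R : ℝ) (x y : V d), 1 ≤ R → (∀ i, |((x i : ℝ) - (y i : ℝ))| ≤ R) →
      κ * R ^ (-s) ≤ edgeProb d s x y := by
  have hd : (0 : ℝ) < d := by exact_mod_cast Nat.pos_of_ne_zero (NeZero.ne d)
  have hd1 : (1 : ℝ) ≤ d := by exact_mod_cast Nat.pos_of_ne_zero (NeZero.ne d)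
  have he : 0 < 1 - Real.exp (-1) := by
    have : Real.exp (-1) < 1 := Real.exp_lt_one_iff.2 (by norm_num)
    linarith
  have he1 : 1 - Real.exp (-1) ≤ 1 := by
    have := Real.exp_pos (-1)
    linarith
  have hsq : 1 ≤ Real.sqrt d := by
    rw [show (1 : ℝ) = Real.sqrt 1 by simp]
    exact Real.sqrt_le_sqrt hd1
  refine ⟨(1 - Real.exp (-1)) * (Real.sqrt d) ^ (-s), by positivity, ?_⟩
  intro R x y hR hxy
  have hR0 : 0 < R := by linarith
  unfold edgeProb
  split_ifs with h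
  · have h1 : (Real.sqrt d) ^ (-s) ≤ 1 := Real.rpow_le_one_of_one_le_of_nonpos hsq (by linarith)
    have h2 : R ^ (-s) ≤ 1 := Real.rpow_le_one_of_one_le_of_nonpos hR (by linarith)
    have h3 : 0 ≤ (Real.sqrt d) ^ (-s) := by positivity
    have h4 : 0 ≤ R ^ (-s) := by positivity
    calc (1 - Real.exp (-1)) * (Real.sqrt d) ^ (-s) * R ^ (-s) ≤ 1 * 1 * 1 := by
          gcongr
      _ = 1 := by norm_num
  · have hD : eDist x y ≤ Real.sqrt d * R := by
      unfold eDist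
      rw [show Real.sqrt d * R = Real.sqrt (d * R ^ 2) by
        rw [Real.sqrt_mul hd.le, Real.sqrt_sq hR0.le]]
      apply Real.sqrt_le_sqrt
      calc ∑ i, ((x i : ℝ) - (y i : ℝ)) ^ 2 ≤ ∑ _i : Fin d, R ^ 2 := by
            refine Finset.sum_le_sum fun i _ => ?_
            exact sq_le_sq' (abs_le.1 (hxy i)).1 (abs_le.1 (hxy i)).2
        _ = d * R ^ 2 := by simp
    push Not at h
    have hD0 : 0 < eDist x y := by linarith
    have hu1 : eDist x y ^ (-s) ≤ 1 := Real.rpow_le_one_of_one_le_of_nonpos h.le (by linarith)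
    have hu0 : 0 ≤ eDist x y ^ (-s) := by positivity
    have hlow : (Real.sqrt d) ^ (-s) * R ^ (-s) ≤ eDist x y ^ (-s) := by
      rw [← Real.mul_rpow (by positivity) hR0.le]
      exact Real.rpow_le_rpow_of_nonpos hD0 hD (by linarith)
    calc (1 - Real.exp (-1)) * (Real.sqrt d) ^ (-s) * R ^ (-s)
        = (1 - Real.exp (-1)) * ((Real.sqrt d) ^ (-s) * R ^ (-s)) := by ring
      _ ≤ (1 - Real.exp (-1)) * eDist x y ^ (-s) := mul_le_mul_of_nonneg_left hlow he.le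
      _ ≤ _ := EdgeProb_concave hu0 hu1

end MP072e06
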