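import Pool.Agent.Lib.MP_072e06_pr.Walk

/-!
The energy identity: with `u_t(x) = P_x(X_t = a)/deg a` one has `u_{t+1}(z)` = average of `u_t`
over the neighbours of `z`, hence
`K_{2t}(a,a) - K_{2t+2}(a,a) = deg a * ∑_z ∑_{x ~ z} (u_t(x) - u_{t+1}(z))^2`.
-/

open MeasureTheory ENNReal
open scoped Classical

namespace MP072e06

variable {d : ℕ} [NeZero d] {G : SimpleGraph (V d)}

/-- `uu G a t x = P_x(X_t = a)/deg a` as a real number (equal to `P_a(X_t = x)/deg x`). -/
noncomputable def uu (G : SimpleGraph (V d)) (a : V d) (t : ℕ) (x : V d) : ℝ :=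
  (walk G t x a / deg G a).toReal

theorem uu_nonneg (a : V d) (t : ℕ) (x : V d) : 0 ≤ uu G a t x := ENNReal.toReal_nonneg

theorem uu_finite (hLF : LF G) (a : V d) (t : ℕ) : (Function.support (uu G a t)).Finite := by
  refine (walk_finite hLF t a).subset fun x hx => ?_
  rw [Function.mem_support] at hx
  intro h
  exact hx (by simp only [uu]; rw [h, ENNReal.zero_div]; rfl)

private lemma eid_deg_ne_zero (hNN : NN G) (x : V d) : deg G x ≠ 0 := by
  have := two_le_deg hNN x
  intro h
  rw [h] at this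
  exact absurd this (by norm_num)

private lemma eid_walk_ne_top (hNN : NN G) (t : ℕ) (x y : V d) : walk G t x y ≠ ∞ :=
  ne_top_of_le_ne_top ENNReal.one_ne_top (walk_le_one hNN t x y)

private lemma eid_uu (a : V d) (t : ℕ) (x : V d) :
    uu G a t x = (walk G t x a).toReal / (deg G a).toReal := by
  rw [uu, ENNReal.toReal_div]

theorem uu_mass (hNN : NN G) (hLF : LF G) (a : V d) (t : ℕ) :
    ∑' x, (deg G x).toReal * uu G a t x = 1 := by
  have h0 : (deg G a).toReal ≠ 0 :=
    (ENNReal.toReal_pos (eid_deg_ne_zero hNN a) (hLF a)).ne'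
  have h1 : ∀ x, (deg G x).toReal * uu G a t x = (walk G t a x).toReal := by
    intro x
    have h := walk_rev hNN hLF t x a
    have h' : (deg G x).toReal * (walk G t x a).toReal =
        (deg G a).toReal * (walk G t a x).toReal := by
      rw [← ENNReal.toReal_mul, ← ENNReal.toReal_mul, h]
    rw [eid_uu, mul_div_assoc', h']
    field_simp
  simp only [h1]
  rw [← ENNReal.tsum_toReal_eq fun x => eid_walk_ne_top hNN t a x, walk_sum hNN hLF t a]
  rfl

theorem uu_sq (hNN : NN G) (hLF : LF G) (a : V d) (t : ℕ) :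
    (walk G (2 * t) a a).toReal = (deg G a).toReal * ∑' x, (deg G x).toReal * uu G a t x ^ 2 := by
  have h0 : (deg G a).toReal ≠ 0 :=
    (ENNReal.toReal_pos (eid_deg_ne_zero hNN a) (hLF a)).ne'
  have h1 : ∀ x, (deg G a).toReal * ((deg G x).toReal * uu G a t x ^ 2) =
      (walk G t a x * walk G t x a).toReal := by
    intro x
    have h := walk_rev hNN hLF t x a
    have h' : (deg G x).toReal * (walk G t x a).toReal =
        (deg G a).toReal * (walk G t a x).toReal := by
      rw [← ENNReal.toReal_mul, ← ENNReal.toReal_mul, h]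
    rw [eid_uu, ENNReal.toReal_mul]
    field_simp
    linear_combination (walk G t x a).toReal * h'
  rw [← tsum_mul_left]
  simp only [h1]
  rw [← ENNReal.tsum_toReal_eq fun x =>
    ENNReal.mul_ne_top (eid_walk_ne_top hNN t a x) (eid_walk_ne_top hNN t x a),
    ← walk_add hNN hLF t t a a, two_mul]

theorem energy_identity (hNN : NN G) (hLF : LF G) (a : V d) (t : ℕ) :
    (walk G (2 * t) a a).toReal - (walk G (2 * (t + 1)) a a).toReal =
      (deg G a).toReal *
        ∑' z, ∑' x, (if G.Adj z x then (uu G a t x - uu G a (t + 1) z) ^ 2 else 0) := by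
  set Nb : V d → Finset (V d) := fun x => (neighbor_finite hLF x).toFinset with hNb
  have hNbm : ∀ x y, y ∈ Nb x ↔ G.Adj x y := by
    intro x y; simp [hNb]
  -- the degree
  have hdegc : ∀ z, (deg G z).toReal = ∑ x ∈ Nb z, (1 : ℝ) := by
    intro z
    rw [deg, tsum_eq_sum (s := Nb z)]
    · rw [ENNReal.toReal_sum]
      · refine Finset.sum_congr rfl fun x hx => ?_
        rw [if_pos ((hNbm z x).1 hx)]; rfl
      · intro x _
        split_ifs <;> simp
    · intro x hx
      rw [if_neg fun h => hx ((hNbm z x).2 h)]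
  -- averaging
  have havg : ∀ z, (deg G z).toReal * uu G a (t + 1) z = ∑ x ∈ Nb z, uu G a t x := by
    intro z
    have h0 : (deg G z).toReal ≠ 0 :=
      (ENNReal.toReal_pos (eid_deg_ne_zero hNN z) (hLF z)).ne'
    have hw : (walk G (t + 1) z a).toReal = (∑ x ∈ Nb z, (walk G t x a).toReal) /
        (deg G z).toReal := by
      rw [walk, ENNReal.toReal_div]
      congr 1
      rw [tsum_eq_sum (s := Nb z)]
      · rw [ENNReal.toReal_sum]
        · refine Finset.sum_congr rfl fun x hx => ?_
          rw [if_pos ((hNbm z x).1 hx)]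
        · intro x _
          split_ifs
          · exact eid_walk_ne_top hNN t x a
          · simp
      · intro x hx
        rw [if_neg fun h => hx ((hNbm z x).2 h)]
    rw [eid_uu, hw]
    simp only [eid_uu]
    rw [← Finset.sum_div]
    field_simp
  -- inner sum
  have hinner : ∀ z, ∑' x, (if G.Adj z x then (uu G a t x - uu G a (t + 1) z) ^ 2 else 0) =
      ∑ x ∈ Nb z, uu G a t x ^ 2 - (deg G z).toReal * uu G a (t + 1) z ^ 2 := by
    intro z
    rw [tsum_eq_sum (s := Nb z)]
    · have h1 : ∑ x ∈ Nb z, (if G.Adj z x then (uu G a t x - uu G a (t + 1) z) ^ 2 else 0) =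
          ∑ x ∈ Nb z, uu G a t x ^ 2 - 2 * uu G a (t + 1) z * ∑ x ∈ Nb z, uu G a t x +
            uu G a (t + 1) z ^ 2 * ∑ x ∈ Nb z, (1 : ℝ) := by
        rw [Finset.mul_sum, Finset.mul_sum, ← Finset.sum_sub_distrib, ← Finset.sum_add_distrib]
        refine Finset.sum_congr rfl fun x hx => ?_
        rw [if_pos ((hNbm z x).1 hx)]
        ring
      rw [h1, ← havg z, ← hdegc z]
      ring
    · intro x hx
      rw [if_neg fun h => hx ((hNbm z x).2 h)]
  -- finite supports
  have hS := uu_finite hLF a t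
  have hS' := uu_finite hLF a (t + 1)
  set S : Finset (V d) := hS.toFinset with hSdef
  have hSm : ∀ x, x ∉ S → uu G a t x = 0 := by
    intro x hx
    by_contra h
    exact hx (by simpa [hSdef] using h)
  set F : Finset (V d) := S.biUnion Nb ∪ hS'.toFinset with hF
  have hFm : ∀ z, z ∉ F → (∀ x ∈ Nb z, uu G a t x = 0) ∧ uu G a (t + 1) z = 0 := by
    intro z hz
    rw [hF, Finset.mem_union, not_or] at hz
    refine ⟨fun x hx => ?_, ?_⟩
    · apply hSm
      intro hxS
      exact hz.1 (Finset.mem_biUnion.2 ⟨x, hxS, (hNbm x z).2 ((hNbm z x).1 hx).symm⟩)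
    · by_contra h
      exact hz.2 (by simpa using h)
  have hsum1 : ∑' z, ∑' x, (if G.Adj z x then (uu G a t x - uu G a (t + 1) z) ^ 2 else 0) =
      ∑ z ∈ F, ∑ x ∈ Nb z, uu G a t x ^ 2 -
        ∑ z ∈ F, (deg G z).toReal * uu G a (t + 1) z ^ 2 := by
    simp only [hinner]
    rw [tsum_eq_sum (s := F), Finset.sum_sub_distrib]
    intro z hz
    obtain ⟨h1, h2⟩ := hFm z hz
    rw [h2, Finset.sum_eq_zero fun x hx => by rw [h1 x hx]; ring]
    ring
  have hsum2 : ∑' z, (deg G z).toReal * uu G a (t + 1) z ^ 2 =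
      ∑ z ∈ F, (deg G z).toReal * uu G a (t + 1) z ^ 2 :=
    tsum_eq_sum fun z hz => by rw [(hFm z hz).2]; ring
  have hsum3 : ∑' x, (deg G x).toReal * uu G a t x ^ 2 =
      ∑ z ∈ F, ∑ x ∈ Nb z, uu G a t x ^ 2 := by
    rw [tsum_eq_sum (s := S) fun x hx => by rw [hSm x hx]; ring]
    have h1 : ∀ z, ∑ x ∈ Nb z, uu G a t x ^ 2 =
        ∑ x ∈ S, (if G.Adj z x then uu G a t x ^ 2 else 0) := by
      intro z
      rw [← Finset.sum_filter]
      refine Finset.sum_subset_zero_on_sdiff (s₁ := S.filter fun x => G.Adj z x)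
        (s₂ := Nb z) ?_ ?_ (fun x _ => rfl) |>.symm
      · intro x hx
        rw [Finset.mem_filter] at hx
        exact (hNbm z x).2 hx.2
      · intro x hx
        rw [Finset.mem_sdiff, Finset.mem_filter, not_and] at hx
        have hxS : x ∉ S := fun h => hx.2 h ((hNbm z x).1 hx.1)
        rw [hSm x hxS]; ring
    simp only [h1]
    rw [Finset.sum_comm]
    refine Finset.sum_congr rfl fun x hx => ?_
    rw [hdegc x, Finset.sum_mul, ← Finset.sum_filter]
    have h2 : F.filter (fun z => G.Adj z x) = Nb x := by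
      ext z
      rw [Finset.mem_filter, hNbm]
      refine ⟨fun h => h.2.symm, fun h => ⟨?_, h.symm⟩⟩
      rw [hF, Finset.mem_union, Finset.mem_biUnion]
      exact Or.inl ⟨x, hx, (hNbm x z).2 h⟩
    rw [h2]
    exact Finset.sum_congr rfl fun z _ => by ring
  rw [uu_sq hNN hLF a t, uu_sq hNN hLF a (t + 1), hsum1, hsum2, hsum3]
  ring

end MP072e06
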