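import Pool.Agent.Lib.MP_072e06_pr.Cells
import Pool.Agent.Lib.MP_072e06_pr.Shift
import Pool.Agent.Lib.MP_072e06_pr.ShiftMeasure
import Pool.Agent.Lib.MP_072e06_pr.Meas

/-!
Bound of the error term: `inv_lev_le`, Cauchy-Schwarz and shift invariance.
-/

open MeasureTheory ENNReal
open scoped Classical

namespace MP072e06

variable {d : ℕ}

private lemma cs_ind {Ω : Type*} [MeasurableSpace Ω] (μ : Measure Ω) (f : Ω → ℝ≥0∞)
    (hf : Measurable f) (E : Set Ω) (hE : MeasurableSet E) [DecidablePred fun ω => ω ∈ E] :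
    ∫⁻ ω, f ω * (if ω ∈ E then 1 else 0) ∂μ ≤
      (∫⁻ ω, f ω ^ 2 ∂μ) ^ (1 / 2 : ℝ) * (μ E) ^ (1 / 2 : ℝ) := by
  have hg : Measurable fun ω => if ω ∈ E then (1 : ℝ≥0∞) else 0 :=
    Measurable.ite hE measurable_const measurable_const
  have h := ENNReal.lintegral_mul_le_Lp_mul_Lq μ Real.HolderConjugate.two_two
    hf.aemeasurable hg.aemeasurable
  simp only [Pi.mul_apply] at h
  refine h.trans (le_of_eq ?_)
  congr 2
  · refine lintegral_congr fun ω => ?_
    rw [← ENNReal.rpow_natCast]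
    norm_num
  · have h1 : ∀ ω, (if ω ∈ E then (1 : ℝ≥0∞) else 0) ^ (2 : ℝ) = E.indicator 1 ω := by
      intro ω
      by_cases hω : ω ∈ E
      · simp [hω]
      · simp [hω]
    simp only [h1]
    exact lintegral_indicator_one hE

private lemma deg_shift' (ω : Env d) (x : V d) :
    deg (lrpGraph ω) x = deg (lrpGraph (shiftEnv x ω)) 0 := by
  rw [lrpGraph_shiftEnv, deg_shiftG, zero_add]

private lemma lint_deg (s : ℝ) (x : V d) (m : ℕ) :
    ∫⁻ ω, deg (lrpGraph ω) x ^ m ∂(LRP d s) = ∫⁻ ω, deg (lrpGraph ω) (0 : V d) ^ m ∂(LRP d s) := by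
  rw [← lintegral_shiftEnv s x (fun ω => deg (lrpGraph ω) (0 : V d) ^ m)]
  refine lintegral_congr fun ω => ?_
  rw [deg_shift' ω x]

private lemma meas_tau_shift [NeZero d] (s A : ℝ) (L : ℝ≥0∞) (n : ℕ) (v : V d) :
    LRP d s {ω | L < tau A n v (lrpGraph ω)} = LRP d s {ω | L < tau A n (0 : V d) (lrpGraph ω)} := by
  have hm : ∀ w : V d, MeasurableSet {ω : Env d | L < tau A n w (lrpGraph ω)} := fun w =>
    measurableSet_lt measurable_const (measurable_tau A n w)
  have h0 := lintegral_shiftEnv s v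
    (fun ω => Set.indicator {ω : Env d | L < tau A n (0 : V d) (lrpGraph ω)} 1 ω)
  rw [← lintegral_indicator_one (hm v), ← lintegral_indicator_one (hm 0), ← h0]
  refine lintegral_congr fun ω => ?_
  have h1 : tau A n (0 : V d) (lrpGraph (shiftEnv v ω)) = tau A n v (lrpGraph ω) := by
    rw [lrpGraph_shiftEnv, tau_shiftG, zero_add]
  by_cases h : L < tau A n v (lrpGraph ω)
  · have ha : ω ∈ {ω : Env d | L < tau A n v (lrpGraph ω)} := h
    have hb : shiftEnv v ω ∈ {ω : Env d | L < tau A n (0 : V d) (lrpGraph ω)} := by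
      show L < tau A n (0 : V d) (lrpGraph (shiftEnv v ω))
      rw [h1]
      exact h
    rw [Set.indicator_of_mem ha, Set.indicator_of_mem hb]
    rfl
  · have ha : ω ∉ {ω : Env d | L < tau A n v (lrpGraph ω)} := h
    have hb : shiftEnv v ω ∉ {ω : Env d | L < tau A n (0 : V d) (lrpGraph ω)} := by
      show ¬ L < tau A n (0 : V d) (lrpGraph (shiftEnv v ω))
      rw [h1]
      exact h
    rw [Set.indicator_of_notMem ha, Set.indicator_of_notMem hb]

private lemma term_le [NeZero d] (s : ℝ) (A : ℝ) (L : ℝ≥0∞) (K : ℕ) (x : V d) :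
    ∫⁻ ω, deg (lrpGraph ω) x / 2 ^ (lev A L K (lrpGraph ω) x) ∂(LRP d s) ≤
      (∫⁻ ω, deg (lrpGraph ω) (0 : V d) ∂(LRP d s)) / 2 ^ K +
      (∫⁻ ω, deg (lrpGraph ω) (0 : V d) ^ 2 ∂(LRP d s)) ^ (1 / 2 : ℝ) *
        ∑ n ∈ Finset.range K, (1 / 2 ^ n) *
          (LRP d s {ω | L < tau A (n + 1) (0 : V d) (lrpGraph ω)}) ^ (1 / 2 : ℝ) := by
  have hm : ∀ n, MeasurableSet {ω : Env d | L < tau A (n + 1) (base (n + 1) x) (lrpGraph ω)} :=
    fun n => measurableSet_lt measurable_const (measurable_tau A (n + 1) (base (n + 1) x))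
  have h1 : ∫⁻ ω, deg (lrpGraph ω) x / 2 ^ (lev A L K (lrpGraph ω) x) ∂(LRP d s) ≤
      ∫⁻ ω, (deg (lrpGraph ω) x / 2 ^ K + ∑ n ∈ Finset.range K, (1 / 2 ^ n) *
        (deg (lrpGraph ω) x *
          (if ω ∈ {ω : Env d | L < tau A (n + 1) (base (n + 1) x) (lrpGraph ω)} then 1 else 0)))
        ∂(LRP d s) := by
    refine lintegral_mono fun ω => ?_
    have h := mul_le_mul_right (inv_lev_le A L K (lrpGraph ω) x) (deg (lrpGraph ω) x)
    rw [mul_add, Finset.mul_sum] at h
    refine le_trans (le_of_eq ?_) (h.trans (le_of_eq ?_))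
    · rw [mul_one_div]
    · rw [mul_one_div]
      congr 1
      refine Finset.sum_congr rfl fun n _ => ?_
      rw [mul_left_comm]
      rfl
  refine h1.trans ?_
  rw [lintegral_add_left ((measurable_deg x).div_const _), lintegral_finsetSum]
  swap
  · intro n _
    exact ((measurable_deg x).mul (Measurable.ite (hm n) measurable_const
      measurable_const)).const_mul _
  refine add_le_add (le_of_eq ?_) ?_
  · have h2 : ∀ ω : Env d, deg (lrpGraph ω) x / 2 ^ K = (2 ^ K)⁻¹ * deg (lrpGraph ω) x := by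
      intro ω
      rw [div_eq_mul_inv, mul_comm]
    simp only [h2]
    rw [lintegral_const_mul _ (measurable_deg x), div_eq_mul_inv, mul_comm]
    congr 1
    have h3 := lint_deg s x 1
    simpa using h3
  · rw [Finset.mul_sum]
    refine Finset.sum_le_sum fun n _ => ?_
    have hmm : Measurable fun ω : Env d => deg (lrpGraph ω) x *
        (if ω ∈ {ω : Env d | L < tau A (n + 1) (base (n + 1) x) (lrpGraph ω)} then (1 : ℝ≥0∞)
          else 0) :=
      (measurable_deg x).mul (Measurable.ite (hm n) measurable_const measurable_const)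
    rw [lintegral_const_mul _ hmm, mul_left_comm]
    refine mul_le_mul_right ?_ _
    refine (cs_ind (LRP d s) _ (measurable_deg x) _ (hm n)).trans (le_of_eq ?_)
    rw [lint_deg, meas_tau_shift]

theorem Err_le {d : ℕ} [NeZero d] (s : ℝ) (A : ℝ) (L : ℝ≥0∞) (K : ℕ) :
    Err d s A L K ≤ (∫⁻ ω, deg (lrpGraph ω) (0 : V d) ∂(LRP d s)) / 2 ^ K +
      (∫⁻ ω, deg (lrpGraph ω) (0 : V d) ^ 2 ∂(LRP d s)) ^ (1 / 2 : ℝ) *
        ∑ n ∈ Finset.range K, (1 / 2 ^ n) *
          (LRP d s {ω | L < tau A (n + 1) (0 : V d) (lrpGraph ω)}) ^ (1 / 2 : ℝ) := by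
  unfold Err
  refine ENNReal.div_le_of_le_mul ?_
  refine (Finset.sum_le_sum fun x _ => term_le s A L K x).trans (le_of_eq ?_)
  rw [Finset.sum_const, card_Box _ _ (Nat.pos_of_ne_zero (NeZero.ne d)), nsmul_eq_mul, mul_comm]
  push_cast
  rfl

end MP072e06
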