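import Pool.Agent.Lib.MP_072e06_pr.TailA
import Pool.Agent.Lib.MP_072e06_pr.ErrBound

/-!
Final error bound, case A.  Take `Q` with `β Q > 2 d`, `A` close to `1`; by Markov
`P(tau_{n+1} > L) ≤ E tau_{n+1}^Q / L^Q`, so the sum of `Err_le` is at most
`C ∑_{n<K} 2^(-n) 2^(-(β Q/(2d)) (K-n-1)) ≤ C' 2^(-K)`.
-/

open MeasureTheory ENNReal
open scoped Classical

namespace MP072e06

private lemma ea_sum (K : ℕ) :
    ∑ n ∈ Finset.range K, (1 / (2 : ℝ) ^ n) * (1 / 4 ^ (K - 1 - n)) ≤ 4 / 2 ^ K := by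
  induction K with
  | zero => simp
  | succ K ih =>
    rw [Finset.sum_range_succ]
    have h1 : ∀ n ∈ Finset.range K, (1 / (2 : ℝ) ^ n) * (1 / 4 ^ (K + 1 - 1 - n)) =
        (1 / 4) * ((1 / (2 : ℝ) ^ n) * (1 / 4 ^ (K - 1 - n))) := by
      intro n hn
      rw [Finset.mem_range] at hn
      have h2 : K + 1 - 1 - n = (K - 1 - n) + 1 := by omega
      rw [h2, pow_succ]
      field_simp
    rw [Finset.sum_congr rfl h1, ← Finset.mul_sum]
    have h3 : K + 1 - 1 - K = 0 := by omega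
    rw [h3, pow_zero, pow_succ]
    have h4 : (4 : ℝ) / (2 ^ K * 2) = 2 * (1 / 2 ^ K) := by
      field_simp
      norm_num
    have h5 : (4 : ℝ) / 2 ^ K = 4 * (1 / 2 ^ K) := by
      field_simp
    rw [h5] at ih
    rw [h4]
    linarith

private lemma ea_markov {d : ℕ} [NeZero d] (s A : ℝ) {L : ℝ≥0∞} (hL0 : L ≠ 0) (hLt : L ≠ ∞)
    {Q : ℕ} (hQ : 1 ≤ Q) (n : ℕ) :
    LRP d s {ω | L < tau A n (0 : V d) (lrpGraph ω)} ≤
      (∫⁻ ω, tau A n (0 : V d) (lrpGraph ω) ^ Q ∂(LRP d s)) / L ^ Q := by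
  refine le_trans (measure_mono ?_) (meas_ge_le_lintegral_div
    (((measurable_tau A n (0 : V d)).pow_const Q).aemeasurable) (pow_ne_zero Q hL0)
    (ENNReal.pow_ne_top hLt))
  intro ω hω
  have h1 : L < tau A n (0 : V d) (lrpGraph ω) := hω
  show L ^ Q ≤ tau A n (0 : V d) (lrpGraph ω) ^ Q
  exact pow_le_pow_left₀ zero_le h1.le Q

theorem err_A {d : ℕ} [NeZero d] {s : ℝ} (hs : (d : ℝ) < s) {β : ℝ} (hβ : 0 < β)
    (hβd : β ≤ d)
    (hphi : ∀ q : ℕ, 1 ≤ q → ∃ C : ℝ, 0 ≤ C ∧ ∀ n,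
      ∫⁻ ω, phi n (0 : V d) (lrpGraph ω) ^ q ∂(LRP d s) ≤
        ENNReal.ofReal (C * (rad d n : ℝ) ^ (-((d - β) * q)))) :
    ∃ A C : ℝ, 1 < A ∧ 0 < C ∧ ∀ K : ℕ,
      Err d s A (ENNReal.ofReal ((2 : ℝ) ^ (β / d * K))) K ≤ ENNReal.ofReal (C / 2 ^ K) := by
  have hd : 0 < d := Nat.pos_of_ne_zero (NeZero.ne d)
  have hd' : (0 : ℝ) < d := by exact_mod_cast hd
  -- the choice of `Q` and `A`
  obtain ⟨Q0, hQ0⟩ := exists_nat_ge (4 * d / β)
  set Q : ℕ := Q0 + 1 with hQdef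
  have hQ : 1 ≤ Q := by omega
  have hQ' : (0 : ℝ) < Q := by exact_mod_cast hQ
  have hβQ : 4 ≤ β / d * Q := by
    have h1 : 4 * (d : ℝ) / β ≤ Q := hQ0.trans (by rw [hQdef]; push_cast; linarith)
    rw [div_le_iff₀ hβ] at h1
    rw [div_mul_eq_mul_div, le_div_iff₀ hd']
    linarith
  set A : ℝ := (2 : ℝ) ^ (1 / (2 * Q : ℝ)) with hAdef
  have hA : 1 < A := Real.one_lt_rpow (by norm_num) (by positivity)
  have hA2 : A ^ (2 * Q) = 2 := by
    rw [hAdef, ← Real.rpow_natCast, ← Real.rpow_mul (by norm_num)]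
    have : 1 / (2 * Q : ℝ) * ((2 * Q : ℕ) : ℝ) = 1 := by
      push_cast
      field_simp
    rw [this, Real.rpow_one]
  have hAQ : 2 * A ^ (2 * Q) < (2 : ℝ) ^ (β / d * Q) := by
    rw [hA2]
    have h1 : (2 : ℝ) ^ (4 : ℝ) ≤ (2 : ℝ) ^ (β / d * Q) :=
      Real.rpow_le_rpow_of_exponent_le (by norm_num) hβQ
    have h2 : (2 : ℝ) ^ (4 : ℝ) = 16 := by
      have : (4 : ℝ) = ((4 : ℕ) : ℝ) := by norm_num
      rw [this, Real.rpow_natCast]
      norm_num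
    linarith
  obtain ⟨b, hb, htail⟩ := tail_A hs hβ hβd hphi hQ hA hAQ
  set D1 : ℝ≥0∞ := ∫⁻ ω, deg (lrpGraph ω) (0 : V d) ∂(LRP d s) with hD1
  have hD1t : D1 ≠ ∞ := by
    have h := (deg_moment d s hs 1).ne
    simpa using h
  set D2 : ℝ≥0∞ := (∫⁻ ω, deg (lrpGraph ω) (0 : V d) ^ 2 ∂(LRP d s)) ^ (1 / 2 : ℝ) with hD2
  have hD2t : D2 ≠ ∞ := ENNReal.rpow_ne_top_of_nonneg (by norm_num) (deg_moment d s hs 2).ne
  refine ⟨A, D1.toReal + D2.toReal * (b ^ (1 / 2 : ℝ) * 4) + 1, hA, by positivity, fun K => ?_⟩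
  set L : ℝ≥0∞ := ENNReal.ofReal ((2 : ℝ) ^ (β / d * K)) with hL
  have hLpos : (0 : ℝ) < (2 : ℝ) ^ (β / d * K) := Real.rpow_pos_of_pos (by norm_num) _
  have hL0 : L ≠ 0 := by simpa [hL] using hLpos
  have hLt : L ≠ ∞ := ENNReal.ofReal_ne_top
  have hprob : ∀ n ∈ Finset.range K,
      (LRP d s {ω | L < tau A (n + 1) (0 : V d) (lrpGraph ω)}) ^ (1 / 2 : ℝ) ≤
        ENNReal.ofReal (b ^ (1 / 2 : ℝ) * (1 / 4 ^ (K - 1 - n))) := by
    intro n hn
    rw [Finset.mem_range] at hn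
    have h1 := (ea_markov s A hL0 hLt hQ (n + 1)).trans
      (ENNReal.div_le_div_right (htail (n + 1)) (L ^ Q))
    have h2 : L ^ Q = ENNReal.ofReal ((2 : ℝ) ^ (β / d * K * Q)) := by
      rw [hL, ← ENNReal.ofReal_pow hLpos.le, ← Real.rpow_natCast, ← Real.rpow_mul (by norm_num)]
    rw [h2, ← ENNReal.ofReal_div_of_pos (Real.rpow_pos_of_pos (by norm_num) _)] at h1
    have h3 : b * (2 : ℝ) ^ (β / d * ((n + 1 : ℕ) : ℝ) * Q) / (2 : ℝ) ^ (β / d * K * Q) ≤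
        b * (1 / 16 ^ (K - 1 - n)) := by
      rw [mul_div_assoc, ← Real.rpow_sub (by norm_num)]
      refine mul_le_mul_of_nonneg_left ?_ hb
      have h4 : (1 : ℝ) / 16 ^ (K - 1 - n) = (2 : ℝ) ^ (-(4 * ((K - 1 - n : ℕ) : ℝ))) := by
        rw [Real.rpow_neg (by norm_num), Real.rpow_mul (by norm_num), Real.rpow_natCast,
          one_div]
        congr 2
        have : (4 : ℝ) = ((4 : ℕ) : ℝ) := by norm_num
        rw [this, Real.rpow_natCast]
        norm_num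
      rw [h4]
      refine Real.rpow_le_rpow_of_exponent_le (by norm_num) ?_
      have h5 : ((K - 1 - n : ℕ) : ℝ) = (K : ℝ) - 1 - n := by
        rw [Nat.sub_sub, Nat.cast_sub (by omega)]
        push_cast
        ring
      rw [h5]
      push_cast
      have h6 : 0 ≤ (K : ℝ) - 1 - n := by
        have : ((n + 1 : ℕ) : ℝ) ≤ K := by exact_mod_cast hn
        push_cast at this
        linarith
      have h7 := mul_le_mul_of_nonneg_right hβQ h6
      linarith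
    have h8 := h1.trans (ENNReal.ofReal_le_ofReal h3)
    refine (ENNReal.rpow_le_rpow h8 (by norm_num)).trans (le_of_eq ?_)
    rw [ENNReal.ofReal_rpow_of_nonneg (by positivity) (by norm_num),
      Real.mul_rpow hb (by positivity)]
    congr 2
    have h9 : (1 : ℝ) / 16 ^ (K - 1 - n) = (1 / 4 ^ (K - 1 - n)) ^ (2 : ℕ) := by
      rw [div_pow, one_pow, ← pow_mul, mul_comm, pow_mul]
      norm_num
    rw [h9, ← Real.sqrt_eq_rpow, Real.sqrt_sq (by positivity)]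
  have hsum : ∑ n ∈ Finset.range K, (1 / 2 ^ n) *
      (LRP d s {ω | L < tau A (n + 1) (0 : V d) (lrpGraph ω)}) ^ (1 / 2 : ℝ) ≤
      ENNReal.ofReal (b ^ (1 / 2 : ℝ) * (4 / 2 ^ K)) := by
    have h1 : ∀ n ∈ Finset.range K, (1 / 2 ^ n : ℝ≥0∞) *
        (LRP d s {ω | L < tau A (n + 1) (0 : V d) (lrpGraph ω)}) ^ (1 / 2 : ℝ) ≤
        ENNReal.ofReal (b ^ (1 / 2 : ℝ) * ((1 / 2 ^ n) * (1 / 4 ^ (K - 1 - n)))) := by
      intro n hn
      have h2 : (1 / 2 ^ n : ℝ≥0∞) = ENNReal.ofReal (1 / 2 ^ n) := by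
        rw [ENNReal.ofReal_div_of_pos (by positivity), ENNReal.ofReal_pow (by norm_num)]
        simp
      rw [h2]
      refine (mul_le_mul_right (hprob n hn) _).trans (le_of_eq ?_)
      rw [← ENNReal.ofReal_mul (by positivity)]
      congr 1
      ring
    refine (Finset.sum_le_sum h1).trans ?_
    rw [← ENNReal.ofReal_sum_of_nonneg (fun n _ => by positivity), ← Finset.mul_sum]
    exact ENNReal.ofReal_le_ofReal (mul_le_mul_of_nonneg_left (ea_sum K) (by positivity))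
  refine (Err_le s A L K).trans ?_
  calc D1 / 2 ^ K + D2 * ∑ n ∈ Finset.range K, (1 / 2 ^ n) *
        (LRP d s {ω | L < tau A (n + 1) (0 : V d) (lrpGraph ω)}) ^ (1 / 2 : ℝ)
      ≤ D1 / 2 ^ K + D2 * ENNReal.ofReal (b ^ (1 / 2 : ℝ) * (4 / 2 ^ K)) := by
        gcongr
    _ = ENNReal.ofReal (D1.toReal / 2 ^ K) +
        ENNReal.ofReal (D2.toReal * (b ^ (1 / 2 : ℝ) * (4 / 2 ^ K))) := by
        congr 1
        · rw [ENNReal.ofReal_div_of_pos (by positivity), ENNReal.ofReal_toReal hD1t,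
            ENNReal.ofReal_pow (by norm_num)]
          simp
        · rw [ENNReal.ofReal_mul ENNReal.toReal_nonneg, ENNReal.ofReal_toReal hD2t]
    _ = ENNReal.ofReal (D1.toReal / 2 ^ K + D2.toReal * (b ^ (1 / 2 : ℝ) * (4 / 2 ^ K))) := by
        rw [← ENNReal.ofReal_add (by positivity) (by positivity)]
    _ ≤ ENNReal.ofReal ((D1.toReal + D2.toReal * (b ^ (1 / 2 : ℝ) * 4) + 1) / 2 ^ K) := by
        refine ENNReal.ofReal_le_ofReal ?_
        have h1 : (D1.toReal + D2.toReal * (b ^ (1 / 2 : ℝ) * 4) + 1) / 2 ^ K =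
            D1.toReal / 2 ^ K + D2.toReal * (b ^ (1 / 2 : ℝ) * (4 / 2 ^ K)) + 1 / 2 ^ K := by
          field_simp
        rw [h1]
        have : (0 : ℝ) ≤ 1 / 2 ^ K := by positivity
        linarith

end MP072e06
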