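import Pool.Agent.Lib.MP_072e06_pr.TailB
import Pool.Agent.Lib.MP_072e06_pr.ErrBound

/-!
Final error bound, case B: with `a_n → 0` the normalized moments, the sum is at most
`2^(-K) M^(Q/2) C ∑_{n<K} 2^(K-n) 2^(-(Q/d)(K-n-1)) a_{n+1}^(1/2)`, which is `2^(-K) o(1)` as `K → ∞` for fixed `M`
(`Q > d`); so `C = E deg + 1` works for all `M`.
-/

open MeasureTheory ENNReal
open scoped Classical

namespace MP072e06

/-- the geometric convolution of a null sequence is a null sequence. -/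
private lemma eb_conv {b : ℕ → ℝ} (hb0 : ∀ n, 0 ≤ b n)
    (hb : Filter.Tendsto b Filter.atTop (nhds 0)) :
    Filter.Tendsto (fun K : ℕ => ∑ n ∈ Finset.range K, b (n + 1) * (1 / 2 : ℝ) ^ (K - 1 - n))
      Filter.atTop (nhds 0) := by
  obtain ⟨B, hB⟩ : ∃ B, ∀ n, b n ≤ B := by
    obtain ⟨B, hB⟩ := hb.bddAbove_range
    exact ⟨B, fun n => hB ⟨n, rfl⟩⟩
  have h1 : ∀ K : ℕ, ∑ n ∈ Finset.range K, b (n + 1) * (1 / 2 : ℝ) ^ (K - 1 - n) =
      ∑' j : ℕ, (if j < K then b (K - j) * (1 / 2 : ℝ) ^ j else 0) := by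
    intro K
    rw [tsum_eq_sum (s := Finset.range K)]
    · rw [← Finset.sum_range_reflect]
      refine Finset.sum_congr rfl fun j hj => ?_
      have hj' := Finset.mem_range.mp hj
      rw [if_pos hj']
      have e1 : K - 1 - j + 1 = K - j := by omega
      have e2 : K - 1 - (K - 1 - j) = j := by omega
      rw [e1, e2]
    · intro j hj
      rw [if_neg (by simpa using hj)]
  simp only [h1]
  suffices h2 : Filter.Tendsto (fun K : ℕ =>
      ∑' j : ℕ, (if j < K then b (K - j) * (1 / 2 : ℝ) ^ j else 0)) Filter.atTop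
      (nhds (∑' j : ℕ, (fun _ : ℕ => (0:ℝ)) j)) by
    rw [tsum_zero] at h2; exact h2
  refine tendsto_tsum_of_dominated_convergence (bound := fun j : ℕ => B * (1 / 2 : ℝ) ^ j) ?_ ?_ ?_
  · exact (summable_geometric_of_lt_one (by norm_num) (by norm_num)).mul_left B
  · intro j
    have h3 : Filter.Tendsto (fun K : ℕ => b (K - j) * (1 / 2 : ℝ) ^ j) Filter.atTop (nhds 0) := by
      have := (hb.comp (Filter.tendsto_sub_atTop_nat j)).mul_const ((1 / 2 : ℝ) ^ j)
      simpa using this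
    refine h3.congr' ?_
    filter_upwards [Filter.eventually_gt_atTop j] with K hK
    rw [if_pos hK]
  · refine Filter.Eventually.of_forall fun K j => ?_
    split_ifs
    · rw [Real.norm_of_nonneg (mul_nonneg (hb0 _) (by positivity))]
      exact mul_le_mul_of_nonneg_right (hB _) (by positivity)
    · have : 0 ≤ B := (hb0 0).trans (hB 0)
      rw [norm_zero]
      positivity

theorem err_B {d : ℕ} [NeZero d] (hd : 2 ≤ d) {s : ℝ} (hs : (d : ℝ) < s)
    (hphi : ∀ q : ℕ, 1 ≤ q → Filter.Tendsto (fun n =>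
      ENNReal.ofReal ((rad d n : ℝ) ^ (((d : ℝ) - 2) * q)) *
        ∫⁻ ω, phi n (0 : V d) (lrpGraph ω) ^ q ∂(LRP d s)) Filter.atTop (nhds 0))
    (hfin : ∀ n, ∀ q : ℕ, ∫⁻ ω, phi n (0 : V d) (lrpGraph ω) ^ q ∂(LRP d s) < ∞) :
    ∃ A C : ℝ, 1 < A ∧ 0 < C ∧ ∀ M : ℝ, 0 < M → ∃ K0 : ℕ, ∀ K : ℕ, K0 ≤ K →
      Err d s A (ENNReal.ofReal ((2 : ℝ) ^ ((2 : ℝ) / d * K) / M)) K ≤
        ENNReal.ofReal (C / 2 ^ K) := by
  have hd0 : (0:ℝ) < d := by
    have : 0 < d := by omega
    exact_mod_cast this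
  set Q : ℕ := 2 * d with hQdef
  have hQ1 : 1 ≤ Q := by omega
  set A : ℝ := 1 + 1 / (4 * d) with hAdef
  have hA1 : 1 < A := by
    have : 0 < 1 / (4 * (d:ℝ)) := by positivity
    rw [hAdef]; linarith
  -- the power identity
  have hpow : ∀ n : ℕ, (2 : ℝ) ^ ((2 : ℝ) / d * n * Q) = 16 ^ n := by
    intro n
    have : (2 : ℝ) / d * n * Q = (4 * n : ℕ) := by
      rw [hQdef]; push_cast; field_simp; ring
    rw [this, Real.rpow_natCast, pow_mul]
    norm_num
  have hAQ : 2 * A ^ (2 * Q) < (2 : ℝ) ^ ((2 : ℝ) / d * Q) := by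
    have h1 : (2 : ℝ) ^ ((2 : ℝ) / d * Q) = 16 := by
      have := hpow 1
      simpa using this
    rw [h1]
    have h2 : A ^ (2 * Q) ≤ Real.exp 1 := by
      have h3 : A ≤ Real.exp (1 / (4 * d)) := by
        have := Real.add_one_le_exp (1 / (4 * (d:ℝ)))
        rw [hAdef]; linarith
      calc A ^ (2 * Q) ≤ (Real.exp (1 / (4 * d))) ^ (2 * Q) :=
            pow_le_pow_left₀ (by linarith) h3 _
        _ = Real.exp 1 := by
            rw [← Real.exp_nat_mul]
            congr 1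
            rw [hQdef]; push_cast; field_simp; ring
    have h4 := Real.exp_one_lt_d9
    linarith
  have htail := tail_B hd hs hphi hfin hQ1 hA1 hAQ
  set T : ℕ → ℝ≥0∞ := fun n => ∫⁻ ω, tau A n (0 : V d) (lrpGraph ω) ^ Q ∂(LRP d s) with hT
  have hTfin : ∀ n, T n ≠ ∞ := by
    intro n
    induction n with
    | zero =>
      have : T 0 = 0 := by
        simp only [hT, tau]
        rw [zero_pow (by omega)]
        simp
      rw [this]; simp
    | succ n ih =>
      have h1 := tau_moment_step (d := d) s hA1 hQ1 n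
      have h2 := deg_moment d s hs (2 * Q)
      have h3 := hfin n (2 * Q)
      refine ne_top_of_le_ne_top ?_ h1
      apply ENNReal.add_ne_top.mpr
      constructor
      · exact ENNReal.mul_ne_top ENNReal.ofReal_ne_top ih
      · apply ENNReal.mul_ne_top
        · apply ENNReal.mul_ne_top ENNReal.ofReal_ne_top
          exact ENNReal.rpow_ne_top_of_nonneg (by norm_num) h2.ne
        · exact ENNReal.rpow_ne_top_of_nonneg (by norm_num) h3.ne
  set t : ℕ → ℝ := fun n => (T n).toReal with ht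
  have hTt : ∀ n, T n = ENNReal.ofReal (t n) := fun n => (ENNReal.ofReal_toReal (hTfin n)).symm
  have ht0 : ∀ n, 0 ≤ t n := fun n => ENNReal.toReal_nonneg
  have ha : Filter.Tendsto (fun n => t n / 16 ^ n) Filter.atTop (nhds 0) := by
    have h1 := (ENNReal.tendsto_toReal ENNReal.zero_ne_top).comp htail
    simp only [ENNReal.toReal_zero] at h1
    refine h1.congr fun n => ?_
    simp only [Function.comp, ENNReal.toReal_div]
    rw [hpow, ENNReal.toReal_ofReal (by positivity)]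
  set b : ℕ → ℝ := fun n => √(t n / 16 ^ n) with hb
  have hb0 : ∀ n, 0 ≤ b n := fun n => Real.sqrt_nonneg _
  have hbt : Filter.Tendsto b Filter.atTop (nhds 0) := by
    have := (Real.continuous_sqrt.tendsto 0).comp ha
    rw [Real.sqrt_zero] at this
    exact this
  have hS := eb_conv hb0 hbt
  set S : ℕ → ℝ := fun K => ∑ n ∈ Finset.range K, b (n + 1) * (1 / 2 : ℝ) ^ (K - 1 - n) with hSdef
  set D1 : ℝ := (∫⁻ ω, deg (lrpGraph ω) (0 : V d) ∂(LRP d s)).toReal with hD1
  set D2 : ℝ := ((∫⁻ ω, deg (lrpGraph ω) (0 : V d) ^ 2 ∂(LRP d s)) ^ (1 / 2 : ℝ)).toReal with hD2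
  have hD1e : ∫⁻ ω, deg (lrpGraph ω) (0 : V d) ∂(LRP d s) = ENNReal.ofReal D1 := by
    rw [hD1, ENNReal.ofReal_toReal]
    have := deg_moment d s hs 1
    simp only [pow_one] at this
    exact this.ne
  have hD2e : (∫⁻ ω, deg (lrpGraph ω) (0 : V d) ^ 2 ∂(LRP d s)) ^ (1 / 2 : ℝ) =
      ENNReal.ofReal D2 := by
    rw [hD2, ENNReal.ofReal_toReal]
    exact ENNReal.rpow_ne_top_of_nonneg (by norm_num) (deg_moment d s hs 2).ne
  have hD10 : 0 ≤ D1 := ENNReal.toReal_nonneg
  have hD20 : 0 ≤ D2 := ENNReal.toReal_nonneg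
  refine ⟨A, D1 + 1, hA1, by linarith, fun M hM => ?_⟩
  have hlim : Filter.Tendsto (fun K => D2 * (2 * M ^ d) * S K) Filter.atTop (nhds 0) := by
    simpa using hS.const_mul (D2 * (2 * M ^ d))
  obtain ⟨K0, hK0⟩ := (hlim.eventually (gt_mem_nhds (show (0:ℝ) < 1 by norm_num))).exists_forall_of_atTop
  refine ⟨K0, fun K hK => ?_⟩
  have hSK := hK0 K hK
  set L : ℝ := (2 : ℝ) ^ ((2 : ℝ) / d * K) / M with hL
  have hL0 : 0 < L := by positivity
  have hLQ : L ^ Q = 16 ^ K / M ^ Q := by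
    rw [hL, div_pow, ← Real.rpow_natCast ((2 : ℝ) ^ ((2 : ℝ) / d * K)) Q,
      ← Real.rpow_mul (by norm_num), hpow]
  refine (Err_le (d := d) s A (ENNReal.ofReal L) K).trans ?_
  rw [hD1e, hD2e]
  have hP : ∀ n ∈ Finset.range K,
      (1 / 2 ^ n : ℝ≥0∞) * (LRP d s {ω | ENNReal.ofReal L < tau A (n + 1) (0 : V d) (lrpGraph ω)}) ^
        (1 / 2 : ℝ) ≤
      ENNReal.ofReal ((2 * M ^ d / 2 ^ K) * (b (n + 1) * (1 / 2 : ℝ) ^ (K - 1 - n))) := by
    intro n hn
    have hn' := Finset.mem_range.mp hn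
    have h1 : LRP d s {ω | ENNReal.ofReal L < tau A (n + 1) (0 : V d) (lrpGraph ω)} ≤
        ENNReal.ofReal (t (n + 1) / L ^ Q) := by
      calc LRP d s {ω | ENNReal.ofReal L < tau A (n + 1) (0 : V d) (lrpGraph ω)}
          ≤ LRP d s {ω | ENNReal.ofReal (L ^ Q) ≤ tau A (n + 1) (0 : V d) (lrpGraph ω) ^ Q} := by
            apply measure_mono
            intro ω hω
            simp only [Set.mem_ofPred_eq] at hω ⊢
            rw [ENNReal.ofReal_pow hL0.le]
            exact pow_le_pow_left' hω.le Q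
        _ ≤ T (n + 1) / ENNReal.ofReal (L ^ Q) := by
            apply meas_ge_le_lintegral_div
            · exact ((measurable_tau A (n + 1) (0 : V d)).pow_const Q).aemeasurable
            · simp only [ne_eq, ENNReal.ofReal_eq_zero, not_le]; positivity
            · exact ENNReal.ofReal_ne_top
        _ = ENNReal.ofReal (t (n + 1) / L ^ Q) := by
            rw [hTt, ENNReal.ofReal_div_of_pos (by positivity)]
    have h2 : (LRP d s {ω | ENNReal.ofReal L < tau A (n + 1) (0 : V d) (lrpGraph ω)}) ^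
        (1 / 2 : ℝ) ≤ ENNReal.ofReal (√(t (n + 1) / L ^ Q)) := by
      refine (ENNReal.rpow_le_rpow h1 (by norm_num)).trans (le_of_eq ?_)
      rw [ENNReal.ofReal_rpow_of_nonneg (div_nonneg (ht0 _) (by positivity)) (by norm_num),
        Real.sqrt_eq_rpow]
    have h3 : t (n + 1) / L ^ Q =
        (t (n + 1) / 16 ^ (n + 1)) * (M ^ d * (1 / 2) ^ (2 * (K - 1 - n))) ^ 2 := by
      have hK : K = (n + 1) + (K - 1 - n) := by omega
      have e1 : (16:ℝ) ^ K = 16 ^ (n + 1) * 16 ^ (K - 1 - n) := by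
        rw [← pow_add, ← hK]
      have e2 : (M ^ d) ^ 2 = M ^ Q := by rw [← pow_mul, hQdef]; congr 1; ring
      have e3 : (((1:ℝ) / 2) ^ (2 * (K - 1 - n))) ^ 2 = 1 / 16 ^ (K - 1 - n) := by
        rw [← pow_mul, mul_comm 2 (K - 1 - n), mul_assoc, mul_comm (K - 1 - n), pow_mul]
        norm_num
        rw [one_div, inv_pow]
      rw [hLQ, e1, mul_pow, e2, e3]
      have hMQ : M ^ Q ≠ 0 := by positivity
      field_simp
    have h4 : √(t (n + 1) / L ^ Q) = b (n + 1) * (M ^ d * (1 / 2) ^ (2 * (K - 1 - n))) := by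
      rw [h3, Real.sqrt_mul' _ (by positivity), Real.sqrt_sq (by positivity)]
    have h5 : (1 / 2 ^ n : ℝ≥0∞) = ENNReal.ofReal (1 / 2 ^ n) := by
      rw [ENNReal.ofReal_div_of_pos (by positivity), ENNReal.ofReal_pow (by norm_num)]
      simp
    rw [h5]
    refine (mul_le_mul_right h2 _).trans (le_of_eq ?_)
    rw [← ENNReal.ofReal_mul (by positivity), h4]
    congr 1
    have hK : K = n + (1 + (K - 1 - n)) := by omega
    have e1 : (2:ℝ) ^ K = 2 ^ n * (2 * 2 ^ (K - 1 - n)) := by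
      conv_lhs => rw [hK]
      rw [pow_add, pow_add, pow_one]
    have e4 : ((1:ℝ) / 2) ^ (2 * (K - 1 - n)) = (1 / 2) ^ (K - 1 - n) * (1 / 2) ^ (K - 1 - n) := by
      rw [← pow_add]; congr 1; ring
    have e5 : ((1:ℝ) / 2) ^ (K - 1 - n) = 1 / 2 ^ (K - 1 - n) := by rw [div_pow, one_pow]
    rw [e1, e4, e5]
    field_simp
  calc ENNReal.ofReal D1 / 2 ^ K + ENNReal.ofReal D2 * ∑ n ∈ Finset.range K, (1 / 2 ^ n : ℝ≥0∞) *
          (LRP d s {ω | ENNReal.ofReal L < tau A (n + 1) (0 : V d) (lrpGraph ω)}) ^ (1 / 2 : ℝ)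
      ≤ ENNReal.ofReal D1 / 2 ^ K + ENNReal.ofReal D2 * ∑ n ∈ Finset.range K,
          ENNReal.ofReal ((2 * M ^ d / 2 ^ K) * (b (n + 1) * (1 / 2 : ℝ) ^ (K - 1 - n))) :=
        add_le_add le_rfl (mul_le_mul_right (Finset.sum_le_sum hP) _)
    _ = ENNReal.ofReal (D1 / 2 ^ K + D2 * ((2 * M ^ d / 2 ^ K) * S K)) := by
        rw [← ENNReal.ofReal_sum_of_nonneg, ← Finset.mul_sum, ← ENNReal.ofReal_mul hD20,
          ENNReal.ofReal_add (by positivity), ENNReal.ofReal_div_of_pos (by positivity),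
          ENNReal.ofReal_pow (by norm_num)]
        · simp only [ENNReal.ofReal_ofNat, hSdef]
        · apply mul_nonneg hD20
          apply mul_nonneg (by positivity)
          exact Finset.sum_nonneg fun n _ => mul_nonneg (hb0 _) (by positivity)
        · intro n _
          exact mul_nonneg (by positivity) (mul_nonneg (hb0 _) (by positivity))
    _ ≤ ENNReal.ofReal ((D1 + 1) / 2 ^ K) := by
        apply ENNReal.ofReal_le_ofReal
        have : D1 / 2 ^ K + D2 * ((2 * M ^ d / 2 ^ K) * S K) =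
            (D1 + D2 * (2 * M ^ d) * S K) / 2 ^ K := by ring
        rw [this]
        apply div_le_div_of_nonneg_right _ (by positivity)
        linarith

end MP072e06
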