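import Pool.Agent.Lib.MP_072e06_pr.BoxGeo

/-!
Parity counts in boxes.
-/

open MeasureTheory ENNReal
open scoped Classical

namespace MP072e06

variable {d : ℕ}

lemma Parity_par_nxt [NeZero d] (n : ℕ) (v : V d) : par (nxt n v) = par v + rad d n := by
  unfold par nxt
  rw [← Finset.add_sum_erase _ _ (Finset.mem_univ (dir d n)),
    ← Finset.add_sum_erase Finset.univ (fun i => v i) (Finset.mem_univ (dir d n))]
  rw [Function.update_self]
  have : ∑ x ∈ Finset.univ.erase (dir d n),
      Function.update v (dir d n) (v (dir d n) + (rad d n : ℤ)) x =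
      ∑ x ∈ Finset.univ.erase (dir d n), v x := by
    refine Finset.sum_congr rfl fun i hi => ?_
    rw [Function.update_of_ne (Finset.ne_of_mem_erase hi)]
  rw [this]
  ring

/-- For `n ≥ 1` the box has an even side, so exactly half of its points have a given parity. -/
theorem sum_odd [NeZero d] {n : ℕ} (hn : 1 ≤ n) (w x : V d) :
    ∑ y ∈ Box n w, (if Odd (par x - par y) then (1 : ℝ) else 0) = 2 ^ n / 2 := by
  induction n, hn using Nat.le_induction generalizing w with
  | base =>
    have hB : Box 1 w = Box 0 w ∪ Box 0 (nxt 0 w) := Box_succ 0 w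
    rw [hB, Finset.sum_union (Box_disj 0 w), Box_zero,
      Box_zero, Finset.sum_singleton, Finset.sum_singleton, Parity_par_nxt]
    have hr : ((rad d 0 : ℕ) : ℤ) = 1 := by
      unfold rad
      rw [Nat.zero_div]
      norm_num
    rw [hr]
    by_cases h : Odd (par x - par w)
    · have h2 : ¬ Odd (par x - (par w + 1)) := by
        rw [show par x - (par w + 1) = (par x - par w) - 1 by ring, Int.not_odd_iff_even]
        exact h.sub_odd odd_one
      rw [if_pos h, if_neg h2]
      norm_num
    · have h2 : Odd (par x - (par w + 1)) := by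
        rw [show par x - (par w + 1) = (par x - par w) - 1 by ring]
        rw [Int.not_odd_iff_even] at h
        exact h.sub_odd odd_one
      rw [if_neg h, if_pos h2]
      norm_num
  | succ n hn ih =>
    rw [Box_succ, Finset.sum_union (Box_disj n w), ih, ih, pow_succ]
    ring

theorem sum_odd' [NeZero d] {n : ℕ} (hn : 1 ≤ n) (w y : V d) :
    ∑ x ∈ Box n w, (if Odd (par x - par y) then (1 : ℝ) else 0) = 2 ^ n / 2 := by
  rw [← sum_odd hn w y]
  refine Finset.sum_congr rfl fun x _ => ?_
  have : Odd (par x - par y) ↔ Odd (par y - par x) := by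
    rw [← odd_neg, neg_sub]
  rw [if_congr this rfl rfl]

/-- The normalized odd cross pairs transport the uniform measure of one box to the other. -/
theorem cross_identity [NeZero d] {n : ℕ} (hn : 1 ≤ n) (v w : V d) (h : V d → ℝ) :
    ∑ z ∈ Box n v ×ˢ Box n w,
      (if Odd (par z.1 - par z.2) then (2 : ℝ) / 4 ^ n else 0) * (h z.1 - h z.2) =
      avg (Box n v) h - avg (Box n w) h := by
  have hd : 0 < d := Nat.pos_of_ne_zero (NeZero.ne d)
  have h4 : (4 : ℝ) ^ n = 2 ^ n * 2 ^ n := by rw [← mul_pow]; norm_num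
  have h2 : (2 : ℝ) ^ n ≠ 0 := by positivity
  have key : ∀ z : V d × V d,
      (if Odd (par z.1 - par z.2) then (2 : ℝ) / 4 ^ n else 0) * (h z.1 - h z.2) =
      h z.1 * (2 / 4 ^ n) * (if Odd (par z.1 - par z.2) then (1 : ℝ) else 0) -
      h z.2 * (2 / 4 ^ n) * (if Odd (par z.1 - par z.2) then (1 : ℝ) else 0) := by
    intro z
    split_ifs <;> ring
  rw [Finset.sum_congr rfl fun z _ => key z, Finset.sum_sub_distrib]
  have e1 : ∑ z ∈ Box n v ×ˢ Box n w,
      h z.1 * (2 / 4 ^ n) * (if Odd (par z.1 - par z.2) then (1 : ℝ) else 0) =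
      avg (Box n v) h := by
    rw [Finset.sum_product]
    simp only
    unfold avg
    rw [card_Box n v hd, Finset.sum_div]
    refine Finset.sum_congr rfl fun x _ => ?_
    rw [← Finset.mul_sum, sum_odd hn, h4]
    push_cast
    field_simp
  have e2 : ∑ z ∈ Box n v ×ˢ Box n w,
      h z.2 * (2 / 4 ^ n) * (if Odd (par z.1 - par z.2) then (1 : ℝ) else 0) =
      avg (Box n w) h := by
    rw [Finset.sum_product_right]
    simp only
    unfold avg
    rw [card_Box n w hd, Finset.sum_div]
    refine Finset.sum_congr rfl fun x _ => ?_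
    rw [← Finset.mul_sum, sum_odd' hn, h4]
    push_cast
    field_simp
  rw [e1, e2]

end MP072e06
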