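import Pool.Agent.Lib.MP_072e06_pr.NNPsi
import Pool.Agent.Lib.MP_072e06_pr.Parity
import Pool.Agent.Lib.MP_072e06_pr.EdgeProb

/-!
The random flow `Fa` is a flow: with `p c = 2/4^n 1_odd`,
`∑ ξ c (h x - h y) - ∑ (ξ-p) c (h x - avg) + ∑ (ξ-p) c (h y - avg') = (1 + ζ)(avg - avg')`,
and `1 + ζ ≥ 1/2 > 0` off the fallback event.
-/

open MeasureTheory ENNReal
open scoped Classical

namespace MP072e06

variable {d : ℕ} [NeZero d]

/-- The cross pairs with their mean weights transport the uniform measure to that of the sibling. -/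
theorem sum_prob_cw (s : ℝ) {n : ℕ} (hn : 1 ≤ n) (v : V d) (h : V d → ℝ)
    (hp : ∀ x y : V d, 0 < edgeProb d s x y) :
    ∑ z ∈ Box n v ×ˢ Box n (nxt n v),
      edgeProb d s z.1 z.2 * cw d s n z.1 z.2 * (h z.1 - h z.2) =
      avg (Box n v) h - avg (Box n (nxt n v)) h := by
  rw [← cross_identity hn v (nxt n v) h]
  refine Finset.sum_congr rfl fun z _ => ?_
  congr 1
  unfold cw
  split_ifs
  · have := (hp z.1 z.2).ne'
    field_simp
  · rw [mul_zero]

theorem edgeProb_pos (s : ℝ) (x y : V d) : 0 < edgeProb d s x y := by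
  unfold edgeProb
  split_ifs with h
  · norm_num
  · have h1 : 0 < eDist x y := by linarith
    have h2 : 0 < eDist x y ^ (-s) := Real.rpow_pos_of_pos h1 _
    have : Real.exp (-(eDist x y ^ (-s))) < 1 := Real.exp_lt_one_iff.mpr (by linarith)
    linarith

theorem isFlow_Fa (s : ℝ) (n : ℕ) (v : V d) (ω : Env d) (Ψ : V d → V d → L2 d)
    (hΨ : ∀ w x, x ∈ Box n w →
      IsFlow (lrpGraph ω) (Box n w) (Ψ w x) (fun h => h x - avg (Box n w) h)) :
    IsFlow (lrpGraph ω) (Box (n + 1) v) (Fa s n v ω Ψ)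
      (fun h => avg (Box n v) h - avg (Box n (nxt n v)) h) := by
  unfold Fa
  split_ifs with hc
  · exact isFlow_nnF (lrpGraph_NN ω) n v
  push Not at hc
  obtain ⟨hn, hz⟩ := hc
  have hn1 : 1 ≤ n := Nat.one_le_iff_ne_zero.mpr hn
  have hs1 : Box n v ⊆ Box (n + 1) v := by rw [Box_succ]; exact Finset.subset_union_left
  have hs2 : Box n (nxt n v) ⊆ Box (n + 1) v := by rw [Box_succ]; exact Finset.subset_union_right
  have hA := isFlow_sum (G := lrpGraph ω) (S := Box (n + 1) v) (Box n v ×ˢ Box n (nxt n v))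
    (fun z => xi ω s(z.1, z.2) * cw d s n z.1 z.2) (fun z => sg z.1 z.2)
    (fun z h => h z.1 - h z.2) (fun z hz' hne => by
      have hz1 := (Finset.mem_product.mp hz').1
      have hz2 := (Finset.mem_product.mp hz').2
      have hxi : xi ω s(z.1, z.2) ≠ 0 := left_ne_zero_of_mul hne
      have hcw : cw d s n z.1 z.2 ≠ 0 := right_ne_zero_of_mul hne
      refine isFlow_sg (hs1 hz1) (hs2 hz2) ?_ ?_
      · refine ⟨fun h => ?_, Or.inr ?_⟩
        · exact Finset.disjoint_left.mp (Box_disj n v) hz1 (h ▸ hz2)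
        · by_contra hω
          exact hxi (by unfold xi; rw [if_neg hω])
      · by_contra ho
        exact hcw (by unfold cw; rw [if_neg ho]))
  have hB := isFlow_sum (G := lrpGraph ω) (S := Box (n + 1) v) (Box n v ×ˢ Box n (nxt n v))
    (fun z => (xi ω s(z.1, z.2) - edgeProb d s z.1 z.2) * cw d s n z.1 z.2) (fun z => Ψ v z.1)
    (fun z h => h z.1 - avg (Box n v) h) (fun z hz' _ =>
      IsFlow.mono hs1 (hΨ v z.1 (Finset.mem_product.mp hz').1))
  have hB' := isFlow_sum (G := lrpGraph ω) (S := Box (n + 1) v) (Box n v ×ˢ Box n (nxt n v))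
    (fun z => (xi ω s(z.1, z.2) - edgeProb d s z.1 z.2) * cw d s n z.1 z.2)
    (fun z => Ψ (nxt n v) z.2)
    (fun z h => h z.2 - avg (Box n (nxt n v)) h) (fun z hz' _ =>
      IsFlow.mono hs2 (hΨ (nxt n v) z.2 (Finset.mem_product.mp hz').2))
  refine (((hA.sub hB).add hB').smul (1 + zeta s n v ω)⁻¹).congr fun h => ?_
  have hpos : 0 < 1 + zeta s n v ω := by linarith
  have key : ∑ z ∈ Box n v ×ˢ Box n (nxt n v), xi ω s(z.1, z.2) * cw d s n z.1 z.2 *
        (h z.1 - h z.2) -
      ∑ z ∈ Box n v ×ˢ Box n (nxt n v), (xi ω s(z.1, z.2) - edgeProb d s z.1 z.2) *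
        cw d s n z.1 z.2 * (h z.1 - avg (Box n v) h) +
      ∑ z ∈ Box n v ×ˢ Box n (nxt n v), (xi ω s(z.1, z.2) - edgeProb d s z.1 z.2) *
        cw d s n z.1 z.2 * (h z.2 - avg (Box n (nxt n v)) h) =
      (1 + zeta s n v ω) * (avg (Box n v) h - avg (Box n (nxt n v)) h) := by
    rw [add_mul, one_mul, zeta, ← sum_prob_cw s hn1 v h (fun x y => edgeProb_pos s x y),
      Finset.sum_mul, ← Finset.sum_sub_distrib, ← Finset.sum_add_distrib,
      ← Finset.sum_add_distrib, sum_prob_cw s hn1 v h (fun x y => edgeProb_pos s x y)]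
    refine Finset.sum_congr rfl fun z _ => ?_
    ring
  rw [key, ← mul_assoc, inv_mul_cancel₀ hpos.ne', one_mul]

theorem isFlow_Psia (s : ℝ) (n : ℕ) (ω : Env d) (v x : V d) (hx : x ∈ Box n v) :
    IsFlow (lrpGraph ω) (Box n v) (Psia s n ω v x) (fun h => h x - avg (Box n v) h) := by
  induction n generalizing v x with
  | zero =>
    rw [Box_zero, Finset.mem_singleton] at hx
    subst hx
    unfold Psia
    refine isFlow_zero.congr fun h => ?_
    rw [Box_zero]
    simp [avg]
  | succ n ih =>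
    have hs1 : Box n v ⊆ Box (n + 1) v := by rw [Box_succ]; exact Finset.subset_union_left
    have hs2 : Box n (nxt n v) ⊆ Box (n + 1) v := by rw [Box_succ]; exact Finset.subset_union_right
    have hF := isFlow_Fa s n v ω (Psia s n ω) (fun w y hy => ih w y hy)
    unfold Psia
    split_ifs with h
    · refine ((IsFlow.mono hs1 (ih v x h)).add (hF.smul (1 / 2))).congr fun f => ?_
      rw [avg_Box_succ]; ring
    · have hx' : x ∈ Box n (nxt n v) := by
        rw [Box_succ, Finset.mem_union] at hx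
        exact hx.resolve_left h
      refine ((IsFlow.mono hs2 (ih (nxt n v) x hx')).sub (hF.smul (1 / 2))).congr fun f => ?_
      rw [avg_Box_succ]; ring

end MP072e06
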