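import Pool.Agent.Lib.MP_072e06_pr.FlowLemmas

/-!
Norm bounds of the translation flow.  `inner_trFlow_le`: each path flow is a sum of `l` unit vectors.
`trFlow_apply_le`: an edge `(z, z + e_a)` is used by the paths from `x = z - k e_a`, at most `side d n a`
points of the column of the box.  `norm_trFlow_sq_le`: the first with `J = trFlow`, `M` from the second.
-/

open MeasureTheory ENNReal
open scoped Classical

namespace MP072e06

variable {d : ℕ} {G : SimpleGraph (V d)}

private lemma nnb_inner_sg (x y : V d) (J : L2 d) : inner ℝ (sg x y) J = J (x, y) := by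
  unfold sg
  rw [lp.inner_single_left]
  simp

/-- The `ℓ¹` norm of the translation flow is at most `l` (dual form). -/
theorem inner_trFlow_le [NeZero d] (n : ℕ) (w : V d) (a : Fin d) (l : ℕ) (J : L2 d) (M : ℝ)
    (hM : ∀ z, |J z| ≤ M) : |inner ℝ (trFlow (Box n w) a l) J| ≤ l * M := by
  have hd : 0 < d := Nat.pos_of_ne_zero (NeZero.ne d)
  have hc : (0 : ℝ) < (Box n w).card := by
    rw [card_Box _ _ hd]
    positivity
  have h1 : inner ℝ (trFlow (Box n w) a l) J = ((Box n w).card : ℝ)⁻¹ *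
      ∑ x ∈ Box n w, ∑ k ∈ Finset.range l, J (mv a (k : ℤ) x, mv a ((k : ℤ) + 1) x) := by
    unfold trFlow pathFlow
    rw [real_inner_smul_left, sum_inner]
    congr 1
    refine Finset.sum_congr rfl fun x _ => ?_
    rw [sum_inner]
    exact Finset.sum_congr rfl fun k _ => nnb_inner_sg _ _ J
  rw [h1, abs_mul, abs_of_pos (inv_pos.2 hc)]
  have h2 : |∑ x ∈ Box n w, ∑ k ∈ Finset.range l, J (mv a (k : ℤ) x, mv a ((k : ℤ) + 1) x)| ≤
      (Box n w).card * (l * M) := by
    refine (Finset.abs_sum_le_sum_abs _ _).trans ?_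
    refine (Finset.sum_le_card_nsmul _ _ (l * M) fun x _ => ?_).trans (le_of_eq (nsmul_eq_mul _ _))
    refine (Finset.abs_sum_le_sum_abs _ _).trans ?_
    refine (Finset.sum_le_card_nsmul _ _ M fun k _ => hM _).trans (le_of_eq ?_)
    rw [Finset.card_range, nsmul_eq_mul]
  calc ((Box n w).card : ℝ)⁻¹ * |∑ x ∈ Box n w, ∑ k ∈ Finset.range l,
        J (mv a (k : ℤ) x, mv a ((k : ℤ) + 1) x)|
      ≤ ((Box n w).card : ℝ)⁻¹ * ((Box n w).card * (l * M)) :=
        mul_le_mul_of_nonneg_left h2 (inv_pos.2 hc).le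
    _ = l * M := by
        field_simp

private lemma nnb_trFlow_apply (S : Finset (V d)) (a : Fin d) (l : ℕ) (z : V d × V d) :
    trFlow S a l z = (S.card : ℝ)⁻¹ * ∑ x ∈ S, ∑ k ∈ Finset.range l,
      if z = (mv a (k : ℤ) x, mv a ((k : ℤ) + 1) x) then (1 : ℝ) else 0 := by
  unfold trFlow pathFlow
  rw [lp.coeFn_smul, Pi.smul_apply, smul_eq_mul, lp.coeFn_sum, Finset.sum_apply]
  congr 1
  refine Finset.sum_congr rfl fun x _ => ?_
  rw [lp.coeFn_sum, Finset.sum_apply]
  exact Finset.sum_congr rfl fun k _ => sg_apply _ _ z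

private lemma nnb_inner_le (a : Fin d) (l : ℕ) (x : V d) (z : V d × V d) :
    ∑ k ∈ Finset.range l, (if z = (mv a (k : ℤ) x, mv a ((k : ℤ) + 1) x) then (1 : ℝ) else 0) ≤
      if Function.update z.1 a (x a) = x then 1 else 0 := by
  by_cases h : Function.update z.1 a (x a) = x
  · rw [if_pos h]
    have hk : ∀ k : ℕ, z = (mv a (k : ℤ) x, mv a ((k : ℤ) + 1) x) → (k : ℤ) = z.1 a - x a := by
      intro k hz
      rw [hz]
      simp [mv]
    rw [← Finset.sum_filter]
    rw [Finset.sum_const, nsmul_eq_mul, mul_one]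
    have hcard : ((Finset.range l).filter
        fun k : ℕ => z = (mv a (k : ℤ) x, mv a ((k : ℤ) + 1) x)).card ≤ 1 := by
      rw [Finset.card_le_one]
      intro k1 h1 k2 h2
      rw [Finset.mem_filter] at h1 h2
      have := hk k1 h1.2
      have := hk k2 h2.2
      omega
    exact_mod_cast hcard
  · rw [if_neg h]
    refine Finset.sum_nonpos fun k _ => ?_
    rw [if_neg]
    intro hz
    apply h
    rw [hz]
    simp [mv]

/-- The `ℓ^∞` norm of the translation flow. -/
theorem trFlow_apply_le [NeZero d] (n : ℕ) (w : V d) (a : Fin d) (l : ℕ) (z : V d × V d) :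
    |trFlow (Box n w) a l z| ≤ side d n a / 2 ^ n := by
  have hd : 0 < d := Nat.pos_of_ne_zero (NeZero.ne d)
  rw [nnb_trFlow_apply, card_Box _ _ hd]
  have h0 : 0 ≤ ∑ x ∈ Box n w, ∑ k ∈ Finset.range l,
      (if z = (mv a (k : ℤ) x, mv a ((k : ℤ) + 1) x) then (1 : ℝ) else 0) := by
    refine Finset.sum_nonneg fun x _ => Finset.sum_nonneg fun k _ => ?_
    split_ifs
    · norm_num
    · exact le_rfl
  rw [abs_mul, abs_of_nonneg h0, abs_of_nonneg (by positivity)]
  push_cast
  rw [inv_mul_eq_div]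
  refine div_le_div_of_nonneg_right ?_ (by positivity)
  refine (Finset.sum_le_sum fun x _ => nnb_inner_le a l x z).trans ?_
  rw [← Finset.sum_filter, Finset.sum_const, nsmul_eq_mul, mul_one]
  have h1 : ((Box n w).filter fun x => Function.update z.1 a (x a) = x).card ≤
      (Finset.Ico (w a) (w a + side d n a)).card := by
    refine Finset.card_le_card_of_injOn (fun x => x a) ?_ ?_
    · intro x hx
      rw [Finset.mem_coe, Finset.mem_filter, mem_Box] at hx
      rw [Finset.mem_coe, Finset.mem_Ico]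
      exact hx.1 a
    · intro x hx y hy hxy
      rw [Finset.mem_coe, Finset.mem_filter] at hx hy
      have hxy' : x a = y a := hxy
      rw [← hx.2, ← hy.2, hxy']
  rw [Int.card_Ico] at h1
  have h2 : (w a + (side d n a : ℤ) - w a).toNat = side d n a := by
    rw [add_sub_cancel_left]
    simp
  rw [h2] at h1
  exact_mod_cast h1

theorem norm_trFlow_sq_le [NeZero d] (n : ℕ) (w : V d) (a : Fin d) (l : ℕ) :
    ‖trFlow (Box n w) a l‖ ^ 2 ≤ l * side d n a / 2 ^ n := by
  rw [← real_inner_self_eq_norm_sq]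
  refine (le_abs_self _).trans ((inner_trFlow_le n w a l _ _
    (fun z => trFlow_apply_le n w a l z)).trans (le_of_eq ?_))
  rw [mul_div_assoc]

end MP072e06
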