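import Pool.Agent.Lib.MP_072e06_pr.NNFlowA
import Pool.Agent.Lib.MP_072e06_pr.NNFlowB

/-!
The nearest-neighbour flow between siblings and the deterministic bound of `phi`.  For `phi_bound`: if
`En = 0` then the left side is `0` by `IsFlow.sq_le` with `nnF`.
-/

open MeasureTheory ENNReal
open scoped Classical

namespace MP072e06

variable {d : ℕ} {G : SimpleGraph (V d)}

theorem isFlow_nnF [NeZero d] (hNN : NN G) (n : ℕ) (v : V d) :
    IsFlow G (Box (n + 1) v) (nnF n v)
      (fun h => avg (Box n v) h - avg (Box n (nxt n v)) h) := by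
  unfold nnF
  rw [nxt_eq_mv]
  refine isFlow_trFlow hNN ?_
  intro x hx k hk
  rw [mem_Box] at hx ⊢
  intro i
  have hi := hx i
  have hs := side_succ (d := d) n i
  by_cases h : i = dir d n
  · rw [if_pos h] at hs
    subst h
    have h1 := side_dir (d := d) n
    rw [h1] at hs hi
    rw [hs]
    unfold mv
    rw [Function.update_self]
    push_cast
    constructor
    · linarith [hi.1]
    · have : (k : ℤ) ≤ rad d n := by exact_mod_cast hk
      linarith [hi.2]
  · rw [if_neg h] at hs
    rw [hs]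
    unfold mv
    rw [Function.update_of_ne h]
    exact hi

theorem norm_nnF_sq_le [NeZero d] (n : ℕ) (v : V d) :
    ‖nnF n v‖ ^ 2 ≤ (rad d n : ℝ) ^ 2 / 2 ^ n := by
  refine (norm_trFlow_sq_le n v (dir d n) (rad d n)).trans (le_of_eq ?_)
  rw [side_dir, sq]

theorem phi_le_nn [NeZero d] (hNN : NN G) (n : ℕ) (v : V d) :
    phi n v G ≤ ENNReal.ofReal ((rad d n : ℝ) ^ 2 / 2 ^ n) :=
  (phi_le_of_flow (isFlow_nnF hNN n v)).trans (ENNReal.ofReal_le_ofReal (norm_nnF_sq_le n v))

theorem phi_bound [NeZero d] (hNN : NN G) (n : ℕ) (v : V d) (h : V d → ℝ) :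
    ENNReal.ofReal ((avg (Box n v) h - avg (Box n (nxt n v)) h) ^ 2) ≤
      phi n v G * ENNReal.ofReal (En G (Box (n + 1) v) h) := by
  rcases (En_nonneg G (Box (n + 1) v) h).eq_or_lt with h0 | h0
  · have h1 := (isFlow_nnF hNN n v).sq_le h
    rw [← h0, mul_zero] at h1
    rw [ENNReal.ofReal_eq_zero.2 h1]
    exact zero_le
  · have h1 : ENNReal.ofReal ((avg (Box n v) h - avg (Box n (nxt n v)) h) ^ 2) /
        ENNReal.ofReal (En G (Box (n + 1) v) h) ≤ phi n v G := by
      unfold phi
      exact le_iSup (fun h : V d → ℝ =>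
        ENNReal.ofReal ((avg (Box n v) h - avg (Box n (nxt n v)) h) ^ 2) /
          ENNReal.ofReal (En G (Box (n + 1) v) h)) h
    rwa [ENNReal.div_le_iff (by simpa using h0) ENNReal.ofReal_ne_top] at h1

end MP072e06
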