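import Pool.Agent.Lib.MP_072e06_pr.FlowLemmas

/-!
Dependence on finitely many edges (joint induction on `n`; `Psia s n ω w x` enters `Fa s n v ω`
only for `w = v`, `x ∈ Box n v` and `w = nxt n v`, `x ∈ Box n (nxt n v)`).
-/

open MeasureTheory ENNReal
open scoped Classical

namespace MP072e06

variable {d : ℕ} [NeZero d]

private lemma Box_sub1 (n : ℕ) (v : V d) : Box n v ⊆ Box (n + 1) v := by
  rw [Box_succ]; exact Finset.subset_union_left

private lemma Box_sub2 (n : ℕ) (v : V d) : Box n (nxt n v) ⊆ Box (n + 1) v := by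
  rw [Box_succ]; exact Finset.subset_union_right

private lemma sym2_sub {S T : Finset (V d)} (h : S ⊆ T) {ω ω' : Env d}
    (h' : ∀ e ∈ (T.sym2 : Set (Sym2 (V d))), ω e = ω' e) :
    ∀ e ∈ (S.sym2 : Set (Sym2 (V d))), ω e = ω' e :=
  fun e he => h' e (Finset.sym2_mono h he)

private lemma Fa_dep_aux (s : ℝ) (n : ℕ) (v : V d)
    (hP : ∀ w x : V d, x ∈ Box n w →
      DependsOn (fun ω : Env d => Psia s n ω w x) ((Box n w).sym2 : Set (Sym2 (V d)))) :
    DependsOn (fun ω : Env d => Fa s n v ω (Psia s n ω))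
      ((Box (n + 1) v).sym2 : Set (Sym2 (V d))) := by
  intro ω ω' h
  show Fa s n v ω (Psia s n ω) = Fa s n v ω' (Psia s n ω')
  have hxi : ∀ z ∈ Box n v ×ˢ Box n (nxt n v), xi ω s(z.1, z.2) = xi ω' s(z.1, z.2) := by
    intro z hz
    rw [Finset.mem_product] at hz
    unfold xi
    rw [h s(z.1, z.2)]
    exact Finset.mk_mem_sym2_iff.2 ⟨Box_sub1 n v hz.1, Box_sub2 n v hz.2⟩
  have h1 : ∀ z ∈ Box n v ×ˢ Box n (nxt n v), Psia s n ω v z.1 = Psia s n ω' v z.1 := by
    intro z hz
    rw [Finset.mem_product] at hz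
    exact hP v z.1 hz.1 (sym2_sub (Box_sub1 n v) h)
  have h2 : ∀ z ∈ Box n v ×ˢ Box n (nxt n v),
      Psia s n ω (nxt n v) z.2 = Psia s n ω' (nxt n v) z.2 := by
    intro z hz
    rw [Finset.mem_product] at hz
    exact hP (nxt n v) z.2 hz.2 (sym2_sub (Box_sub2 n v) h)
  have hz : zeta s n v ω = zeta s n v ω' := by
    unfold zeta
    exact Finset.sum_congr rfl fun z hz => by rw [hxi z hz]
  unfold Fa
  rw [hz]
  congr 1
  congr 1
  congr 1
  · congr 1
    · exact Finset.sum_congr rfl fun z hz => by rw [hxi z hz]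
    · exact Finset.sum_congr rfl fun z hz => by rw [hxi z hz, h1 z hz]
  · exact Finset.sum_congr rfl fun z hz => by rw [hxi z hz, h2 z hz]

theorem Psia_dependsOn (s : ℝ) (n : ℕ) (v x : V d) (hx : x ∈ Box n v) :
    DependsOn (fun ω : Env d => Psia s n ω v x) ((Box n v).sym2 : Set (Sym2 (V d))) := by
  induction n generalizing v x with
  | zero => intro ω ω' _; rfl
  | succ n ih =>
    have hF := Fa_dep_aux s n v ih
    intro ω ω' h
    show Psia s (n + 1) ω v x = Psia s (n + 1) ω' v x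
    have hF' : Fa s n v ω (Psia s n ω) = Fa s n v ω' (Psia s n ω') := hF h
    simp only [Psia]
    rw [hF']
    split_ifs with hx1
    · rw [show Psia s n ω v x = Psia s n ω' v x from ih v x hx1 (sym2_sub (Box_sub1 n v) h)]
    · have hx2 : x ∈ Box n (nxt n v) := by
        rw [Box_succ, Finset.mem_union] at hx
        exact hx.resolve_left hx1
      rw [show Psia s n ω (nxt n v) x = Psia s n ω' (nxt n v) x from
        ih (nxt n v) x hx2 (sym2_sub (Box_sub2 n v) h)]

theorem Fa_dependsOn (s : ℝ) (n : ℕ) (v : V d) :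
    DependsOn (fun ω : Env d => Fa s n v ω (Psia s n ω))
      ((Box (n + 1) v).sym2 : Set (Sym2 (V d))) :=
  Fa_dep_aux s n v fun w x hx => Psia_dependsOn s n w x hx

end MP072e06
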