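import Pool.Agent.Lib.MP_072e06_pr.RosenOne
import Pool.Agent.Lib.MP_072e06_pr.Resample
import Pool.Agent.Lib.MP_072e06_pr.Meas

/-!
Rosenthal inequality for Hilbert-valued sums with coefficients not depending on the summed
coordinates.
-/

open MeasureTheory ENNReal
open scoped Classical

namespace MP072e06

private lemma rosen_weighted (j : ℕ) : ∃ D : ℝ≥0∞, D < ∞ ∧
    ∀ (ι κ : Type) [DecidableEq ι] (p : ι → unitInterval)
      (H : Type) [NormedAddCommGroup H] [InnerProductSpace ℝ H]
      (T : Finset κ) (e : κ → ι) (_ : Set.InjOn e T) (B : Finset ι)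
      (_ : ∀ k ∈ T, e k ∉ B) (v : κ → (ι → Bool) → H)
      (_ : ∀ k ∈ T, DependsOn (v k) (B : Set ι))
      (X : (ι → Bool) → ℝ≥0∞) (_ : DependsOn X (B : Set ι))
      (_ : ∀ ω, ∀ i : ℕ, 1 ≤ i → i ≤ j →
        ∑ k ∈ T, ENNReal.ofReal (p (e k) : ℝ) * ENNReal.ofReal (‖v k ω‖) ^ (2 * i) ≤ X ω ^ i)
      (g : (ι → Bool) → ℝ≥0∞) (_ : DependsOn g (B : Set ι)) (U : Finset κ) (_ : U ⊆ T),
      ∫⁻ ω, g ω * ENNReal.ofReal (‖∑ k ∈ U, (xi ω (e k) - (p (e k) : ℝ)) • v k ω‖) ^ (2 * j)
          ∂(bernProd p) ≤ D * ∫⁻ ω, g ω * X ω ^ j ∂(bernProd p) := by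
  induction j with
  | zero =>
    refine ⟨1, ENNReal.one_lt_top, ?_⟩
    intro ι κ _ p H _ _ T e he B hB v hv X hX hs g hg U hU
    simp
  | succ j ih =>
    obtain ⟨D, hD, ih⟩ := ih
    obtain ⟨C, hC, hone⟩ := rosenthal_one_step (j + 1) (by omega)
    refine ⟨ENNReal.ofReal C * (D + 1), ENNReal.mul_lt_top ENNReal.ofReal_lt_top
      (ENNReal.add_lt_top.2 ⟨hD, ENNReal.one_lt_top⟩), ?_⟩
    intro ι κ _ p H _ _ T e he B hB v hv X hX hs g hg U hU
    -- measurability of everything
    let F : Finset ι := B ∪ T.image e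
    have hBF : ∀ {ω ω' : ι → Bool}, (∀ i ∈ (F : Set ι), ω i = ω' i) →
        ∀ i ∈ (B : Set ι), ω i = ω' i := fun h i hi =>
      h i (by simp only [F, Finset.coe_union, Set.mem_union]; exact Or.inl hi)
    have hTF : ∀ {ω ω' : ι → Bool}, (∀ i ∈ (F : Set ι), ω i = ω' i) →
        ∀ k ∈ T, xi ω (e k) = xi ω' (e k) := by
      intro ω ω' h k hk
      unfold xi
      rw [h (e k) (by
        simp only [F, Finset.coe_union, Set.mem_union]
        exact Or.inr (by simpa using ⟨k, hk, rfl⟩))]
    have hS : ∀ U' ⊆ T, ∀ {ω ω' : ι → Bool}, (∀ i ∈ (F : Set ι), ω i = ω' i) →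
        ∑ k ∈ U', (xi ω (e k) - (p (e k) : ℝ)) • v k ω =
          ∑ k ∈ U', (xi ω' (e k) - (p (e k) : ℝ)) • v k ω' := by
      intro U' hU' ω ω' h
      refine Finset.sum_congr rfl fun k hk => ?_
      rw [hTF h k (hU' hk), hv k (hU' hk) (hBF h)]
    have hmg : Measurable g := measurable_of_dependsOn g B hg
    have hmX : Measurable X := measurable_of_dependsOn X B hX
    have hmv : ∀ k ∈ T, Measurable fun ω => ENNReal.ofReal ‖v k ω‖ := fun k hk =>
      measurable_of_dependsOn _ B fun ω ω' h => by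
        show ENNReal.ofReal ‖v k ω‖ = ENNReal.ofReal ‖v k ω'‖
        rw [hv k hk h]
    have hmS : ∀ U' ⊆ T, Measurable fun ω : ι → Bool =>
        ENNReal.ofReal ‖∑ k ∈ U', (xi ω (e k) - (p (e k) : ℝ)) • v k ω‖ := fun U' hU' =>
      measurable_of_dependsOn _ F fun ω ω' h => by
        show ENNReal.ofReal ‖_‖ = ENNReal.ofReal ‖_‖
        rw [hS U' hU' h]
    -- inner induction
    have inner : ∀ U' : Finset κ, U' ⊆ T →
        ∫⁻ ω, g ω * ENNReal.ofReal (‖∑ k ∈ U', (xi ω (e k) - (p (e k) : ℝ)) • v k ω‖) ^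
          (2 * (j + 1)) ∂(bernProd p) ≤
        ∑ k ∈ U', ENNReal.ofReal C *
          (D * ∫⁻ ω, (g ω * (ENNReal.ofReal (p (e k) : ℝ) * ENNReal.ofReal ‖v k ω‖ ^ 2)) *
            X ω ^ j ∂(bernProd p) +
          ∫⁻ ω, g ω * (ENNReal.ofReal (p (e k) : ℝ) *
            ENNReal.ofReal ‖v k ω‖ ^ (2 * (j + 1))) ∂(bernProd p)) := by
      intro U'
      induction U' using Finset.induction_on with
      | empty => intro _; simp
      | insert k U' hk ihU =>
        intro hUk
        have hkT : k ∈ T := hUk (Finset.mem_insert_self _ _)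
        have hUT : U' ⊆ T := fun i hi => hUk (Finset.mem_insert_of_mem hi)
        rw [Finset.sum_insert hk]
        have hmf : Measurable fun ω : ι → Bool =>
            g ω * ENNReal.ofReal (‖∑ i ∈ insert k U', (xi ω (e i) - (p (e i) : ℝ)) • v i ω‖) ^
              (2 * (j + 1)) := hmg.mul ((hmS _ hUk).pow_const _)
        rw [lintegral_resample p (e k) _ hmf]
        -- pointwise bound
        have hkB : e k ∉ B := hB k hkT
        have hupd : ∀ (ω : ι → Bool) (b : Bool), ∀ i ∈ (B : Set ι),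
            Function.update ω (e k) b i = ω i := fun ω b i hi =>
          Function.update_of_ne (fun h => hkB (by rw [← h]; exact hi)) _ _
        have hgu : ∀ ω b, g (Function.update ω (e k) b) = g ω := fun ω b => hg (hupd ω b)
        have hvu : ∀ i ∈ T, ∀ ω b, v i (Function.update ω (e k) b) = v i ω := fun i hi ω b =>
          hv i hi (hupd ω b)
        have hsum : ∀ ω b, ∑ i ∈ insert k U',
            (xi (Function.update ω (e k) b) (e i) - (p (e i) : ℝ)) •
              v i (Function.update ω (e k) b) =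
            ∑ i ∈ U', (xi ω (e i) - (p (e i) : ℝ)) • v i ω +
              ((if b = true then 1 else 0) - (p (e k) : ℝ)) • v k ω := by
          intro ω b
          rw [Finset.sum_insert hk, add_comm]
          congr 1
          · refine Finset.sum_congr rfl fun i hi => ?_
            have hne : e i ≠ e k := fun h => hk (by
              have := he (hUT hi) hkT h
              rwa [this] at hi)
            rw [hvu i (hUT hi)]
            unfold xi
            rw [Function.update_of_ne hne]
          · rw [hvu k hkT]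
            unfold xi
            rw [Function.update_self]
        have hp := (p (e k)).2
        have hpt : ∀ ω, ENNReal.ofReal (p (e k) : ℝ) *
              (g (Function.update ω (e k) true) *
                ENNReal.ofReal (‖∑ i ∈ insert k U',
                  (xi (Function.update ω (e k) true) (e i) - (p (e i) : ℝ)) •
                    v i (Function.update ω (e k) true)‖) ^ (2 * (j + 1))) +
            ENNReal.ofReal (1 - (p (e k) : ℝ)) *
              (g (Function.update ω (e k) false) *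
                ENNReal.ofReal (‖∑ i ∈ insert k U',
                  (xi (Function.update ω (e k) false) (e i) - (p (e i) : ℝ)) •
                    v i (Function.update ω (e k) false)‖) ^ (2 * (j + 1))) ≤
            g ω * ENNReal.ofReal (‖∑ i ∈ U', (xi ω (e i) - (p (e i) : ℝ)) • v i ω‖) ^
                (2 * (j + 1)) +
              ENNReal.ofReal C *
                ((g ω * (ENNReal.ofReal (p (e k) : ℝ) * ENNReal.ofReal ‖v k ω‖ ^ 2)) *
                    ENNReal.ofReal (‖∑ i ∈ U', (xi ω (e i) - (p (e i) : ℝ)) • v i ω‖) ^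
                      (2 * j) +
                  g ω * (ENNReal.ofReal (p (e k) : ℝ) *
                    ENNReal.ofReal ‖v k ω‖ ^ (2 * (j + 1)))) := by
          intro ω
          rw [hgu, hgu, hsum, hsum]
          simp only [if_true, Bool.false_eq_true, if_false]
          set S := ∑ i ∈ U', (xi ω (e i) - (p (e i) : ℝ)) • v i ω with hSdef
          have h1 := hone H S (v k ω) (p (e k)) hp.1 hp.2
          have e1 : 2 * (j + 1) - 2 = 2 * j := by omega
          rw [e1] at h1
          have e2 : (0 - (p (e k) : ℝ)) • v k ω = -((p (e k) : ℝ) • v k ω) := by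
            rw [zero_sub, neg_smul]
          rw [e2, ← sub_eq_add_neg]
          have hlhs : ENNReal.ofReal (p (e k) : ℝ) *
              (g ω * ENNReal.ofReal ‖S + (1 - (p (e k) : ℝ)) • v k ω‖ ^ (2 * (j + 1))) +
              ENNReal.ofReal (1 - (p (e k) : ℝ)) *
              (g ω * ENNReal.ofReal ‖S - (p (e k) : ℝ) • v k ω‖ ^ (2 * (j + 1))) =
              g ω * ENNReal.ofReal ((p (e k) : ℝ) *
                ‖S + (1 - (p (e k) : ℝ)) • v k ω‖ ^ (2 * (j + 1)) +
                (1 - (p (e k) : ℝ)) * ‖S - (p (e k) : ℝ) • v k ω‖ ^ (2 * (j + 1))) := by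
            rw [ENNReal.ofReal_add (mul_nonneg hp.1 (by positivity))
              (mul_nonneg (by linarith [hp.2]) (by positivity)),
              ENNReal.ofReal_mul hp.1, ENNReal.ofReal_mul (by linarith [hp.2]),
              ENNReal.ofReal_pow (norm_nonneg _), ENNReal.ofReal_pow (norm_nonneg _)]
            ring
          have hrhs : g ω * ENNReal.ofReal ‖S‖ ^ (2 * (j + 1)) +
              ENNReal.ofReal C *
                ((g ω * (ENNReal.ofReal (p (e k) : ℝ) * ENNReal.ofReal ‖v k ω‖ ^ 2)) *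
                    ENNReal.ofReal ‖S‖ ^ (2 * j) +
                  g ω * (ENNReal.ofReal (p (e k) : ℝ) *
                    ENNReal.ofReal ‖v k ω‖ ^ (2 * (j + 1)))) =
              g ω * ENNReal.ofReal (‖S‖ ^ (2 * (j + 1)) + C * (p (e k) : ℝ) *
                (‖v k ω‖ ^ 2 * ‖S‖ ^ (2 * j) + ‖v k ω‖ ^ (2 * (j + 1)))) := by
            rw [ENNReal.ofReal_add (by positivity)
              (mul_nonneg (mul_nonneg hC hp.1) (by positivity)),
              ENNReal.ofReal_mul (mul_nonneg hC hp.1), ENNReal.ofReal_mul hC,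
              ENNReal.ofReal_add (by positivity) (by positivity),
              ENNReal.ofReal_mul (by positivity),
              ENNReal.ofReal_pow (norm_nonneg _), ENNReal.ofReal_pow (norm_nonneg _),
              ENNReal.ofReal_pow (norm_nonneg _), ENNReal.ofReal_pow (norm_nonneg _)]
            ring
          rw [hlhs, hrhs]
          exact mul_le_mul_right (ENNReal.ofReal_le_ofReal h1) _
        have hmv2 : Measurable fun ω : ι → Bool =>
            (g ω * (ENNReal.ofReal (p (e k) : ℝ) * ENNReal.ofReal ‖v k ω‖ ^ 2)) :=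
          hmg.mul (((hmv k hkT).pow_const _).const_mul _)
        have hmv3 : Measurable fun ω : ι → Bool =>
            g ω * (ENNReal.ofReal (p (e k) : ℝ) *
                    ENNReal.ofReal ‖v k ω‖ ^ (2 * (j + 1))) :=
          hmg.mul (((hmv k hkT).pow_const _).const_mul _)
        have hmS1 : Measurable fun ω : ι → Bool =>
            g ω * ENNReal.ofReal (‖∑ i ∈ U', (xi ω (e i) - (p (e i) : ℝ)) • v i ω‖) ^
                (2 * (j + 1)) := hmg.mul ((hmS _ hUT).pow_const _)
        have hmS2 : Measurable fun ω : ι → Bool =>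
            (g ω * (ENNReal.ofReal (p (e k) : ℝ) * ENNReal.ofReal ‖v k ω‖ ^ 2)) *
                    ENNReal.ofReal (‖∑ i ∈ U', (xi ω (e i) - (p (e i) : ℝ)) • v i ω‖) ^
                      (2 * j) := hmv2.mul ((hmS _ hUT).pow_const _)
        refine (lintegral_mono hpt).trans ?_
        have hm23 : Measurable fun ω : ι → Bool =>
            (g ω * (ENNReal.ofReal (p (e k) : ℝ) * ENNReal.ofReal ‖v k ω‖ ^ 2)) *
                    ENNReal.ofReal (‖∑ i ∈ U', (xi ω (e i) - (p (e i) : ℝ)) • v i ω‖) ^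
                      (2 * j) +
              g ω * (ENNReal.ofReal (p (e k) : ℝ) *
                    ENNReal.ofReal ‖v k ω‖ ^ (2 * (j + 1))) := hmS2.add hmv3
        rw [lintegral_add_left hmS1, lintegral_const_mul _ hm23,
          lintegral_add_left hmS2, add_comm]
        -- outer induction hypothesis
        have hdep : DependsOn (fun ω : ι → Bool =>
            g ω * (ENNReal.ofReal (p (e k) : ℝ) * ENNReal.ofReal ‖v k ω‖ ^ 2))
              (B : Set ι) := by
          intro ω ω' h
          show g ω * (ENNReal.ofReal (p (e k) : ℝ) * ENNReal.ofReal ‖v k ω‖ ^ 2) =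
            g ω' * (ENNReal.ofReal (p (e k) : ℝ) * ENNReal.ofReal ‖v k ω'‖ ^ 2)
          rw [hg h, hv k hkT h]
        have h2 := ih ι κ p H T e he B hB v hv X hX
          (fun ω i h1 h2 => hs ω i h1 (by omega)) _ hdep U' hUT
        gcongr
        exact ihU hUT
    refine (inner U hU).trans ?_
    -- sum up
    have hsumT : ∀ i : ℕ, 1 ≤ i → i ≤ j + 1 → ∀ w : (ι → Bool) → ℝ≥0∞, Measurable w →
        ∑ k ∈ U, ∫⁻ ω, w ω * (ENNReal.ofReal (p (e k) : ℝ) *
          ENNReal.ofReal ‖v k ω‖ ^ (2 * i)) ∂(bernProd p) ≤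
        ∫⁻ ω, w ω * X ω ^ i ∂(bernProd p) := by
      intro i hi1 hi2 w hw
      have hmk : ∀ k ∈ U, Measurable fun ω : ι → Bool =>
          w ω * (ENNReal.ofReal (p (e k) : ℝ) * ENNReal.ofReal ‖v k ω‖ ^ (2 * i)) := fun k hk =>
        hw.mul (((hmv k (hU hk)).pow_const _).const_mul _)
      rw [← lintegral_finsetSum U hmk]
      apply lintegral_mono
      intro ω
      simp only
      rw [← Finset.mul_sum]
      gcongr
      exact (Finset.sum_le_sum_of_subset hU).trans (hs ω i hi1 hi2)
    have e3 : ∀ k, ∫⁻ ω, (g ω * (ENNReal.ofReal (p (e k) : ℝ) * ENNReal.ofReal ‖v k ω‖ ^ 2)) *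
            X ω ^ j ∂(bernProd p) = ∫⁻ ω, (g ω * X ω ^ j) * (ENNReal.ofReal (p (e k) : ℝ) *
            ENNReal.ofReal ‖v k ω‖ ^ (2 * 1)) ∂(bernProd p) := by
      intro k
      congr 1
      funext ω
      ring
    simp only [e3]
    rw [← Finset.mul_sum, Finset.sum_add_distrib, ← Finset.mul_sum]
    have h4 := hsumT 1 le_rfl (by omega) (fun ω => g ω * X ω ^ j) (hmg.mul (hmX.pow_const _))
    have h5 := hsumT (j + 1) (by omega) le_rfl g hmg
    have e4 : ∫⁻ ω, g ω * X ω ^ j * X ω ^ 1 ∂(bernProd p) =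
        ∫⁻ ω, g ω * X ω ^ (j + 1) ∂(bernProd p) := by
      congr 1
      funext ω
      rw [mul_assoc, ← pow_add]
    rw [e4] at h4
    calc _ ≤ ENNReal.ofReal C * (D * ∫⁻ ω, g ω * X ω ^ (j + 1) ∂(bernProd p) +
          ∫⁻ ω, g ω * X ω ^ (j + 1) ∂(bernProd p)) := by gcongr
      _ = _ := by ring

/-- Rosenthal inequality for Hilbert-valued sums of independent centred Bernoulli variables with
random coefficients which do not depend on the summed coordinates. -/
theorem rosenthal (q : ℕ) (hq : 1 ≤ q) : ∃ D : ℝ≥0∞, D < ∞ ∧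
    ∀ (ι κ : Type) [DecidableEq ι] (p : ι → unitInterval)
      (H : Type) [NormedAddCommGroup H] [InnerProductSpace ℝ H]
      (T : Finset κ) (e : κ → ι) (_ : Set.InjOn e T) (B : Finset ι)
      (_ : ∀ k ∈ T, e k ∉ B) (v : κ → (ι → Bool) → H)
      (_ : ∀ k ∈ T, DependsOn (v k) (B : Set ι))
      (X : (ι → Bool) → ℝ≥0∞) (_ : DependsOn X (B : Set ι))
      (_ : ∀ ω, ∀ j : ℕ, 1 ≤ j → j ≤ q →
        ∑ k ∈ T, ENNReal.ofReal (p (e k) : ℝ) * ENNReal.ofReal (‖v k ω‖) ^ (2 * j) ≤ X ω ^ j),
      ∫⁻ ω, ENNReal.ofReal (‖∑ k ∈ T, (xi ω (e k) - (p (e k) : ℝ)) • v k ω‖) ^ (2 * q)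
          ∂(bernProd p) ≤ D * ∫⁻ ω, X ω ^ q ∂(bernProd p) := by
  obtain ⟨D, hD, h⟩ := rosen_weighted q
  refine ⟨D, hD, ?_⟩
  intro ι κ _ p H _ _ T e he B hB v hv X hX hs
  have := h ι κ p H T e he B hB v hv X hX hs (fun _ => 1) (fun _ _ _ => rfl) T
    (Finset.Subset.refl _)
  simpa using this

end MP072e06
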