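import Pool.Agent.Lib.MP_072e06_pr.Weights
import Pool.Agent.Lib.MP_072e06_pr.Rosenthal
import Pool.Agent.Lib.MP_072e06_pr.PsiaDep

/-!
Rosenthal with `T = Box n v ×ˢ Box n (nxt n v)`, `e z = s(z.1, z.2)` (injective on `T` as the boxes
are disjoint), `B = (Box n v).sym2`, `v z ω = cw z • Psia s n ω v z.1`.
-/

open MeasureTheory ENNReal
open scoped Classical

namespace MP072e06

private lemma partB_mean {κ : Type*} (R : Finset κ) (hR : R.Nonempty) (f : κ → ℝ≥0∞) (q j : ℕ)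
    (hj : 1 ≤ j) (hjq : j ≤ q) :
    (∑ x ∈ R, f x ^ (2 * j)) / (R.card : ℝ≥0∞) ≤
      ((∑ x ∈ R, f x ^ (2 * q)) / (R.card : ℝ≥0∞)) ^ ((j : ℝ) / q) := by
  have hc0 : (R.card : ℝ≥0∞) ≠ 0 := by
    rw [Nat.cast_ne_zero]; exact hR.card_pos.ne'
  have hct : (R.card : ℝ≥0∞) ≠ ∞ := ENNReal.natCast_ne_top _
  have hj0 : (0 : ℝ) < j := by exact_mod_cast hj
  have hq0 : (0 : ℝ) < q := by exact_mod_cast (lt_of_lt_of_le hj hjq)
  have h1 : (1 : ℝ) ≤ (q : ℝ) / j := by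
    rw [le_div_iff₀ hj0]; simpa using (by exact_mod_cast hjq : (j : ℝ) ≤ q)
  have h := ENNReal.rpow_arith_mean_le_arith_mean_rpow R
    (fun _ => (R.card : ℝ≥0∞)⁻¹) (fun x => f x ^ (2 * j))
    (by rw [Finset.sum_const, nsmul_eq_mul, ENNReal.mul_inv_cancel hc0 hct]) h1
  have e1 : ∀ x, (f x ^ (2 * j)) ^ ((q : ℝ) / j) = f x ^ (2 * q) := by
    intro x
    rw [← ENNReal.rpow_natCast, ← ENNReal.rpow_mul, ← ENNReal.rpow_natCast]
    congr 1
    push_cast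
    field_simp
  simp only [e1] at h
  rw [← Finset.mul_sum, ← Finset.mul_sum, mul_comm, mul_comm (R.card : ℝ≥0∞)⁻¹,
    ← div_eq_mul_inv, ← div_eq_mul_inv] at h
  have h2 := ENNReal.rpow_le_rpow h (by positivity : (0 : ℝ) ≤ (j : ℝ) / q)
  rw [← ENNReal.rpow_mul] at h2
  have e2 : (q : ℝ) / j * (j / q) = 1 := by field_simp
  rwa [e2, ENNReal.rpow_one] at h2

/-- General moment bound of a doubly indexed centred sum with row coefficients. -/
theorem partB_general (q : ℕ) (hq : 1 ≤ q) : ∃ D : ℝ≥0∞, D < ∞ ∧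
    ∀ (d : ℕ) (s : ℝ) (R S : Finset (V d)) (_ : Disjoint R S) (_ : R.Nonempty)
      (c : V d → V d → ℝ) (_ : ∀ x y, 0 ≤ c x y) (a : ℝ) (_ : 0 ≤ a)
      (_ : ∀ x ∈ R, ∀ j : ℕ, 1 ≤ j → j ≤ q →
        ∑ y ∈ S, edgeProb d s x y * c x y ^ (2 * j) ≤ a ^ j / R.card)
      (Ψ : V d → Env d → L2 d)
      (_ : ∀ x ∈ R, DependsOn (Ψ x) (R.sym2 : Set (Sym2 (V d)))),
      ∫⁻ ω, ENNReal.ofReal ‖∑ z ∈ R ×ˢ S,
          ((xi ω s(z.1, z.2) - edgeProb d s z.1 z.2) * c z.1 z.2) • Ψ z.1 ω‖ ^ (2 * q)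
            ∂(LRP d s) ≤
        D * (ENNReal.ofReal (a ^ q) *
          ((∑ x ∈ R, ∫⁻ ω, ENNReal.ofReal ‖Ψ x ω‖ ^ (2 * q) ∂(LRP d s)) / (R.card : ℝ≥0∞))) := by
  obtain ⟨D, hD, hros⟩ := rosenthal q hq
  refine ⟨D, hD, ?_⟩
  intro d s R S hRS hR c hc a ha hrow Ψ hΨ
  have hq0 : (0 : ℝ) < q := by exact_mod_cast hq
  have hc0 : (R.card : ℝ≥0∞) ≠ 0 := by
    rw [Nat.cast_ne_zero]; exact hR.card_pos.ne'
  have hct : (R.card : ℝ≥0∞) ≠ ∞ := ENNReal.natCast_ne_top _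
  let M : Env d → ℝ≥0∞ := fun ω =>
    (∑ x ∈ R, ENNReal.ofReal ‖Ψ x ω‖ ^ (2 * q)) / (R.card : ℝ≥0∞)
  let X : Env d → ℝ≥0∞ := fun ω => ENNReal.ofReal a * (M ω) ^ ((1 : ℝ) / q)
  have hmΨ : ∀ x ∈ R, Measurable fun ω : Env d => ENNReal.ofReal ‖Ψ x ω‖ := fun x hx =>
    measurable_of_dependsOn _ R.sym2 fun ω ω' h => by
      show ENNReal.ofReal ‖Ψ x ω‖ = ENNReal.ofReal ‖Ψ x ω'‖
      rw [hΨ x hx h]
  have hinj : Set.InjOn (fun z : V d × V d => s(z.1, z.2)) (R ×ˢ S : Finset (V d × V d)) := by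
    intro z hz z' hz' h
    simp only [Finset.coe_product, Set.mem_prod, Finset.mem_coe] at hz hz'
    simp only [Sym2.eq_iff] at h
    rcases h with ⟨h1, h2⟩ | ⟨h1, h2⟩
    · exact Prod.ext h1 h2
    · exfalso
      exact Finset.disjoint_left.1 hRS hz.1 (h1 ▸ hz'.2)
  have hnB : ∀ z ∈ R ×ˢ S, (fun z : V d × V d => s(z.1, z.2)) z ∉ R.sym2 := by
    intro z hz h
    rw [Finset.mem_product] at hz
    have := (Finset.mk_mem_sym2_iff.1 h).2
    exact Finset.disjoint_left.1 hRS this hz.2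
  have key := hros (Sym2 (V d)) (V d × V d) (edgeProb2 d s) (L2 d) (R ×ˢ S)
    (fun z => s(z.1, z.2)) hinj R.sym2 hnB (fun z ω => c z.1 z.2 • Ψ z.1 ω)
    (by
      intro z hz ω ω' h
      rw [Finset.mem_product] at hz
      show c z.1 z.2 • Ψ z.1 ω = c z.1 z.2 • Ψ z.1 ω'
      rw [hΨ z.1 hz.1 h])
    X
    (by
      intro ω ω' h
      show ENNReal.ofReal a * (M ω) ^ ((1 : ℝ) / q) = ENNReal.ofReal a * (M ω') ^ ((1 : ℝ) / q)
      have : M ω = M ω' := by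
        show (∑ x ∈ R, ENNReal.ofReal ‖Ψ x ω‖ ^ (2 * q)) / (R.card : ℝ≥0∞) =
          (∑ x ∈ R, ENNReal.ofReal ‖Ψ x ω'‖ ^ (2 * q)) / (R.card : ℝ≥0∞)
        congr 1
        exact Finset.sum_congr rfl fun x hx => by rw [hΨ x hx h]
      rw [this])
    (by
      intro ω j hj hjq
      have hXj : X ω ^ j = ENNReal.ofReal (a ^ j) * (M ω) ^ ((j : ℝ) / q) := by
        show (ENNReal.ofReal a * (M ω) ^ ((1 : ℝ) / q)) ^ j = _
        rw [mul_pow, ← ENNReal.ofReal_pow ha, ← ENNReal.rpow_natCast, ← ENNReal.rpow_mul]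
        congr 2
        ring
      rw [hXj, Finset.sum_product]
      calc ∑ x ∈ R, ∑ y ∈ S, ENNReal.ofReal ((edgeProb2 d s s(x, y) : unitInterval) : ℝ) *
              ENNReal.ofReal ‖c x y • Ψ x ω‖ ^ (2 * j)
          = ∑ x ∈ R, ENNReal.ofReal ‖Ψ x ω‖ ^ (2 * j) *
              ENNReal.ofReal (∑ y ∈ S, edgeProb d s x y * c x y ^ (2 * j)) := by
            refine Finset.sum_congr rfl fun x _ => ?_
            rw [ENNReal.ofReal_sum_of_nonneg (fun y _ =>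
              mul_nonneg (edgeProb_nonneg _ _ _ _) (pow_nonneg (hc _ _) _)), Finset.mul_sum]
            refine Finset.sum_congr rfl fun y _ => ?_
            rw [edgeProb2_mk, norm_smul, Real.norm_of_nonneg (hc x y),
              ENNReal.ofReal_mul (hc x y), mul_pow, ENNReal.ofReal_mul (edgeProb_nonneg _ _ _ _),
              ENNReal.ofReal_pow (hc x y)]
            ring
        _ ≤ ∑ x ∈ R, ENNReal.ofReal ‖Ψ x ω‖ ^ (2 * j) *
              (ENNReal.ofReal (a ^ j) / (R.card : ℝ≥0∞)) := by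
            refine Finset.sum_le_sum fun x hx => ?_
            gcongr
            rw [← ENNReal.ofReal_natCast, ← ENNReal.ofReal_div_of_pos
              (by exact_mod_cast hR.card_pos)]
            exact ENNReal.ofReal_le_ofReal (hrow x hx j hj hjq)
        _ = ENNReal.ofReal (a ^ j) *
              ((∑ x ∈ R, ENNReal.ofReal ‖Ψ x ω‖ ^ (2 * j)) / (R.card : ℝ≥0∞)) := by
            rw [← Finset.sum_mul, div_eq_mul_inv, div_eq_mul_inv]
            ring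
        _ ≤ _ := by
            gcongr
            exact partB_mean R hR (fun x => ENNReal.ofReal ‖Ψ x ω‖) q j hj hjq)
  have e1 : ∀ ω : Env d, ∑ z ∈ R ×ˢ S,
      ((xi ω s(z.1, z.2) - edgeProb d s z.1 z.2) * c z.1 z.2) • Ψ z.1 ω =
      ∑ z ∈ R ×ˢ S, (xi ω s(z.1, z.2) - ((edgeProb2 d s s(z.1, z.2) : unitInterval) : ℝ)) •
        (c z.1 z.2 • Ψ z.1 ω) := by
    intro ω
    refine Finset.sum_congr rfl fun z _ => ?_
    rw [smul_smul, edgeProb2_mk]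
  have e2 : ∀ ω : Env d, X ω ^ q = ENNReal.ofReal (a ^ q) * M ω := by
    intro ω
    show (ENNReal.ofReal a * (M ω) ^ ((1 : ℝ) / q)) ^ q = _
    rw [mul_pow, ← ENNReal.ofReal_pow ha, ← ENNReal.rpow_natCast ((M ω) ^ ((1 : ℝ) / q)),
      ← ENNReal.rpow_mul]
    have : (1 : ℝ) / q * q = 1 := by field_simp
    rw [this, ENNReal.rpow_one]
  have hmM : Measurable M := by
    show Measurable fun ω => (∑ x ∈ R, ENNReal.ofReal ‖Ψ x ω‖ ^ (2 * q)) / (R.card : ℝ≥0∞)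
    exact (Finset.measurable_sum _ fun x hx => (hmΨ x hx).pow_const _).div_const _
  simp only [e1]
  refine key.trans ?_
  simp only [e2]
  have e3 : ∫⁻ ω, ENNReal.ofReal (a ^ q) * M ω ∂(bernProd (edgeProb2 d s)) =
      ENNReal.ofReal (a ^ q) *
        ((∑ x ∈ R, ∫⁻ ω, ENNReal.ofReal ‖Ψ x ω‖ ^ (2 * q) ∂(LRP d s)) / (R.card : ℝ≥0∞)) := by
    rw [lintegral_const_mul _ hmM]
    congr 1
    show ∫⁻ ω, (∑ x ∈ R, ENNReal.ofReal ‖Ψ x ω‖ ^ (2 * q)) / (R.card : ℝ≥0∞) ∂_ = _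
    simp only [div_eq_mul_inv]
    rw [lintegral_mul_const _ (Finset.measurable_sum _ fun x hx => (hmΨ x hx).pow_const _),
      lintegral_finsetSum _ fun x hx => (hmΨ x hx).pow_const _]
    rfl
  rw [e3]

/-- Moments of the corrections of the flow on the side of `Box n v`. -/
theorem partB_moment (d : ℕ) [NeZero d] (s : ℝ) (hs : 0 < s) (hs2 : s < 2 * d) (q : ℕ)
    (hq : 1 ≤ q) : ∃ C : ℝ, 1 ≤ C ∧ ∀ (n : ℕ) (_ : 1 ≤ n) (v : V d),
      ∫⁻ ω, ENNReal.ofReal ‖∑ z ∈ Box n v ×ˢ Box n (nxt n v),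
          ((xi ω s(z.1, z.2) - edgeProb d s z.1 z.2) * cw d s n z.1 z.2) •
            Psia s n ω v z.1‖ ^ (2 * q) ∂(LRP d s) ≤
        ENNReal.ofReal (C * (rad d n : ℝ) ^ (-((2 * d - s) * q))) *
          ((∑ x ∈ Box n v, ∫⁻ ω, ENNReal.ofReal ‖Psia s n ω v x‖ ^ (2 * q) ∂(LRP d s)) /
            2 ^ n) := by
  obtain ⟨D, hD, hgen⟩ := partB_general q hq
  obtain ⟨C0, hC0, hrow⟩ := row_sum_le d s hs hs2 q
  refine ⟨max 1 (D.toReal * C0 ^ q), le_max_left _ _, ?_⟩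
  intro n hn v
  have hd : 0 < d := Nat.pos_of_ne_zero (NeZero.ne d)
  have hr : (0 : ℝ) < rad d n := by exact_mod_cast rad_pos n
  have hN : 0 ≤ (rad d n : ℝ) ^ (-(2 * (d : ℝ) - s)) := (Real.rpow_pos_of_pos hr _).le
  have hcard : (Box n v).card = 2 ^ n := card_Box n v hd
  have h := hgen d s (Box n v) (Box n (nxt n v)) (Box_disj n v) (Box_nonempty n v)
    (cw d s n) (cw_nonneg s n) (C0 * (rad d n : ℝ) ^ (-(2 * (d : ℝ) - s)))
    (mul_nonneg (by linarith) hN)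
    (fun x hx j hj hjq => by
      rw [hcard]
      have := hrow n hn v x hx j hj hjq
      push_cast
      exact this)
    (fun x ω => Psia s n ω v x)
    (fun x hx => Psia_dependsOn s n v x hx)
  refine h.trans ?_
  rw [hcard]
  have e1 : (C0 * (rad d n : ℝ) ^ (-(2 * (d : ℝ) - s))) ^ q =
      C0 ^ q * (rad d n : ℝ) ^ (-((2 * (d : ℝ) - s) * q)) := by
    rw [mul_pow, ← Real.rpow_natCast ((rad d n : ℝ) ^ (-(2 * (d : ℝ) - s))), ← Real.rpow_mul hr.le]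
    ring_nf
  rw [e1, ← mul_assoc]
  push_cast
  gcongr
  rw [← ENNReal.ofReal_toReal hD.ne, ← ENNReal.ofReal_mul ENNReal.toReal_nonneg]
  apply ENNReal.ofReal_le_ofReal
  rw [ENNReal.toReal_ofReal ENNReal.toReal_nonneg, ← mul_assoc]
  exact mul_le_mul_of_nonneg_right (le_max_right _ _) (Real.rpow_pos_of_pos hr _).le

end MP072e06
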