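import Pool.Agent.Lib.MP_072e06_pr.Weights
import Pool.Agent.Lib.MP_072e06_pr.Rosenthal
import Pool.Agent.Lib.MP_072e06_pr.PsiaDep
import Pool.Agent.Lib.MP_072e06_pr.PartB

/-!
Moments of the corrections on the side of the sibling, from `partB_general` (roles of the two
boxes exchanged).
-/

open MeasureTheory ENNReal
open scoped Classical

namespace MP072e06

/-- Moments of the corrections of the flow on the side of the sibling. -/
theorem partB'_moment (d : ℕ) [NeZero d] (s : ℝ) (hs : 0 < s) (hs2 : s < 2 * d) (q : ℕ)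
    (hq : 1 ≤ q) : ∃ C : ℝ, 1 ≤ C ∧ ∀ (n : ℕ) (_ : 1 ≤ n) (v : V d),
      ∫⁻ ω, ENNReal.ofReal ‖∑ z ∈ Box n v ×ˢ Box n (nxt n v),
          ((xi ω s(z.1, z.2) - edgeProb d s z.1 z.2) * cw d s n z.1 z.2) •
            Psia s n ω (nxt n v) z.2‖ ^ (2 * q) ∂(LRP d s) ≤
        ENNReal.ofReal (C * (rad d n : ℝ) ^ (-((2 * d - s) * q))) *
          ((∑ x ∈ Box n (nxt n v),
            ∫⁻ ω, ENNReal.ofReal ‖Psia s n ω (nxt n v) x‖ ^ (2 * q) ∂(LRP d s)) / 2 ^ n) := by
  obtain ⟨D, hD, hgen⟩ := partB_general q hq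
  obtain ⟨C0, hC0, hcol⟩ := col_sum_le d s hs hs2 q
  refine ⟨max 1 (D.toReal * C0 ^ q), le_max_left _ _, ?_⟩
  intro n hn v
  have hd : 0 < d := Nat.pos_of_ne_zero (NeZero.ne d)
  have hr : (0 : ℝ) < rad d n := by exact_mod_cast rad_pos n
  have hN : 0 ≤ (rad d n : ℝ) ^ (-(2 * (d : ℝ) - s)) := (Real.rpow_pos_of_pos hr _).le
  have hcard : (Box n (nxt n v)).card = 2 ^ n := card_Box n (nxt n v) hd
  have h := hgen d s (Box n (nxt n v)) (Box n v) (Box_disj n v).symm (Box_nonempty n _)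
    (fun x y => cw d s n y x) (fun x y => cw_nonneg s n y x)
    (C0 * (rad d n : ℝ) ^ (-(2 * (d : ℝ) - s)))
    (mul_nonneg (by linarith) hN)
    (fun x hx j hj hjq => by
      rw [hcard]
      have := hcol n hn v x hx j hj hjq
      push_cast
      simp only [edgeProb_comm d s x]
      exact this)
    (fun x ω => Psia s n ω (nxt n v) x)
    (fun x hx => Psia_dependsOn s n (nxt n v) x hx)
  have hswap : ∀ ω : Env d, ∑ z ∈ Box n v ×ˢ Box n (nxt n v),
          ((xi ω s(z.1, z.2) - edgeProb d s z.1 z.2) * cw d s n z.1 z.2) •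
            Psia s n ω (nxt n v) z.2 =
      ∑ z ∈ Box n (nxt n v) ×ˢ Box n v,
          ((xi ω s(z.1, z.2) - edgeProb d s z.1 z.2) * cw d s n z.2 z.1) •
            Psia s n ω (nxt n v) z.1 := by
    intro ω
    rw [Finset.sum_product, Finset.sum_product_right]
    refine Finset.sum_congr rfl fun x _ => Finset.sum_congr rfl fun y _ => ?_
    simp only
    rw [Sym2.eq_swap, edgeProb_comm]
  simp only [hswap]
  refine h.trans ?_
  rw [hcard]
  have e1 : (C0 * (rad d n : ℝ) ^ (-(2 * (d : ℝ) - s))) ^ q =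
      C0 ^ q * (rad d n : ℝ) ^ (-((2 * (d : ℝ) - s) * q)) := by
    rw [mul_pow, ← Real.rpow_natCast ((rad d n : ℝ) ^ (-(2 * (d : ℝ) - s))), ← Real.rpow_mul hr.le]
    ring_nf
  rw [e1, ← mul_assoc]
  push_cast
  gcongr
  rw [← ENNReal.ofReal_toReal hD.ne, ← ENNReal.ofReal_mul ENNReal.toReal_nonneg]
  apply ENNReal.ofReal_le_ofReal
  rw [ENNReal.toReal_ofReal ENNReal.toReal_nonneg, ← mul_assoc]
  exact mul_le_mul_of_nonneg_right (le_max_right _ _) (Real.rpow_pos_of_pos hr _).le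

end MP072e06
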