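import Pool.Agent.Lib.MP_072e06_pr.PartA
import Pool.Agent.Lib.MP_072e06_pr.PartB
import Pool.Agent.Lib.MP_072e06_pr.PartB2
import Pool.Agent.Lib.MP_072e06_pr.NNFlow
import Pool.Agent.Lib.MP_072e06_pr.MeasA
import Pool.Agent.Lib.MP_072e06_pr.BoxGeo

/-!
On `ζ ≥ -1/2`: `‖Fa‖ ≤ 2 (‖A‖ + ‖B‖ + ‖B'‖)`.  On `ζ < -1/2` (and for `n = 0`): `‖nnF‖² ≤ rad²/2^n ≤ rad²`
(crude), and `P(ζ < -1/2) ≤ 2^(2m) E |ζ|^(2m) ≤ C rad^(-(2d-s) m)` with `m` so large that
`(2d-s)(m-q) ≥ 2q`.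
-/

open MeasureTheory ENNReal
open scoped Classical

namespace MP072e06

/-- Averaged moment of the flows `Psia`. -/
noncomputable def MPsi {d : ℕ} [NeZero d] (s : ℝ) (q n : ℕ) (v : V d) : ℝ≥0∞ :=
  (∑ x ∈ Box n v, ∫⁻ ω, ENNReal.ofReal ‖Psia s n ω v x‖ ^ (2 * q) ∂(LRP d s)) / 2 ^ n

private noncomputable def fmA {d : ℕ} [NeZero d] (s : ℝ) (n : ℕ) (v : V d) (ω : Env d) : L2 d :=
  ∑ z ∈ Box n v ×ˢ Box n (nxt n v), (xi ω s(z.1, z.2) * cw d s n z.1 z.2) • sg z.1 z.2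

private noncomputable def fmB {d : ℕ} [NeZero d] (s : ℝ) (n : ℕ) (v : V d) (ω : Env d) : L2 d :=
  ∑ z ∈ Box n v ×ˢ Box n (nxt n v),
          ((xi ω s(z.1, z.2) - edgeProb d s z.1 z.2) * cw d s n z.1 z.2) •
            Psia s n ω v z.1

private noncomputable def fmB' {d : ℕ} [NeZero d] (s : ℝ) (n : ℕ) (v : V d) (ω : Env d) : L2 d :=
  ∑ z ∈ Box n v ×ˢ Box n (nxt n v),
          ((xi ω s(z.1, z.2) - edgeProb d s z.1 z.2) * cw d s n z.1 z.2) •
            Psia s n ω (nxt n v) z.2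

private lemma fm_mem_sym2 {α : Type*} [DecidableEq α] {A B S : Finset α} (hA : A ⊆ S) (hB : B ⊆ S)
    {z : α × α} (hz : z ∈ A ×ˢ B) : s(z.1, z.2) ∈ (S.sym2 : Set (Sym2 α)) := by
  rw [Finset.mem_product] at hz
  rw [Finset.mem_coe, Finset.mk_mem_sym2_iff]
  exact ⟨hA hz.1, hB hz.2⟩

private lemma fm_sub1 {d : ℕ} [NeZero d] (n : ℕ) (v : V d) : Box n v ⊆ Box (n + 1) v := by
  rw [Box_succ]; exact Finset.subset_union_left

private lemma fm_sub2 {d : ℕ} [NeZero d] (n : ℕ) (v : V d) : Box n (nxt n v) ⊆ Box (n + 1) v := by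
  rw [Box_succ]; exact Finset.subset_union_right

private lemma fm_xi {ι : Type*} {ω ω' : ι → Bool} {e : ι} (h : ω e = ω' e) : xi ω e = xi ω' e := by
  unfold xi; rw [h]

private lemma fmA_dep {d : ℕ} [NeZero d] (s : ℝ) (n : ℕ) (v : V d) :
    DependsOn (fmA s n v) ((Box (n + 1) v).sym2 : Set (Sym2 (V d))) := by
  intro ω ω' h
  unfold fmA
  refine Finset.sum_congr rfl fun z hz => ?_
  rw [fm_xi (h _ (fm_mem_sym2 (fm_sub1 n v) (fm_sub2 n v) hz))]

private lemma fmB_dep {d : ℕ} [NeZero d] (s : ℝ) (n : ℕ) (v : V d) :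
    DependsOn (fmB s n v) ((Box (n + 1) v).sym2 : Set (Sym2 (V d))) := by
  intro ω ω' h
  unfold fmB
  refine Finset.sum_congr rfl fun z hz => ?_
  have hz1 := (Finset.mem_product.mp hz).1
  rw [fm_xi (h _ (fm_mem_sym2 (fm_sub1 n v) (fm_sub2 n v) hz))]
  have h' : ∀ e ∈ ((Box n v).sym2 : Set (Sym2 (V d))), ω e = ω' e := fun e he => h e (by
    rw [Finset.mem_coe] at he ⊢
    exact Finset.sym2_mono (fm_sub1 n v) he)
  have := Psia_dependsOn s n v z.1 hz1 h'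
  simp only at this
  rw [this]

private lemma fmB'_dep {d : ℕ} [NeZero d] (s : ℝ) (n : ℕ) (v : V d) :
    DependsOn (fmB' s n v) ((Box (n + 1) v).sym2 : Set (Sym2 (V d))) := by
  intro ω ω' h
  unfold fmB'
  refine Finset.sum_congr rfl fun z hz => ?_
  have hz2 := (Finset.mem_product.mp hz).2
  rw [fm_xi (h _ (fm_mem_sym2 (fm_sub1 n v) (fm_sub2 n v) hz))]
  have h' : ∀ e ∈ ((Box n (nxt n v)).sym2 : Set (Sym2 (V d))), ω e = ω' e := fun e he => h e (by
    rw [Finset.mem_coe] at he ⊢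
    exact Finset.sym2_mono (fm_sub2 n v) he)
  have := Psia_dependsOn s n (nxt n v) z.2 hz2 h'
  simp only at this
  rw [this]

private lemma fm_meas {d : ℕ} [NeZero d] {f : Env d → L2 d} {S : Finset (Sym2 (V d))}
    (hf : DependsOn f (S : Set (Sym2 (V d)))) (k : ℕ) :
    Measurable fun ω : Env d => ENNReal.ofReal ‖f ω‖ ^ k := by
  apply measurable_of_dependsOn _ S
  intro ω ω' h
  simp only
  rw [hf h]

private lemma fm_three (a b c : ℝ) (ha : 0 ≤ a) (hb : 0 ≤ b) (hc : 0 ≤ c) (k : ℕ) :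
    (a + b + c) ^ k ≤ 3 ^ k * (a ^ k + b ^ k + c ^ k) := by
  have h1 : a + b + c ≤ 3 * max a (max b c) := by
    have := le_max_left a (max b c)
    have := (le_max_left b c).trans (le_max_right a (max b c))
    have := (le_max_right b c).trans (le_max_right a (max b c))
    linarith
  have h2 : (max a (max b c)) ^ k ≤ a ^ k + b ^ k + c ^ k := by
    rcases max_cases a (max b c) with h | h
    · rw [h.1]
      have : 0 ≤ b ^ k := by positivity
      have : 0 ≤ c ^ k := by positivity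
      linarith
    · rw [h.1]
      have h0 : 0 ≤ a ^ k := by positivity
      rcases max_cases b c with h' | h'
      · rw [h'.1]
        have : 0 ≤ c ^ k := by positivity
        linarith
      · rw [h'.1]
        have : 0 ≤ b ^ k := by positivity
        linarith
  calc (a + b + c) ^ k ≤ (3 * max a (max b c)) ^ k := pow_le_pow_left₀ (by positivity) h1 k
    _ = 3 ^ k * (max a (max b c)) ^ k := mul_pow _ _ _
    _ ≤ _ := mul_le_mul_of_nonneg_left h2 (by positivity)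

/-- pointwise bound. -/
private lemma fm_point {d : ℕ} [NeZero d] (s : ℝ) (n : ℕ) (hn : 1 ≤ n) (v : V d) (q m : ℕ)
    (ω : Env d) :
    ENNReal.ofReal ‖Fa s n v ω (Psia s n ω)‖ ^ (2 * q) ≤
      ENNReal.ofReal (36 ^ q) * ENNReal.ofReal ‖fmA s n v ω‖ ^ (2 * q) +
      (ENNReal.ofReal (36 ^ q) * ENNReal.ofReal ‖fmB s n v ω‖ ^ (2 * q) +
      (ENNReal.ofReal (36 ^ q) * ENNReal.ofReal ‖fmB' s n v ω‖ ^ (2 * q) +
      ENNReal.ofReal (4 ^ m * (rad d n : ℝ) ^ (2 * q)) *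
        ENNReal.ofReal |zeta s n v ω| ^ (2 * m))) := by
  simp only [← ENNReal.ofReal_pow (norm_nonneg _), ← ENNReal.ofReal_pow (abs_nonneg _)]
  rw [← ENNReal.ofReal_mul (by positivity), ← ENNReal.ofReal_mul (by positivity),
    ← ENNReal.ofReal_mul (by positivity), ← ENNReal.ofReal_mul (by positivity),
    ← ENNReal.ofReal_add (by positivity) (by positivity),
    ← ENNReal.ofReal_add (by positivity) (by positivity),
    ← ENNReal.ofReal_add (by positivity) (by positivity)]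
  apply ENNReal.ofReal_le_ofReal
  have hA : 0 ≤ (36:ℝ) ^ q * ‖fmA s n v ω‖ ^ (2 * q) := by positivity
  have hB : 0 ≤ (36:ℝ) ^ q * ‖fmB s n v ω‖ ^ (2 * q) := by positivity
  have hB' : 0 ≤ (36:ℝ) ^ q * ‖fmB' s n v ω‖ ^ (2 * q) := by positivity
  have hZ : 0 ≤ 4 ^ m * (rad d n : ℝ) ^ (2 * q) * |zeta s n v ω| ^ (2 * m) := by positivity
  by_cases hc : n = 0 ∨ zeta s n v ω < -(1 / 2)
  · have hz : zeta s n v ω < -(1 / 2) := by
      rcases hc with h | h
      · omega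
      · exact h
    have h1 : Fa s n v ω (Psia s n ω) = nnF n v := by
      unfold Fa; rw [if_pos hc]
    rw [h1]
    have h2 : ‖nnF n v‖ ^ (2 * q) ≤ (rad d n : ℝ) ^ (2 * q) := by
      rw [pow_mul, pow_mul]
      apply pow_le_pow_left₀ (by positivity)
      refine (norm_nnF_sq_le n v).trans ?_
      apply div_le_self (by positivity)
      exact one_le_pow₀ (by norm_num)
    have h3 : 1 ≤ 4 ^ m * |zeta s n v ω| ^ (2 * m) := by
      have h4 : (1:ℝ) / 2 ≤ |zeta s n v ω| := by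
        rw [abs_of_neg (by linarith)]; linarith
      have h5 : 4 ^ m * |zeta s n v ω| ^ (2 * m) = (4 * |zeta s n v ω| ^ 2) ^ m := by
        rw [mul_pow, pow_mul]
      rw [h5]
      apply one_le_pow₀
      nlinarith
    have h6 : (rad d n : ℝ) ^ (2 * q) ≤ 4 ^ m * (rad d n : ℝ) ^ (2 * q) * |zeta s n v ω| ^ (2 * m) := by
      have h7 : 0 ≤ (rad d n : ℝ) ^ (2 * q) := by positivity
      nlinarith
    linarith
  · have h1 : Fa s n v ω (Psia s n ω) = (1 + zeta s n v ω)⁻¹ •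
        (fmA s n v ω - fmB s n v ω + fmB' s n v ω) := by
      unfold Fa; rw [if_neg hc]; rfl
    push Not at hc
    have hz := hc.2
    rw [h1]
    have h2 : ‖(1 + zeta s n v ω)⁻¹ • (fmA s n v ω - fmB s n v ω + fmB' s n v ω)‖ ≤
        2 * (‖fmA s n v ω‖ + ‖fmB s n v ω‖ + ‖fmB' s n v ω‖) := by
      rw [norm_smul]
      have h3 : ‖(1 + zeta s n v ω)⁻¹‖ ≤ 2 := by
        rw [norm_inv, Real.norm_of_nonneg (by linarith)]
        rw [inv_le_comm₀ (by linarith) (by norm_num)]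
        linarith
      have h4 : ‖fmA s n v ω - fmB s n v ω + fmB' s n v ω‖ ≤
          ‖fmA s n v ω‖ + ‖fmB s n v ω‖ + ‖fmB' s n v ω‖ :=
        (norm_add_le _ _).trans (add_le_add (norm_sub_le _ _) le_rfl)
      exact mul_le_mul h3 h4 (norm_nonneg _) (by norm_num)
    have h5 := pow_le_pow_left₀ (norm_nonneg _) h2 (2 * q)
    have h6 := fm_three _ _ _ (norm_nonneg (fmA s n v ω)) (norm_nonneg (fmB s n v ω))
      (norm_nonneg (fmB' s n v ω)) (2 * q)
    rw [mul_pow] at h5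
    have h7 : (2:ℝ) ^ (2 * q) * 3 ^ (2 * q) = 36 ^ q := by
      rw [← mul_pow, pow_mul]; norm_num
    have h8 := mul_le_mul_of_nonneg_left h6 (show (0:ℝ) ≤ 2 ^ (2 * q) by positivity)
    rw [← mul_assoc, h7] at h8
    linarith

theorem Fa_moment (d : ℕ) [NeZero d] (s : ℝ) (hs : 0 < s) (hs2 : s < 2 * d) (q : ℕ)
    (hq : 1 ≤ q) : ∃ C : ℝ, 1 ≤ C ∧ ∀ (n : ℕ) (v : V d),
      ∫⁻ ω, ENNReal.ofReal ‖Fa s n v ω (Psia s n ω)‖ ^ (2 * q) ∂(LRP d s) ≤
        ENNReal.ofReal (C * (rad d n : ℝ) ^ (-((2 * d - s) * q))) *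
          (1 + MPsi s q n v + MPsi s q n (nxt n v)) := by
  obtain ⟨CA, hCA1, hCA⟩ := partA_moment d s hs hs2 q hq
  obtain ⟨CB, hCB1, hCB⟩ := partB_moment d s hs hs2 q hq
  obtain ⟨CB', hCB'1, hCB'⟩ := partB'_moment d s hs hs2 q hq
  have hc0 : 0 < 2 * (d:ℝ) - s := by linarith
  obtain ⟨m0, hm0⟩ := exists_nat_ge (q + 2 * q / (2 * (d:ℝ) - s))
  set m := max m0 1 with hm
  have hm1 : 1 ≤ m := le_max_right _ _
  have hmm : (q:ℝ) + 2 * q / (2 * (d:ℝ) - s) ≤ m := by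
    refine hm0.trans ?_
    rw [hm]
    push_cast
    exact le_max_left _ _
  have hexp : 2 * (q:ℝ) + -((2 * d - s) * m) ≤ -((2 * d - s) * q) := by
    have h1 : (2 * (d:ℝ) - s) * (q + 2 * q / (2 * (d:ℝ) - s)) ≤ (2 * (d:ℝ) - s) * m :=
      mul_le_mul_of_nonneg_left hmm hc0.le
    have h2 : (2 * (d:ℝ) - s) * (q + 2 * q / (2 * (d:ℝ) - s)) = (2 * (d:ℝ) - s) * q + 2 * q := by
      field_simp
    linarith
  obtain ⟨CZ, hCZ1, hCZ⟩ := zeta_moment d s hs hs2 m hm1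
  have hradpos : ∀ n, (0:ℝ) < rad d n := fun n => by unfold rad; positivity
  have hrad1 : ∀ n, (1:ℝ) ≤ rad d n := fun n => by
    unfold rad; exact_mod_cast Nat.one_le_two_pow
  set C := 36 ^ q * CA + 36 ^ q * CB + 36 ^ q * CB' + 4 ^ m * CZ with hC
  have hK1 : (1:ℝ) ≤ 36 ^ q := one_le_pow₀ (by norm_num)
  have hC1 : 1 ≤ C := by
    have h1 : 1 ≤ 36 ^ q * CA := one_le_mul_of_one_le_of_one_le hK1 hCA1
    have h2 : 0 ≤ 36 ^ q * CB := by positivity
    have h3 : 0 ≤ 36 ^ q * CB' := by positivity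
    have h4 : 0 ≤ 4 ^ m * CZ := by positivity
    linarith
  refine ⟨C, hC1, fun n v => ?_⟩
  rcases Nat.eq_zero_or_pos n with rfl | hn
  · -- n = 0
    have h1 : ∀ ω, ENNReal.ofReal ‖Fa s 0 v ω (Psia s 0 ω)‖ ^ (2 * q) ≤ 1 := by
      intro ω
      have h2 : Fa s 0 v ω (Psia s 0 ω) = nnF 0 v := by
        unfold Fa; rw [if_pos (Or.inl rfl)]
      rw [h2]
      apply pow_le_one₀ zero_le
      rw [← ENNReal.ofReal_one]
      apply ENNReal.ofReal_le_ofReal
      have h3 := norm_nnF_sq_le 0 v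
      have h4 : (rad d 0 : ℝ) = 1 := by simp [rad]
      rw [h4] at h3
      norm_num at h3
      exact h3
    have h5 : ∫⁻ ω, ENNReal.ofReal ‖Fa s 0 v ω (Psia s 0 ω)‖ ^ (2 * q) ∂(LRP d s) ≤ 1 := by
      refine (lintegral_mono h1).trans ?_
      simp
    refine h5.trans ?_
    have h4 : (rad d 0 : ℝ) = 1 := by simp [rad]
    rw [h4, Real.one_rpow, mul_one]
    have h6 : (1 : ℝ≥0∞) ≤ ENNReal.ofReal C := by
      rw [← ENNReal.ofReal_one]; exact ENNReal.ofReal_le_ofReal hC1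
    calc (1 : ℝ≥0∞) = 1 * 1 := (mul_one _).symm
      _ ≤ _ := mul_le_mul' h6 (by rw [add_assoc]; exact le_self_add)
  · -- n ≥ 1
    set ρ : ℝ := (rad d n : ℝ) ^ (-((2 * d - s) * q)) with hρ
    have hρ0 : 0 < ρ := Real.rpow_pos_of_pos (hradpos n) _
    set MA := ∫⁻ ω, ENNReal.ofReal ‖fmA s n v ω‖ ^ (2 * q) ∂(LRP d s) with hMA
    set MB := ∫⁻ ω, ENNReal.ofReal ‖fmB s n v ω‖ ^ (2 * q) ∂(LRP d s) with hMB
    set MB' := ∫⁻ ω, ENNReal.ofReal ‖fmB' s n v ω‖ ^ (2 * q) ∂(LRP d s) with hMB'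
    set MZ := ∫⁻ ω, ENNReal.ofReal |zeta s n v ω| ^ (2 * m) ∂(LRP d s) with hMZ
    have b1 : MA ≤ ENNReal.ofReal (CA * ρ) := hCA n hn v
    have b2 : MB ≤ ENNReal.ofReal (CB * ρ) * MPsi s q n v := hCB n hn v
    have b3 : MB' ≤ ENNReal.ofReal (CB' * ρ) * MPsi s q n (nxt n v) := hCB' n hn v
    have b4 : MZ ≤ ENNReal.ofReal (CZ * (rad d n : ℝ) ^ (-((2 * d - s) * m))) := hCZ n hn v
    have b5 : ENNReal.ofReal (4 ^ m * (rad d n : ℝ) ^ (2 * q)) * MZ ≤
        ENNReal.ofReal (4 ^ m * CZ * ρ) := by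
      refine (mul_le_mul_right b4 _).trans ?_
      rw [← ENNReal.ofReal_mul (by positivity)]
      apply ENNReal.ofReal_le_ofReal
      have h1 : (rad d n : ℝ) ^ (2 * q) * (rad d n : ℝ) ^ (-((2 * d - s) * m)) ≤ ρ := by
        rw [← Real.rpow_natCast, ← Real.rpow_add (hradpos n), hρ]
        apply Real.rpow_le_rpow_of_exponent_le (hrad1 n)
        push_cast
        exact hexp
      calc 4 ^ m * (rad d n : ℝ) ^ (2 * q) * (CZ * (rad d n : ℝ) ^ (-((2 * d - s) * m)))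
          = 4 ^ m * CZ * ((rad d n : ℝ) ^ (2 * q) * (rad d n : ℝ) ^ (-((2 * d - s) * m))) := by
            ring
        _ ≤ _ := mul_le_mul_of_nonneg_left h1 (by positivity)
    have hmain : ∫⁻ ω, ENNReal.ofReal ‖Fa s n v ω (Psia s n ω)‖ ^ (2 * q) ∂(LRP d s) ≤
        ENNReal.ofReal (36 ^ q) * MA + (ENNReal.ofReal (36 ^ q) * MB +
          (ENNReal.ofReal (36 ^ q) * MB' +
            ENNReal.ofReal (4 ^ m * (rad d n : ℝ) ^ (2 * q)) * MZ)) := by
      refine (lintegral_mono (fm_point s n hn v q m)).trans (le_of_eq ?_)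
      rw [lintegral_add_left ((fm_meas (fmA_dep s n v) (2 * q)).const_mul _),
        lintegral_add_left ((fm_meas (fmB_dep s n v) (2 * q)).const_mul _),
        lintegral_add_left ((fm_meas (fmB'_dep s n v) (2 * q)).const_mul _),
        lintegral_const_mul' _ _ ENNReal.ofReal_ne_top,
        lintegral_const_mul' _ _ ENNReal.ofReal_ne_top,
        lintegral_const_mul' _ _ ENNReal.ofReal_ne_top,
        lintegral_const_mul' _ _ ENNReal.ofReal_ne_top]
    refine hmain.trans ?_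
    set X := MPsi s q n v
    set Y := MPsi s q n (nxt n v)
    have c1 : ENNReal.ofReal (36 ^ q) * MA ≤ ENNReal.ofReal (36 ^ q * CA * ρ) := by
      refine (mul_le_mul_right b1 _).trans (le_of_eq ?_)
      rw [← ENNReal.ofReal_mul (by positivity)]; congr 1; ring
    have c2 : ENNReal.ofReal (36 ^ q) * MB ≤ ENNReal.ofReal (36 ^ q * CB * ρ) * X := by
      refine (mul_le_mul_right b2 _).trans (le_of_eq ?_)
      rw [← mul_assoc, ← ENNReal.ofReal_mul (by positivity)]; congr 2; ring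
    have c3 : ENNReal.ofReal (36 ^ q) * MB' ≤ ENNReal.ofReal (36 ^ q * CB' * ρ) * Y := by
      refine (mul_le_mul_right b3 _).trans (le_of_eq ?_)
      rw [← mul_assoc, ← ENNReal.ofReal_mul (by positivity)]; congr 2; ring
    have d1 : ENNReal.ofReal (36 ^ q * CA * ρ) + ENNReal.ofReal (4 ^ m * CZ * ρ) ≤
        ENNReal.ofReal (C * ρ) := by
      rw [← ENNReal.ofReal_add (by positivity) (by positivity)]
      apply ENNReal.ofReal_le_ofReal
      have h2 : 0 ≤ 36 ^ q * CB * ρ := by positivity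
      have h3 : 0 ≤ 36 ^ q * CB' * ρ := by positivity
      rw [hC]
      nlinarith
    have d2 : ENNReal.ofReal (36 ^ q * CB * ρ) ≤ ENNReal.ofReal (C * ρ) := by
      apply ENNReal.ofReal_le_ofReal
      apply mul_le_mul_of_nonneg_right _ hρ0.le
      have h1 : 0 ≤ 36 ^ q * CA := by positivity
      have h3 : 0 ≤ 36 ^ q * CB' := by positivity
      have h4 : 0 ≤ 4 ^ m * CZ := by positivity
      linarith
    have d3 : ENNReal.ofReal (36 ^ q * CB' * ρ) ≤ ENNReal.ofReal (C * ρ) := by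
      apply ENNReal.ofReal_le_ofReal
      apply mul_le_mul_of_nonneg_right _ hρ0.le
      have h1 : 0 ≤ 36 ^ q * CA := by positivity
      have h3 : 0 ≤ 36 ^ q * CB := by positivity
      have h4 : 0 ≤ 4 ^ m * CZ := by positivity
      linarith
    calc ENNReal.ofReal (36 ^ q) * MA + (ENNReal.ofReal (36 ^ q) * MB +
          (ENNReal.ofReal (36 ^ q) * MB' +
            ENNReal.ofReal (4 ^ m * (rad d n : ℝ) ^ (2 * q)) * MZ))
        ≤ ENNReal.ofReal (36 ^ q * CA * ρ) + (ENNReal.ofReal (36 ^ q * CB * ρ) * X +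
          (ENNReal.ofReal (36 ^ q * CB' * ρ) * Y + ENNReal.ofReal (4 ^ m * CZ * ρ))) :=
          add_le_add c1 (add_le_add c2 (add_le_add c3 b5))
      _ = (ENNReal.ofReal (36 ^ q * CA * ρ) + ENNReal.ofReal (4 ^ m * CZ * ρ)) +
          ENNReal.ofReal (36 ^ q * CB * ρ) * X + ENNReal.ofReal (36 ^ q * CB' * ρ) * Y := by ring
      _ ≤ ENNReal.ofReal (C * ρ) + ENNReal.ofReal (C * ρ) * X + ENNReal.ofReal (C * ρ) * Y :=
          add_le_add (add_le_add d1 (mul_le_mul_left d2 _)) (mul_le_mul_left d3 _)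
      _ = _ := by ring

end MP072e06
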