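import Pool.Agent.Lib.MP_072e06_pr.UsedPairs
import Pool.Agent.Lib.MP_072e06_pr.EdgeProb

/-!
`fb ≤ 2 (rad/(2·4^m))/(4^(dm) 2^n)`, `p ≥ κ (4^(m+1))^(-(d+2))` for used pairs (coordinates differ by at
most `4^(m+1)`), the number of pairs with `fb ≠ 0` is at most `|Box (n+1)|·4^(dm)`:
the sum is at most `2^(n+1) 4^(dm) (rad/4^m)² 4^(-2dm) 4^(-n) C 4^(m(d+2)) = C' rad²/2^n`.
-/

open MeasureTheory ENNReal
open scoped Classical

namespace MP072e06

theorem fb_energy (d : ℕ) [NeZero d] : ∃ C : ℝ, 0 ≤ C ∧ ∀ (n m : ℕ), 1 ≤ m →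
    2 * m + 1 ≤ n / d →
    ∑ z ∈ Box (n + 1) (0 : V d) ×ˢ Box (n + 1) (0 : V d),
      fb n m z.1 z.2 ^ 2 / edgeProb d (d + 2) z.1 z.2 ≤ C * (rad d n : ℝ) ^ 2 / 2 ^ n := by
  have hd : 0 < d := Nat.pos_of_neZero d
  obtain ⟨κ, hκ, hp⟩ := edgeProb_lower d ((d : ℝ) + 2) (by positivity)
  refine ⟨2 * 4 ^ (d + 2) / κ, by positivity, fun n m hm1 hm => ?_⟩
  set B := Box (n + 1) (0 : V d) with hB
  -- bound of one term
  set F : ℝ := (rad d n : ℝ) / (4 ^ m * (4 ^ (d * m) * 2 ^ n)) with hF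
  have hF0 : 0 ≤ F := by positivity
  set P : ℝ := κ * ((4 : ℝ) ^ (m + 1)) ^ (-((d : ℝ) + 2)) with hP
  have hP0 : 0 < P := by positivity
  have hfb : ∀ x y : V d, fb n m x y ^ 2 / edgeProb d (d + 2) x y ≤
      if y ∈ Box (2 * d * m) (mv (dir d n) (2 * 4 ^ m) (base (2 * d * m) x)) then F ^ 2 / P
      else 0 := by
    intro x y
    unfold fb
    by_cases hu : used n m x y
    · rw [if_pos hu, if_pos hu.2]
      have h1 : 2 * (mult n m x : ℝ) / (4 ^ (d * m) * 2 ^ n) ≤ F := by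
        have h2 : (mult n m x : ℝ) ≤ (rad d n : ℝ) / (2 * 4 ^ m) := by
          rw [le_div_iff₀ (by positivity)]
          have := mult_le (n := n) (m := m) x
          have h3 : mult n m x * (2 * 4 ^ m) ≤ rad d n :=
            (Nat.mul_le_mul_right _ this).trans (Nat.div_mul_le_self _ _)
          exact_mod_cast h3
        rw [hF, div_le_div_iff₀ (by positivity) (by positivity)]
        rw [le_div_iff₀ (by positivity)] at h2
        have h4 : (0 : ℝ) ≤ 4 ^ (d * m) * 2 ^ n := by positivity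
        nlinarith
      have h5 : P ≤ edgeProb d (d + 2) x y := by
        have := hp ((4 : ℝ) ^ (m + 1)) x y (one_le_pow₀ (by norm_num)) (by
          intro i
          have h6 := used_abs_le hu i
          have h7 : (|((x i : ℝ) - (y i : ℝ))| : ℝ) ≤ 3 * 4 ^ m := by exact_mod_cast h6
          have h8 : (0 : ℝ) < 4 ^ m := by positivity
          rw [pow_succ]
          linarith)
        exact this
      apply div_le_div₀ (by positivity) _ hP0 h5
      exact pow_le_pow_left₀ (by positivity) h1 2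
    · rw [if_neg hu]
      simp only [ne_eq, OfNat.ofNat_ne_zero, not_false_eq_true, zero_pow, zero_div]
      split_ifs
      · positivity
      · exact le_rfl
  have h1 : ∑ z ∈ B ×ˢ B, fb n m z.1 z.2 ^ 2 / edgeProb d (d + 2) z.1 z.2 ≤
      ∑ x ∈ B, ∑ y ∈ B, if y ∈ Box (2 * d * m) (mv (dir d n) (2 * 4 ^ m) (base (2 * d * m) x))
        then F ^ 2 / P else 0 := by
    rw [Finset.sum_product]
    exact Finset.sum_le_sum fun x _ => Finset.sum_le_sum fun y _ => hfb x y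
  have h2 : ∀ x ∈ B, (∑ y ∈ B,
      if y ∈ Box (2 * d * m) (mv (dir d n) (2 * 4 ^ m) (base (2 * d * m) x))
        then F ^ 2 / P else 0) ≤ 4 ^ (d * m) * (F ^ 2 / P) := by
    intro x _
    rw [Finset.sum_ite_mem, Finset.sum_const, nsmul_eq_mul]
    apply mul_le_mul_of_nonneg_right _ (by positivity)
    have h3 : (B ∩ Box (2 * d * m) (mv (dir d n) (2 * 4 ^ m) (base (2 * d * m) x))).card ≤
        4 ^ (d * m) := by
      refine (Finset.card_le_card Finset.inter_subset_right).trans ?_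
      rw [card_Box _ _ hd, show 2 * d * m = 2 * (d * m) by ring, pow_mul]
      norm_num
    exact_mod_cast h3
  refine h1.trans ((Finset.sum_le_sum h2).trans (le_of_eq ?_))
  rw [Finset.sum_const, nsmul_eq_mul, hB, card_Box _ _ hd, hF, hP]
  have e1 : ((4 : ℝ) ^ (m + 1)) ^ (-((d : ℝ) + 2)) = ((4 : ℝ) ^ ((m + 1) * (d + 2)))⁻¹ := by
    rw [Real.rpow_neg (by positivity)]
    congr 1
    rw [show (d : ℝ) + 2 = ((d + 2 : ℕ) : ℝ) by push_cast; ring, Real.rpow_natCast, ← pow_mul]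
  rw [e1]
  push_cast
  have e2 : (4 : ℝ) ^ ((m + 1) * (d + 2)) = 4 ^ (d + 2) * 4 ^ (d * m) * (4 ^ m) ^ 2 := by
    rw [← pow_mul, ← pow_add, ← pow_add]
    congr 1
    ring
  rw [e2, pow_succ]
  have h4 : (4 : ℝ) ^ (d * m) ≠ 0 := by positivity
  have h5 : (4 : ℝ) ^ m ≠ 0 := by positivity
  have h6 : (4 : ℝ) ^ (d + 2) ≠ 0 := by positivity
  have h7 : (2 : ℝ) ^ n ≠ 0 := by positivity
  field_simp

end MP072e06
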