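import Pool.Agent.Lib.MP_072e06_pr.UsedPairs
import Pool.Agent.Lib.MP_072e06_pr.Parity

/-!
Geometry of the hops of length `2·4^m` (blocks of side `4^m` = boxes of level `2dm`).  For the
identity: for `x` with block `b`, `∑_{y ∈ b + 2·4^m e, odd} 2/4^(dm) = 1`, and symmetrically; so the sum
is `2^(-n) ∑_{l < rad/(2·4^m)} (∑_{x ∈ Q + 2·4^m l e} h x - ∑_{x ∈ Q + 2·4^m (l+1) e} h x)` which
telescopes to `2^(-n) (∑_Q h - ∑_{Q + rad e} h)`, `Q = Box n 0`.
-/

open MeasureTheory ENNReal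
open scoped Classical

namespace MP072e06

variable {d : ℕ} [NeZero d]

private lemma fbi_mem {n m l : ℕ} (hm : 2 * m + 1 ≤ n / d) (hl : l ≤ rad d n / (2 * 4 ^ m))
    {x : V d} (h : upP n m l x) : x ∈ Box (n + 1) (0 : V d) := by
  have := upP_mem (k := 0) hm (by
    rw [add_zero, up_rad hm]; exact Nat.mul_le_mul_left _ hl) h
  simpa [mv] using this

private lemma fbi_zero_iff {n m : ℕ} (hm : 2 * m + 1 ≤ n / d) (x : V d) :
    upP n m 0 x ↔ x ∈ Box n (0 : V d) := by
  rw [← upP_iff hm]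
  simp [mv]

private lemma fbi_last_iff {n m : ℕ} (hm : 2 * m + 1 ≤ n / d) (x : V d) :
    upP n m (rad d n / (2 * 4 ^ m)) x ↔ x ∈ Box n (nxt n (0 : V d)) := by
  rw [← upP_iff hm, mem_Box, mem_Box]
  apply forall_congr'
  intro i
  rw [up_mv_apply]
  have hN := up_rad hm
  have hN' : (2 * 4 ^ m * (rad d n / (2 * 4 ^ m) : ℕ) : ℤ) = rad d n := by exact_mod_cast hN.symm
  rw [hN']
  by_cases hid : i = dir d n
  · subst hid
    rw [if_pos rfl, nxt_apply_dir]
    simp only [Pi.zero_apply, zero_add]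
    constructor <;> rintro ⟨h1, h2⟩ <;> constructor <;> linarith
  · rw [if_neg hid, nxt_apply_ne _ _ hid]
    simp

private lemma fb_block_sum {m : ℕ} (hm1 : 1 ≤ m) (B : Finset (V d)) (w x : V d) (C : ℝ)
    (hsub : Box (2 * d * m) w ⊆ B) :
    ∑ y ∈ B, (if Odd (par x - par y) ∧ y ∈ Box (2 * d * m) w then C else 0) =
      C * (4 ^ (d * m) / 2) := by
  have hd : 0 < d := Nat.pos_of_neZero d
  have h1 : 1 ≤ 2 * d * m := Nat.succ_le_of_lt (by positivity)
  have e := sum_odd h1 w x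
  have e4 : (2 : ℝ) ^ (2 * d * m) = 4 ^ (d * m) := by
    rw [show 2 * d * m = 2 * (d * m) by ring, pow_mul]; norm_num
  rw [e4] at e
  rw [← e, Finset.mul_sum]
  rw [← Finset.sum_subset hsub (f := fun y =>
    if Odd (par x - par y) ∧ y ∈ Box (2 * d * m) w then C else 0)]
  · apply Finset.sum_congr rfl
    intro y hy
    by_cases ho : Odd (par x - par y) <;> simp [ho, hy]
  · intro y _ hy
    rw [if_neg (fun h => hy h.2)]

private lemma fb_block_sum' {m : ℕ} (hm1 : 1 ≤ m) (B : Finset (V d)) (w y : V d) (C : ℝ)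
    (hsub : Box (2 * d * m) w ⊆ B) :
    ∑ x ∈ B, (if Odd (par x - par y) ∧ x ∈ Box (2 * d * m) w then C else 0) =
      C * (4 ^ (d * m) / 2) := by
  rw [← fb_block_sum hm1 B w y C hsub]
  apply Finset.sum_congr rfl
  intro x _
  have : Odd (par x - par y) ↔ Odd (par y - par x) := by
    rw [show par y - par x = -(par x - par y) by ring, odd_neg]
  rw [if_congr (and_congr this Iff.rfl) rfl rfl]

private lemma mult_cast {n m : ℕ} (hm : 2 * m + 1 ≤ n / d) (x : V d) :
    (mult n m x : ℝ) = ∑ l ∈ Finset.range (rad d n / (2 * 4 ^ m)),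
      if upP n m l x then (1 : ℝ) else 0 := by
  rw [mult_eq, Finset.card_filter]
  push_cast
  apply Finset.sum_congr rfl
  intro l _
  rw [if_congr (upP_iff hm l x) rfl rfl]

private lemma fb_row {n m : ℕ} (hm1 : 1 ≤ m) (hm : 2 * m + 1 ≤ n / d) (x : V d) :
    ∑ y ∈ Box (n + 1) (0 : V d), fb n m x y = (∑ l ∈ Finset.range (rad d n / (2 * 4 ^ m)),
      if upP n m l x then (1 : ℝ) else 0) / 2 ^ n := by
  rw [← mult_cast hm]
  by_cases h0 : mult n m x = 0
  · simp [fb, h0]
  · obtain ⟨l, hl, hP⟩ := mult_ne_zero hm h0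
    have := fb_block_sum hm1 (Box (n + 1) (0 : V d))
      (mv (dir d n) (2 * 4 ^ m) (base (2 * d * m) x)) x
      (2 * mult n m x / (4 ^ (d * m) * 2 ^ n)) (by
        intro y hy
        rw [mem_block_iff] at hy
        exact fbi_mem hm hl ((upP_shift hy).1 hP))
    have e : ∀ y, fb n m x y = if Odd (par x - par y) ∧
        y ∈ Box (2 * d * m) (mv (dir d n) (2 * 4 ^ m) (base (2 * d * m) x)) then
        (2 * (mult n m x : ℝ) / (4 ^ (d * m) * 2 ^ n) : ℝ) else (0 : ℝ) := by
      intro y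
      unfold fb
      exact if_congr Iff.rfl rfl rfl
    simp_rw [e]
    rw [this]
    have h4 : (4 : ℝ) ^ (d * m) ≠ 0 := by positivity
    have h2 : (2 : ℝ) ^ n ≠ 0 := by positivity
    field_simp

private lemma fb_col {n m : ℕ} (hm1 : 1 ≤ m) (hm : 2 * m + 1 ≤ n / d) (y : V d) :
    ∑ x ∈ Box (n + 1) (0 : V d), fb n m x y = (∑ l ∈ Finset.range (rad d n / (2 * 4 ^ m)),
      if upP n m (l + 1) y then (1 : ℝ) else 0) / 2 ^ n := by
  set D : ℝ := ∑ l ∈ Finset.range (rad d n / (2 * 4 ^ m)),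
      if upP n m (l + 1) y then (1 : ℝ) else 0 with hD
  have e1 : ∀ x, fb n m x y = if Odd (par x - par y) ∧
      x ∈ Box (2 * d * m) (mv (dir d n) (-2 * 4 ^ m) (base (2 * d * m) y)) then
      2 * D / (4 ^ (d * m) * 2 ^ n) else 0 := by
    intro x
    unfold fb
    rw [if_congr (used_iff'' x y) rfl rfl]
    by_cases hu : Odd (par x - par y) ∧
      x ∈ Box (2 * d * m) (mv (dir d n) (-2 * 4 ^ m) (base (2 * d * m) y))
    · rw [if_pos hu, if_pos hu, mult_cast hm, hD]
      have hu' := ((used_iff' x y).1 ((used_iff'' x y).2 hu)).2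
      congr 2
      apply Finset.sum_congr rfl
      intro l _
      rw [if_congr (upP_shift hu') rfl rfl]
    · rw [if_neg hu, if_neg hu]
  simp_rw [e1]
  by_cases h0 : D = 0
  · simp [h0]
  · obtain ⟨l, hl, hP⟩ : ∃ l, l < rad d n / (2 * 4 ^ m) ∧ upP n m (l + 1) y := by
      by_contra hcon
      push Not at hcon
      apply h0
      rw [hD]
      apply Finset.sum_eq_zero
      intro l hl
      rw [if_neg (hcon l (Finset.mem_range.1 hl))]
    rw [fb_block_sum' hm1 (Box (n + 1) (0 : V d))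
      (mv (dir d n) (-2 * 4 ^ m) (base (2 * d * m) y)) y _ (by
        intro x hx
        rw [mem_block_iff] at hx
        refine fbi_mem hm hl.le ((upP_shift (l := l) (x := x) (y := y) ?_).2 hP)
        intro i
        rw [hx i]
        split_ifs <;> ring)]
    have h4 : (4 : ℝ) ^ (d * m) ≠ 0 := by positivity
    have h2 : (2 : ℝ) ^ n ≠ 0 := by positivity
    field_simp

/-- The mean flow at scale `m` transports the uniform measure of the box to that of the sibling. -/
theorem fb_identity {n m : ℕ} (hm1 : 1 ≤ m) (hm : 2 * m + 1 ≤ n / d) (h : V d → ℝ) :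
    ∑ z ∈ Box (n + 1) (0 : V d) ×ˢ Box (n + 1) (0 : V d), fb n m z.1 z.2 * (h z.1 - h z.2) =
      avg (Box n (0 : V d)) h - avg (Box n (nxt n (0 : V d))) h := by
  have hd : 0 < d := Nat.pos_of_neZero d
  set B := Box (n + 1) (0 : V d) with hB
  set N := rad d n / (2 * 4 ^ m) with hN
  have e1 : ∑ z ∈ B ×ˢ B, fb n m z.1 z.2 * (h z.1 - h z.2) =
      ∑ x ∈ B, (∑ y ∈ B, fb n m x y) * h x - ∑ y ∈ B, (∑ x ∈ B, fb n m x y) * h y := by
    simp_rw [mul_sub]
    rw [Finset.sum_sub_distrib, Finset.sum_product, Finset.sum_product_right]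
    simp_rw [Finset.sum_mul]
  rw [e1]
  simp_rw [hB, fb_row hm1 hm, fb_col hm1 hm, ← hB, ← hN]
  rw [← Finset.sum_sub_distrib]
  have e2 : ∀ x, (∑ l ∈ Finset.range N, if upP n m l x then (1 : ℝ) else 0) / 2 ^ n * h x -
      (∑ l ∈ Finset.range N, if upP n m (l + 1) x then (1 : ℝ) else 0) / 2 ^ n * h x =
      ((if x ∈ Box n (0 : V d) then h x else 0) -
        (if x ∈ Box n (nxt n (0 : V d)) then h x else 0)) / 2 ^ n := by
    intro x
    have e3 : (∑ l ∈ Finset.range N, if upP n m l x then (1 : ℝ) else 0) +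
        (if x ∈ Box n (nxt n (0 : V d)) then (1 : ℝ) else 0) =
        (∑ l ∈ Finset.range N, if upP n m (l + 1) x then (1 : ℝ) else 0) +
        (if x ∈ Box n (0 : V d) then (1 : ℝ) else 0) := by
      rw [← if_congr (fbi_last_iff hm x) rfl rfl, ← if_congr (fbi_zero_iff hm x) rfl rfl,
        ← hN, ← Finset.sum_range_succ, Finset.sum_range_succ']
    have e4 : (∑ l ∈ Finset.range N, if upP n m l x then (1 : ℝ) else 0) -
        (∑ l ∈ Finset.range N, if upP n m (l + 1) x then (1 : ℝ) else 0) =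
        (if x ∈ Box n (0 : V d) then (1 : ℝ) else 0) -
        (if x ∈ Box n (nxt n (0 : V d)) then (1 : ℝ) else 0) := by linarith
    rw [← sub_mul, ← sub_div, e4]
    split_ifs <;> ring
  simp_rw [e2]
  rw [← Finset.sum_div, Finset.sum_sub_distrib]
  unfold avg
  rw [card_Box _ _ hd, card_Box _ _ hd, ← sub_div]
  have hsub1 : Box n (0 : V d) ⊆ B := by
    rw [hB, Box_succ]; exact Finset.subset_union_left
  have hsub2 : Box n (nxt n (0 : V d)) ⊆ B := by
    rw [hB, Box_succ]; exact Finset.subset_union_right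
  have e5 : ∀ S : Finset (V d), S ⊆ B → ∑ x ∈ B, (if x ∈ S then h x else 0) = ∑ x ∈ S, h x := by
    intro S hS
    rw [Finset.sum_ite_mem, Finset.inter_eq_right.2 hS]
  rw [e5 _ hsub1, e5 _ hsub2]
  push_cast
  rfl

end MP072e06
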