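import Pool.Agent.Lib.MP_072e06_pr.Walk

/-!
`heat = walk/deg ≤ walk` since `deg ≥ 1`.
-/

open MeasureTheory ENNReal
open scoped Classical

namespace MP072e06

theorem heat_le_walk {d : ℕ} [NeZero d] {G : SimpleGraph (V d)} (hNN : NN G) (t : ℕ) (x y : V d) :
    heat G t x y ≤ walk G t x y := by
  unfold heat
  have h : (1 : ℝ≥0∞) ≤ deg G y := le_trans (by norm_num) (two_le_deg hNN y)
  calc walk G t x y / deg G y ≤ walk G t x y / 1 := ENNReal.div_le_div_left h _
    _ = walk G t x y := div_one _

end MP072e06
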