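import Pool.Agent.Lib.MP_072e06_pr.Defs

/-!
Nash type differential inequality.  `w t - w (t+1) ≥ 2^(-γK)/2 (w t - 2C/2^K)`; take `K` with
`4C/2^K ≤ w t` (and `K` minimal, or `K = 0` if `w t ≥ 4C`): `w t - w (t+1) ≥ c w(t)^(1+γ)`, hence
`w(t+1)^(-γ) - w(t)^(-γ) ≥ c'` .
-/

open MeasureTheory ENNReal
open scoped Classical

namespace MP072e06

/-- One induction step for the bound `w t ≤ B τ^(-1/γ)`. -/
lemma ode_step (w : ℕ → ℝ) (γ C M : ℝ) (hγ : 0 < γ) (hC : 0 < C) (hM : 0 < M) (K0 : ℕ)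
    (h : ∀ K : ℕ, K0 ≤ K → ∀ t : ℕ, M * (2 : ℝ) ^ (-(γ * K)) / 2 * w t + w (t + 1) ≤
      w t + M * (2 : ℝ) ^ (-(γ * K)) * (C / 2 ^ K))
    (B : ℝ) (hB : 8 * C * (4 / (γ * M)) ^ (1 / γ) ≤ B) (t : ℕ) (τ : ℝ) (hτ : 0 < τ)
    (h1 : (4 / (γ * M * τ)) ^ (1 / γ) ≤ (2 : ℝ) ^ (-(K0 : ℝ)))
    (h2 : (2 : ℝ) ^ γ * (4 / (γ * τ)) ≤ 2)
    (hw : w t ≤ B * τ ^ (-(1 / γ))) : w (t + 1) ≤ B * (τ + 1) ^ (-(1 / γ)) := by
  set a : ℝ := (4 / (γ * M * τ)) ^ (1 / γ) with ha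
  have ha0 : 0 < a := by positivity
  set x : ℝ := -Real.logb 2 a with hx
  have hxK : (K0 : ℝ) ≤ x := by
    have := Real.logb_le_logb_of_le (b := 2) (by norm_num) ha0 h1
    rw [Real.logb_rpow (by norm_num) (by norm_num)] at this
    linarith
  obtain ⟨K, hK, hKx, hxK1⟩ : ∃ K : ℕ, K0 ≤ K ∧ (K : ℝ) ≤ x ∧ x < K + 1 :=
    ⟨⌊x⌋₊, Nat.le_floor hxK, Nat.floor_le (by linarith [K0.cast_nonneg (α := ℝ)]),
      Nat.lt_floor_add_one x⟩
  have hax : a = (2 : ℝ) ^ (-x) := by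
    rw [hx, neg_neg, Real.rpow_logb (by norm_num) (by norm_num) ha0]
  have hak : a ≤ (2 : ℝ) ^ (-(K : ℝ)) := by
    rw [hax]; exact Real.rpow_le_rpow_of_exponent_le (by norm_num) (by linarith)
  have hak2 : (2 : ℝ) ^ (-(K : ℝ)) ≤ 2 * a := by
    rw [hax]
    calc (2 : ℝ) ^ (-(K : ℝ)) ≤ 2 ^ (1 + -x) :=
          Real.rpow_le_rpow_of_exponent_le (by norm_num) (by linarith)
      _ = 2 * 2 ^ (-x) := by rw [Real.rpow_add (by norm_num), Real.rpow_one]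
  have hP : (2 : ℝ) ^ (-(γ * K)) = ((2 : ℝ) ^ (-(K : ℝ))) ^ γ := by
    rw [← Real.rpow_mul (by norm_num)]; ring_nf
  have haγ : a ^ γ = 4 / (γ * M * τ) := by
    rw [ha, ← Real.rpow_mul (by positivity), one_div, inv_mul_cancel₀ hγ.ne', Real.rpow_one]
  have hPl : 4 / (γ * M * τ) ≤ (2 : ℝ) ^ (-(γ * K)) := by
    rw [hP, ← haγ]; exact Real.rpow_le_rpow ha0.le hak hγ.le
  have hPu : (2 : ℝ) ^ (-(γ * K)) ≤ 2 ^ γ * (4 / (γ * M * τ)) := by
    rw [hP, ← haγ, ← Real.mul_rpow (by norm_num) ha0.le]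
    exact Real.rpow_le_rpow (by positivity) hak2 hγ.le
  have key := h K hK t
  have h2K : C / 2 ^ K = C * (2 : ℝ) ^ (-(K : ℝ)) := by
    rw [Real.rpow_neg (by norm_num), Real.rpow_natCast]; rfl
  rw [h2K] at key
  set P : ℝ := M * (2 : ℝ) ^ (-(γ * K)) with hPdef
  set f : ℝ := B * τ ^ (-(1 / γ)) with hf
  have hPl' : 4 / (γ * τ) ≤ P := by
    calc 4 / (γ * τ) = M * (4 / (γ * M * τ)) := by field_simp
      _ ≤ P := mul_le_mul_of_nonneg_left hPl hM.le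
  have hPu' : P ≤ 2 := by
    calc P ≤ M * (2 ^ γ * (4 / (γ * M * τ))) := mul_le_mul_of_nonneg_left hPu hM.le
      _ = (2 : ℝ) ^ γ * (4 / (γ * τ)) := by field_simp
      _ ≤ 2 := h2
  have hP0 : 0 ≤ P := by positivity
  have hB0 : 0 ≤ B := le_trans (by positivity) hB
  -- 8 C a ≤ f
  have hfa : 8 * C * a ≤ f := by
    have : a = (4 / (γ * M)) ^ (1 / γ) * τ ^ (-(1 / γ)) := by
      rw [ha, Real.rpow_neg hτ.le, ← Real.inv_rpow hτ.le, ← Real.mul_rpow (by positivity)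
        (by positivity)]
      congr 1
      field_simp
    rw [this, hf, ← mul_assoc]
    exact mul_le_mul_of_nonneg_right hB (by positivity)
  have hf0 : 0 ≤ f := by positivity
  have hw1 : w (t + 1) ≤ (1 - P / 2) * f + P * (C * (2 * a)) := by
    have e1 : (1 - P / 2) * w t ≤ (1 - P / 2) * f :=
      mul_le_mul_of_nonneg_left hw (by linarith)
    have e2 : P * (C * (2 : ℝ) ^ (-(K : ℝ))) ≤ P * (C * (2 * a)) :=
      mul_le_mul_of_nonneg_left (mul_le_mul_of_nonneg_left hak2 hC.le) hP0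
    nlinarith
  have hw2 : w (t + 1) ≤ f - f * (1 / (γ * τ)) := by
    have e3 : P * (C * (2 * a)) ≤ P * (f / 4) :=
      mul_le_mul_of_nonneg_left (by linarith) hP0
    have e4 : f * (1 / (γ * τ)) ≤ f * (P / 4) := by
      apply mul_le_mul_of_nonneg_left _ hf0
      have : 1 / (γ * τ) = (4 / (γ * τ)) / 4 := by ring
      rw [this]; linarith
    nlinarith
  -- Bernoulli
  have hbern : τ ^ (-(1 / γ)) * (1 - 1 / (γ * τ)) ≤ (τ + 1) ^ (-(1 / γ)) := by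
    have e5 : τ + 1 = τ * (1 + 1 / τ) := by field_simp
    rw [e5, Real.mul_rpow hτ.le (by positivity)]
    apply mul_le_mul_of_nonneg_left _ (by positivity)
    have h1τ : 0 < 1 + 1 / τ := by positivity
    rw [Real.rpow_def_of_pos h1τ]
    have e6 := Real.add_one_le_exp (Real.log (1 + 1 / τ) * -(1 / γ))
    have e7 := Real.log_le_sub_one_of_pos h1τ
    have e8 : Real.log (1 + 1 / τ) * (1 / γ) ≤ (1 / τ) * (1 / γ) :=
      mul_le_mul_of_nonneg_right (by linarith) (by positivity)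
    have e9 : 1 / (γ * τ) = (1 / τ) * (1 / γ) := by field_simp
    rw [e9]; linarith
  calc w (t + 1) ≤ f - f * (1 / (γ * τ)) := hw2
    _ = B * (τ ^ (-(1 / γ)) * (1 - 1 / (γ * τ))) := by rw [hf]; ring
    _ ≤ _ := mul_le_mul_of_nonneg_left hbern hB0

theorem ode_A (w : ℕ → ℝ) (h0 : ∀ t, 0 ≤ w t) (h1 : w 0 ≤ 1) (γ C : ℝ) (hγ : 0 < γ) (hC : 0 < C)
    (h : ∀ K t : ℕ, (2 : ℝ) ^ (-(γ * K)) / 2 * w t + w (t + 1) ≤
      w t + (2 : ℝ) ^ (-(γ * K)) * (C / 2 ^ K)) :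
    ∃ C' : ℝ, 0 < C' ∧ ∀ t : ℕ, 1 ≤ t → w t ≤ C' * (t : ℝ) ^ (-(1 / γ)) := by
  have hb : ∀ t, w t ≤ 1 + 2 * C := by
    intro t
    induction t with
    | zero => linarith
    | succ t ih =>
      have := h 0 t
      simp at this
      linarith
  set T : ℝ := max (4 / γ) ((2 : ℝ) ^ γ * 4 / (2 * γ)) + 1 with hT
  have hT1 : 4 / γ ≤ T := le_trans (le_max_left _ _) (by linarith)
  have hT2 : (2 : ℝ) ^ γ * 4 / (2 * γ) ≤ T := le_trans (le_max_right _ _) (by linarith)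
  have hT0 : 0 < T := lt_of_lt_of_le (by positivity) hT1
  set C' : ℝ := max (8 * C * (4 / (γ * 1)) ^ (1 / γ)) ((1 + 2 * C) * (T + 1) ^ (1 / γ)) with hC'
  have hC'1 : 8 * C * (4 / (γ * 1)) ^ (1 / γ) ≤ C' := le_max_left _ _
  have hC'2 : (1 + 2 * C) * (T + 1) ^ (1 / γ) ≤ C' := le_max_right _ _
  have hC'0 : 0 < C' := lt_of_lt_of_le (by positivity) hC'1
  refine ⟨C', hC'0, fun t ht => ?_⟩
  induction t, ht using Nat.le_induction with
  | base =>
    simp only [Nat.cast_one, Real.one_rpow, mul_one]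
    refine (hb 1).trans (le_trans ?_ hC'2)
    have : (1 : ℝ) ≤ (T + 1) ^ (1 / γ) := Real.one_le_rpow (by linarith) (by positivity)
    nlinarith
  | succ t ht ih =>
    have ht0 : (0 : ℝ) < t := by exact_mod_cast ht
    push_cast
    by_cases hcase : (t : ℝ) ≤ T
    · refine (hb _).trans ?_
      have e1 : (T + 1) ^ (-(1 / γ)) ≤ ((t : ℝ) + 1) ^ (-(1 / γ)) :=
        Real.rpow_le_rpow_of_nonpos (by positivity) (by linarith) (by
          have : 0 < 1 / γ := by positivity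
          linarith)
      calc 1 + 2 * C = ((1 + 2 * C) * (T + 1) ^ (1 / γ)) * (T + 1) ^ (-(1 / γ)) := by
            rw [mul_assoc, ← Real.rpow_add (by positivity)]; simp
        _ ≤ C' * (T + 1) ^ (-(1 / γ)) := mul_le_mul_of_nonneg_right hC'2 (by positivity)
        _ ≤ _ := mul_le_mul_of_nonneg_left e1 hC'0.le
    · push Not at hcase
      refine ode_step w γ C 1 hγ hC one_pos 0 (fun K _ t => by simpa using h K t) C' hC'1 t t
        ht0 ?_ ?_ ih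
      · simp only [Nat.cast_zero, neg_zero, Real.rpow_zero]
        apply Real.rpow_le_one (by positivity) _ (by positivity)
        rw [div_le_one (by positivity)]
        have : 4 ≤ T * γ := (div_le_iff₀ hγ).1 hT1
        nlinarith
      · rw [← mul_div_assoc, div_le_iff₀ (by positivity)]
        have : (2 : ℝ) ^ γ * 4 ≤ T * (2 * γ) := (div_le_iff₀ (by positivity)).1 hT2
        nlinarith

end MP072e06
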