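import Pool.Agent.Lib.MP_072e06_pr.PsiaBdd
import Pool.Agent.Lib.MP_072e06_pr.FaFlow

/-!
Conclusion for `phi` in the case `d < s < 2d`, from `phi_le_of_flow`, `isFlow_Fa`, `Fa_moment`, `MPsi_bdd`.
-/

open MeasureTheory ENNReal
open scoped Classical

namespace MP072e06

theorem phi_moment_A (d : ℕ) [NeZero d] (s : ℝ) (hs : 0 < s) (hs2 : s < 2 * d) (q : ℕ)
    (hq : 1 ≤ q) : ∃ C : ℝ, 0 ≤ C ∧ ∀ n : ℕ,
      ∫⁻ ω, phi n (0 : V d) (lrpGraph ω) ^ q ∂(LRP d s) ≤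
        ENNReal.ofReal (C * (rad d n : ℝ) ^ (-((2 * d - s) * q))) := by
  obtain ⟨C, hC1, hC⟩ := Fa_moment d s hs hs2 q hq
  obtain ⟨B, hB0, hB⟩ := MPsi_bdd d s hs hs2 q hq
  refine ⟨C * (1 + B + B), by positivity, fun n => ?_⟩
  have hρ : 0 ≤ (rad d n : ℝ) ^ (-((2 * d - s) * q)) := Real.rpow_nonneg (Nat.cast_nonneg _) _
  have h1 : ∀ ω : Env d, phi n (0 : V d) (lrpGraph ω) ^ q ≤
      ENNReal.ofReal ‖Fa s n 0 ω (Psia s n ω)‖ ^ (2 * q) := by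
    intro ω
    have h2 : phi n (0 : V d) (lrpGraph ω) ≤ ENNReal.ofReal (‖Fa s n 0 ω (Psia s n ω)‖ ^ 2) :=
      phi_le_of_flow (isFlow_Fa s n 0 ω (Psia s n ω) (fun w x hx => isFlow_Psia s n ω w x hx))
    rw [pow_mul, ← ENNReal.ofReal_pow (norm_nonneg _) 2]
    exact pow_le_pow_left' h2 q
  calc ∫⁻ ω, phi n (0 : V d) (lrpGraph ω) ^ q ∂(LRP d s)
      ≤ ∫⁻ ω, ENNReal.ofReal ‖Fa s n 0 ω (Psia s n ω)‖ ^ (2 * q) ∂(LRP d s) := lintegral_mono h1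
    _ ≤ ENNReal.ofReal (C * (rad d n : ℝ) ^ (-((2 * d - s) * q))) *
          (1 + MPsi s q n 0 + MPsi s q n (nxt n 0)) := hC n 0
    _ ≤ ENNReal.ofReal (C * (rad d n : ℝ) ^ (-((2 * d - s) * q))) *
          ENNReal.ofReal (1 + B + B) := by
        apply mul_le_mul_right
        rw [ENNReal.ofReal_add (by positivity) hB0, ENNReal.ofReal_add (by positivity) hB0,
          ENNReal.ofReal_one]
        exact add_le_add (add_le_add le_rfl (hB n 0)) (hB n _)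
    _ = _ := by
        rw [← ENNReal.ofReal_mul (by positivity)]
        congr 1
        ring

end MP072e06
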