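import Pool.Agent.Lib.MP_072e06_pr.MainIneq
import Pool.Agent.Lib.MP_072e06_pr.ErrA
import Pool.Agent.Lib.MP_072e06_pr.OdeA
import Pool.Agent.Lib.MP_072e06_pr.PhiA
import Pool.Agent.Lib.MP_072e06_pr.FinalQ0

/-!
Assembly of Q1(a): `err_A` with `β = s - d`, `main_ineq` with `Λ = 2^(β K/d)`, `ode_A` with
`w t = (W d s t).toReal`, `γ = β/d`.
-/

open MeasureTheory ENNReal
open scoped Classical

namespace MP072e06

private lemma fa_W_le_one (d : ℕ) [NeZero d] (s : ℝ) (t : ℕ) : W d s t ≤ 1 := by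
  unfold W
  refine (lintegral_mono fun ω => walk_le_one (lrpGraph_NN ω) (2 * t) 0 0).trans (le_of_eq ?_)
  rw [lintegral_one, measure_univ]

theorem annealed_A (d : ℕ) [NeZero d] (s : ℝ) (hs : (d : ℝ) < s) (hs2 : s < 2 * d) :
    ∃ C : ℝ, 0 < C ∧ ∀ t : ℕ, 1 ≤ t →
      ∫⁻ ω, heat (lrpGraph ω) (2 * t) (0 : V d) 0 ∂(LRP d s) ≤
        ENNReal.ofReal (C * (t : ℝ) ^ (-((d : ℝ) / (s - d)))) := by
  have hd : 0 < d := Nat.pos_of_ne_zero (NeZero.ne d)
  have hd' : (0 : ℝ) < d := by exact_mod_cast hd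
  have hβ : 0 < s - d := by linarith
  have hβd : s - d ≤ d := by linarith
  obtain ⟨A, C, hA, hC, herr⟩ := err_A hs hβ hβd (fun q hq => by
    obtain ⟨C, hC, h⟩ := phi_moment_A d s (by linarith) hs2 q hq
    refine ⟨C, hC, fun n => (h n).trans (le_of_eq ?_)⟩
    congr 4
    ring)
  have hWt : ∀ t, W d s t ≠ ∞ := fun t => ne_top_of_le_ne_top ENNReal.one_ne_top (fa_W_le_one d s t)
  have hW : ∀ t, W d s t = ENNReal.ofReal (W d s t).toReal := fun t =>
    (ENNReal.ofReal_toReal (hWt t)).symm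
  obtain ⟨C', hC', hode⟩ := ode_A (fun t => (W d s t).toReal) (fun t => ENNReal.toReal_nonneg)
    (by
      have h := ENNReal.toReal_mono ENNReal.one_ne_top (fa_W_le_one d s 0)
      simpa using h) ((s - d) / d) C (by positivity) hC (fun K t => by
      have hΛ : (0 : ℝ) < (2 : ℝ) ^ ((s - d) / d * K) := Real.rpow_pos_of_pos (by norm_num) _
      have h1 := main_ineq hs hA hΛ K t
      have h2 := h1.trans (add_le_add_right (mul_le_mul_right (herr K) _) _)
      rw [hW t, hW (t + 1), ← ENNReal.ofReal_mul (by positivity),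
        ← ENNReal.ofReal_mul (by positivity),
        ← ENNReal.ofReal_add (by positivity) (by positivity),
        ← ENNReal.ofReal_add (by positivity) (by positivity),
        ENNReal.ofReal_le_ofReal_iff (by positivity)] at h2
      have h3 : (2 : ℝ) ^ (-((s - d) / d * K)) = 1 / (2 : ℝ) ^ ((s - d) / d * K) := by
        rw [Real.rpow_neg (by norm_num), one_div]
      have h4 : 1 / (2 * (2 : ℝ) ^ ((s - d) / d * K)) = 1 / (2 : ℝ) ^ ((s - d) / d * K) / 2 := by
        field_simp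
      rw [h3, ← h4]
      exact h2)
  refine ⟨C', hC', fun t ht => ?_⟩
  calc ∫⁻ ω, heat (lrpGraph ω) (2 * t) (0 : V d) 0 ∂(LRP d s)
      ≤ W d s t := lintegral_mono fun ω => heat_le_walk (lrpGraph_NN ω) (2 * t) 0 0
    _ = ENNReal.ofReal (W d s t).toReal := hW t
    _ ≤ _ := by
        refine ENNReal.ofReal_le_ofReal ((hode t ht).trans (le_of_eq ?_))
        congr 3
        rw [one_div_div]

end MP072e06
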