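import Pool.Agent.Lib.MP_072e06_pr.Defs
import Pool.Agent.Lib.MP_072e06_pr.OdeA

/-!
As `ode_A`, with an arbitrarily large constant for large scales.  First `w → 0`: fix `M = 1`; for
every `K ≥ K0` one has `limsup w ≤ 2C/2^K` (linear recursion).  Then for `t ≥ t_0(M)` one has
`w(t) < 4C/2^(K0+1)`, choose `K ≥ K0` with `4C/2^K ≤ w t < 8C/2^K`:
`w t - w (t+1) ≥ c M w(t)^(1+γ)` with `c` independent of `M`, so
`limsup t^(1/γ) w(t) ≤ C' M^(-1/γ)`.
-/

open MeasureTheory ENNReal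
open scoped Classical

namespace MP072e06

/-- A linear recursion. -/
lemma ode_lin (w : ℕ → ℝ) (q D : ℝ) (hq : 0 < q) (hq1 : q ≤ 1)
    (h : ∀ t, w (t + 1) ≤ (1 - q) * w t + q * D) (ε : ℝ) (hε : 0 < ε) :
    ∃ t0, ∀ t, t0 ≤ t → w t ≤ D + ε := by
  have h1 : ∀ t, w t - D ≤ (1 - q) ^ t * |w 0 - D| := by
    intro t
    induction t with
    | zero => simpa using le_abs_self (w 0 - D)
    | succ t ih =>
      have := h t
      have e : (1 - q) * (w t - D) ≤ (1 - q) * ((1 - q) ^ t * |w 0 - D|) :=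
        mul_le_mul_of_nonneg_left ih (by linarith)
      rw [pow_succ]
      nlinarith
  have h2 : Filter.Tendsto (fun t : ℕ => (1 - q) ^ t * |w 0 - D|) Filter.atTop (nhds 0) := by
    have := (tendsto_pow_atTop_nhds_zero_of_lt_one (r := 1 - q) (by linarith)
      (by linarith)).mul_const (|w 0 - D|)
    simpa using this
  have h3 := h2.eventually (gt_mem_nhds hε)
  obtain ⟨t0, ht0⟩ := Filter.eventually_atTop.1 h3
  exact ⟨t0, fun t ht => by have := ht0 t ht; have := h1 t; linarith⟩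

lemma ode_small (w : ℕ → ℝ) (γ C : ℝ) (hγ : 0 < γ) (hC : 0 < C)
    (h : ∀ M : ℝ, 0 < M → ∃ K0 : ℕ, ∀ K : ℕ, K0 ≤ K → ∀ t : ℕ,
      M * (2 : ℝ) ^ (-(γ * K)) / 2 * w t + w (t + 1) ≤
        w t + M * (2 : ℝ) ^ (-(γ * K)) * (C / 2 ^ K)) (ε : ℝ) (hε : 0 < ε) :
    ∃ t0, ∀ t, t0 ≤ t → w t ≤ ε := by
  obtain ⟨K0, hK0⟩ := h 1 one_pos
  obtain ⟨K1, hK1⟩ : ∃ K1 : ℕ, 2 * C / 2 ^ K1 < ε / 2 := by
    obtain ⟨n, hn⟩ := exists_pow_lt_of_lt_one (show (0 : ℝ) < ε / (4 * C) by positivity)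
      (show (1 / 2 : ℝ) < 1 by norm_num)
    refine ⟨n, ?_⟩
    rw [div_lt_iff₀ (by positivity)]
    rw [one_div, inv_pow, inv_lt_iff_one_lt_mul₀ (by positivity)] at hn
    have : ε / (4 * C) * 2 ^ n * (4 * C) = ε * 2 ^ n := by field_simp
    nlinarith
  set K := max K0 K1
  have hC2 : 2 * C / 2 ^ K ≤ 2 * C / 2 ^ K1 := by
    apply div_le_div_of_nonneg_left (by positivity) (by positivity)
    exact pow_le_pow_right₀ (by norm_num) (le_max_right _ _)
  set q : ℝ := (2 : ℝ) ^ (-(γ * K)) / 2 with hq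
  have hq0 : 0 < q := by positivity
  have hq1 : q ≤ 1 := by
    have : (2 : ℝ) ^ (-(γ * K)) ≤ 1 :=
      Real.rpow_le_one_of_one_le_of_nonpos (by norm_num) (by
        have : 0 ≤ γ * (K : ℝ) := by positivity
        linarith)
    rw [hq]; linarith
  obtain ⟨t0, ht0⟩ := ode_lin w q (2 * C / 2 ^ K) hq0 hq1 (fun t => by
    have := hK0 K (le_max_left _ _) t
    simp only [one_mul] at this
    have e : q * (2 * C / 2 ^ K) = (2 : ℝ) ^ (-(γ * K)) * (C / 2 ^ K) := by rw [hq]; ring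
    rw [e]
    have e2 : (2 : ℝ) ^ (-(γ * K)) / 2 * w t = q * w t := by rw [hq]
    rw [e2] at this
    linarith) (ε / 2) (by positivity)
  exact ⟨t0, fun t ht => by have := ht0 t ht; linarith⟩

theorem ode_B (w : ℕ → ℝ) (h0 : ∀ t, 0 ≤ w t) (γ C : ℝ) (hγ : 0 < γ) (hC : 0 < C)
    (h : ∀ M : ℝ, 0 < M → ∃ K0 : ℕ, ∀ K : ℕ, K0 ≤ K → ∀ t : ℕ,
      M * (2 : ℝ) ^ (-(γ * K)) / 2 * w t + w (t + 1) ≤
        w t + M * (2 : ℝ) ^ (-(γ * K)) * (C / 2 ^ K)) :
    Filter.Tendsto (fun t : ℕ => (t : ℝ) ^ (1 / γ) * w t) Filter.atTop (nhds 0) := by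
  have hg : 0 < 1 / γ := by positivity
  rw [Metric.tendsto_atTop]
  intro ε hε
  -- choose `M` such that `2^(1/γ) * B < ε`
  have hlim : Filter.Tendsto (fun M : ℝ => (2 : ℝ) ^ (1 / γ) * (8 * C * (4 / (γ * M)) ^ (1 / γ)))
      Filter.atTop (nhds 0) := by
    have e1 : Filter.Tendsto (fun M : ℝ => M ^ (-(1 / γ))) Filter.atTop (nhds 0) :=
      tendsto_rpow_neg_atTop hg
    have e2 := e1.const_mul ((2 : ℝ) ^ (1 / γ) * (8 * C * (4 / γ) ^ (1 / γ)))
    rw [mul_zero] at e2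
    refine e2.congr' ?_
    filter_upwards [Filter.eventually_gt_atTop 0] with M hM
    have : (4 / (γ * M)) ^ (1 / γ) = (4 / γ) ^ (1 / γ) * M ^ (-(1 / γ)) := by
      rw [Real.rpow_neg hM.le, ← Real.inv_rpow hM.le, ← Real.mul_rpow (by positivity)
        (by positivity)]
      congr 1
      field_simp
    rw [this]; ring
  obtain ⟨M, hMε, hM⟩ := ((hlim.eventually (gt_mem_nhds hε)).and
    (Filter.eventually_gt_atTop 0)).exists
  set B : ℝ := 8 * C * (4 / (γ * M)) ^ (1 / γ) with hB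
  have hB0 : 0 < B := by positivity
  obtain ⟨K0, hK0⟩ := h M hM
  -- T
  set T : ℝ := max (4 / (γ * M) * ((2 : ℝ) ^ (K0 : ℝ)) ^ γ) ((2 : ℝ) ^ γ * 4 / (2 * γ)) + 1
    with hT
  have hT1 : 4 / (γ * M) * ((2 : ℝ) ^ (K0 : ℝ)) ^ γ ≤ T :=
    le_trans (le_max_left _ _) (by linarith)
  have hT2 : (2 : ℝ) ^ γ * 4 / (2 * γ) ≤ T := le_trans (le_max_right _ _) (by linarith)
  have hT0 : 0 < T := lt_of_lt_of_le (by positivity) hT1
  obtain ⟨t1, ht1⟩ := ode_small w γ C hγ hC h (B * (T + 1) ^ (-(1 / γ))) (by positivity)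
  have main : ∀ s : ℕ, 1 ≤ s → w (t1 + s) ≤ B * (s : ℝ) ^ (-(1 / γ)) := by
    intro s hs
    induction s, hs using Nat.le_induction with
    | base =>
      refine (ht1 _ (by omega)).trans ?_
      apply mul_le_mul_of_nonneg_left _ hB0.le
      simp only [Nat.cast_one, Real.one_rpow]
      exact Real.rpow_le_one_of_one_le_of_nonpos (by linarith) (by linarith)
    | succ s hs ih =>
      have hs0 : (0 : ℝ) < s := by exact_mod_cast hs
      push_cast
      by_cases hcase : (s : ℝ) ≤ T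
      · refine (ht1 _ (by omega)).trans ?_
        apply mul_le_mul_of_nonneg_left _ hB0.le
        exact Real.rpow_le_rpow_of_nonpos (by positivity) (by linarith) (by linarith)
      · push Not at hcase
        refine ode_step w γ C M hγ hC hM K0 hK0 B le_rfl (t1 + s) s hs0 ?_ ?_ ih
        · have e1 : 4 / (γ * M * s) ≤ ((2 : ℝ) ^ (-(K0 : ℝ))) ^ γ := by
            have e0 : ((2 : ℝ) ^ (-(K0 : ℝ))) ^ γ = (((2 : ℝ) ^ (K0 : ℝ)) ^ γ)⁻¹ := by
              rw [Real.rpow_neg (by norm_num), Real.inv_rpow (by positivity)]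
            rw [e0, ← div_div, div_le_iff₀ hs0, inv_mul_eq_div, le_div_iff₀ (by positivity)]
            linarith
          calc (4 / (γ * M * s)) ^ (1 / γ) ≤ (((2 : ℝ) ^ (-(K0 : ℝ))) ^ γ) ^ (1 / γ) :=
                Real.rpow_le_rpow (by positivity) e1 hg.le
            _ = (2 : ℝ) ^ (-(K0 : ℝ)) := by
                rw [← Real.rpow_mul (by positivity), mul_one_div_cancel hγ.ne', Real.rpow_one]
        · rw [← mul_div_assoc, div_le_iff₀ (by positivity)]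
          have : (2 : ℝ) ^ γ * 4 ≤ T * (2 * γ) := (div_le_iff₀ (by positivity)).1 hT2
          nlinarith
  refine ⟨2 * t1 + 2, fun t ht => ?_⟩
  obtain ⟨s, rfl⟩ : ∃ s, t = t1 + s := ⟨t - t1, by omega⟩
  have hs : 1 ≤ s := by omega
  have hs2 : t1 + s ≤ 2 * s := by omega
  have hs0 : (0 : ℝ) < s := by exact_mod_cast hs
  rw [Real.dist_eq, sub_zero, abs_of_nonneg (mul_nonneg (by positivity) (h0 _))]
  calc ((t1 + s : ℕ) : ℝ) ^ (1 / γ) * w (t1 + s)
      ≤ (2 * (s : ℝ)) ^ (1 / γ) * (B * (s : ℝ) ^ (-(1 / γ))) := by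
        apply mul_le_mul _ (main s hs) (h0 _) (by positivity)
        exact Real.rpow_le_rpow (by positivity) (by exact_mod_cast hs2) hg.le
    _ = (2 : ℝ) ^ (1 / γ) * B * ((s : ℝ) ^ (1 / γ) * (s : ℝ) ^ (-(1 / γ))) := by
        rw [Real.mul_rpow (by norm_num) hs0.le]; ring
    _ = (2 : ℝ) ^ (1 / γ) * B := by rw [← Real.rpow_add hs0]; simp
    _ < ε := hMε

end MP072e06
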