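import Pool.Agent.Lib.MP_072e06_pr.PhiEFlow
import Pool.Agent.Lib.MP_072e06_pr.FbEnergy
import Pool.Agent.Lib.MP_072e06_pr.Rosenthal
import Pool.Agent.Lib.MP_072e06_pr.FaFlow

/-!
Correction part.  Write the sum as `∑_z (ξ_z - p_z) • v_z`, `v_z = ∑_m θ_m (fb_m/p) PhiE_m(z)`, restricted
to the pairs with `z.1 (dir) < z.2 (dir)` (`used_lt`; on these `z ↦ s(z.1,z.2)` is injective); Rosenthal with
`q = 1`, `B = ∅`, `X = ∑_z p ‖v_z‖²` (constant).  At most one `m` contributes for each `z`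
(`used_unique`), so `p ‖v_z‖² = ∑_m θ_m² (fb_m²/p) ‖PhiE_m‖²`; then `norm_PhiE_sq_le`, `fb_energy`.
-/

open MeasureTheory ENNReal
open scoped Classical

namespace MP072e06

private lemma jb_norm_sq_sum {ι H : Type*} [NormedAddCommGroup H] (s : Finset ι) (c : ι → H)
    (h : ∀ i ∈ s, ∀ j ∈ s, c i ≠ 0 → c j ≠ 0 → i = j) :
    ‖∑ i ∈ s, c i‖ ^ 2 = ∑ i ∈ s, ‖c i‖ ^ 2 := by
  by_cases h0 : ∀ i ∈ s, c i = 0
  · rw [Finset.sum_eq_zero h0, Finset.sum_eq_zero (fun i hi => by rw [h0 i hi]; simp)]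
    simp
  · push Not at h0
    obtain ⟨i, hi, hci⟩ := h0
    have hz : ∀ j ∈ s, j ≠ i → c j = 0 := by
      intro j hj hji
      by_contra hcj
      exact hji (h j hj i hi hcj hci)
    rw [Finset.sum_eq_single_of_mem i hi hz,
      Finset.sum_eq_single_of_mem i hi (fun j hj hji => by rw [hz j hj hji]; simp)]

theorem Jb_energy2 (d : ℕ) [NeZero d] (hd : 2 ≤ d) : ∃ C : ℝ, 0 ≤ C ∧
    ∀ (n M : ℕ) (θ : ℕ → ℝ), 2 * M + 1 ≤ n / d →
    ∫⁻ ω, ENNReal.ofReal (‖∑ m ∈ Finset.Icc 1 M, θ m •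
        ∑ z ∈ Box (n + 1) (0 : V d) ×ˢ Box (n + 1) (0 : V d),
          ((xi ω s(z.1, z.2) - edgeProb d (d + 2) z.1 z.2) *
            (fb n m z.1 z.2 / edgeProb d (d + 2) z.1 z.2)) •
            PhiE n m z.1 z.2‖ ^ 2) ∂(LRP d (d + 2)) ≤
      ENNReal.ofReal (C * ((rad d n : ℝ) ^ 2 / 2 ^ n) *
        ∑ m ∈ Finset.Icc 1 M, θ m ^ 2 * (m + 1)) := by
  obtain ⟨C, hC, hfe⟩ := fb_energy d
  obtain ⟨D, hD, hros⟩ := rosenthal 1 le_rfl
  refine ⟨D.toReal * (12 * (d + 1) * d * C), by positivity, fun n M θ hM => ?_⟩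
  set T := Box (n + 1) (0 : V d) ×ˢ Box (n + 1) (0 : V d) with hT
  set p : V d × V d → ℝ := fun z => edgeProb d (d + 2) z.1 z.2 with hp
  have hppos : ∀ z, 0 < p z := fun z => edgeProb_pos (d + 2) z.1 z.2
  set v : V d × V d → L2 d := fun z => ∑ m ∈ Finset.Icc 1 M,
    (θ m * (fb n m z.1 z.2 / p z)) • PhiE n m z.1 z.2 with hv
  set T' := T.filter (fun z => z.1 (dir d n) < z.2 (dir d n)) with hT'
  have hused : ∀ m z, (θ m * (fb n m z.1 z.2 / p z)) • PhiE n m z.1 z.2 ≠ 0 →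
      used n m z.1 z.2 := by
    intro m z hm
    by_contra hcon
    apply hm
    have : fb n m z.1 z.2 = 0 := by unfold fb; rw [if_neg hcon]
    rw [this]
    simp
  have hv0 : ∀ z, ¬ (z.1 (dir d n) < z.2 (dir d n)) → v z = 0 := by
    intro z hz
    rw [hv]
    apply Finset.sum_eq_zero
    intro m _
    by_contra hcon
    have h1 := used_lt (hused m z hcon)
    have h2 : (0 : ℤ) < 4 ^ m := by positivity
    omega
  have key : ∀ ω : Env d, ∑ m ∈ Finset.Icc 1 M, θ m •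
        ∑ z ∈ T, ((xi ω s(z.1, z.2) - edgeProb d (d + 2) z.1 z.2) *
            (fb n m z.1 z.2 / edgeProb d (d + 2) z.1 z.2)) • PhiE n m z.1 z.2 =
      ∑ z ∈ T', (xi ω s(z.1, z.2) - (edgeProb2 d (d + 2) s(z.1, z.2) : ℝ)) • v z := by
    intro ω
    have e1 : ∑ z ∈ T', (xi ω s(z.1, z.2) - (edgeProb2 d (d + 2) s(z.1, z.2) : ℝ)) • v z =
        ∑ z ∈ T, (xi ω s(z.1, z.2) - (edgeProb2 d (d + 2) s(z.1, z.2) : ℝ)) • v z := by
      rw [hT', Finset.sum_filter]
      apply Finset.sum_congr rfl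
      intro z _
      by_cases hz : z.1 (dir d n) < z.2 (dir d n)
      · rw [if_pos hz]
      · rw [if_neg hz, hv0 z hz, smul_zero]
    rw [e1]
    simp_rw [Finset.smul_sum, smul_smul]
    rw [Finset.sum_comm]
    apply Finset.sum_congr rfl
    intro z _
    rw [hv]
    simp only
    rw [Finset.smul_sum]
    apply Finset.sum_congr rfl
    intro m _
    rw [smul_smul, edgeProb2_mk]
    congr 1
    simp only [hp]
    ring
  have hS : ∑ z ∈ T', p z * ‖v z‖ ^ 2 ≤ 12 * (d + 1) * d * C * ((rad d n : ℝ) ^ 2 / 2 ^ n) *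
      ∑ m ∈ Finset.Icc 1 M, θ m ^ 2 * (m + 1) := by
    have e1 : ∀ z, p z * ‖v z‖ ^ 2 = ∑ m ∈ Finset.Icc 1 M,
        θ m ^ 2 * (fb n m z.1 z.2 ^ 2 / p z) * ‖PhiE n m z.1 z.2‖ ^ 2 := by
      intro z
      rw [hv]
      simp only
      rw [jb_norm_sq_sum, Finset.mul_sum]
      · apply Finset.sum_congr rfl
        intro m _
        rw [norm_smul, mul_pow, Real.norm_eq_abs, sq_abs]
        have := (hppos z).ne'
        field_simp
      · intro m _ m' _ h1 h2
        exact used_unique (hused m z h1) (hused m' z h2)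
    calc ∑ z ∈ T', p z * ‖v z‖ ^ 2 ≤ ∑ z ∈ T, p z * ‖v z‖ ^ 2 :=
          Finset.sum_le_sum_of_subset_of_nonneg (Finset.filter_subset _ _)
            (fun z _ _ => mul_nonneg (hppos z).le (sq_nonneg _))
      _ = ∑ m ∈ Finset.Icc 1 M, ∑ z ∈ T,
            θ m ^ 2 * (fb n m z.1 z.2 ^ 2 / p z) * ‖PhiE n m z.1 z.2‖ ^ 2 := by
          simp_rw [e1]
          rw [Finset.sum_comm]
      _ ≤ ∑ m ∈ Finset.Icc 1 M, 12 * (d + 1) * d * C * ((rad d n : ℝ) ^ 2 / 2 ^ n) *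
            (θ m ^ 2 * (m + 1)) := by
          apply Finset.sum_le_sum
          intro m hm
          rw [Finset.mem_Icc] at hm
          calc ∑ z ∈ T, θ m ^ 2 * (fb n m z.1 z.2 ^ 2 / p z) * ‖PhiE n m z.1 z.2‖ ^ 2
              ≤ ∑ z ∈ T, θ m ^ 2 * (fb n m z.1 z.2 ^ 2 / p z) * (12 * (d + 1) * d * (m + 1)) := by
                apply Finset.sum_le_sum
                intro z _
                apply mul_le_mul_of_nonneg_left (norm_PhiE_sq_le hd z.1 z.2)
                have := hppos z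
                positivity
            _ = θ m ^ 2 * (12 * (d + 1) * d * (m + 1)) *
                  ∑ z ∈ T, fb n m z.1 z.2 ^ 2 / p z := by
                rw [Finset.mul_sum]
                apply Finset.sum_congr rfl
                intro z _
                ring
            _ ≤ θ m ^ 2 * (12 * (d + 1) * d * (m + 1)) * (C * (rad d n : ℝ) ^ 2 / 2 ^ n) :=
                mul_le_mul_of_nonneg_left (hfe n m hm.1 (by omega)) (by positivity)
            _ = _ := by ring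
      _ = _ := by rw [← Finset.mul_sum]
  have hinj : Set.InjOn (fun z : V d × V d => s(z.1, z.2)) T' := by
    rintro ⟨a, b⟩ h1 ⟨a', b'⟩ h2 h
    rw [Finset.mem_coe, hT', Finset.mem_filter] at h1 h2
    rcases Sym2.eq_iff.1 h with ⟨h3, h4⟩ | ⟨h3, h4⟩
    · exact Prod.ext h3 h4
    · exfalso
      simp only at h1 h2 h3 h4
      subst h3 h4
      have := h1.2
      have := h2.2
      simp only at *
      omega
  have hr := hros (Sym2 (V d)) (V d × V d) (edgeProb2 d (d + 2)) (L2 d) T'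
    (fun z => s(z.1, z.2)) hinj ∅ (fun _ _ => Finset.notMem_empty _) (fun z _ => v z)
    (fun _ _ _ _ _ => rfl) (fun _ => ENNReal.ofReal (∑ z ∈ T', p z * ‖v z‖ ^ 2))
    (fun _ _ _ => rfl) (by
      intro ω j hj1 hj2
      obtain rfl : j = 1 := by omega
      rw [pow_one, ENNReal.ofReal_sum_of_nonneg
        (fun z _ => mul_nonneg (hppos z).le (sq_nonneg _))]
      apply Finset.sum_le_sum
      intro z _
      rw [mul_one, ENNReal.ofReal_mul (hppos z).le, ENNReal.ofReal_pow (norm_nonneg _)]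
      exact le_rfl)
  simp_rw [key]
  have e5 : ∀ ω : Env d, ENNReal.ofReal (‖∑ z ∈ T', (xi ω s(z.1, z.2) -
      (edgeProb2 d (d + 2) s(z.1, z.2) : ℝ)) • v z‖ ^ 2) =
      ENNReal.ofReal (‖∑ z ∈ T', (xi ω s(z.1, z.2) -
      (edgeProb2 d (d + 2) s(z.1, z.2) : ℝ)) • v z‖) ^ (2 * 1) := by
    intro ω
    rw [mul_one, ENNReal.ofReal_pow (norm_nonneg _)]
  simp_rw [e5]
  refine hr.trans ?_
  simp only [pow_one, lintegral_const, measure_univ, mul_one]
  rw [← ENNReal.ofReal_toReal hD.ne, ← ENNReal.ofReal_mul ENNReal.toReal_nonneg]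
  apply ENNReal.ofReal_le_ofReal
  rw [ENNReal.toReal_ofReal ENNReal.toReal_nonneg]
  calc D.toReal * ∑ z ∈ T', p z * ‖v z‖ ^ 2 ≤ D.toReal * _ :=
        mul_le_mul_of_nonneg_left hS ENNReal.toReal_nonneg
    _ = _ := by ring

end MP072e06
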