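import Pool.Agent.Lib.MP_072e06_pr.JbE1
import Pool.Agent.Lib.MP_072e06_pr.JbE2
import Pool.Agent.Lib.MP_072e06_pr.MeasA

/-!
`Jb` is the difference of the two sums; `‖a - b‖² ≤ 2‖a‖² + 2‖b‖²`.
-/

open MeasureTheory ENNReal
open scoped Classical

namespace MP072e06

theorem Jb_energy (d : ℕ) [NeZero d] (hd : 2 ≤ d) : ∃ C : ℝ, 0 ≤ C ∧ ∀ (n M : ℕ) (θ : ℕ → ℝ),
    2 * M + 1 ≤ n / d →
    ∫⁻ ω, ENNReal.ofReal (‖Jb (d + 2) n M θ ω‖ ^ 2) ∂(LRP d (d + 2)) ≤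
      ENNReal.ofReal (C * ((rad d n : ℝ) ^ 2 / 2 ^ n) *
        ∑ m ∈ Finset.Icc 1 M, θ m ^ 2 * (m + 1)) := by
  obtain ⟨C1, hC1, h1⟩ := Jb_energy1 d
  obtain ⟨C2, hC2, h2⟩ := Jb_energy2 d hd
  refine ⟨2 * C1 + 2 * C2, by positivity, fun n M θ hM => ?_⟩
  have h1' := h1 n M θ hM
  have h2' := h2 n M θ hM
  set a : Env d → L2 d := fun ω => ∑ m ∈ Finset.Icc 1 M, θ m •
        ∑ z ∈ Box (n + 1) (0 : V d) ×ˢ Box (n + 1) (0 : V d),
          (xi ω s(z.1, z.2) * (fb n m z.1 z.2 / edgeProb d (d + 2) z.1 z.2)) •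
            sg z.1 z.2 with ha
  set b : Env d → L2 d := fun ω => ∑ m ∈ Finset.Icc 1 M, θ m •
        ∑ z ∈ Box (n + 1) (0 : V d) ×ˢ Box (n + 1) (0 : V d),
          ((xi ω s(z.1, z.2) - edgeProb d (d + 2) z.1 z.2) *
            (fb n m z.1 z.2 / edgeProb d (d + 2) z.1 z.2)) •
            PhiE n m z.1 z.2 with hb
  have hJ : ∀ ω, Jb (d + 2) n M θ ω = a ω - b ω := by
    intro ω
    simp only [ha, hb, Jb]
    rw [← Finset.sum_sub_distrib]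
    refine Finset.sum_congr rfl fun m _ => ?_
    rw [← smul_sub, ← Finset.sum_sub_distrib]
  have h2m : ∀ x : ℝ, (2 : ℝ≥0∞) * ENNReal.ofReal x = ENNReal.ofReal (2 * x) := fun x => by
    rw [ENNReal.ofReal_mul (by norm_num), ENNReal.ofReal_ofNat]
  have hpt : ∀ ω, ENNReal.ofReal (‖Jb (d + 2) n M θ ω‖ ^ 2) ≤
      2 * ENNReal.ofReal (‖a ω‖ ^ 2) + 2 * ENNReal.ofReal (‖b ω‖ ^ 2) := by
    intro ω
    rw [h2m, h2m, ← ENNReal.ofReal_add (by positivity) (by positivity)]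
    apply ENNReal.ofReal_le_ofReal
    rw [hJ ω]
    have h3 := norm_sub_le (a ω) (b ω)
    have h4 : ‖a ω - b ω‖ ^ 2 ≤ (‖a ω‖ + ‖b ω‖) ^ 2 := by
      gcongr
    nlinarith [sq_nonneg (‖a ω‖ - ‖b ω‖)]
  have hma : Measurable fun ω => ENNReal.ofReal (‖a ω‖ ^ 2) := by
    refine measurable_of_dependsOn _ ((Box (n + 1) (0 : V d) ×ˢ Box (n + 1) (0 : V d)).image
      fun z => s(z.1, z.2)) ?_
    intro ω ω' hω
    simp only [ha]
    congr 2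
    refine congrArg _ (Finset.sum_congr rfl fun m _ => ?_)
    congr 1
    refine Finset.sum_congr rfl fun z hz => ?_
    have hx : xi ω s(z.1, z.2) = xi ω' s(z.1, z.2) := by
      unfold xi
      rw [hω s(z.1, z.2) (by
        rw [Finset.mem_coe]
        exact Finset.mem_image.2 ⟨z, hz, rfl⟩)]
    rw [hx]
  calc ∫⁻ ω, ENNReal.ofReal (‖Jb (d + 2) n M θ ω‖ ^ 2) ∂(LRP d (d + 2))
      ≤ ∫⁻ ω, (2 * ENNReal.ofReal (‖a ω‖ ^ 2) + 2 * ENNReal.ofReal (‖b ω‖ ^ 2))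
          ∂(LRP d (d + 2)) := lintegral_mono hpt
    _ = 2 * ∫⁻ ω, ENNReal.ofReal (‖a ω‖ ^ 2) ∂(LRP d (d + 2)) +
          2 * ∫⁻ ω, ENNReal.ofReal (‖b ω‖ ^ 2) ∂(LRP d (d + 2)) := by
        rw [lintegral_add_left (hma.const_mul 2), lintegral_const_mul' _ _ (by norm_num),
          lintegral_const_mul' _ _ (by norm_num)]
    _ ≤ 2 * ENNReal.ofReal (C1 * ((rad d n : ℝ) ^ 2 / 2 ^ n) *
          ∑ m ∈ Finset.Icc 1 M, θ m ^ 2 * (m + 1)) +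
        2 * ENNReal.ofReal (C2 * ((rad d n : ℝ) ^ 2 / 2 ^ n) *
          ∑ m ∈ Finset.Icc 1 M, θ m ^ 2 * (m + 1)) := by
        gcongr
    _ = _ := by
        have hs : 0 ≤ ∑ m ∈ Finset.Icc 1 M, θ m ^ 2 * ((m : ℝ) + 1) :=
          Finset.sum_nonneg fun m _ => by positivity
        rw [h2m, h2m, ← ENNReal.ofReal_add (by positivity) (by positivity)]
        congr 1
        ring

end MP072e06
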