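import Pool.Agent.Lib.MP_072e06_pr.JbFlow
import Pool.Agent.Lib.MP_072e06_pr.JbEnergy
import Pool.Agent.Lib.MP_072e06_pr.NNFlow

/-!
`phi ≤ rad²/2^n` (`phi_le_nn`), so `phi^q ≤ (rad²/2^n)^(q-1) phi`, and `phi ≤ ‖Jb‖²` when
`∑ θ = 1`; `θ_m = 1/(m H_M)`, `H_M = ∑_{m ≤ M} 1/m`: `∑ θ_m² (m+1) ≤ 2/H_M → 0` with
`M = (n/d - 1)/2 → ∞`; `rad^(d-2) rad²/2^n ≤ 1`.
-/

open MeasureTheory ENNReal
open scoped Classical

namespace MP072e06

/-- Harmonic sum. -/
private noncomputable def hs (M : ℕ) : ℝ := ∑ m ∈ Finset.Icc 1 M, (1 : ℝ) / m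

private lemma hs_eq (M : ℕ) : hs M = ∑ i ∈ Finset.range M, (1 : ℝ) / (i + 1) := by
  unfold hs
  induction M with
  | zero => simp
  | succ M ih =>
    rw [Finset.sum_Icc_succ_top (by omega), ih, Finset.sum_range_succ]
    push_cast
    rfl

private lemma hs_tendsto : Filter.Tendsto hs Filter.atTop Filter.atTop := by
  have := Real.tendsto_sum_range_one_div_nat_succ_atTop
  refine this.congr ?_
  intro M
  rw [hs_eq]

private lemma hs_pos {M : ℕ} (hM : 1 ≤ M) : 0 < hs M := by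
  unfold hs
  apply Finset.sum_pos
  · intro m hm
    rw [Finset.mem_Icc] at hm
    have : (0 : ℝ) < m := by exact_mod_cast (by omega : 0 < m)
    positivity
  · exact ⟨1, Finset.mem_Icc.2 ⟨le_rfl, hM⟩⟩

private lemma phiB_bound (d : ℕ) [NeZero d] (hd : 2 ≤ d) (q : ℕ) (hq : 1 ≤ q) :
    ∃ C : ℝ, 0 ≤ C ∧ ∀ n M : ℕ, 1 ≤ M → 2 * M + 1 ≤ n / d →
      ENNReal.ofReal ((rad d n : ℝ) ^ (((d : ℝ) - 2) * q)) *
        ∫⁻ ω, phi n (0 : V d) (lrpGraph ω) ^ q ∂(LRP d (d + 2)) ≤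
        ENNReal.ofReal (C * (2 / hs M)) := by
  obtain ⟨C, hC, hJ⟩ := Jb_energy d hd
  refine ⟨C, hC, fun n M hM1 hM => ?_⟩
  have hH := hs_pos hM1
  set θ : ℕ → ℝ := fun m => 1 / (m * hs M) with hθ
  set R : ℝ := (rad d n : ℝ) ^ 2 / 2 ^ n with hR
  have hrad : (0 : ℝ) < rad d n := by exact_mod_cast rad_pos n
  have hR0 : 0 ≤ R := by positivity
  have hsum : ∑ m ∈ Finset.Icc 1 M, θ m = 1 := by
    have e : ∀ m, θ m = (1 : ℝ) / m * (1 / hs M) := by
      intro m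
      simp only [hθ]
      rw [one_div_mul_one_div]
    simp_rw [e]
    rw [← Finset.sum_mul]
    change hs M * (1 / hs M) = 1
    field_simp
  have hS : ∑ m ∈ Finset.Icc 1 M, θ m ^ 2 * (m + 1) ≤ 2 / hs M := by
    have e : ∀ m ∈ Finset.Icc 1 M, θ m ^ 2 * ((m : ℝ) + 1) ≤ (1 : ℝ) / m * (2 / hs M ^ 2) := by
      intro m hm
      rw [Finset.mem_Icc] at hm
      have hm0 : (1 : ℝ) ≤ m := by exact_mod_cast hm.1
      have hm1 : (0 : ℝ) < m := by linarith
      have h1 : θ m ^ 2 * ((m : ℝ) + 1) = ((m : ℝ) + 1) / (m * (m * hs M ^ 2)) := by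
        simp only [hθ]
        field_simp
      have h2 : (1 : ℝ) / m * (2 / hs M ^ 2) = (2 * m) / (m * (m * hs M ^ 2)) := by
        field_simp
      rw [h1, h2]
      apply div_le_div_of_nonneg_right _ (by positivity)
      linarith
    refine (Finset.sum_le_sum e).trans (le_of_eq ?_)
    rw [← Finset.sum_mul]
    change hs M * (2 / hs M ^ 2) = 2 / hs M
    field_simp
  have hphi1 : ∀ ω : Env d, phi n (0 : V d) (lrpGraph ω) ≤ ENNReal.ofReal R :=
    fun ω => phi_le_nn (lrpGraph_NN ω) n 0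
  have hphi2 : ∀ ω : Env d, phi n (0 : V d) (lrpGraph ω) ≤
      ENNReal.ofReal (‖Jb (d + 2) n M θ ω‖ ^ 2) := by
    intro ω
    apply phi_le_of_flow
    refine (isFlow_Jb (d + 2) hM θ ω).congr ?_
    intro f
    rw [hsum, one_mul]
  have h1 : ∫⁻ ω, phi n (0 : V d) (lrpGraph ω) ^ q ∂(LRP d (d + 2)) ≤
      ENNReal.ofReal (R ^ (q - 1)) * ENNReal.ofReal (C * R * (2 / hs M)) := by
    calc ∫⁻ ω, phi n (0 : V d) (lrpGraph ω) ^ q ∂(LRP d (d + 2))
        ≤ ∫⁻ ω, ENNReal.ofReal (R ^ (q - 1)) *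
            ENNReal.ofReal (‖Jb (d + 2) n M θ ω‖ ^ 2) ∂(LRP d (d + 2)) := by
          apply lintegral_mono
          intro ω
          obtain ⟨k, rfl⟩ : ∃ k, q = k + 1 := ⟨q - 1, by omega⟩
          simp only [Nat.add_sub_cancel]
          rw [pow_succ, ENNReal.ofReal_pow hR0]
          exact mul_le_mul' (pow_le_pow_left' (hphi1 ω) k) (hphi2 ω)
      _ = ENNReal.ofReal (R ^ (q - 1)) *
            ∫⁻ ω, ENNReal.ofReal (‖Jb (d + 2) n M θ ω‖ ^ 2) ∂(LRP d (d + 2)) :=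
          lintegral_const_mul' _ _ ENNReal.ofReal_ne_top
      _ ≤ _ := by
          gcongr
          refine (hJ n M θ hM).trans (ENNReal.ofReal_le_ofReal ?_)
          exact mul_le_mul_of_nonneg_left hS (by positivity)
  calc ENNReal.ofReal ((rad d n : ℝ) ^ (((d : ℝ) - 2) * q)) *
        ∫⁻ ω, phi n (0 : V d) (lrpGraph ω) ^ q ∂(LRP d (d + 2))
      ≤ ENNReal.ofReal ((rad d n : ℝ) ^ (((d : ℝ) - 2) * q)) *
          (ENNReal.ofReal (R ^ (q - 1)) * ENNReal.ofReal (C * R * (2 / hs M))) := by gcongr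
    _ = ENNReal.ofReal (((rad d n : ℝ) ^ ((d : ℝ) - 2) * R) ^ q * (C * (2 / hs M))) := by
        rw [← ENNReal.ofReal_mul (by positivity), ← ENNReal.ofReal_mul (by positivity)]
        congr 1
        obtain ⟨k, rfl⟩ : ∃ k, q = k + 1 := ⟨q - 1, by omega⟩
        simp only [Nat.add_sub_cancel]
        rw [Real.rpow_mul hrad.le, Real.rpow_natCast]
        ring
    _ ≤ _ := by
        apply ENNReal.ofReal_le_ofReal
        have h2 : (rad d n : ℝ) ^ ((d : ℝ) - 2) * R ≤ 1 := by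
          have e1 : (rad d n : ℝ) ^ ((d : ℝ) - 2) * (rad d n : ℝ) ^ 2 = (rad d n : ℝ) ^ d := by
            rw [← Real.rpow_natCast _ 2, ← Real.rpow_natCast _ d, ← Real.rpow_add hrad]
            congr 1
            push_cast
            ring
          rw [hR, ← mul_div_assoc, e1, div_le_one (by positivity)]
          exact_mod_cast rad_pow_le n
        have h3 : ((rad d n : ℝ) ^ ((d : ℝ) - 2) * R) ^ q ≤ 1 :=
          pow_le_one₀ (by positivity) h2
        exact mul_le_of_le_one_left (by positivity) h3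

theorem phi_moment_B (d : ℕ) [NeZero d] (hd : 2 ≤ d) (q : ℕ) (hq : 1 ≤ q) :
    Filter.Tendsto (fun n => ENNReal.ofReal ((rad d n : ℝ) ^ (((d : ℝ) - 2) * q)) *
        ∫⁻ ω, phi n (0 : V d) (lrpGraph ω) ^ q ∂(LRP d (d + 2))) Filter.atTop (nhds 0) := by
  obtain ⟨C, hC, hb⟩ := phiB_bound d hd q hq
  have hd0 : 0 < d := Nat.pos_of_neZero d
  have hM : Filter.Tendsto (fun n : ℕ => (n / d - 1) / 2) Filter.atTop Filter.atTop := by
    rw [Filter.tendsto_atTop_atTop]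
    intro b
    refine ⟨d * (2 * b + 1), fun n hn => ?_⟩
    have h1 : 2 * b + 1 ≤ n / d := (Nat.le_div_iff_mul_le hd0).2 (by rw [mul_comm]; exact hn)
    omega
  have hlim : Filter.Tendsto (fun n : ℕ => ENNReal.ofReal (C * (2 / hs ((n / d - 1) / 2))))
      Filter.atTop (nhds 0) := by
    have h1 : Filter.Tendsto (fun n : ℕ => C * (2 / hs ((n / d - 1) / 2)))
        Filter.atTop (nhds 0) := by
      have h2 := ((hs_tendsto.comp hM).const_div_atTop 2).const_mul C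
      rw [mul_zero] at h2
      exact h2
    have h3 := (ENNReal.continuous_ofReal.tendsto 0).comp h1
    rw [ENNReal.ofReal_zero] at h3
    exact h3
  refine tendsto_of_tendsto_of_tendsto_of_le_of_le' tendsto_const_nhds hlim
    (Filter.Eventually.of_forall fun _ => zero_le) ?_
  filter_upwards [Filter.eventually_ge_atTop (d * 3)] with n hn
  have h1 : 3 ≤ n / d := (Nat.le_div_iff_mul_le hd0).2 (by rw [mul_comm]; exact hn)
  exact hb n _ (by omega) (by omega)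

end MP072e06
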