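import Pool.Agent.Lib.MP_072e06_pr.MainIneq
import Pool.Agent.Lib.MP_072e06_pr.ErrB
import Pool.Agent.Lib.MP_072e06_pr.OdeB
import Pool.Agent.Lib.MP_072e06_pr.PhiB
import Pool.Agent.Lib.MP_072e06_pr.FinalQ0

/-!
Assembly of Q1(b): `err_B`, `main_ineq` with `Λ = 2^(2K/d)/M`, `ode_B` with `γ = 2/d`; `hfin` from
`phi_le_nn`.
-/

open MeasureTheory ENNReal
open scoped Classical

namespace MP072e06

open Filter

private lemma fb_W_le_one (d : ℕ) [NeZero d] (s : ℝ) (t : ℕ) : W d s t ≤ 1 := by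
  unfold W
  refine (lintegral_mono fun ω => walk_le_one (lrpGraph_NN ω) (2 * t) 0 0).trans (le_of_eq ?_)
  rw [lintegral_one, measure_univ]

theorem annealed_B (d : ℕ) [NeZero d] (hd : 2 ≤ d) :
    Tendsto (fun t : ℕ => ENNReal.ofReal ((t : ℝ) ^ ((d : ℝ) / 2)) *
      ∫⁻ ω, heat (lrpGraph ω) (2 * t) (0 : V d) 0 ∂(LRP d (d + 2))) atTop (nhds 0) := by
  have hd0 : 0 < d := by omega
  have hd' : (0 : ℝ) < d := by exact_mod_cast hd0
  have hs : (d : ℝ) < (d : ℝ) + 2 := by linarith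
  obtain ⟨A, C, hA, hC, herr⟩ := err_B hd hs (fun q hq => phi_moment_B d hd q hq)
    (fun n q => by
      refine lt_of_le_of_lt (lintegral_mono fun ω =>
        pow_le_pow_left₀ zero_le (phi_le_nn (lrpGraph_NN ω) n (0 : V d)) q) ?_
      rw [lintegral_const, measure_univ, mul_one]
      exact (ENNReal.pow_ne_top ENNReal.ofReal_ne_top).lt_top)
  set s : ℝ := (d : ℝ) + 2 with hsdef
  have hWt : ∀ t, W d s t ≠ ∞ := fun t => ne_top_of_le_ne_top ENNReal.one_ne_top (fb_W_le_one d s t)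
  have hW : ∀ t, W d s t = ENNReal.ofReal (W d s t).toReal := fun t =>
    (ENNReal.ofReal_toReal (hWt t)).symm
  have hode := ode_B (fun t => (W d s t).toReal) (fun t => ENNReal.toReal_nonneg)
    (2 / d) C (by positivity) hC (fun M hM => by
      obtain ⟨K0, hK0⟩ := herr M hM
      refine ⟨K0, fun K hK t => ?_⟩
      have hp : (0 : ℝ) < (2 : ℝ) ^ ((2 : ℝ) / d * K) := Real.rpow_pos_of_pos (by norm_num) _
      have hΛ : (0 : ℝ) < (2 : ℝ) ^ ((2 : ℝ) / d * K) / M := div_pos hp hM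
      have h1 := main_ineq hs hA hΛ K t
      have h2 := h1.trans (add_le_add_right (mul_le_mul_right (hK0 K hK) _) _)
      rw [hW t, hW (t + 1), ← ENNReal.ofReal_mul (by positivity),
        ← ENNReal.ofReal_mul (by positivity),
        ← ENNReal.ofReal_add (by positivity) (by positivity),
        ← ENNReal.ofReal_add (by positivity) (by positivity),
        ENNReal.ofReal_le_ofReal_iff (by positivity)] at h2
      have h3 : (2 : ℝ) ^ (-((2 : ℝ) / d * K)) = 1 / (2 : ℝ) ^ ((2 : ℝ) / d * K) := by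
        rw [Real.rpow_neg (by norm_num), one_div]
      have h4 : 1 / (2 * ((2 : ℝ) ^ ((2 : ℝ) / d * K) / M)) =
          M * (1 / (2 : ℝ) ^ ((2 : ℝ) / d * K)) / 2 := by
        field_simp
      have h5 : 1 / ((2 : ℝ) ^ ((2 : ℝ) / d * K) / M) =
          M * (1 / (2 : ℝ) ^ ((2 : ℝ) / d * K)) := by
        field_simp
      rw [h3, ← h4, ← h5]
      exact h2)
  have hexp : 1 / (2 / (d : ℝ)) = (d : ℝ) / 2 := by
    rw [one_div_div]
  rw [hexp] at hode
  have hlim := ENNReal.tendsto_ofReal hode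
  rw [ENNReal.ofReal_zero] at hlim
  refine tendsto_of_tendsto_of_tendsto_of_le_of_le tendsto_const_nhds hlim
    (fun t => zero_le) (fun t => ?_)
  show ENNReal.ofReal ((t : ℝ) ^ ((d : ℝ) / 2)) *
      ∫⁻ ω, heat (lrpGraph ω) (2 * t) (0 : V d) 0 ∂(LRP d s) ≤
    ENNReal.ofReal ((t : ℝ) ^ ((d : ℝ) / 2) * (W d s t).toReal)
  rw [ENNReal.ofReal_mul (by positivity), ← hW t]
  exact mul_le_mul_right
    (lintegral_mono fun ω => heat_le_walk (lrpGraph_NN ω) (2 * t) 0 0) _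

end MP072e06
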