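import Pool.Agent.Lib.MP_072e06_pr.FinalB

/-!
Q2(b) from `annealed_B` by Fatou (`lintegral_liminf_le`) and `lintegral_eq_zero_iff`.
-/

open MeasureTheory ENNReal
open scoped Classical

namespace MP072e06

open Filter

theorem quenched_B (d : ℕ) [NeZero d] (hd : 2 ≤ d) :
    ∀ᵐ ω ∂(LRP d (d + 2)), liminf (fun t : ℕ => ENNReal.ofReal ((t : ℝ) ^ ((d : ℝ) / 2)) *
      heat (lrpGraph ω) (2 * t) (0 : V d) 0) atTop = 0 := by
  have hm : ∀ t : ℕ, Measurable fun ω : Env d => heat (lrpGraph ω) (2 * t) (0 : V d) 0 :=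
    fun t => (measurable_walk _ _ _).div (measurable_deg _)
  have hm2 : ∀ t : ℕ, Measurable fun ω : Env d => ENNReal.ofReal ((t : ℝ) ^ ((d : ℝ) / 2)) *
      heat (lrpGraph ω) (2 * t) (0 : V d) 0 := fun t => (hm t).const_mul _
  have hB := annealed_B d hd
  have h1 : ∫⁻ ω, liminf (fun t : ℕ => ENNReal.ofReal ((t : ℝ) ^ ((d : ℝ) / 2)) *
      heat (lrpGraph ω) (2 * t) (0 : V d) 0) atTop ∂(LRP d (d + 2)) ≤ 0 := by
    refine (lintegral_liminf_le hm2).trans ?_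
    have h2 : (fun t : ℕ => ∫⁻ ω, ENNReal.ofReal ((t : ℝ) ^ ((d : ℝ) / 2)) *
        heat (lrpGraph ω) (2 * t) (0 : V d) 0 ∂(LRP d (d + 2))) =
        fun t : ℕ => ENNReal.ofReal ((t : ℝ) ^ ((d : ℝ) / 2)) *
          ∫⁻ ω, heat (lrpGraph ω) (2 * t) (0 : V d) 0 ∂(LRP d (d + 2)) := by
      funext t
      rw [lintegral_const_mul _ (hm t)]
    rw [h2, hB.liminf_eq]
  have h3 := (lintegral_eq_zero_iff (Measurable.liminf hm2)).1 (le_antisymm h1 zero_le)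
  exact h3

end MP072e06
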