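import Pool.Agent.Lib.MP_072e06_pr.BoxGeo

/-!
Algebra of flows.
-/

open MeasureTheory ENNReal
open scoped Classical

namespace MP072e06

variable {d : ℕ} {G : SimpleGraph (V d)} {S : Finset (V d)}

lemma sg_apply (x y : V d) (z : V d × V d) : sg x y z = if z = (x, y) then 1 else 0 := by
  unfold sg
  rw [lp.single_apply]
  by_cases h : z = (x, y)
  · subst h; simp
  · simp [h]

lemma norm_sg (x y : V d) : ‖sg x y‖ = 1 := by
  unfold sg
  rw [lp.norm_single (by norm_num)]
  simp

theorem isFlow_sg {x y : V d} (hx : x ∈ S) (hy : y ∈ S) (h : G.Adj x y)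
    (ho : Odd (par x - par y)) : IsFlow G S (sg x y) (fun h => h x - h y) := by
  refine ⟨?_, ?_⟩
  · intro a b hab
    rw [sg_apply] at hab
    split_ifs at hab with h1
    · simp only [Prod.mk.injEq] at h1
      obtain ⟨rfl, rfl⟩ := h1
      exact ⟨hx, hy, h, ho⟩
    · exact absurd rfl hab
  · intro f
    have : ∀ a ∈ S, ∑ b ∈ S, sg x y (a, b) * (f a - f b) = if a = x then f x - f y else 0 := by
      intro a ha
      by_cases hax : a = x
      · subst hax
        rw [if_pos rfl, Finset.sum_eq_single y]
        · rw [sg_apply]; simp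
        · intro b _ hb
          rw [sg_apply, if_neg]
          · simp
          · simp only [Prod.mk.injEq, true_and]; exact hb
        · intro h; exact absurd hy h
      · rw [if_neg hax]
        apply Finset.sum_eq_zero
        intro b _
        rw [sg_apply, if_neg]
        · simp
        · simp only [Prod.mk.injEq, not_and]; intro h; exact absurd h hax
    rw [Finset.sum_congr rfl this, Finset.sum_ite_eq' S x]
    simp [hx]

theorem isFlow_zero : IsFlow G S 0 (fun _ => 0) := by
  refine ⟨?_, ?_⟩
  · intro a b hab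
    simp at hab
  · intro f
    simp

theorem IsFlow.add {J J' : L2 d} {l l' : (V d → ℝ) → ℝ} (h : IsFlow G S J l)
    (h' : IsFlow G S J' l') : IsFlow G S (J + J') (fun f => l f + l' f) := by
  refine ⟨?_, ?_⟩
  · intro a b hab
    by_cases h1 : J (a, b) = 0
    · apply h'.supp
      intro h2
      apply hab
      simp [h1, h2]
    · exact h.supp a b h1
  · intro f
    rw [← h.val f, ← h'.val f, ← Finset.sum_add_distrib]
    refine Finset.sum_congr rfl fun a _ => ?_
    rw [← Finset.sum_add_distrib]
    refine Finset.sum_congr rfl fun b _ => ?_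
    rw [lp.coeFn_add, Pi.add_apply]
    ring

theorem IsFlow.smul {J : L2 d} {l : (V d → ℝ) → ℝ} (c : ℝ) (h : IsFlow G S J l) :
    IsFlow G S (c • J) (fun f => c * l f) := by
  refine ⟨?_, ?_⟩
  · intro a b hab
    apply h.supp
    intro h1
    apply hab
    rw [lp.coeFn_smul, Pi.smul_apply, h1, smul_zero]
  · intro f
    rw [← h.val f, Finset.mul_sum]
    refine Finset.sum_congr rfl fun a _ => ?_
    rw [Finset.mul_sum]
    refine Finset.sum_congr rfl fun b _ => ?_
    rw [lp.coeFn_smul, Pi.smul_apply, smul_eq_mul]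
    ring

theorem IsFlow.congr {J : L2 d} {l l' : (V d → ℝ) → ℝ} (h : IsFlow G S J l) (hl : ∀ f, l f = l' f) :
    IsFlow G S J l' :=
  ⟨h.supp, fun f => (h.val f).trans (hl f)⟩

theorem IsFlow.sub {J J' : L2 d} {l l' : (V d → ℝ) → ℝ} (h : IsFlow G S J l)
    (h' : IsFlow G S J' l') : IsFlow G S (J - J') (fun f => l f - l' f) := by
  have := h.add (h'.smul (-1))
  have e : J + (-1 : ℝ) • J' = J - J' := by rw [neg_one_smul, ← sub_eq_add_neg]
  rw [e] at this
  exact this.congr fun f => by ring

theorem IsFlow.mono {S' : Finset (V d)} (hS : S ⊆ S') {J : L2 d} {l : (V d → ℝ) → ℝ}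
    (h : IsFlow G S J l) : IsFlow G S' J l := by
  refine ⟨?_, ?_⟩
  · intro a b hab
    obtain ⟨h1, h2, h3, h4⟩ := h.supp a b hab
    exact ⟨hS h1, hS h2, h3, h4⟩
  · intro f
    rw [← h.val f]
    symm
    have key : ∀ a b, a ∉ S ∨ b ∉ S → J (a, b) = 0 := by
      intro a b hab
      by_contra hne
      obtain ⟨h1, h2, -, -⟩ := h.supp a b hne
      rcases hab with h | h <;> exact h (by assumption)
    rw [← Finset.sum_subset hS]
    · refine Finset.sum_congr rfl fun a _ => ?_
      refine Finset.sum_subset hS fun b _ hb => ?_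
      rw [key a b (Or.inr hb), zero_mul]
    · intro a _ ha
      refine Finset.sum_eq_zero fun b _ => ?_
      rw [key a b (Or.inl ha), zero_mul]

theorem isFlow_sum {κ : Type*} (T : Finset κ) (c : κ → ℝ) (J : κ → L2 d)
    (l : κ → (V d → ℝ) → ℝ) (h : ∀ k ∈ T, c k ≠ 0 → IsFlow G S (J k) (l k)) :
    IsFlow G S (∑ k ∈ T, c k • J k) (fun f => ∑ k ∈ T, c k * l k f) := by
  induction T using Finset.induction_on with
  | empty => simpa using (isFlow_zero (G := G) (S := S))
  | insert a T ha ih =>
    rw [Finset.sum_insert ha]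
    have h1 : IsFlow G S (c a • J a) (fun f => c a * l a f) := by
      by_cases hc : c a = 0
      · rw [hc, zero_smul]
        exact isFlow_zero.congr fun f => by simp
      · exact (h a (Finset.mem_insert_self _ _) hc).smul _
    have h2 := h1.add (ih fun k hk => h k (Finset.mem_insert_of_mem hk))
    exact h2.congr fun f => by rw [Finset.sum_insert ha]

end MP072e06
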