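import Pool.Agent.Lib.MP_072e06_pr.Defs

/-!
# Flows: definitions
-/

open MeasureTheory ENNReal
open scoped Classical

namespace MP072e06

/-- The Hilbert space of flows: square summable functions on ordered pairs of vertices. -/
abbrev L2 (d : ℕ) := lp (fun _ : V d × V d => ℝ) 2

/-- The unit flow along the ordered pair `(x,y)`. -/
noncomputable def sg {d : ℕ} (x y : V d) : L2 d := lp.single 2 (x, y) (1 : ℝ)

/-- `J` is a flow on the open odd edges of `G` inside `S` with divergence `l`. -/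
structure IsFlow {d : ℕ} (G : SimpleGraph (V d)) (S : Finset (V d)) (J : L2 d)
    (l : (V d → ℝ) → ℝ) : Prop where
  supp : ∀ x y, J (x, y) ≠ 0 → x ∈ S ∧ y ∈ S ∧ G.Adj x y ∧ Odd (par x - par y)
  val : ∀ h : V d → ℝ, ∑ x ∈ S, ∑ y ∈ S, J (x, y) * (h x - h y) = l h

/-- Move `x` by `l` in direction `a`. -/
def mv {d : ℕ} (a : Fin d) (l : ℤ) (x : V d) : V d := Function.update x a (x a + l)

/-- The straight path flow of length `l` in direction `a` started at `x`. -/
noncomputable def pathFlow {d : ℕ} (a : Fin d) (l : ℕ) (x : V d) : L2 d :=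
  ∑ k ∈ Finset.range l, sg (mv a k x) (mv a (k + 1) x)

/-- Average over `x ∈ S` of the straight path flows. -/
noncomputable def trFlow {d : ℕ} (S : Finset (V d)) (a : Fin d) (l : ℕ) : L2 d :=
  (S.card : ℝ)⁻¹ • ∑ x ∈ S, pathFlow a l x

/-- Nearest-neighbour flow from the uniform measure of a box to that of its sibling. -/
noncomputable def nnF {d : ℕ} [NeZero d] (n : ℕ) (v : V d) : L2 d :=
  trFlow (Box n v) (dir d n) (rad d n)

/-- Nearest-neighbour flow from the point mass at `x` to the uniform measure of `Box n v`. -/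
noncomputable def nnPsi {d : ℕ} [NeZero d] : ℕ → V d → V d → L2 d
  | 0, _, _ => 0
  | n + 1, v, x => if x ∈ Box n v then nnPsi n v x + (1 / 2 : ℝ) • nnF n v
      else nnPsi n (nxt n v) x - (1 / 2 : ℝ) • nnF n v

/-! ## The random flow for `α = s - d < d` -/

/-- Weight of the cross pair `(x,y)` at level `n`. -/
noncomputable def cw (d : ℕ) (s : ℝ) (n : ℕ) (x y : V d) : ℝ :=
  if Odd (par x - par y) then 2 / (4 ^ n * edgeProb d s x y) else 0

/-- Sum of the centred weights between the two siblings of level `n`. -/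
noncomputable def zeta {d : ℕ} [NeZero d] (s : ℝ) (n : ℕ) (v : V d) (ω : Env d) : ℝ :=
  ∑ z ∈ Box n v ×ˢ Box n (nxt n v),
    (xi ω s(z.1, z.2) - edgeProb d s z.1 z.2) * cw d s n z.1 z.2

/-- The random flow from the uniform measure of a box to that of its sibling. -/
noncomputable def Fa {d : ℕ} [NeZero d] (s : ℝ) (n : ℕ) (v : V d) (ω : Env d)
    (Ψ : V d → V d → L2 d) : L2 d :=
  if n = 0 ∨ zeta s n v ω < -(1 / 2) then nnF n v else
    (1 + zeta s n v ω)⁻¹ •
      (∑ z ∈ Box n v ×ˢ Box n (nxt n v), (xi ω s(z.1, z.2) * cw d s n z.1 z.2) • sg z.1 z.2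
      - ∑ z ∈ Box n v ×ˢ Box n (nxt n v),
          ((xi ω s(z.1, z.2) - edgeProb d s z.1 z.2) * cw d s n z.1 z.2) • Ψ v z.1
      + ∑ z ∈ Box n v ×ˢ Box n (nxt n v),
          ((xi ω s(z.1, z.2) - edgeProb d s z.1 z.2) * cw d s n z.1 z.2) • Ψ (nxt n v) z.2)

/-- Random flow from the point mass at `x` to the uniform measure of `Box n v`. -/
noncomputable def Psia {d : ℕ} [NeZero d] (s : ℝ) : ℕ → Env d → V d → V d → L2 d
  | 0, _, _, _ => 0
  | n + 1, ω, v, x => if x ∈ Box n v then Psia s n ω v x + (1 / 2 : ℝ) • Fa s n v ω (Psia s n ω)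
      else Psia s n ω (nxt n v) x - (1 / 2 : ℝ) • Fa s n v ω (Psia s n ω)

/-! ## The flow for `s = d + 2` -/

/-- Number of hops `l < rad/(2·4^m)` such that `x` moved back by `2·4^m·l` is in the box of level
`n` based at `0`. -/
noncomputable def mult {d : ℕ} [NeZero d] (n m : ℕ) (x : V d) : ℕ :=
  ((Finset.range (rad d n / (2 * 4 ^ m))).filter
    fun l => mv (dir d n) (-(2 * 4 ^ m * l : ℤ)) x ∈ Box n (0 : V d)).card

/-- The pair `(x,y)` is used at scale `m`: `y` is in the block of side `4^m` which is the block of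
`x` moved by `2·4^m` in direction `dir d n`, and `x - y` is odd. -/
def used {d : ℕ} [NeZero d] (n m : ℕ) (x y : V d) : Prop :=
  Odd (par x - par y) ∧ y ∈ Box (2 * d * m) (mv (dir d n) (2 * 4 ^ m) (base (2 * d * m) x))

/-- Mean flow through the pair `(x,y)` at scale `m`. -/
noncomputable def fb {d : ℕ} [NeZero d] (n m : ℕ) (x y : V d) : ℝ :=
  if used n m x y then 2 * mult n m x / (4 ^ (d * m) * 2 ^ n) else 0

/-- Nearest-neighbour replacement of the edge `(x,y)` used at scale `m`. -/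
noncomputable def PhiE {d : ℕ} [NeZero d] (n m : ℕ) (x y : V d) : L2 d :=
  nnPsi (2 * d * m) (base (2 * d * m) x) x
    + trFlow (Box (2 * d * m) (base (2 * d * m) x)) (dir d n) (2 * 4 ^ m)
    - nnPsi (2 * d * m) (mv (dir d n) (2 * 4 ^ m) (base (2 * d * m) x)) y

/-- The multiscale random flow from `Box n 0` to its sibling, with weights `θ`. -/
noncomputable def Jb {d : ℕ} [NeZero d] (s : ℝ) (n M : ℕ) (θ : ℕ → ℝ) (ω : Env d) : L2 d :=
  ∑ m ∈ Finset.Icc 1 M, θ m • ∑ z ∈ Box (n + 1) (0 : V d) ×ˢ Box (n + 1) (0 : V d),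
    ((xi ω s(z.1, z.2) * (fb n m z.1 z.2 / edgeProb d s z.1 z.2)) • sg z.1 z.2
      - ((xi ω s(z.1, z.2) - edgeProb d s z.1 z.2) * (fb n m z.1 z.2 / edgeProb d s z.1 z.2)) •
        PhiE n m z.1 z.2)

end MP072e06
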