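import Pool.Agent.Lib.MP_072e06_pr.FlowAlg

/-!
Flow duality.
-/

open MeasureTheory ENNReal
open scoped Classical

namespace MP072e06

variable {d : ℕ} {G : SimpleGraph (V d)} {S : Finset (V d)}

lemma En_nonneg (G : SimpleGraph (V d)) (S : Finset (V d)) (h : V d → ℝ) : 0 ≤ En G S h := by
  unfold En
  refine Finset.sum_nonneg fun x _ => Finset.sum_nonneg fun y _ => ?_
  split_ifs
  · positivity
  · exact le_rfl

lemma En_union_le {S T U : Finset (V d)} (hST : Disjoint S T) (hU : S ∪ T ⊆ U) (h : V d → ℝ) :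
    En G S h + En G T h ≤ En G U h := by
  have hnn : ∀ x y : V d,
      0 ≤ (if G.Adj x y ∧ Odd (par x - par y) then (h x - h y) ^ 2 else (0 : ℝ)) := by
    intro x y
    split_ifs
    · positivity
    · exact le_rfl
  have h1 : En G (S ∪ T) h ≤ En G U h := by
    unfold En
    calc _ ≤ ∑ x ∈ S ∪ T, ∑ y ∈ U, (if G.Adj x y ∧ Odd (par x - par y) then (h x - h y) ^ 2 else 0) :=
          Finset.sum_le_sum fun x _ =>
            Finset.sum_le_sum_of_subset_of_nonneg hU fun y _ _ => hnn x y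
      _ ≤ _ := Finset.sum_le_sum_of_subset_of_nonneg hU
            fun x _ _ => Finset.sum_nonneg fun y _ => hnn x y
  refine le_trans ?_ h1
  unfold En
  rw [Finset.sum_union hST]
  refine add_le_add ?_ ?_
  · exact Finset.sum_le_sum fun x _ =>
      Finset.sum_le_sum_of_subset_of_nonneg Finset.subset_union_left fun y _ _ => hnn x y
  · exact Finset.sum_le_sum fun x _ =>
      Finset.sum_le_sum_of_subset_of_nonneg Finset.subset_union_right fun y _ _ => hnn x y

/-- Flow duality (Cauchy-Schwarz). -/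
theorem IsFlow.sq_le {J : L2 d} {l : (V d → ℝ) → ℝ} (hJ : IsFlow G S J l) (h : V d → ℝ) :
    (l h) ^ 2 ≤ ‖J‖ ^ 2 * En G S h := by
  rw [← hJ.val h, ← Finset.sum_product']
  have hE : En G S h = ∑ z ∈ S ×ˢ S,
      (if G.Adj z.1 z.2 ∧ Odd (par z.1 - par z.2) then (h z.1 - h z.2) else 0) ^ 2 := by
    unfold En
    rw [← Finset.sum_product']
    refine Finset.sum_congr rfl fun z _ => ?_
    split_ifs <;> simp
  have hterm : ∀ z ∈ S ×ˢ S, J (z.1, z.2) * (h z.1 - h z.2) =
      J z * (if G.Adj z.1 z.2 ∧ Odd (par z.1 - par z.2) then (h z.1 - h z.2) else 0) := by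
    intro z _
    by_cases hz : J (z.1, z.2) = 0
    · rw [show J z = 0 from hz]; simp
    · obtain ⟨-, -, h3, h4⟩ := hJ.supp z.1 z.2 hz
      rw [if_pos ⟨h3, h4⟩]
  rw [Finset.sum_congr rfl hterm, hE]
  refine (Finset.sum_mul_sq_le_sq_mul_sq _ _ _).trans ?_
  refine mul_le_mul_of_nonneg_right ?_ (Finset.sum_nonneg fun z _ => sq_nonneg _)
  have h2 := lp.sum_rpow_le_norm_rpow (p := 2) (by norm_num) J (S ×ˢ S)
  have e2 : (2 : ℝ≥0∞).toReal = 2 := by norm_num
  rw [e2] at h2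
  have e3 : ‖J‖ ^ (2 : ℝ) = ‖J‖ ^ 2 := by rw [← Real.rpow_natCast]; norm_num
  rw [e3] at h2
  refine le_trans (le_of_eq ?_) h2
  refine Finset.sum_congr rfl fun z _ => ?_
  rw [← Real.rpow_natCast]
  norm_num

theorem phi_le_of_flow [NeZero d] {n : ℕ} {v : V d} {J : L2 d}
    (hJ : IsFlow G (Box (n + 1) v) J (fun h => avg (Box n v) h - avg (Box n (nxt n v)) h)) :
    phi n v G ≤ ENNReal.ofReal (‖J‖ ^ 2) := by
  unfold phi
  refine iSup_le fun h => ?_
  have h1 := hJ.sq_le h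
  refine ENNReal.div_le_of_le_mul ?_
  rw [← ENNReal.ofReal_mul (by positivity)]
  exact ENNReal.ofReal_le_ofReal h1

end MP072e06
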