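import Pool.Agent.Lib.MP_072e06_pr.UsedPairs
import Pool.Agent.Lib.MP_072e06_pr.FbEnergy
import Pool.Agent.Lib.MP_072e06_pr.Resample
import Pool.Agent.Lib.MP_072e06_pr.FaFlow

/-!
Direct part.  Coefficient of `sg z.1 z.2`: `∑_m θ_m ξ fb_m/p`, at most one `m` is nonzero (`used_unique`),
so the norm squared is `∑_m θ_m² ∑_z ξ fb²/p²` (`ξ² = ξ`), with expectation `∑_m θ_m² ∑_z fb²/p`
(`bernProd_open`); then `fb_energy` (and `1 ≤ m + 1`).
-/

open MeasureTheory ENNReal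
open scoped Classical

namespace MP072e06

private lemma jb_sq_sum {ι : Type*} (s : Finset ι) (c : ι → ℝ)
    (h : ∀ i ∈ s, ∀ j ∈ s, c i ≠ 0 → c j ≠ 0 → i = j) : (∑ i ∈ s, c i) ^ 2 = ∑ i ∈ s, c i ^ 2 := by
  by_cases h0 : ∀ i ∈ s, c i = 0
  · rw [Finset.sum_eq_zero h0, Finset.sum_eq_zero (fun i hi => by rw [h0 i hi]; ring)]
    ring
  · push Not at h0
    obtain ⟨i, hi, hci⟩ := h0
    have hz : ∀ j ∈ s, j ≠ i → c j = 0 := by
      intro j hj hji
      by_contra hcj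
      exact hji (h j hj i hi hcj hci)
    rw [Finset.sum_eq_single_of_mem i hi hz,
      Finset.sum_eq_single_of_mem i hi (fun j hj hji => by rw [hz j hj hji]; ring)]

private lemma jb_norm_sq {d : ℕ} (T : Finset (V d × V d)) (a : V d × V d → ℝ) :
    ‖∑ z ∈ T, a z • sg z.1 z.2‖ ^ 2 = ∑ z ∈ T, a z ^ 2 := by
  have h := lp.norm_sum_single (E := fun _ : V d × V d => ℝ) (p := 2) (by norm_num) a T
  have e1 : ∀ z : V d × V d, a z • sg z.1 z.2 =
      lp.single (E := fun _ : V d × V d => ℝ) 2 z (a z) := by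
    intro z
    unfold sg
    rw [← lp.single_smul]
    simp
  simp_rw [e1]
  have e2 : (2 : ℝ≥0∞).toReal = 2 := by norm_num
  rw [e2] at h
  simpa [Real.rpow_two] using h

theorem Jb_energy1 (d : ℕ) [NeZero d] : ∃ C : ℝ, 0 ≤ C ∧ ∀ (n M : ℕ) (θ : ℕ → ℝ),
    2 * M + 1 ≤ n / d →
    ∫⁻ ω, ENNReal.ofReal (‖∑ m ∈ Finset.Icc 1 M, θ m •
        ∑ z ∈ Box (n + 1) (0 : V d) ×ˢ Box (n + 1) (0 : V d),
          (xi ω s(z.1, z.2) * (fb n m z.1 z.2 / edgeProb d (d + 2) z.1 z.2)) •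
            sg z.1 z.2‖ ^ 2) ∂(LRP d (d + 2)) ≤
      ENNReal.ofReal (C * ((rad d n : ℝ) ^ 2 / 2 ^ n) *
        ∑ m ∈ Finset.Icc 1 M, θ m ^ 2 * (m + 1)) := by
  obtain ⟨C, hC, hfe⟩ := fb_energy d
  refine ⟨C, hC, fun n M θ hM => ?_⟩
  set T := Box (n + 1) (0 : V d) ×ˢ Box (n + 1) (0 : V d) with hT
  set p : V d × V d → ℝ := fun z => edgeProb d (d + 2) z.1 z.2 with hp
  have hppos : ∀ z, 0 < p z := fun z => edgeProb_pos (d + 2) z.1 z.2
  set A : V d × V d → ℝ := fun z => ∑ m ∈ Finset.Icc 1 M, θ m ^ 2 * (fb n m z.1 z.2 / p z) ^ 2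
    with hA
  have hA0 : ∀ z, 0 ≤ A z := fun z => Finset.sum_nonneg fun m _ => by positivity
  have key : ∀ ω : Env d, ‖∑ m ∈ Finset.Icc 1 M, θ m •
        ∑ z ∈ T, (xi ω s(z.1, z.2) * (fb n m z.1 z.2 / edgeProb d (d + 2) z.1 z.2)) •
            sg z.1 z.2‖ ^ 2 = ∑ z ∈ T, xi ω s(z.1, z.2) * A z := by
    intro ω
    have e1 : ∑ m ∈ Finset.Icc 1 M, θ m •
        ∑ z ∈ T, (xi ω s(z.1, z.2) * (fb n m z.1 z.2 / edgeProb d (d + 2) z.1 z.2)) •
            sg z.1 z.2 = ∑ z ∈ T, (∑ m ∈ Finset.Icc 1 M,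
              xi ω s(z.1, z.2) * (θ m * (fb n m z.1 z.2 / p z))) • sg z.1 z.2 := by
      simp_rw [Finset.smul_sum, smul_smul]
      rw [Finset.sum_comm]
      apply Finset.sum_congr rfl
      intro z _
      rw [Finset.sum_smul]
      apply Finset.sum_congr rfl
      intro m _
      congr 1
      simp only [hp]
      ring
    rw [e1, jb_norm_sq]
    apply Finset.sum_congr rfl
    intro z _
    rw [jb_sq_sum, hA]
    · simp only
      rw [Finset.mul_sum]
      apply Finset.sum_congr rfl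
      intro m _
      have : xi ω s(z.1, z.2) ^ 2 = xi ω s(z.1, z.2) := by
        unfold xi; split_ifs <;> norm_num
      rw [mul_pow, mul_pow, this]
    · intro m _ m' _ h1 h2
      have hu : ∀ m, xi ω s(z.1, z.2) * (θ m * (fb n m z.1 z.2 / p z)) ≠ 0 →
          used n m z.1 z.2 := by
        intro m hm
        by_contra hcon
        apply hm
        unfold fb
        rw [if_neg hcon]
        ring
      exact used_unique (hu m h1) (hu m' h2)
  simp_rw [key]
  have e2 : ∀ ω : Env d, ENNReal.ofReal (∑ z ∈ T, xi ω s(z.1, z.2) * A z) =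
      ∑ z ∈ T, Set.indicator {ω : Env d | ω s(z.1, z.2) = true}
        (fun _ => ENNReal.ofReal (A z)) ω := by
    intro ω
    rw [ENNReal.ofReal_sum_of_nonneg]
    · apply Finset.sum_congr rfl
      intro z _
      unfold xi
      by_cases h : ω s(z.1, z.2) = true
      · rw [Set.indicator_of_mem (by exact h)]
        simp [h]
      · rw [Set.indicator_of_notMem (by exact h)]
        simp [h]
    · intro z _
      apply mul_nonneg _ (hA0 z)
      unfold xi; split_ifs <;> norm_num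
  simp_rw [e2]
  have hmeas : ∀ e : Sym2 (V d), MeasurableSet {ω : Env d | ω e = true} := by
    intro e
    have h : Measurable fun ω : Env d => ω e := measurable_pi_apply e
    exact h (MeasurableSet.singleton true)
  rw [lintegral_finsetSum _ (fun z _ => measurable_const.indicator (hmeas _))]
  have e3 : ∀ z : V d × V d, ∫⁻ ω, Set.indicator {ω : Env d | ω s(z.1, z.2) = true}
        (fun _ => ENNReal.ofReal (A z)) ω ∂(LRP d (d + 2)) =
      ENNReal.ofReal (A z * p z) := by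
    intro z
    rw [lintegral_indicator_const (hmeas _), ENNReal.ofReal_mul (hA0 z)]
    congr 1
    have := bernProd_open (edgeProb2 d (d + 2)) s(z.1, z.2)
    rw [edgeProb2_mk] at this
    exact this
  simp_rw [e3]
  rw [← ENNReal.ofReal_sum_of_nonneg (fun z _ => mul_nonneg (hA0 z) (hppos z).le)]
  apply ENNReal.ofReal_le_ofReal
  have e4 : ∑ z ∈ T, A z * p z =
      ∑ m ∈ Finset.Icc 1 M, θ m ^ 2 * ∑ z ∈ T, fb n m z.1 z.2 ^ 2 / p z := by
    simp_rw [hA, Finset.sum_mul, Finset.mul_sum]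
    rw [Finset.sum_comm]
    apply Finset.sum_congr rfl
    intro m _
    apply Finset.sum_congr rfl
    intro z _
    have := (hppos z).ne'
    field_simp
  rw [e4, Finset.mul_sum]
  apply Finset.sum_le_sum
  intro m hm
  rw [Finset.mem_Icc] at hm
  have h1 := hfe n m hm.1 (by omega)
  have h2 : C * ((rad d n : ℝ) ^ 2 / 2 ^ n) * (θ m ^ 2 * (m + 1)) =
      θ m ^ 2 * (C * (rad d n : ℝ) ^ 2 / 2 ^ n) * (m + 1) := by ring
  rw [h2]
  have h3 : θ m ^ 2 * ∑ z ∈ T, fb n m z.1 z.2 ^ 2 / p z ≤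
      θ m ^ 2 * (C * (rad d n : ℝ) ^ 2 / 2 ^ n) := mul_le_mul_of_nonneg_left h1 (sq_nonneg _)
  refine h3.trans (le_mul_of_one_le_right (by positivity) ?_)
  have : (0 : ℝ) ≤ m := Nat.cast_nonneg m
  linarith

end MP072e06
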