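import Pool.Agent.Lib.MP_072e06_pr.PhiEFlow
import Pool.Agent.Lib.MP_072e06_pr.FbIdentity
import Pool.Agent.Lib.MP_072e06_pr.FaFlow

/-!
`Jb` is a flow: `ξ c (h x - h y) - (ξ - p) c (h x - h y) = p c (h x - h y)` with `p c = fb`, and
`fb_identity`; if `fb ≠ 0` then the pair is used and `mult ≠ 0`, both points are in the parent box
(`used_mem` with `k = 0` and for `y`: `y = mv _ (2·4^m) x'` for `x'` in the block of `x`), `ξ ≠ 0` gives
an open edge (`x ≠ y`).
-/

open MeasureTheory ENNReal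
open scoped Classical

namespace MP072e06

variable {d : ℕ} [NeZero d]

theorem isFlow_Jb (s : ℝ) {n M : ℕ} (hM : 2 * M + 1 ≤ n / d) (θ : ℕ → ℝ) (ω : Env d) :
    IsFlow (lrpGraph ω) (Box (n + 1) (0 : V d)) (Jb s n M θ ω)
      (fun h => (∑ m ∈ Finset.Icc 1 M, θ m) *
        (avg (Box n (0 : V d)) h - avg (Box n (nxt n (0 : V d))) h)) := by
  have hNN : NN (lrpGraph ω) := lrpGraph_NN ω
  set T := Box (n + 1) (0 : V d) ×ˢ Box (n + 1) (0 : V d) with hT
  have hfb : ∀ (m : ℕ) (z : V d × V d), fb n m z.1 z.2 ≠ 0 → used n m z.1 z.2 ∧ mult n m z.1 ≠ 0 := by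
    intro m z h
    by_cases hu : used n m z.1 z.2
    · refine ⟨hu, fun h0 => h ?_⟩
      unfold fb
      rw [if_pos hu, h0]
      simp
    · exact absurd (by unfold fb; rw [if_neg hu]) h
  have hm : ∀ m ∈ Finset.Icc 1 M, IsFlow (lrpGraph ω) (Box (n + 1) (0 : V d))
      (∑ z ∈ T, ((xi ω s(z.1, z.2) * (fb n m z.1 z.2 / edgeProb d s z.1 z.2)) • sg z.1 z.2
      - ((xi ω s(z.1, z.2) - edgeProb d s z.1 z.2) * (fb n m z.1 z.2 / edgeProb d s z.1 z.2)) •
        PhiE n m z.1 z.2))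
      (fun h => avg (Box n (0 : V d)) h - avg (Box n (nxt n (0 : V d))) h) := by
    intro m hmI
    rw [Finset.mem_Icc] at hmI
    have hm1 : 2 * m + 1 ≤ n / d := by omega
    have h1 : IsFlow (lrpGraph ω) (Box (n + 1) (0 : V d))
        (∑ z ∈ T, (xi ω s(z.1, z.2) * (fb n m z.1 z.2 / edgeProb d s z.1 z.2)) • sg z.1 z.2)
        (fun f => ∑ z ∈ T, (xi ω s(z.1, z.2) * (fb n m z.1 z.2 / edgeProb d s z.1 z.2)) *
          (f z.1 - f z.2)) := by
      apply isFlow_sum T _ (fun z => sg z.1 z.2) (fun z f => f z.1 - f z.2)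
      intro z hz hne
      rw [hT, Finset.mem_product] at hz
      have hxi : xi ω s(z.1, z.2) ≠ 0 := left_ne_zero_of_mul hne
      have hf : fb n m z.1 z.2 ≠ 0 := fun h0 => hne (by rw [h0]; simp)
      obtain ⟨hu, hmu⟩ := hfb m z hf
      have hopen : ω s(z.1, z.2) = true := by
        by_contra hcon
        apply hxi
        unfold xi
        rw [if_neg hcon]
      apply isFlow_sg hz.1 hz.2 _ hu.1
      refine ⟨?_, Or.inr hopen⟩
      intro heq
      have h5 := (used_lt hu).1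
      rw [heq, sub_self] at h5
      have : (0 : ℤ) < 4 ^ m := by positivity
      omega
    have h2 : IsFlow (lrpGraph ω) (Box (n + 1) (0 : V d))
        (∑ z ∈ T, ((xi ω s(z.1, z.2) - edgeProb d s z.1 z.2) *
          (fb n m z.1 z.2 / edgeProb d s z.1 z.2)) • PhiE n m z.1 z.2)
        (fun f => ∑ z ∈ T, ((xi ω s(z.1, z.2) - edgeProb d s z.1 z.2) *
          (fb n m z.1 z.2 / edgeProb d s z.1 z.2)) * (f z.1 - f z.2)) := by
      apply isFlow_sum T _ (fun z => PhiE n m z.1 z.2) (fun z f => f z.1 - f z.2)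
      intro z hz hne
      have hf : fb n m z.1 z.2 ≠ 0 := fun h0 => hne (by rw [h0]; simp)
      obtain ⟨hu, hmu⟩ := hfb m z hf
      exact isFlow_PhiE hNN hm1 hu hmu
    rw [Finset.sum_sub_distrib]
    refine (h1.sub h2).congr ?_
    intro f
    rw [← fb_identity hmI.1 hm1, ← Finset.sum_sub_distrib]
    apply Finset.sum_congr rfl
    intro z _
    have := (edgeProb_pos s z.1 z.2).ne'
    field_simp
    ring
  have h3 := isFlow_sum (Finset.Icc 1 M) θ _
    (fun _ h => avg (Box n (0 : V d)) h - avg (Box n (nxt n (0 : V d))) h)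
    (fun m hmI _ => hm m hmI)
  unfold Jb
  refine h3.congr ?_
  intro f
  rw [Finset.sum_mul]

end MP072e06
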