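import Pool.Agent.Lib.MP_072e06_pr.BaseGeo
import Pool.Agent.Lib.MP_072e06_pr.ShiftMeasure

/-!
Mass transport: write `x = x₀ + u` with `x₀ ∈ Box K 0` and `u` in the lattice; then
`E F(a, x₀ + u) = E F(a - u, x₀)`, and `(a, u) ↦ a - u` enumerates `ℤ^d`.
-/

open MeasureTheory ENNReal
open scoped Classical

namespace MP072e06

variable {d : ℕ}

private lemma sub_base_mem (K : ℕ) (x : V d) : x - base K x ∈ Box K (0 : V d) := by
  have h := mem_Box_base K x
  have h1 : x - base K x + base K x ∈ Box K (0 + base K x) := by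
    rw [sub_add_cancel, zero_add]
    exact h
  exact add_mem_Box.1 h1

private lemma base_sub_lattice (K : ℕ) (a x : V d) (ha : a ∈ Box K (0 : V d)) :
    base K (a - base K x) = -base K x := by
  have hu : ∀ i, (side d K i : ℤ) ∣ (-base K x) i := by
    intro i
    exact (dvd_neg).2 (base_dvd K x i)
  have h := base_add (le_refl K) hu a
  rw [base_of_mem_Box_zero ha, zero_add, ← sub_eq_add_neg] at h
  exact h

private noncomputable def mtMap (K : ℕ) (p : {a : V d // a ∈ Box K (0 : V d)} × V d) :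
    {a : V d // a ∈ Box K (0 : V d)} × V d :=
  (⟨p.2 - base K p.2, sub_base_mem K p.2⟩, (p.1 : V d) - base K p.2)

private lemma mtMap_mtMap (K : ℕ) (p : {a : V d // a ∈ Box K (0 : V d)} × V d) :
    mtMap K (mtMap K p) = p := by
  obtain ⟨⟨a, ha⟩, x⟩ := p
  have hb : base K (a - base K x) = -base K x := base_sub_lattice K a x ha
  refine Prod.ext (Subtype.ext ?_) ?_
  · show a - base K x - base K (a - base K x) = a
    rw [hb]
    abel
  · show x - base K x - base K (a - base K x) = x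
    rw [hb]
    abel

/-- Mass transport for a kernel covariant under the lattice of the boxes of level `K`. -/
theorem mass_transport {d : ℕ} [NeZero d] (s : ℝ) (K : ℕ) (F : Env d → V d → V d → ℝ≥0∞)
    (hcov : ∀ u : V d, (∀ i, (side d K i : ℤ) ∣ u i) → ∀ ω a x,
      F (shiftEnv u ω) a x = F ω (a + u) (x + u)) :
    ∑ a ∈ Box K (0 : V d), ∑' x, ∫⁻ ω, F ω a x ∂(LRP d s) =
      ∑ x ∈ Box K (0 : V d), ∑' a, ∫⁻ ω, F ω a x ∂(LRP d s) := by
  set f : V d → V d → ℝ≥0∞ := fun a x => ∫⁻ ω, F ω a x ∂(LRP d s) with hf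
  have hinv : ∀ u : V d, (∀ i, (side d K i : ℤ) ∣ u i) → ∀ a x, f (a + u) (x + u) = f a x := by
    intro u hu a x
    have h1 := lintegral_shiftEnv s u (fun ω => F ω a x)
    simp only [hcov u hu] at h1
    exact h1
  have h1 : ∀ g : V d → V d → ℝ≥0∞, ∑ a ∈ Box K (0 : V d), ∑' x, g a x =
      ∑' p : {a : V d // a ∈ Box K (0 : V d)} × V d, g p.1 p.2 := by
    intro g
    rw [ENNReal.tsum_prod (f := fun (a : {a : V d // a ∈ Box K (0 : V d)}) (x : V d) => g a x),
      tsum_fintype]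
    exact (Finset.sum_coe_sort (Box K (0 : V d)) (fun a => ∑' x, g a x)).symm
  rw [h1 f, h1 (fun x a => f a x)]
  let e : {a : V d // a ∈ Box K (0 : V d)} × V d ≃ {a : V d // a ∈ Box K (0 : V d)} × V d :=
    ⟨mtMap K, mtMap K, mtMap_mtMap K, mtMap_mtMap K⟩
  refine Eq.trans ?_ (e.tsum_eq
    (fun p : {a : V d // a ∈ Box K (0 : V d)} × V d => f (p.2 : V d) (p.1 : V d)))
  refine tsum_congr fun p => ?_
  show f p.1 p.2 = f ((p.1 : V d) - base K p.2) (p.2 - base K p.2)
  have hu : ∀ i, (side d K i : ℤ) ∣ (-base K p.2) i := by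
    intro i
    exact (dvd_neg).2 (base_dvd K p.2 i)
  rw [sub_eq_add_neg, sub_eq_add_neg, hinv _ hu]

end MP072e06
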