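import Pool.Agent.Lib.MP_072e06_pr.Cells
import Pool.Agent.Lib.MP_072e06_pr.DetIneq
import Pool.Agent.Lib.MP_072e06_pr.MassTransport
import Pool.Agent.Lib.MP_072e06_pr.Shift
import Pool.Agent.Lib.MP_072e06_pr.Meas
import Pool.Agent.Lib.MP_072e06_pr.Degree

/-!
The annealed inequality: apply `det_ineq` to the cells at every `a ∈ Box K 0`, integrate, sum, use
`mass_transport` for `F ω a x = deg x * walk t x a / |cell x|` and `∑_a walk t x a = 1`.
-/

open MeasureTheory ENNReal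
open scoped Classical

namespace MP072e06

/-- The transported mass. -/
private noncomputable def mF {d : ℕ} [NeZero d] (A Λ : ℝ) (K t : ℕ) (ω : Env d) (a x : V d) :
    ℝ≥0∞ :=
  deg (lrpGraph ω) x * walk (lrpGraph ω) t x a / 2 ^ lev A (ENNReal.ofReal Λ) K (lrpGraph ω) x

private lemma mF_meas {d : ℕ} [NeZero d] (A Λ : ℝ) (K t : ℕ) (a x : V d) :
    Measurable fun ω : Env d => mF A Λ K t ω a x := by
  unfold mF
  refine ((measurable_deg x).mul (measurable_walk t x a)).div ?_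
  exact (measurable_of_countable (fun n : ℕ => (2 : ℝ≥0∞) ^ n)).comp
    (measurable_lev A (ENNReal.ofReal Λ) K x)

private lemma mF_cov {d : ℕ} [NeZero d] (A Λ : ℝ) (K t : ℕ) (u : V d)
    (hu : ∀ i, (side d K i : ℤ) ∣ u i) (ω : Env d) (a x : V d) :
    mF A Λ K t (shiftEnv u ω) a x = mF A Λ K t ω (a + u) (x + u) := by
  unfold mF
  rw [lrpGraph_shiftEnv, deg_shiftG, walk_shiftG, lev_shiftG A _ K _ u hu]

private lemma W_shift {d : ℕ} (s : ℝ) (t : ℕ) (a : V d) :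
    ∫⁻ ω, walk (lrpGraph ω) (2 * t) a a ∂(LRP d s) = W d s t := by
  unfold W
  rw [← lintegral_shiftEnv s a (fun ω => walk (lrpGraph ω) (2 * t) (0 : V d) 0)]
  refine lintegral_congr fun ω => ?_
  rw [lrpGraph_shiftEnv, walk_shiftG, zero_add]

private lemma local_ineq {d : ℕ} [NeZero d] {s : ℝ} (hs : (d : ℝ) < s) {A : ℝ} (hA : 1 < A)
    {Λ : ℝ} (hΛ : 0 < Λ) (K t : ℕ) (a : V d) :
    ENNReal.ofReal (1 / (2 * Λ)) * W d s t + W d s (t + 1) ≤
      W d s t + ENNReal.ofReal (1 / Λ) * ∑' x, ∫⁻ ω, mF A Λ K t ω a x ∂(LRP d s) := by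
  have hmw : ∀ k, Measurable fun ω : Env d => walk (lrpGraph ω) k a a := fun k =>
    measurable_walk k a a
  rw [← W_shift s t a, ← W_shift s (t + 1) a,
    ← lintegral_const_mul _ (hmw _), ← lintegral_add_right _ (hmw _),
    ← lintegral_tsum (fun x => (mF_meas A Λ K t a x).aemeasurable),
    ← lintegral_const_mul _ (Measurable.tsum fun x => mF_meas A Λ K t a x),
    ← lintegral_add_left (hmw _)]
  refine lintegral_mono_ae ?_
  filter_upwards [ae_LF d s hs] with ω hLF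
  have h := det_ineq (lrpGraph_NN ω) hLF (fun x => cell A (ENNReal.ofReal Λ) K (lrpGraph ω) x)
    (fun x => mem_cell A _ K _ x) (fun x => cell_eq A _ K _ x) Λ hΛ
    (fun x h => cell_PI (lrpGraph_NN ω) hLF hA hΛ K x h) a t
  refine h.trans (le_of_eq ?_)
  congr 3
  funext x
  unfold mF
  rw [cell_card]
  push_cast
  rfl

private lemma sum_a {d : ℕ} [NeZero d] {s : ℝ} (hs : (d : ℝ) < s) (A Λ : ℝ) (K t : ℕ) (x : V d) :
    ∑' a, ∫⁻ ω, mF A Λ K t ω a x ∂(LRP d s) =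
      ∫⁻ ω, deg (lrpGraph ω) x / 2 ^ lev A (ENNReal.ofReal Λ) K (lrpGraph ω) x ∂(LRP d s) := by
  rw [← lintegral_tsum (fun a => (mF_meas A Λ K t a x).aemeasurable)]
  refine lintegral_congr_ae ?_
  filter_upwards [ae_LF d s hs] with ω hLF
  unfold mF
  have h1 : ∀ a, deg (lrpGraph ω) x * walk (lrpGraph ω) t x a /
      2 ^ lev A (ENNReal.ofReal Λ) K (lrpGraph ω) x =
      (deg (lrpGraph ω) x / 2 ^ lev A (ENNReal.ofReal Λ) K (lrpGraph ω) x) *
        walk (lrpGraph ω) t x a := by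
    intro a
    rw [div_eq_mul_inv, div_eq_mul_inv]
    ring
  simp only [h1]
  rw [ENNReal.tsum_mul_left, walk_sum (lrpGraph_NN ω) hLF, mul_one]

theorem main_ineq {d : ℕ} [NeZero d] {s : ℝ} (hs : (d : ℝ) < s) {A : ℝ} (hA : 1 < A) {Λ : ℝ}
    (hΛ : 0 < Λ) (K t : ℕ) :
    ENNReal.ofReal (1 / (2 * Λ)) * W d s t + W d s (t + 1) ≤
      W d s t + ENNReal.ofReal (1 / Λ) * Err d s A (ENNReal.ofReal Λ) K := by
  have hc : ((Box K (0 : V d)).card : ℝ≥0∞) = 2 ^ K := by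
    rw [card_Box _ _ (Nat.pos_of_ne_zero (NeZero.ne d))]
    push_cast
    rfl
  have h0 : (2 : ℝ≥0∞) ^ K ≠ 0 := by positivity
  have htop : (2 : ℝ≥0∞) ^ K ≠ ∞ := ENNReal.pow_ne_top (by norm_num)
  have h1 := Finset.sum_le_sum fun a (_ : a ∈ Box K (0 : V d)) => local_ineq hs hA hΛ K t a
  rw [Finset.sum_const, Finset.sum_add_distrib, Finset.sum_const, ← Finset.mul_sum,
    mass_transport s K (mF A Λ K t) (fun u hu ω a x => mF_cov A Λ K t u hu ω a x),
    nsmul_eq_mul, nsmul_eq_mul, hc] at h1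
  have h2 : ∑ x ∈ Box K (0 : V d), ∑' a, ∫⁻ ω, mF A Λ K t ω a x ∂(LRP d s) =
      2 ^ K * Err d s A (ENNReal.ofReal Λ) K := by
    unfold Err
    rw [ENNReal.mul_div_cancel h0 htop]
    exact Finset.sum_congr rfl fun x _ => sum_a hs A Λ K t x
  rw [h2, mul_left_comm, ← mul_add] at h1
  exact (ENNReal.mul_le_mul_iff_right h0 htop).1 h1

end MP072e06
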