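import Mathlib

/-!
# Long-range percolation and its heat kernel: definitions

Vertices are `V d = Fin d → ℤ`.  The environment is a point `ω : Sym2 (V d) → Bool` of the product
space with the product Bernoulli measure `LRP d s`; the random graph is `lrpGraph ω`: every
nearest-neighbour edge is present, and an edge `{x,y}` with Euclidean distance `> 1` is present iff
`ω s(x,y) = true`, which has probability `1 - exp (-|x-y|^(-s))`, independently over pairs.
-/

open MeasureTheory ENNReal
open scoped Classical

namespace MP072e06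

/-- The vertex set `ℤ^d`. -/
abbrev V (d : ℕ) := Fin d → ℤ

/-- Euclidean distance on `ℤ^d`. -/
noncomputable def eDist {d : ℕ} (x y : V d) : ℝ :=
  Real.sqrt (∑ i, ((x i : ℝ) - (y i : ℝ)) ^ 2)

lemma eDist_comm {d : ℕ} (x y : V d) : eDist x y = eDist y x := by
  unfold eDist
  congr 1
  exact Finset.sum_congr rfl fun i _ => by ring

lemma eDist_nonneg {d : ℕ} (x y : V d) : 0 ≤ eDist x y := Real.sqrt_nonneg _

/-- The probability that the edge `{x,y}` is present: `1` for nearest neighbours, and
`1 - exp (-|x-y|^(-s))` for `|x-y| > 1`. -/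
noncomputable def edgeProb (d : ℕ) (s : ℝ) (x y : V d) : ℝ :=
  if eDist x y ≤ 1 then 1 else 1 - Real.exp (-(eDist x y ^ (-s)))

lemma edgeProb_comm (d : ℕ) (s : ℝ) (x y : V d) : edgeProb d s x y = edgeProb d s y x := by
  unfold edgeProb
  rw [eDist_comm]

lemma edgeProb_nonneg (d : ℕ) (s : ℝ) (x y : V d) : 0 ≤ edgeProb d s x y := by
  unfold edgeProb
  split_ifs
  · norm_num
  · have h : 0 ≤ eDist x y ^ (-s) := Real.rpow_nonneg (eDist_nonneg x y) _
    have : Real.exp (-(eDist x y ^ (-s))) ≤ 1 := Real.exp_le_one_iff.2 (by linarith)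
    linarith

lemma edgeProb_le_one (d : ℕ) (s : ℝ) (x y : V d) : edgeProb d s x y ≤ 1 := by
  unfold edgeProb
  split_ifs
  · norm_num
  · have := Real.exp_pos (-(eDist x y ^ (-s)))
    linarith

/-- The edge probability as a function of the unordered pair. -/
noncomputable def edgeProb2 (d : ℕ) (s : ℝ) : Sym2 (V d) → unitInterval :=
  Sym2.lift ⟨fun x y => ⟨edgeProb d s x y, edgeProb_nonneg d s x y, edgeProb_le_one d s x y⟩,
    fun x y => Subtype.ext (edgeProb_comm d s x y)⟩

@[simp] lemma edgeProb2_mk (d : ℕ) (s : ℝ) (x y : V d) :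
    ((edgeProb2 d s s(x, y) : unitInterval) : ℝ) = edgeProb d s x y := rfl

/-- The Bernoulli measure on `Bool` with success probability `p`. -/
noncomputable def bern (p : unitInterval) : Measure Bool :=
  ENNReal.ofReal (p : ℝ) • Measure.dirac true + ENNReal.ofReal (1 - (p : ℝ)) • Measure.dirac false

instance (p : unitInterval) : IsProbabilityMeasure (bern p) := by
  constructor
  have hp := p.2
  simp only [bern, Measure.coe_add, Measure.coe_smul, Pi.add_apply, Pi.smul_apply,
    measure_univ, smul_eq_mul, mul_one]
  rw [← ENNReal.ofReal_add hp.1 (by linarith [hp.2])]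
  simp

/-- Product Bernoulli measure with success probabilities `p i`. -/
noncomputable def bernProd {ι : Type*} (p : ι → unitInterval) : Measure (ι → Bool) :=
  Measure.infinitePi fun i => bern (p i)

instance {ι : Type*} (p : ι → unitInterval) : IsProbabilityMeasure (bernProd p) := by
  unfold bernProd; infer_instance

/-- The environment space. -/
abbrev Env (d : ℕ) := Sym2 (V d) → Bool

/-- The law of the environment of long-range percolation `LRP(d,s)`. -/
noncomputable def LRP (d : ℕ) (s : ℝ) : Measure (Env d) := bernProd (edgeProb2 d s)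

instance (d : ℕ) (s : ℝ) : IsProbabilityMeasure (LRP d s) := by
  unfold LRP; infer_instance

/-- The long-range percolation graph: all nearest-neighbour edges are present, the other edges are
present according to the environment. -/
def lrpGraph {d : ℕ} (ω : Env d) : SimpleGraph (V d) where
  Adj x y := x ≠ y ∧ (eDist x y ≤ 1 ∨ ω s(x, y) = true)
  symm := ⟨fun x y h => ⟨h.1.symm, by rw [eDist_comm, Sym2.eq_swap]; exact h.2⟩⟩
  loopless := ⟨fun x h => h.1 rfl⟩

/-- The degree of `x`: the number of neighbours, in `[0,∞]`. -/
noncomputable def deg {d : ℕ} (G : SimpleGraph (V d)) (x : V d) : ℝ≥0∞ :=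
  ∑' y, if G.Adj x y then 1 else 0

/-- `walk G t x y` is the probability that simple random walk on `G` started at `x` (which jumps to
a uniformly chosen neighbour at each step) is at `y` at time `t`. -/
noncomputable def walk {d : ℕ} (G : SimpleGraph (V d)) : ℕ → V d → V d → ℝ≥0∞
  | 0, x, y => if x = y then 1 else 0
  | t + 1, x, y => (∑' z, if G.Adj x z then walk G t z y else 0) / deg G x

/-- The quenched heat kernel `p_t(x,y) = P_x(X_t = y)/deg y`. -/
noncomputable def heat {d : ℕ} (G : SimpleGraph (V d)) (t : ℕ) (x y : V d) : ℝ≥0∞ :=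
  walk G t x y / deg G y

end MP072e06
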