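import Pool.Agent.Lib.MP_072e06_pr.FlowDefs

/-!
Neighbours and degrees.
-/

open MeasureTheory ENNReal
open scoped Classical

namespace MP072e06

variable {d : ℕ} [NeZero d] {G : SimpleGraph (V d)}

private lemma walkA_eDist (a : Fin d) (l : ℤ) (hl : l = 1 ∨ l = -1) (x : V d) :
    eDist x (mv a l x) ≤ 1 := by
  unfold eDist mv
  have h1 : ∑ i, ((x i : ℝ) - ((Function.update x a (x a + l)) i : ℝ)) ^ 2 = 1 := by
    rw [Finset.sum_eq_single a]
    · rw [Function.update_self]
      push_cast
      rcases hl with rfl | rfl <;> push_cast <;> ring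
    · intro b _ hb
      rw [Function.update_of_ne hb]
      ring
    · intro h
      exact absurd (Finset.mem_univ a) h
  rw [h1, Real.sqrt_one]

private lemma walkA_adj (hNN : NN G) (a : Fin d) (l : ℤ) (hl : l = 1 ∨ l = -1) (x : V d) :
    G.Adj x (mv a l x) := by
  refine hNN _ _ ?_ (walkA_eDist a l hl x)
  intro h
  have h1 := congrFun h a
  unfold mv at h1
  rw [Function.update_self] at h1
  rcases hl with rfl | rfl <;> omega

/-- A nearest-neighbour step is an edge. -/
theorem adj_mv (hNN : NN G) (a : Fin d) (x : V d) : G.Adj x (mv a 1 x) :=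
  walkA_adj hNN a 1 (Or.inl rfl) x

theorem two_le_deg (hNN : NN G) (x : V d) : 2 ≤ deg G x := by
  have hne : mv (0 : Fin d) 1 x ≠ mv (0 : Fin d) (-1) x := by
    intro h
    have h1 := congrFun h 0
    unfold mv at h1
    rw [Function.update_self, Function.update_self] at h1
    omega
  have h1 := ENNReal.sum_le_tsum (f := fun y => if G.Adj x y then (1 : ℝ≥0∞) else 0)
    {mv (0 : Fin d) 1 x, mv (0 : Fin d) (-1) x}
  rw [Finset.sum_pair hne, if_pos (walkA_adj hNN 0 1 (Or.inl rfl) x),
    if_pos (walkA_adj hNN 0 (-1) (Or.inr rfl) x)] at h1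
  unfold deg
  refine le_trans (le_of_eq ?_) h1
  norm_num

theorem neighbor_finite (hLF : LF G) (x : V d) : {y | G.Adj x y}.Finite := by
  have h1 := ENNReal.finite_const_le_of_tsum_ne_top (hLF x) (ε := 1) one_ne_zero
  refine h1.subset ?_
  intro y hy
  have hy' : G.Adj x y := hy
  show (1 : ℝ≥0∞) ≤ if G.Adj x y then 1 else 0
  rw [if_pos hy']

end MP072e06
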