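import Pool.Agent.Lib.MP_072e06_pr.FlowLemmas
import Pool.Agent.Lib.MP_072e06_pr.WalkA

/-!
Straight path flows and translation flows.
-/

open MeasureTheory ENNReal
open scoped Classical

namespace MP072e06

variable {d : ℕ} {G : SimpleGraph (V d)}

private lemma mv_eq_add (a : Fin d) (l : ℤ) (x : V d) : mv a l x = x + Pi.single a l := by
  funext i
  unfold mv
  by_cases h : i = a
  · subst h
    simp
  · simp [h]

lemma mv_mv (a : Fin d) (k l : ℤ) (x : V d) : mv a k (mv a l x) = mv a (k + l) x := by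
  rw [mv_eq_add, mv_eq_add, mv_eq_add, add_assoc, ← Pi.single_add, add_comm l k]

lemma nxt_eq_mv [NeZero d] (n : ℕ) (v : V d) : nxt n v = mv (dir d n) (rad d n) v := rfl

private lemma nna_par_mv (a : Fin d) (l : ℤ) (x : V d) : par (mv a l x) = par x + l := by
  rw [mv_eq_add]
  unfold par
  simp only [Pi.add_apply]
  rw [Finset.sum_add_distrib, Finset.sum_pi_single']
  simp

private lemma nna_step_dist (a : Fin d) (k : ℤ) (x : V d) :
    eDist (mv a k x) (mv a (k + 1) x) = 1 := by
  unfold eDist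
  have h1 : ∑ i, (((mv a k x) i : ℝ) - ((mv a (k + 1) x) i : ℝ)) ^ 2 = 1 := by
    rw [Finset.sum_eq_single a]
    · simp only [mv, Function.update_self]
      push_cast
      ring
    · intro i _ hi
      simp only [mv, Function.update_of_ne hi]
      ring
    · intro h
      exact absurd (Finset.mem_univ a) h
  rw [h1, Real.sqrt_one]

private lemma nna_step_ne (a : Fin d) (k : ℤ) (x : V d) : mv a k x ≠ mv a (k + 1) x := by
  intro h
  have := congrFun h a
  simp only [mv, Function.update_self] at this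
  omega

private lemma nna_step_adj (hNN : NN G) (a : Fin d) (k : ℤ) (x : V d) :
    G.Adj (mv a k x) (mv a (k + 1) x) :=
  hNN _ _ (nna_step_ne a k x) (nna_step_dist a k x).le

theorem isFlow_pathFlow [NeZero d] (hNN : NN G) {S : Finset (V d)} {a : Fin d} {l : ℕ} {x : V d}
    (hS : ∀ k : ℕ, k ≤ l → mv a k x ∈ S) :
    IsFlow G S (pathFlow a l x) (fun h => h x - h (mv a l x)) := by
  have h1 := isFlow_sum (G := G) (S := S) (Finset.range l) (fun _ => (1 : ℝ))
    (fun k : ℕ => sg (mv a k x) (mv a (k + 1) x))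
    (fun k h => h (mv a k x) - h (mv a (k + 1) x)) (fun k hk _ => by
      rw [Finset.mem_range] at hk
      refine isFlow_sg (hS k hk.le) ?_ (nna_step_adj hNN a k x) ?_
      · have := hS (k + 1) (by omega)
        push_cast at this
        exact this
      · rw [nna_par_mv, nna_par_mv]
        refine ⟨-1, by ring⟩)
  have h2 : (∑ k ∈ Finset.range l, (1 : ℝ) • sg (mv a (k : ℤ) x) (mv a ((k : ℤ) + 1) x)) =
      pathFlow a l x := by
    unfold pathFlow
    exact Finset.sum_congr rfl fun k _ => one_smul ℝ _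
  rw [h2] at h1
  refine h1.congr fun f => ?_
  have h3 := Finset.sum_range_sub' (fun k : ℕ => f (mv a (k : ℤ) x)) l
  simp only [one_mul]
  have h4 : mv a ((0 : ℕ) : ℤ) x = x := by
    rw [mv_eq_add]
    simp
  rw [h4] at h3
  rw [← h3]
  refine Finset.sum_congr rfl fun k _ => ?_
  push_cast
  rfl

theorem isFlow_trFlow [NeZero d] (hNN : NN G) {S : Finset (V d)} {a : Fin d} {l n : ℕ} {w : V d}
    (hS : ∀ x ∈ Box n w, ∀ k : ℕ, k ≤ l → mv a k x ∈ S) :
    IsFlow G S (trFlow (Box n w) a l)
      (fun h => avg (Box n w) h - avg (Box n (mv a l w)) h) := by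
  have h1 := isFlow_sum (G := G) (S := S) (Box n w) (fun _ => (1 : ℝ))
    (fun x : V d => pathFlow a l x)
    (fun x h => h x - h (mv a l x)) (fun x hx _ => isFlow_pathFlow hNN (hS x hx))
  have h2 := h1.smul ((Box n w).card : ℝ)⁻¹
  have h3 : ((Box n w).card : ℝ)⁻¹ • (∑ x ∈ Box n w, (1 : ℝ) • pathFlow a l x) =
      trFlow (Box n w) a l := by
    unfold trFlow
    congr 1
    exact Finset.sum_congr rfl fun k _ => one_smul ℝ _
  rw [h3] at h2
  refine h2.congr fun f => ?_
  simp only [one_mul]
  have hd : 0 < d := Nat.pos_of_ne_zero (NeZero.ne d)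
  have h4 : ∑ x ∈ Box n (mv a l w), f x = ∑ x ∈ Box n w, f (mv a l x) := by
    refine (Finset.sum_bij (fun x _ => mv a l x) ?_ ?_ ?_ ?_).symm
    · intro x hx
      rw [mv_eq_add, mv_eq_add]
      exact add_mem_Box.2 hx
    · intro x _ y _ h
      rw [mv_eq_add, mv_eq_add] at h
      exact add_right_cancel h
    · intro y hy
      refine ⟨y - Pi.single a (l : ℤ), ?_, ?_⟩
      · rw [← add_mem_Box (u := Pi.single a (l : ℤ)), sub_add_cancel, ← mv_eq_add]
        exact hy
      · rw [mv_eq_add, sub_add_cancel]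
    · intro x _
      rfl
  unfold avg
  rw [card_Box _ _ hd, card_Box _ _ hd, h4, Finset.sum_sub_distrib]
  ring

end MP072e06
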