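import Pool.Agent.Lib.MP_072e06_pr.NNFlow

/-!
The nearest-neighbour flow `nnPsi`.  Bounds: `‖Ψ_n‖_1 ≤ (1/2) ∑_{l<n} rad l ≤ d rad n` (dual form
`inner_nnPsi_le`), and
`‖Ψ_{n+1}‖² ≤ ‖Ψ_n‖² + |⟨Ψ_n, F_n⟩| + ‖F_n‖²/4 ≤ ‖Ψ_n‖² + d rad² / 2^n + rad²/(4·2^n)`, `rad^2 ≤ rad^d ≤ 2^n`.
-/

open MeasureTheory ENNReal
open scoped Classical

namespace MP072e06

variable {d : ℕ} [NeZero d] {G : SimpleGraph (V d)}

theorem isFlow_nnPsi (hNN : NN G) (n : ℕ) (v x : V d) (hx : x ∈ Box n v) :
    IsFlow G (Box n v) (nnPsi n v x) (fun h => h x - avg (Box n v) h) := by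
  induction n generalizing v with
  | zero =>
    rw [Box_zero, Finset.mem_singleton] at hx
    subst hx
    refine isFlow_zero.congr fun f => ?_
    rw [Box_zero]
    simp [avg]
  | succ n ih =>
    have hsub1 : Box n v ⊆ Box (n + 1) v := by
      rw [Box_succ]
      exact Finset.subset_union_left
    have hsub2 : Box n (nxt n v) ⊆ Box (n + 1) v := by
      rw [Box_succ]
      exact Finset.subset_union_right
    by_cases h : x ∈ Box n v
    · have h1 := ((ih v h).mono hsub1).add ((isFlow_nnF hNN n v).smul (1 / 2))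
      have h2 : nnPsi (n + 1) v x = nnPsi n v x + (1 / 2 : ℝ) • nnF n v := by
        show (if x ∈ Box n v then nnPsi n v x + (1 / 2 : ℝ) • nnF n v
          else nnPsi n (nxt n v) x - (1 / 2 : ℝ) • nnF n v) = _
        rw [if_pos h]
      rw [h2]
      refine h1.congr fun f => ?_
      rw [avg_Box_succ]
      ring
    · have hx' : x ∈ Box n (nxt n v) := by
        rw [Box_succ, Finset.mem_union] at hx
        exact hx.resolve_left h
      have h1 := ((ih (nxt n v) hx').mono hsub2).sub ((isFlow_nnF hNN n v).smul (1 / 2))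
      have h2 : nnPsi (n + 1) v x = nnPsi n (nxt n v) x - (1 / 2 : ℝ) • nnF n v := by
        show (if x ∈ Box n v then nnPsi n v x + (1 / 2 : ℝ) • nnF n v
          else nnPsi n (nxt n v) x - (1 / 2 : ℝ) • nnF n v) = _
        rw [if_neg h]
      rw [h2]
      refine h1.congr fun f => ?_
      rw [avg_Box_succ]
      ring

private lemma nnp_sum_rad (n : ℕ) :
    ∑ l ∈ Finset.range n, rad d l ≤ (d + n % d) * rad d n := by
  have hd : 0 < d := Nat.pos_of_ne_zero (NeZero.ne d)
  induction n with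
  | zero => simp
  | succ n ih =>
    rw [Finset.sum_range_succ]
    have hr : n % d < d := Nat.mod_lt n hd
    have hn : n % d + d * (n / d) = n := Nat.mod_add_div n d
    by_cases h : n % d + 1 < d
    · have h1 : (n + 1) / d = n / d ∧ (n + 1) % d = n % d + 1 :=
        (Nat.div_mod_unique hd).2 ⟨by omega, h⟩
      have h2 : rad d (n + 1) = rad d n := by
        unfold rad
        rw [h1.1]
      rw [h1.2, h2]
      calc ∑ l ∈ Finset.range n, rad d l + rad d n ≤ (d + n % d) * rad d n + rad d n := by omega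
        _ = (d + (n % d + 1)) * rad d n := by ring
    · have h0 : n % d + 1 = d := by omega
      have h1 : (n + 1) / d = n / d + 1 ∧ (n + 1) % d = 0 := by
        refine (Nat.div_mod_unique hd).2 ⟨?_, hd⟩
        rw [mul_add, mul_one]
        omega
      have h2 : rad d (n + 1) = 2 * rad d n := by
        unfold rad
        rw [h1.1, pow_succ, mul_comm]
      rw [h1.2, h2]
      calc ∑ l ∈ Finset.range n, rad d l + rad d n ≤ (d + n % d) * rad d n + rad d n := by omega
        _ = (d + (n % d + 1)) * rad d n := by ring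
        _ = (d + 0) * (2 * rad d n) := by rw [h0]; ring

private lemma nnp_nnF_apply (n : ℕ) (v : V d) (z : V d × V d) :
    |nnF n v z| ≤ rad d n / 2 ^ n := by
  have h := trFlow_apply_le n v (dir d n) (rad d n) z
  rwa [side_dir] at h

private lemma nnp_inner_half (n : ℕ) (v x : V d) (J : L2 d) (M : ℝ) (hM : ∀ z, |J z| ≤ M) :
    |inner ℝ (nnPsi n v x) J| ≤ (1 / 2) * (∑ l ∈ Finset.range n, (rad d l : ℝ)) * M := by
  have hM0 : 0 ≤ M := (abs_nonneg _).trans (hM (0, 0))
  induction n generalizing v with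
  | zero =>
    show |inner ℝ (0 : L2 d) J| ≤ _
    rw [inner_zero_left]
    simp
  | succ n ih =>
    have hF : |inner ℝ (nnF n v) J| ≤ rad d n * M := inner_trFlow_le n v (dir d n) (rad d n) J M hM
    rw [Finset.sum_range_succ]
    by_cases h : x ∈ Box n v
    · have h2 : nnPsi (n + 1) v x = nnPsi n v x + (1 / 2 : ℝ) • nnF n v := by
        show (if x ∈ Box n v then nnPsi n v x + (1 / 2 : ℝ) • nnF n v
          else nnPsi n (nxt n v) x - (1 / 2 : ℝ) • nnF n v) = _
        rw [if_pos h]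
      rw [h2, inner_add_left, real_inner_smul_left]
      refine (abs_add_le _ _).trans ?_
      rw [abs_mul, abs_of_pos (by norm_num : (0 : ℝ) < 1 / 2)]
      linarith [ih v]
    · have h2 : nnPsi (n + 1) v x = nnPsi n (nxt n v) x - (1 / 2 : ℝ) • nnF n v := by
        show (if x ∈ Box n v then nnPsi n v x + (1 / 2 : ℝ) • nnF n v
          else nnPsi n (nxt n v) x - (1 / 2 : ℝ) • nnF n v) = _
        rw [if_neg h]
      rw [h2, inner_sub_left, real_inner_smul_left]
      refine (abs_sub _ _).trans ?_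
      rw [abs_mul, abs_of_pos (by norm_num : (0 : ℝ) < 1 / 2)]
      linarith [ih (nxt n v)]

theorem inner_nnPsi_le (n : ℕ) (v x : V d) (J : L2 d) (M : ℝ) (hM : ∀ z, |J z| ≤ M) :
    |inner ℝ (nnPsi n v x) J| ≤ d * rad d n * M := by
  have hM0 : 0 ≤ M := (abs_nonneg _).trans (hM (0, 0))
  have hd : 0 < d := Nat.pos_of_ne_zero (NeZero.ne d)
  refine (nnp_inner_half n v x J M hM).trans (mul_le_mul_of_nonneg_right ?_ hM0)
  have h1 := nnp_sum_rad (d := d) n
  have h2 : (d + n % d) * rad d n ≤ (2 * d) * rad d n :=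
    Nat.mul_le_mul_right _ (by have := Nat.mod_lt n hd; omega)
  have h3 : ((∑ l ∈ Finset.range n, rad d l : ℕ) : ℝ) ≤ ((2 * d * rad d n : ℕ) : ℝ) := by
    exact_mod_cast h1.trans h2
  push_cast at h3
  linarith

/-- Logarithmic bound for the energy of the nearest-neighbour flow from a point to the uniform
measure of its box. -/
theorem norm_nnPsi_sq_le (hd : 2 ≤ d) (n : ℕ) (v x : V d) :
    ‖nnPsi n v x‖ ^ 2 ≤ (d + 1) * n := by
  induction n generalizing v with
  | zero =>
    show ‖(0 : L2 d)‖ ^ 2 ≤ _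
    simp
  | succ n ih =>
    have hr2 : (rad d n : ℝ) ^ 2 / 2 ^ n ≤ 1 := by
      rw [div_le_one (by positivity)]
      have h1 : rad d n ^ 2 ≤ rad d n ^ d := Nat.pow_le_pow_right (rad_pos n) hd
      have h2 := h1.trans (rad_pow_le n)
      exact_mod_cast h2
    have hn : ‖nnF n v‖ ^ 2 ≤ (rad d n : ℝ) ^ 2 / 2 ^ n := norm_nnF_sq_le n v
    have hin : ∀ w : V d, |inner ℝ (nnPsi n w x) (nnF n v)| ≤ d * ((rad d n : ℝ) ^ 2 / 2 ^ n) := by
      intro w
      refine (inner_nnPsi_le n w x (nnF n v) _ (nnp_nnF_apply n v)).trans (le_of_eq ?_)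
      ring
    have hd0 : (0 : ℝ) ≤ d := Nat.cast_nonneg d
    have hin' : ∀ w : V d, |inner ℝ (nnPsi n w x) (nnF n v)| ≤ d := by
      intro w
      refine (hin w).trans ?_
      calc (d : ℝ) * ((rad d n : ℝ) ^ 2 / 2 ^ n) ≤ d * 1 := mul_le_mul_of_nonneg_left hr2 hd0
        _ = d := mul_one _
    by_cases h : x ∈ Box n v
    · have h2 : nnPsi (n + 1) v x = nnPsi n v x + (1 / 2 : ℝ) • nnF n v := by
        show (if x ∈ Box n v then nnPsi n v x + (1 / 2 : ℝ) • nnF n v
          else nnPsi n (nxt n v) x - (1 / 2 : ℝ) • nnF n v) = _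
        rw [if_pos h]
      rw [h2, norm_add_sq_real, real_inner_smul_right, norm_smul, mul_pow]
      have h3 := (le_abs_self _).trans (hin' v)
      have h4 : ‖(1 / 2 : ℝ)‖ ^ 2 = 1 / 4 := by norm_num
      rw [h4]
      push_cast
      nlinarith [ih v, hn, hr2]
    · have h2 : nnPsi (n + 1) v x = nnPsi n (nxt n v) x - (1 / 2 : ℝ) • nnF n v := by
        show (if x ∈ Box n v then nnPsi n v x + (1 / 2 : ℝ) • nnF n v
          else nnPsi n (nxt n v) x - (1 / 2 : ℝ) • nnF n v) = _
        rw [if_neg h]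
      rw [h2, norm_sub_sq_real, real_inner_smul_right, norm_smul, mul_pow]
      have h3 := (neg_abs_le (inner ℝ (nnPsi n (nxt n v) x) (nnF n v)))
      have h3' := hin' (nxt n v)
      have h4 : ‖(1 / 2 : ℝ)‖ ^ 2 = 1 / 4 := by norm_num
      rw [h4]
      push_cast
      nlinarith [ih (nxt n v), hn, hr2]

end MP072e06
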