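import Pool.Agent.Lib.MP_072e06_pr.ZetaMoment

/-!
`‖∑ ξ c sg‖² = ∑ ξ c²` (orthonormal), and `∑ ξ c² ≤ (max c) ∑ ξ c = (max c)(1 + ζ)`
(`∑ p c = 1` by the parity count), so the `2q`-th moment is at most `(C N⁻¹)^q E (1+|ζ|)^q`.
-/

open MeasureTheory ENNReal
open scoped Classical

namespace MP072e06

theorem norm_sum_sg_sq {d : ℕ} (T : Finset (V d × V d)) (a : V d × V d → ℝ) :
    ‖∑ z ∈ T, a z • sg z.1 z.2‖ ^ 2 = ∑ z ∈ T, a z ^ 2 := by
  have h := lp.norm_sum_single (E := fun _ : V d × V d => ℝ) (p := 2) (by norm_num)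
    (fun z => a z) T
  have h2 : ∀ z : V d × V d, a z • sg z.1 z.2 =
      lp.single (E := fun _ : V d × V d => ℝ) 2 z (a z) := by
    intro z
    unfold sg
    rw [← lp.single_smul]
    simp
  simp only [h2]
  have e : (2 : ℝ≥0∞).toReal = 2 := by norm_num
  rw [e] at h
  simp only [Real.rpow_two, Real.norm_eq_abs, sq_abs] at h
  exact h

private lemma sum_prob_cw_one {d : ℕ} [NeZero d] (s : ℝ) {n : ℕ} (hn : 1 ≤ n) (v : V d)
    (hp : ∀ x y : V d, 0 < edgeProb d s x y) :
    ∑ z ∈ Box n v ×ˢ Box n (nxt n v), edgeProb d s z.1 z.2 * cw d s n z.1 z.2 = 1 := by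
  have hd : 0 < d := Nat.pos_of_ne_zero (NeZero.ne d)
  rw [Finset.sum_product]
  have h1 : ∀ x ∈ Box n v, ∑ y ∈ Box n (nxt n v), edgeProb d s x y * cw d s n x y =
      1 / 2 ^ n := by
    intro x _
    have h2 : ∀ y, edgeProb d s x y * cw d s n x y =
        (2 / 4 ^ n) * (if Odd (par x - par y) then (1 : ℝ) else 0) := by
      intro y
      unfold cw
      have := (hp x y).ne'
      split_ifs
      · field_simp
      · ring
    simp only [h2]
    rw [← Finset.mul_sum, sum_odd hn]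
    have h4 : (4 : ℝ) ^ n = 2 ^ n * 2 ^ n := by rw [← mul_pow]; norm_num
    rw [h4]
    field_simp
  rw [Finset.sum_congr rfl h1, Finset.sum_const, card_Box n v hd]
  simp

private lemma edgeProb_pos' {d : ℕ} (s : ℝ) (x y : V d) : 0 < edgeProb d s x y := by
  unfold edgeProb
  split_ifs with h
  · norm_num
  · have h0 : 0 < eDist x y := by linarith
    have : 0 < eDist x y ^ (-s) := Real.rpow_pos_of_pos h0 _
    have := Real.exp_lt_one_iff.2 (by linarith : -(eDist x y ^ (-s)) < 0)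
    linarith

/-- Moments of the direct part of the flow. -/
theorem partA_moment (d : ℕ) [NeZero d] (s : ℝ) (hs : 0 < s) (hs2 : s < 2 * d) (q : ℕ)
    (hq : 1 ≤ q) : ∃ C : ℝ, 1 ≤ C ∧ ∀ (n : ℕ) (_ : 1 ≤ n) (v : V d),
      ∫⁻ ω, ENNReal.ofReal ‖∑ z ∈ Box n v ×ˢ Box n (nxt n v),
          (xi ω s(z.1, z.2) * cw d s n z.1 z.2) • sg z.1 z.2‖ ^ (2 * q) ∂(LRP d s) ≤
        ENNReal.ofReal (C * (rad d n : ℝ) ^ (-((2 * d - s) * q))) := by
  obtain ⟨C1, hC1, hcw⟩ := cw_le d s hs
  obtain ⟨C2, hC2, hzeta⟩ := zeta_moment d s hs hs2 q hq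
  refine ⟨C1 ^ q * 2 ^ q * (1 + C2), ?_, ?_⟩
  · have h1 : (1 : ℝ) ≤ C1 ^ q := one_le_pow₀ hC1
    have h2 : (1 : ℝ) ≤ 2 ^ q := one_le_pow₀ (by norm_num)
    have h3 : (1 : ℝ) ≤ 1 + C2 := by linarith
    calc (1 : ℝ) = 1 * 1 * 1 := by norm_num
      _ ≤ C1 ^ q * 2 ^ q * (1 + C2) := by gcongr
  intro n hn v
  have hr : (0 : ℝ) < rad d n := by exact_mod_cast rad_pos n
  have hr1 : (1 : ℝ) ≤ rad d n := by exact_mod_cast rad_pos n
  set N : ℝ := (rad d n : ℝ) ^ (-(2 * (d : ℝ) - s)) with hNdef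
  have hN0 : 0 < N := Real.rpow_pos_of_pos hr _
  have hNq : N ^ q = (rad d n : ℝ) ^ (-((2 * (d : ℝ) - s) * q)) := by
    rw [hNdef, ← Real.rpow_natCast, ← Real.rpow_mul hr.le]
    ring_nf
  have hN1 : N ≤ 1 := Real.rpow_le_one_of_one_le_of_nonpos hr1 (by linarith)
  -- pointwise bound
  have hpt : ∀ ω : Env d, ENNReal.ofReal ‖∑ z ∈ Box n v ×ˢ Box n (nxt n v),
          (xi ω s(z.1, z.2) * cw d s n z.1 z.2) • sg z.1 z.2‖ ^ (2 * q) ≤
      ENNReal.ofReal ((C1 * N) ^ q * 2 ^ q) * (1 + ENNReal.ofReal |zeta s n v ω| ^ (2 * q)) := by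
    intro ω
    have h1 := norm_sum_sg_sq (Box n v ×ˢ Box n (nxt n v))
      (fun z => xi ω s(z.1, z.2) * cw d s n z.1 z.2)
    have hxi0 : ∀ e : Sym2 (V d), 0 ≤ xi ω e := by
      intro e; unfold xi; split_ifs <;> norm_num
    have hxi1 : ∀ e : Sym2 (V d), xi ω e * xi ω e = xi ω e := by
      intro e; unfold xi; split_ifs <;> norm_num
    have h2 : ∑ z ∈ Box n v ×ˢ Box n (nxt n v), xi ω s(z.1, z.2) * cw d s n z.1 z.2 =
        1 + zeta s n v ω := by
      rw [← sum_prob_cw_one s hn v (edgeProb_pos' s)]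
      unfold zeta
      rw [← Finset.sum_add_distrib]
      exact Finset.sum_congr rfl fun z _ => by ring
    have h3 : ‖∑ z ∈ Box n v ×ˢ Box n (nxt n v),
        (xi ω s(z.1, z.2) * cw d s n z.1 z.2) • sg z.1 z.2‖ ^ 2 ≤
        (C1 * N) * (1 + |zeta s n v ω|) := by
      rw [h1]
      calc ∑ z ∈ Box n v ×ˢ Box n (nxt n v), (xi ω s(z.1, z.2) * cw d s n z.1 z.2) ^ 2
          ≤ ∑ z ∈ Box n v ×ˢ Box n (nxt n v),
              (C1 * N) * (xi ω s(z.1, z.2) * cw d s n z.1 z.2) := by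
            refine Finset.sum_le_sum fun z hz => ?_
            rw [Finset.mem_product] at hz
            have h4 := hcw n v z.1 z.2 hz.1 hz.2
            have h5 := cw_nonneg s n z.1 z.2
            have h6 := hxi0 s(z.1, z.2)
            calc (xi ω s(z.1, z.2) * cw d s n z.1 z.2) ^ 2
                = (xi ω s(z.1, z.2) * xi ω s(z.1, z.2)) *
                  (cw d s n z.1 z.2 * cw d s n z.1 z.2) := by ring
              _ = xi ω s(z.1, z.2) * (cw d s n z.1 z.2 * cw d s n z.1 z.2) := by rw [hxi1]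
              _ ≤ xi ω s(z.1, z.2) * ((C1 * N) * cw d s n z.1 z.2) :=
                  mul_le_mul_of_nonneg_left (mul_le_mul_of_nonneg_right h4 h5) h6
              _ = _ := by ring
        _ = (C1 * N) * (1 + zeta s n v ω) := by rw [← Finset.mul_sum, h2]
        _ ≤ _ := by
            have := le_abs_self (zeta s n v ω)
            have h7 : 0 ≤ C1 * N := by positivity
            exact mul_le_mul_of_nonneg_left (by linarith) h7
    have h8 : ‖∑ z ∈ Box n v ×ˢ Box n (nxt n v),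
        (xi ω s(z.1, z.2) * cw d s n z.1 z.2) • sg z.1 z.2‖ ^ (2 * q) ≤
        ((C1 * N) ^ q * 2 ^ q) * (1 + |zeta s n v ω| ^ (2 * q)) := by
      rw [pow_mul]
      calc _ ≤ ((C1 * N) * (1 + |zeta s n v ω|)) ^ q := pow_le_pow_left₀ (by positivity) h3 q
        _ = (C1 * N) ^ q * (1 + |zeta s n v ω|) ^ q := mul_pow _ _ _
        _ ≤ (C1 * N) ^ q * (2 ^ q * (1 + |zeta s n v ω| ^ (2 * q))) := by
            gcongr
            rcases le_total (|zeta s n v ω|) 1 with h | h
            · calc (1 + |zeta s n v ω|) ^ q ≤ 2 ^ q :=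
                    pow_le_pow_left₀ (by positivity) (by linarith) q
                _ ≤ 2 ^ q * (1 + |zeta s n v ω| ^ (2 * q)) := by
                    have : (0 : ℝ) ≤ 2 ^ q * |zeta s n v ω| ^ (2 * q) := by positivity
                    linarith
            · calc (1 + |zeta s n v ω|) ^ q ≤ (2 * |zeta s n v ω|) ^ q :=
                    pow_le_pow_left₀ (by positivity) (by linarith) q
                _ = 2 ^ q * |zeta s n v ω| ^ q := mul_pow _ _ _
                _ ≤ 2 ^ q * (1 + |zeta s n v ω| ^ (2 * q)) := by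
                    have : |zeta s n v ω| ^ q ≤ |zeta s n v ω| ^ (2 * q) :=
                      pow_le_pow_right₀ h (by omega)
                    gcongr
                    linarith
        _ = _ := by ring
    rw [← ENNReal.ofReal_pow (norm_nonneg _), ← ENNReal.ofReal_pow (abs_nonneg _),
      ← ENNReal.ofReal_one, ← ENNReal.ofReal_add (by norm_num) (by positivity),
      ← ENNReal.ofReal_mul (by positivity)]
    exact ENNReal.ofReal_le_ofReal h8
  refine (lintegral_mono hpt).trans ?_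
  rw [lintegral_const_mul' _ _ ENNReal.ofReal_ne_top, lintegral_add_left measurable_const,
    lintegral_const, measure_univ, mul_one]
  calc ENNReal.ofReal ((C1 * N) ^ q * 2 ^ q) *
        (1 + ∫⁻ ω, ENNReal.ofReal |zeta s n v ω| ^ (2 * q) ∂(LRP d s))
      ≤ ENNReal.ofReal ((C1 * N) ^ q * 2 ^ q) * (1 + ENNReal.ofReal C2) := by
        gcongr
        refine (hzeta n hn v).trans (ENNReal.ofReal_le_ofReal ?_)
        rw [← hNq]
        have : N ^ q ≤ 1 := pow_le_one₀ hN0.le hN1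
        nlinarith
    _ = ENNReal.ofReal (((C1 * N) ^ q * 2 ^ q) * (1 + C2)) := by
        rw [← ENNReal.ofReal_one, ← ENNReal.ofReal_add (by norm_num) (by linarith),
          ← ENNReal.ofReal_mul (by positivity)]
    _ = _ := by
        rw [← hNq]
        congr 1
        rw [mul_pow]
        ring

end MP072e06
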