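import Pool.Agent.Lib.MP_072e06_pr.UsedPairs
import Pool.Agent.Lib.MP_072e06_pr.NNPsi

/-!
`PhiE` = (point `x` → block of `x`) + (block → block moved) - (point `y` → its block):
`‖PhiE‖² ≤ 3((d+1) 2dm + 2·4^m·4^m/4^(dm) + (d+1) 2dm) ≤ 12 d (d+1) (m+1)` for `d ≥ 2`.
-/

open MeasureTheory ENNReal
open scoped Classical

namespace MP072e06

variable {d : ℕ} [NeZero d] {G : SimpleGraph (V d)}

theorem isFlow_PhiE (hNN : NN G) {n m : ℕ} (hm : 2 * m + 1 ≤ n / d) {x y : V d}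
    (h : used n m x y) (hx : mult n m x ≠ 0) :
    IsFlow G (Box (n + 1) (0 : V d)) (PhiE n m x y) (fun f => f x - f y) := by
  have h1 : IsFlow G (Box (n + 1) (0 : V d)) (nnPsi (2 * d * m) (base (2 * d * m) x) x)
      (fun f => f x - avg (Box (2 * d * m) (base (2 * d * m) x)) f) := by
    refine (isFlow_nnPsi hNN _ _ _ (mem_Box_base _ _)).mono ?_
    intro x' hx'
    have := used_mem hm h hx hx' 0 (Nat.zero_le _)
    simpa [mv] using this
  have h2 : IsFlow G (Box (n + 1) (0 : V d))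
      (trFlow (Box (2 * d * m) (base (2 * d * m) x)) (dir d n) (2 * 4 ^ m))
      (fun f => avg (Box (2 * d * m) (base (2 * d * m) x)) f -
        avg (Box (2 * d * m) (mv (dir d n) ((2 * 4 ^ m : ℕ) : ℤ) (base (2 * d * m) x))) f) := by
    apply isFlow_trFlow hNN
    intro x' hx' k hk
    exact used_mem hm h hx hx' k hk
  have h3 : IsFlow G (Box (n + 1) (0 : V d))
      (nnPsi (2 * d * m) (mv (dir d n) (2 * 4 ^ m) (base (2 * d * m) x)) y)
      (fun f => f y - avg (Box (2 * d * m) (mv (dir d n) (2 * 4 ^ m) (base (2 * d * m) x))) f) := by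
    refine (isFlow_nnPsi hNN _ _ _ h.2).mono ?_
    intro y' hy'
    obtain ⟨l, hl, hP⟩ := mult_ne_zero hm hx
    rw [mem_block_iff] at hy'
    have h4 := (upP_shift hy').1 hP
    have := upP_mem (k := 0) hm (by
      rw [add_zero, up_rad hm]; exact Nat.mul_le_mul_left _ hl) h4
    simpa [mv] using this
  have h4 := (h1.add h2).sub h3
  unfold PhiE
  refine h4.congr ?_
  intro f
  push_cast
  ring

theorem norm_PhiE_sq_le (hd : 2 ≤ d) {n m : ℕ} (x y : V d) :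
    ‖PhiE n m x y‖ ^ 2 ≤ 12 * (d + 1) * d * (m + 1) := by
  have h1 := norm_nnPsi_sq_le hd (2 * d * m) (base (2 * d * m) x) x
  have h2 := norm_nnPsi_sq_le hd (2 * d * m) (mv (dir d n) (2 * 4 ^ m) (base (2 * d * m) x)) y
  have h3 := norm_trFlow_sq_le (2 * d * m) (base (2 * d * m) x) (dir d n) (2 * 4 ^ m)
  unfold PhiE
  set A := nnPsi (2 * d * m) (base (2 * d * m) x) x
  set B := trFlow (Box (2 * d * m) (base (2 * d * m) x)) (dir d n) (2 * 4 ^ m)
  set C := nnPsi (2 * d * m) (mv (dir d n) (2 * 4 ^ m) (base (2 * d * m) x)) y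
  have h4 : ‖B‖ ^ 2 ≤ 2 := by
    refine h3.trans ?_
    rw [side_block, div_le_iff₀ (by positivity)]
    push_cast
    have e1 : (2 : ℝ) ^ (2 * d * m) = 4 ^ (d * m) := by
      rw [show 2 * d * m = 2 * (d * m) by ring, pow_mul]; norm_num
    have e2 : (4 : ℝ) ^ m * 4 ^ m = 4 ^ (2 * m) := by rw [← pow_add]; congr 1; ring
    have e3 : (4 : ℝ) ^ (2 * m) ≤ 4 ^ (d * m) :=
      pow_le_pow_right₀ (by norm_num) (Nat.mul_le_mul_right _ hd)
    rw [e1, mul_assoc, e2]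
    linarith
  have h5 : ‖A + B - C‖ ≤ ‖A‖ + ‖B‖ + ‖C‖ :=
    (norm_sub_le _ _).trans (by gcongr; exact norm_add_le _ _)
  have h6 : ‖A + B - C‖ ^ 2 ≤ 3 * (‖A‖ ^ 2 + ‖B‖ ^ 2 + ‖C‖ ^ 2) := by
    have h7 : ‖A + B - C‖ ^ 2 ≤ (‖A‖ + ‖B‖ + ‖C‖) ^ 2 :=
      pow_le_pow_left₀ (norm_nonneg _) h5 2
    nlinarith [sq_nonneg (‖A‖ - ‖B‖), sq_nonneg (‖A‖ - ‖C‖), sq_nonneg (‖B‖ - ‖C‖)]
  refine h6.trans ?_
  push_cast at h1 h2
  have hd' : (2 : ℝ) ≤ d := by exact_mod_cast hd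
  have hm' : (0 : ℝ) ≤ m := Nat.cast_nonneg m
  nlinarith [mul_nonneg (mul_nonneg (show (0 : ℝ) ≤ d by linarith)
    (show (0 : ℝ) ≤ d + 1 by linarith)) hm']

end MP072e06
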