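import Pool.Agent.Lib.MP_072e06_pr.FaMoment
import Pool.Agent.Lib.MP_072e06_pr.MeasA
import Pool.Agent.Lib.MP_072e06_pr.BoxGeo

/-!
Recursion for `a_n = sup_v MPsi s q n v` (finite by induction): with `η_n = rad^(-(2d-s)/2)` and
`(x+y)^(2q) ≤ (1+δ)^(2q) x^(2q) + (1+1/δ)^(2q) y^(2q)`, `δ = η^(1/2)`, `y = ‖Fa‖/2`:
`a_{n+1} ≤ (1 + C η_n^(1/2)) a_n + C η_n (1 + 2 a_n)`, and `∑ η_n^(1/2) < ∞`
(`rad d n = 2^(n/d)`), so `a_n` is bounded.  (`MPsi (n+1) v` is the average over the two children.)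
-/

open MeasureTheory ENNReal
open scoped Classical

namespace MP072e06

private lemma pb_real {a b δ : ℝ} (ha : 0 ≤ a) (hb : 0 ≤ b) (hδ : 0 < δ) (hδ1 : δ ≤ 1) (k : ℕ) :
    (a + b / 2) ^ k ≤ (1 + δ) ^ k * a ^ k + (1 / δ) ^ k * b ^ k := by
  rcases le_or_gt (b / 2) (δ * a) with h | h
  · have h1 : a + b / 2 ≤ (1 + δ) * a := by linarith
    have h2 : (a + b / 2) ^ k ≤ ((1 + δ) * a) ^ k := pow_le_pow_left₀ (by positivity) h1 k
    rw [mul_pow] at h2
    have h3 : 0 ≤ (1 / δ) ^ k * b ^ k := by positivity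
    linarith
  · have h0 : a < b / 2 / δ := by rw [lt_div_iff₀ hδ]; linarith
    have h1 : a + b / 2 ≤ 1 / δ * b := by
      have h4 : b / 2 ≤ b / 2 / δ := by
        rw [le_div_iff₀ hδ]
        nlinarith
      have h5 : 1 / δ * b = b / 2 / δ + b / 2 / δ := by field_simp; ring
      linarith
    have h2 : (a + b / 2) ^ k ≤ (1 / δ * b) ^ k := pow_le_pow_left₀ (by positivity) h1 k
    rw [mul_pow] at h2
    have h3 : 0 ≤ (1 + δ) ^ k * a ^ k := by positivity
    linarith

private lemma pb_pow {δ : ℝ} (hδ : 0 ≤ δ) (hδ1 : δ ≤ 1) (k : ℕ) :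
    (1 + δ) ^ k ≤ 1 + (2 ^ k - 1) * δ := by
  induction k with
  | zero => simp
  | succ k ih =>
    have h2 : (1:ℝ) ≤ 2 ^ k := one_le_pow₀ (by norm_num)
    calc (1 + δ) ^ (k + 1) = (1 + δ) ^ k * (1 + δ) := pow_succ _ _
      _ ≤ (1 + (2 ^ k - 1) * δ) * (1 + δ) := mul_le_mul_of_nonneg_right ih (by linarith)
      _ = 1 + 2 ^ k * δ + (2 ^ k - 1) * δ * δ := by ring
      _ ≤ 1 + 2 ^ k * δ + (2 ^ k - 1) * δ * 1 := by
          have : (2 ^ k - 1) * δ * δ ≤ (2 ^ k - 1) * δ * 1 :=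
            mul_le_mul_of_nonneg_left hδ1 (mul_nonneg (by linarith) hδ)
          linarith
      _ = 1 + (2 ^ (k + 1) - 1) * δ := by rw [pow_succ]; ring

private lemma pb_norm {d : ℕ} (Ψ F G : L2 d) (hG : ‖G‖ ≤ ‖Ψ‖ + ‖F‖ / 2) {δ : ℝ} (hδ : 0 < δ)
    (hδ1 : δ ≤ 1) (k : ℕ) :
    ENNReal.ofReal ‖G‖ ^ k ≤ ENNReal.ofReal ((1 + δ) ^ k) * ENNReal.ofReal ‖Ψ‖ ^ k +
      ENNReal.ofReal ((1 / δ) ^ k) * ENNReal.ofReal ‖F‖ ^ k := by
  rw [← ENNReal.ofReal_pow (norm_nonneg _), ← ENNReal.ofReal_pow (norm_nonneg _),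
    ← ENNReal.ofReal_pow (norm_nonneg _), ← ENNReal.ofReal_mul (by positivity),
    ← ENNReal.ofReal_mul (by positivity), ← ENNReal.ofReal_add (by positivity) (by positivity)]
  apply ENNReal.ofReal_le_ofReal
  exact (pow_le_pow_left₀ (norm_nonneg _) hG k).trans
    (pb_real (norm_nonneg _) (norm_nonneg _) hδ hδ1 k)

private lemma pb_meas {d : ℕ} [NeZero d] (s : ℝ) (n k : ℕ) (v x : V d) (hx : x ∈ Box n v) :
    Measurable fun ω : Env d => ENNReal.ofReal ‖Psia s n ω v x‖ ^ k := by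
  apply measurable_of_dependsOn _ ((Box n v).sym2)
  intro ω ω' h
  have := Psia_dependsOn s n v x hx h
  simp only at this ⊢
  rw [this]

/-- one step of the recursion -/
private lemma pb_step {d : ℕ} [NeZero d] (s : ℝ) (q n : ℕ) (v : V d) {δ : ℝ} (hδ : 0 < δ)
    (hδ1 : δ ≤ 1) :
    MPsi s q (n + 1) v ≤ ENNReal.ofReal ((1 + δ) ^ (2 * q)) *
        ((MPsi s q n v + MPsi s q n (nxt n v)) / 2) +
      ENNReal.ofReal ((1 / δ) ^ (2 * q)) *
        ∫⁻ ω, ENNReal.ofReal ‖Fa s n v ω (Psia s n ω)‖ ^ (2 * q) ∂(LRP d s) := by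
  set c1 := ENNReal.ofReal ((1 + δ) ^ (2 * q)) with hc1
  set c2 := ENNReal.ofReal ((1 / δ) ^ (2 * q)) with hc2
  set I := ∫⁻ ω, ENNReal.ofReal ‖Fa s n v ω (Psia s n ω)‖ ^ (2 * q) ∂(LRP d s) with hI
  have hd : 0 < d := Nat.pos_of_ne_zero (NeZero.ne d)
  have h1 : ∀ x ∈ Box n v, ∫⁻ ω, ENNReal.ofReal ‖Psia s (n + 1) ω v x‖ ^ (2 * q) ∂(LRP d s) ≤
      c1 * ∫⁻ ω, ENNReal.ofReal ‖Psia s n ω v x‖ ^ (2 * q) ∂(LRP d s) + c2 * I := by
    intro x hx
    calc ∫⁻ ω, ENNReal.ofReal ‖Psia s (n + 1) ω v x‖ ^ (2 * q) ∂(LRP d s)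
        ≤ ∫⁻ ω, (c1 * ENNReal.ofReal ‖Psia s n ω v x‖ ^ (2 * q) +
            c2 * ENNReal.ofReal ‖Fa s n v ω (Psia s n ω)‖ ^ (2 * q)) ∂(LRP d s) := by
          refine lintegral_mono fun ω => ?_
          refine pb_norm _ _ _ ?_ hδ hδ1 _
          rw [Psia, if_pos hx]
          refine (norm_add_le _ _).trans ?_
          rw [norm_smul]
          norm_num
          linarith
      _ = _ := by
          rw [lintegral_add_left ((pb_meas s n (2 * q) v x hx).const_mul c1),
            lintegral_const_mul' _ _ ENNReal.ofReal_ne_top,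
            lintegral_const_mul' _ _ ENNReal.ofReal_ne_top]
  have h2 : ∀ x ∈ Box n (nxt n v),
      ∫⁻ ω, ENNReal.ofReal ‖Psia s (n + 1) ω v x‖ ^ (2 * q) ∂(LRP d s) ≤
      c1 * ∫⁻ ω, ENNReal.ofReal ‖Psia s n ω (nxt n v) x‖ ^ (2 * q) ∂(LRP d s) + c2 * I := by
    intro x hx
    have hx' : x ∉ Box n v := fun h => (Finset.disjoint_left.mp (Box_disj n v)) h hx
    calc ∫⁻ ω, ENNReal.ofReal ‖Psia s (n + 1) ω v x‖ ^ (2 * q) ∂(LRP d s)
        ≤ ∫⁻ ω, (c1 * ENNReal.ofReal ‖Psia s n ω (nxt n v) x‖ ^ (2 * q) +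
            c2 * ENNReal.ofReal ‖Fa s n v ω (Psia s n ω)‖ ^ (2 * q)) ∂(LRP d s) := by
          refine lintegral_mono fun ω => ?_
          refine pb_norm _ _ _ ?_ hδ hδ1 _
          rw [Psia, if_neg hx']
          refine (norm_sub_le _ _).trans ?_
          rw [norm_smul]
          norm_num
          linarith
      _ = _ := by
          rw [lintegral_add_left ((pb_meas s n (2 * q) (nxt n v) x hx).const_mul c1),
            lintegral_const_mul' _ _ ENNReal.ofReal_ne_top,
            lintegral_const_mul' _ _ ENNReal.ofReal_ne_top]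
  have hsum : ∑ x ∈ Box (n + 1) v,
      ∫⁻ ω, ENNReal.ofReal ‖Psia s (n + 1) ω v x‖ ^ (2 * q) ∂(LRP d s) ≤
      c1 * (∑ x ∈ Box n v, ∫⁻ ω, ENNReal.ofReal ‖Psia s n ω v x‖ ^ (2 * q) ∂(LRP d s)) +
      c1 * (∑ x ∈ Box n (nxt n v),
        ∫⁻ ω, ENNReal.ofReal ‖Psia s n ω (nxt n v) x‖ ^ (2 * q) ∂(LRP d s)) +
      2 ^ (n + 1) * (c2 * I) := by
    rw [Box_succ, Finset.sum_union (Box_disj n v)]
    refine (add_le_add (Finset.sum_le_sum h1) (Finset.sum_le_sum h2)).trans (le_of_eq ?_)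
    rw [Finset.sum_add_distrib, Finset.sum_add_distrib, Finset.sum_const, Finset.sum_const,
      card_Box n v hd, card_Box n (nxt n v) hd, ← Finset.mul_sum, ← Finset.mul_sum, nsmul_eq_mul]
    push_cast
    ring
  unfold MPsi
  have h2n : (2 : ℝ≥0∞) ^ (n + 1) ≠ 0 := by positivity
  have h2t : (2 : ℝ≥0∞) ^ (n + 1) ≠ ∞ := by finiteness
  rw [ENNReal.div_le_iff h2n h2t]
  refine hsum.trans (le_of_eq ?_)
  have e1 : ∀ X : ℝ≥0∞, X / 2 ^ n / 2 * 2 ^ (n + 1) = X := by
    intro X
    rw [pow_succ, div_eq_mul_inv, div_eq_mul_inv]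
    have a1 : (2 : ℝ≥0∞)⁻¹ * 2 = 1 := ENNReal.inv_mul_cancel (by norm_num) (by norm_num)
    have a2 : ((2 : ℝ≥0∞) ^ n)⁻¹ * 2 ^ n = 1 :=
      ENNReal.inv_mul_cancel (by positivity) (by finiteness)
    calc X * (2 ^ n)⁻¹ * 2⁻¹ * (2 ^ n * 2) = X * ((2 ^ n)⁻¹ * 2 ^ n) * (2⁻¹ * 2) := by ring
      _ = X := by rw [a1, a2, mul_one, mul_one]
  rw [add_mul, ← ENNReal.add_div, mul_assoc, e1]
  ring

theorem MPsi_bdd (d : ℕ) [NeZero d] (s : ℝ) (hs : 0 < s) (hs2 : s < 2 * d) (q : ℕ)
    (hq : 1 ≤ q) : ∃ C : ℝ, 0 ≤ C ∧ ∀ (n : ℕ) (v : V d), MPsi s q n v ≤ ENNReal.ofReal C := by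
  obtain ⟨C, hC1, hC⟩ := Fa_moment d s hs hs2 q hq
  have hd : 0 < d := Nat.pos_of_ne_zero (NeZero.ne d)
  have hd' : (0:ℝ) < d := by exact_mod_cast hd
  set c : ℝ := (2 * d - s) / 4 with hc
  have hc0 : 0 < c := by rw [hc]; linarith
  set δ : ℕ → ℝ := fun n => (rad d n : ℝ) ^ (-c) with hδdef
  have hradpos : ∀ n, (0:ℝ) < rad d n := fun n => by unfold rad; positivity
  have hrad1 : ∀ n, (1:ℝ) ≤ rad d n := fun n => by
    unfold rad; exact_mod_cast Nat.one_le_two_pow
  have hδ0 : ∀ n, 0 < δ n := fun n => Real.rpow_pos_of_pos (hradpos n) _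
  have hδ1 : ∀ n, δ n ≤ 1 := fun n =>
    Real.rpow_le_one_of_one_le_of_nonpos (hrad1 n) (by linarith)
  have hδpow : ∀ n, (rad d n : ℝ) ^ (-((2 * d - s) * q)) = δ n ^ (4 * q) := by
    intro n
    simp only [hδdef]
    rw [← Real.rpow_natCast, ← Real.rpow_mul (hradpos n).le]
    congr 1
    rw [hc]; push_cast; ring
  -- summability
  have hsum : Summable δ := by
    have hgeo : Summable fun n : ℕ => (2:ℝ) ^ c * ((2:ℝ) ^ (-(c / d))) ^ n := by
      apply Summable.mul_left
      apply summable_geometric_of_lt_one (by positivity)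
      apply Real.rpow_lt_one_of_one_lt_of_neg (by norm_num)
      have : 0 < c / d := by positivity
      linarith
    refine Summable.of_nonneg_of_le (fun n => (hδ0 n).le) (fun n => ?_) hgeo
    simp only [hδdef]
    unfold rad
    push_cast
    rw [← Real.rpow_natCast (2:ℝ) (n / d), ← Real.rpow_mul (by norm_num),
      ← Real.rpow_natCast ((2:ℝ) ^ (-(c / d))) n, ← Real.rpow_mul (by norm_num),
      ← Real.rpow_add (by norm_num)]
    apply Real.rpow_le_rpow_of_exponent_le (by norm_num)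
    have h1 : (n:ℝ) / d < (n / d : ℕ) + 1 := by
      rw [div_lt_iff₀ hd']
      have := Nat.lt_div_mul_add hd (a := n)
      have h2 : n < (n / d + 1) * d := by nlinarith
      exact_mod_cast h2
    have h3 : c * ((n:ℝ) / d) ≤ c * ((n / d : ℕ) + 1) := mul_le_mul_of_nonneg_left h1.le hc0.le
    have h4 : -(c / ↑d) * ↑n = -(c * ((n:ℝ) / d)) := by ring
    rw [h4]
    linarith
  set D : ℝ := 4 ^ q + 2 * C with hD
  have hD0 : 0 ≤ D := by rw [hD]; positivity
  set P : ℕ → ℝ := fun n => ∏ k ∈ Finset.range n, (1 + D * δ k) with hP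
  have hP1 : ∀ n, 1 ≤ P n := by
    intro n
    induction n with
    | zero => simp [hP]
    | succ n ih =>
      have h1 : P (n + 1) = P n * (1 + D * δ n) := by
        simp only [hP]; rw [Finset.prod_range_succ]
      have := mul_nonneg hD0 (hδ0 n).le
      rw [h1]
      exact one_le_mul_of_one_le_of_one_le ih (by linarith)
  have key : ∀ n (v : V d), MPsi s q n v ≤ ENNReal.ofReal (P n - 1) := by
    intro n
    induction n with
    | zero =>
      intro v
      have : MPsi s q 0 v = 0 := by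
        unfold MPsi
        have : (2 * q) ≠ 0 := by omega
        simp [Psia, this]
      rw [this]
      exact bot_le
    | succ n ih =>
      intro v
      refine (pb_step s q n v (hδ0 n) (hδ1 n)).trans ?_
      have i1 := ih v
      have i2 := ih (nxt n v)
      have i3 := hC n v
      rw [hδpow] at i3
      have hPn := hP1 n
      have j1 : (MPsi s q n v + MPsi s q n (nxt n v)) / 2 ≤ ENNReal.ofReal (P n - 1) := by
        rw [ENNReal.div_le_iff (by norm_num) (by norm_num), mul_two]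
        exact add_le_add i1 i2
      have j2 : 1 + MPsi s q n v + MPsi s q n (nxt n v) ≤ ENNReal.ofReal (2 * P n - 1) := by
        refine (add_le_add (add_le_add le_rfl i1) i2).trans (le_of_eq ?_)
        rw [← ENNReal.ofReal_one, ← ENNReal.ofReal_add (by norm_num) (by linarith),
          ← ENNReal.ofReal_add (by linarith) (by linarith)]
        congr 1; ring
      have j3 : ∫⁻ ω, ENNReal.ofReal ‖Fa s n v ω (Psia s n ω)‖ ^ (2 * q) ∂(LRP d s) ≤
          ENNReal.ofReal (C * δ n ^ (4 * q) * (2 * P n - 1)) := by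
        rw [ENNReal.ofReal_mul (by have := hδ0 n; positivity)]
        exact i3.trans (mul_le_mul_right j2 _)
      calc _ ≤ ENNReal.ofReal ((1 + δ n) ^ (2 * q)) * ENNReal.ofReal (P n - 1) +
            ENNReal.ofReal ((1 / δ n) ^ (2 * q)) *
              ENNReal.ofReal (C * δ n ^ (4 * q) * (2 * P n - 1)) :=
            add_le_add (mul_le_mul_right j1 _) (mul_le_mul_right j3 _)
        _ = ENNReal.ofReal ((1 + δ n) ^ (2 * q) * (P n - 1) +
              (1 / δ n) ^ (2 * q) * (C * δ n ^ (4 * q) * (2 * P n - 1))) := by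
            have := hδ0 n
            rw [← ENNReal.ofReal_mul (by positivity), ← ENNReal.ofReal_mul (by positivity),
              ← ENNReal.ofReal_add]
            · exact mul_nonneg (by positivity) (by linarith)
            · exact mul_nonneg (by positivity) (mul_nonneg (by positivity) (by linarith))
        _ ≤ ENNReal.ofReal (P (n + 1) - 1) := by
            apply ENNReal.ofReal_le_ofReal
            have hδn := hδ0 n
            have hδn1 := hδ1 n
            have hPs : P (n + 1) = P n * (1 + D * δ n) := by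
              simp only [hP]; rw [Finset.prod_range_succ]
            have e1 : (1 / δ n) ^ (2 * q) * (C * δ n ^ (4 * q) * (2 * P n - 1)) =
                C * δ n ^ (2 * q) * (2 * P n - 1) := by
              have : δ n ^ (4 * q) = δ n ^ (2 * q) * δ n ^ (2 * q) := by
                rw [← pow_add]; congr 1; ring
              rw [this, one_div, inv_pow]
              have h0 : δ n ^ (2 * q) ≠ 0 := by positivity
              field_simp
            have e2 : δ n ^ (2 * q) ≤ δ n := by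
              calc δ n ^ (2 * q) ≤ δ n ^ 1 := pow_le_pow_of_le_one hδn.le hδn1 (by omega)
                _ = δ n := pow_one _
            have e3 : (1 + δ n) ^ (2 * q) ≤ 1 + 4 ^ q * δ n := by
              have := pb_pow hδn.le hδn1 (2 * q)
              have h5 : (2:ℝ) ^ (2 * q) = 4 ^ q := by rw [pow_mul]; norm_num
              rw [h5] at this
              nlinarith
            rw [e1, hPs]
            have f1 : (1 + δ n) ^ (2 * q) * (P n - 1) ≤ (1 + 4 ^ q * δ n) * (P n - 1) :=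
              mul_le_mul_of_nonneg_right e3 (by linarith)
            have f2 : C * δ n ^ (2 * q) * (2 * P n - 1) ≤ C * δ n * (2 * P n - 1) :=
              mul_le_mul_of_nonneg_right (mul_le_mul_of_nonneg_left e2 (by linarith)) (by linarith)
            have f3 : 0 ≤ 4 ^ q * δ n := by positivity
            have f4 : 0 ≤ C * δ n := by positivity
            rw [hD]
            nlinarith
  refine ⟨Real.exp (D * ∑' k, δ k), (Real.exp_pos _).le, fun n v => (key n v).trans ?_⟩
  apply ENNReal.ofReal_le_ofReal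
  have h1 : P n ≤ Real.exp (D * ∑' k, δ k) := by
    calc P n ≤ ∏ k ∈ Finset.range n, Real.exp (D * δ k) := by
          apply Finset.prod_le_prod
          · intro k _
            have := mul_nonneg hD0 (hδ0 k).le
            linarith
          · intro k _
            have := Real.add_one_le_exp (D * δ k)
            linarith
      _ = Real.exp (D * ∑ k ∈ Finset.range n, δ k) := by
          rw [← Real.exp_sum, Finset.mul_sum]
      _ ≤ _ := by
          apply Real.exp_le_exp.mpr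
          apply mul_le_mul_of_nonneg_left _ hD0
          exact hsum.sum_le_tsum _ (fun k _ => (hδ0 k).le)
  linarith

end MP072e06
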