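import Pool.Agent.Lib.MP_072e06_pr.Defs

/-!
One step of the Rosenthal inequality.
-/

open MeasureTheory ENNReal
open scoped Classical

namespace MP072e06

private lemma rosenOne_aux (q : ℕ) : ∃ C : ℝ, 0 ≤ C ∧
    ∀ (H : Type) [NormedAddCommGroup H] [InnerProductSpace ℝ H] (s v : H) (a : ℝ), |a| ≤ 1 →
      ‖s + a • v‖ ^ (2 * (q + 1)) ≤ ‖s‖ ^ (2 * (q + 1)) +
        2 * (q + 1) * a * inner ℝ s v * ‖s‖ ^ (2 * q) +
        C * a ^ 2 * (‖v‖ ^ 2 * ‖s‖ ^ (2 * q) + ‖v‖ ^ (2 * (q + 1))) := by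
  induction q with
  | zero =>
    refine ⟨1, zero_le_one, fun H _ _ s v a ha => ?_⟩
    have h1 : ‖s + a • v‖ ^ 2 = ‖s‖ ^ 2 + 2 * (a * inner ℝ s v) + a ^ 2 * ‖v‖ ^ 2 := by
      rw [norm_add_sq_real, inner_smul_right, norm_smul, mul_pow, Real.norm_eq_abs, sq_abs]
    simp only [zero_add, mul_one, mul_zero, pow_zero, CharP.cast_eq_zero]
    rw [h1]
    nlinarith [mul_nonneg (sq_nonneg a) (sq_nonneg ‖v‖)]
  | succ q ih =>
    obtain ⟨C, hC, ih⟩ := ih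
    refine ⟨1 + 6 * (q + 1) + 8 * C, by positivity, fun H _ _ s v a ha => ?_⟩
    have h1 : ‖s + a • v‖ ^ 2 = ‖s‖ ^ 2 + 2 * (a * inner ℝ s v) + a ^ 2 * ‖v‖ ^ 2 := by
      rw [norm_add_sq_real, inner_smul_right, norm_smul, mul_pow, Real.norm_eq_abs, sq_abs]
    have hih := ih H s v a ha
    have hcs : |inner ℝ s v| ≤ ‖s‖ * ‖v‖ := abs_real_inner_le_norm s v
    set S := ‖s‖ with hS
    set W := ‖v‖ with hW
    set I := inner ℝ s v with hI
    have hS0 : 0 ≤ S := norm_nonneg _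
    have hW0 : 0 ≤ W := norm_nonneg _
    have hsq : ‖s + a • v‖ ^ (2 * (q + 1 + 1)) = ‖s + a • v‖ ^ (2 * (q + 1)) * ‖s + a • v‖ ^ 2 := by
      rw [← pow_add]; ring_nf
    have hnn : 0 ≤ ‖s + a • v‖ ^ 2 := by positivity
    have hle := mul_le_mul_of_nonneg_right hih hnn
    rw [← hsq] at hle
    rw [h1] at hle hnn
    -- bounds
    have ha2 : a ^ 2 ≤ 1 := by rw [← sq_abs]; nlinarith [abs_nonneg a]
    have hI2 : I ^ 2 ≤ S ^ 2 * W ^ 2 := by
      rw [← sq_abs I, ← mul_pow]; exact pow_le_pow_left₀ (abs_nonneg _) hcs 2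
    have hx : S ^ 2 + 2 * (a * I) + a ^ 2 * W ^ 2 ≤ (S + W) ^ 2 := by
      have h2 : a * I ≤ S * W := by
        calc a * I ≤ |a * I| := le_abs_self _
          _ = |a| * |I| := abs_mul _ _
          _ ≤ 1 * (S * W) := mul_le_mul ha hcs (abs_nonneg _) zero_le_one
          _ = S * W := one_mul _
      nlinarith [mul_nonneg (sub_nonneg.2 ha2) (sq_nonneg W)]
    have ha3 : a * I * W ^ 2 ≤ S * W ^ 3 := by
      have h2 : a * I ≤ S * W := by
        calc a * I ≤ |a * I| := le_abs_self _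
          _ = |a| * |I| := abs_mul _ _
          _ ≤ 1 * (S * W) := mul_le_mul ha hcs (abs_nonneg _) zero_le_one
          _ = S * W := one_mul _
      nlinarith [mul_nonneg (sub_nonneg.2 h2) (sq_nonneg W)]
    have hP : (0 : ℝ) ≤ S ^ (2 * q) := by positivity
    -- R_{q+1}
    have hkey1 : S * W ^ 3 * S ^ (2 * q) ≤ W ^ 2 * S ^ (2 * (q + 1)) + W ^ (2 * (q + 1 + 1)) := by
      rcases le_total W S with h | h
      · have : S * W ^ 3 * S ^ (2 * q) ≤ W ^ 2 * S ^ (2 * (q + 1)) := by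
          have e1 : S * W ^ 3 * S ^ (2 * q) = (W ^ 2 * S * S ^ (2 * q)) * W := by ring
          have e2 : W ^ 2 * S ^ (2 * (q + 1)) = (W ^ 2 * S * S ^ (2 * q)) * S := by ring
          rw [e1, e2]
          exact mul_le_mul_of_nonneg_left h (by positivity)
        have : (0 : ℝ) ≤ W ^ (2 * (q + 1 + 1)) := by positivity
        linarith
      · have h3 : S * W ^ 3 * S ^ (2 * q) ≤ W ^ (2 * (q + 1 + 1)) := by
          have e1 : S * W ^ 3 * S ^ (2 * q) = W ^ 3 * S ^ (2 * q + 1) := by ring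
          have e2 : W ^ (2 * (q + 1 + 1)) = W ^ 3 * W ^ (2 * q + 1) := by ring
          rw [e1, e2]
          exact mul_le_mul_of_nonneg_left (pow_le_pow_left₀ hS0 h _) (by positivity)
        have : (0 : ℝ) ≤ W ^ 2 * S ^ (2 * (q + 1)) := by positivity
        linarith
    have hkey2 : (W ^ 2 * S ^ (2 * q) + W ^ (2 * (q + 1))) * (S + W) ^ 2 ≤
        8 * (W ^ 2 * S ^ (2 * (q + 1)) + W ^ (2 * (q + 1 + 1))) := by
      rcases le_total W S with h | h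
      · have h1 : W ^ (2 * (q + 1)) ≤ W ^ 2 * S ^ (2 * q) := by
          have e : W ^ (2 * (q + 1)) = W ^ 2 * W ^ (2 * q) := by ring
          rw [e]
          exact mul_le_mul_of_nonneg_left (pow_le_pow_left₀ hW0 h _) (by positivity)
        have h2 : (S + W) ^ 2 ≤ 4 * S ^ 2 := by nlinarith
        calc (W ^ 2 * S ^ (2 * q) + W ^ (2 * (q + 1))) * (S + W) ^ 2
            ≤ (2 * (W ^ 2 * S ^ (2 * q))) * (4 * S ^ 2) :=
              mul_le_mul (by linarith) h2 (by positivity) (by positivity)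
          _ = 8 * (W ^ 2 * S ^ (2 * (q + 1))) := by ring
          _ ≤ _ := by
              have : (0 : ℝ) ≤ W ^ (2 * (q + 1 + 1)) := by positivity
              linarith
      · have h1 : W ^ 2 * S ^ (2 * q) ≤ W ^ (2 * (q + 1)) := by
          have e : W ^ (2 * (q + 1)) = W ^ 2 * W ^ (2 * q) := by ring
          rw [e]
          exact mul_le_mul_of_nonneg_left (pow_le_pow_left₀ hS0 h _) (by positivity)
        have h2 : (S + W) ^ 2 ≤ 4 * W ^ 2 := by nlinarith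
        calc (W ^ 2 * S ^ (2 * q) + W ^ (2 * (q + 1))) * (S + W) ^ 2
            ≤ (2 * (W ^ (2 * (q + 1)))) * (4 * W ^ 2) :=
              mul_le_mul (by linarith) h2 (by positivity) (by positivity)
          _ = 8 * (W ^ (2 * (q + 1 + 1))) := by ring
          _ ≤ _ := by
              have : (0 : ℝ) ≤ W ^ 2 * S ^ (2 * (q + 1)) := by positivity
              linarith
    set R := W ^ 2 * S ^ (2 * (q + 1)) + W ^ (2 * (q + 1 + 1)) with hR
    have hR0 : 0 ≤ R := by positivity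
    have ht1 : a ^ 2 * W ^ 2 * S ^ (2 * (q + 1)) ≤ a ^ 2 * R := by
      have : (0 : ℝ) ≤ W ^ (2 * (q + 1 + 1)) := by positivity
      have h5 : W ^ 2 * S ^ (2 * (q + 1)) ≤ R := by rw [hR]; linarith
      calc a ^ 2 * W ^ 2 * S ^ (2 * (q + 1)) = a ^ 2 * (W ^ 2 * S ^ (2 * (q + 1))) := by ring
        _ ≤ _ := mul_le_mul_of_nonneg_left h5 (sq_nonneg a)
    have ht2 : a ^ 2 * I ^ 2 * S ^ (2 * q) ≤ a ^ 2 * R := by
      have h6 : I ^ 2 * S ^ (2 * q) ≤ R := by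
        calc I ^ 2 * S ^ (2 * q) ≤ (S ^ 2 * W ^ 2) * S ^ (2 * q) :=
              mul_le_mul_of_nonneg_right hI2 hP
          _ = W ^ 2 * S ^ (2 * (q + 1)) := by ring
          _ ≤ R := by
            have : (0 : ℝ) ≤ W ^ (2 * (q + 1 + 1)) := by positivity
            rw [hR]; linarith
      calc a ^ 2 * I ^ 2 * S ^ (2 * q) = a ^ 2 * (I ^ 2 * S ^ (2 * q)) := by ring
        _ ≤ _ := mul_le_mul_of_nonneg_left h6 (sq_nonneg a)
    have ht3 : a ^ 2 * (a * I * W ^ 2) * S ^ (2 * q) ≤ a ^ 2 * R := by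
      calc a ^ 2 * (a * I * W ^ 2) * S ^ (2 * q) = a ^ 2 * ((a * I * W ^ 2) * S ^ (2 * q)) := by ring
        _ ≤ a ^ 2 * ((S * W ^ 3) * S ^ (2 * q)) :=
            mul_le_mul_of_nonneg_left (mul_le_mul_of_nonneg_right ha3 hP) (sq_nonneg a)
        _ ≤ a ^ 2 * R := mul_le_mul_of_nonneg_left hkey1 (sq_nonneg a)
    have ht4 : C * a ^ 2 * (W ^ 2 * S ^ (2 * q) + W ^ (2 * (q + 1))) *
        (S ^ 2 + 2 * (a * I) + a ^ 2 * W ^ 2) ≤ 8 * C * (a ^ 2 * R) := by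
      calc C * a ^ 2 * (W ^ 2 * S ^ (2 * q) + W ^ (2 * (q + 1))) *
            (S ^ 2 + 2 * (a * I) + a ^ 2 * W ^ 2)
          ≤ C * a ^ 2 * (W ^ 2 * S ^ (2 * q) + W ^ (2 * (q + 1))) * (S + W) ^ 2 :=
            mul_le_mul_of_nonneg_left hx (by positivity)
        _ = C * a ^ 2 * ((W ^ 2 * S ^ (2 * q) + W ^ (2 * (q + 1))) * (S + W) ^ 2) := by ring
        _ ≤ C * a ^ 2 * (8 * R) := mul_le_mul_of_nonneg_left hkey2 (by positivity)
        _ = _ := by ring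
    refine hle.trans ?_
    have hexp : (S ^ (2 * (q + 1)) + 2 * (↑q + 1) * a * I * S ^ (2 * q) +
        C * a ^ 2 * (W ^ 2 * S ^ (2 * q) + W ^ (2 * (q + 1)))) *
        (S ^ 2 + 2 * (a * I) + a ^ 2 * W ^ 2) =
        S ^ (2 * (q + 1 + 1)) + 2 * (↑q + 1 + 1) * a * I * S ^ (2 * (q + 1)) +
        a ^ 2 * W ^ 2 * S ^ (2 * (q + 1)) + 4 * (↑q + 1) * (a ^ 2 * I ^ 2 * S ^ (2 * q)) +
        2 * (↑q + 1) * (a ^ 2 * (a * I * W ^ 2) * S ^ (2 * q)) +
        C * a ^ 2 * (W ^ 2 * S ^ (2 * q) + W ^ (2 * (q + 1))) *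
          (S ^ 2 + 2 * (a * I) + a ^ 2 * W ^ 2) := by ring
    rw [hexp]
    have hq0 : (0 : ℝ) ≤ (q : ℝ) + 1 := by positivity
    have h7 := mul_le_mul_of_nonneg_left ht2 (by positivity : (0 : ℝ) ≤ 4 * ((q : ℝ) + 1))
    have h8 := mul_le_mul_of_nonneg_left ht3 (by positivity : (0 : ℝ) ≤ 2 * ((q : ℝ) + 1))
    push_cast
    linarith [h7, h8, ht1, ht4]

theorem rosenthal_one_step (q : ℕ) (hq : 1 ≤ q) : ∃ C : ℝ, 0 ≤ C ∧
    ∀ (H : Type) [NormedAddCommGroup H] [InnerProductSpace ℝ H] (s v : H) (p : ℝ),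
      0 ≤ p → p ≤ 1 →
      p * ‖s + (1 - p) • v‖ ^ (2 * q) + (1 - p) * ‖s - p • v‖ ^ (2 * q) ≤
        ‖s‖ ^ (2 * q) + C * p * (‖v‖ ^ 2 * ‖s‖ ^ (2 * q - 2) + ‖v‖ ^ (2 * q)) := by
  obtain ⟨k, rfl⟩ : ∃ k, q = k + 1 := ⟨q - 1, by omega⟩
  obtain ⟨C, hC, h⟩ := rosenOne_aux k
  refine ⟨C, hC, fun H _ _ s v p hp0 hp1 => ?_⟩
  have h1 := h H s v (1 - p) (by rw [abs_le]; constructor <;> linarith)
  have h2 := h H s v (-p) (by rw [abs_le]; constructor <;> linarith)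
  rw [neg_smul, ← sub_eq_add_neg] at h2
  have e : 2 * (k + 1) - 2 = 2 * k := by omega
  rw [e]
  have h1' := mul_le_mul_of_nonneg_left h1 hp0
  have h2' := mul_le_mul_of_nonneg_left h2 (sub_nonneg.2 hp1)
  set R := ‖v‖ ^ 2 * ‖s‖ ^ (2 * k) + ‖v‖ ^ (2 * (k + 1)) with hR
  have hR0 : 0 ≤ R := by positivity
  have h3 : p * (1 - p) * (C * R) ≤ p * (C * R) := by
    apply mul_le_mul_of_nonneg_right _ (by positivity)
    nlinarith
  calc p * ‖s + (1 - p) • v‖ ^ (2 * (k + 1)) + (1 - p) * ‖s - p • v‖ ^ (2 * (k + 1))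
      ≤ _ := add_le_add h1' h2'
    _ = ‖s‖ ^ (2 * (k + 1)) + p * (1 - p) * (C * R) := by ring
    _ ≤ _ := by nlinarith [h3]

end MP072e06
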