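import Pool.Agent.Lib.MP_072e06_pr.FlowDefs

/-!
Sides of the boxes: `side d n i = 2^((n+d-1-i)/d)`, `rad d n = 2^(n/d)`.
-/

open MeasureTheory ENNReal
open scoped Classical

namespace MP072e06

variable {d : ℕ}

lemma side_pos (n : ℕ) (i : Fin d) : 0 < side d n i := by
  unfold side; positivity

lemma rad_pos (n : ℕ) : 0 < rad d n := by
  unfold rad; positivity

lemma sides_expo (n : ℕ) (i : Fin d) :
    (n + d - 1 - (i : ℕ)) / d = n / d + if (i : ℕ) < n % d then 1 else 0 := by
  have hi := i.2
  have hd : 0 < d := by omega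
  have hr : n % d < d := Nat.mod_lt _ hd
  have hn := Nat.div_add_mod n d
  split_ifs with h
  · have e : n + d - 1 - (i : ℕ) = (n % d - 1 - i) + d * (n / d + 1) := by
      rw [mul_add, mul_one]; omega
    rw [e, Nat.add_mul_div_left _ _ hd, Nat.div_eq_of_lt (by omega)]
    omega
  · have e : n + d - 1 - (i : ℕ) = (n % d + d - 1 - i) + d * (n / d) := by omega
    rw [e, Nat.add_mul_div_left _ _ hd, Nat.div_eq_of_lt (by omega)]
    omega

lemma side_eq (n : ℕ) (i : Fin d) :
    side d n i = 2 ^ (n / d + if (i : ℕ) < n % d then 1 else 0) := by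
  unfold side
  rw [sides_expo]

lemma side_zero (i : Fin d) : side d 0 i = 1 := by
  rw [side_eq]
  simp

lemma dir_val [NeZero d] (n : ℕ) : ((dir d n : Fin d) : ℕ) = n % d := by
  simp [dir]

lemma side_dir [NeZero d] (n : ℕ) : side d n (dir d n) = rad d n := by
  rw [side_eq, dir_val]
  simp [rad]

lemma side_succ [NeZero d] (n : ℕ) (i : Fin d) :
    side d (n + 1) i = if i = dir d n then 2 * side d n i else side d n i := by
  have hi := i.2
  have hd : 0 < d := by omega
  have hr : n % d < d := Nat.mod_lt _ hd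
  have hn := Nat.div_add_mod n d
  have hdir : i = dir d n ↔ (i : ℕ) = n % d := by
    rw [Fin.ext_iff, dir_val]
  rw [side_eq, side_eq, if_congr hdir rfl rfl]
  by_cases h1 : n % d + 1 < d
  · have e1 : (n + 1) % d = n % d + 1 := by
      rw [Nat.add_mod, Nat.mod_eq_of_lt (show 1 < d by omega), Nat.mod_eq_of_lt h1]
    have e2 : (n + 1) / d = n / d := by
      have e : n + 1 = (n % d + 1) + d * (n / d) := by omega
      rw [e, Nat.add_mul_div_left _ _ hd, Nat.div_eq_of_lt h1]
      omega
    rw [e1, e2]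
    by_cases h2 : (i : ℕ) = n % d
    · simp only [h2, if_true, lt_irrefl, if_false]
      rw [if_pos (by omega)]
      ring
    · rw [if_neg h2]
      by_cases h3 : (i : ℕ) < n % d
      · rw [if_pos h3, if_pos (by omega)]
      · rw [if_neg h3, if_neg (by omega)]
  · have h1' : n % d + 1 = d := by omega
    have e : n + 1 = d * (n / d + 1) := by rw [mul_add, mul_one]; omega
    have e1 : (n + 1) % d = 0 := by rw [e]; exact Nat.mul_mod_right _ _
    have e2 : (n + 1) / d = n / d + 1 := by rw [e]; exact Nat.mul_div_cancel_left _ hd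
    rw [e1, e2]
    by_cases h2 : (i : ℕ) = n % d
    · simp only [h2, if_true, lt_irrefl, if_false, Nat.not_lt_zero]
      ring
    · rw [if_neg h2, if_pos (show (i : ℕ) < n % d by omega)]
      simp

lemma rad_le_side (n : ℕ) (i : Fin d) : rad d n ≤ side d n i := by
  rw [side_eq]
  exact Nat.pow_le_pow_right (by norm_num) (by omega)

lemma side_le (n : ℕ) (i : Fin d) : side d n i ≤ 2 * rad d n := by
  rw [side_eq, rad, ← pow_succ']
  exact Nat.pow_le_pow_right (by norm_num) (by split_ifs <;> omega)

lemma side_dvd {m n : ℕ} (h : m ≤ n) (i : Fin d) : side d m i ∣ side d n i := by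
  unfold side
  exact pow_dvd_pow 2 (Nat.div_le_div_right (by omega))

lemma rad_pow_le (n : ℕ) : rad d n ^ d ≤ 2 ^ n := by
  unfold rad
  rw [← pow_mul]
  exact Nat.pow_le_pow_right (by norm_num) (Nat.div_mul_le_self n d)

lemma le_rad_pow [NeZero d] (n : ℕ) : 2 ^ n ≤ 2 ^ d * rad d n ^ d := by
  unfold rad
  rw [← pow_mul, ← pow_add]
  apply Nat.pow_le_pow_right (by norm_num)
  have hn := Nat.div_add_mod n d
  have hr : n % d < d := Nat.mod_lt _ (Nat.pos_of_neZero d)
  rw [mul_comm (n / d) d]
  omega

lemma side_block (m : ℕ) (i : Fin d) : side d (2 * d * m) i = 4 ^ m := by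
  have hd : 0 < d := by have := i.2; omega
  have e : 2 * d * m = d * (2 * m) := by ring
  rw [side_eq, e, Nat.mul_div_cancel_left _ hd, Nat.mul_mod_right]
  simp only [Nat.not_lt_zero, if_false, add_zero]
  rw [pow_mul]; norm_num

end MP072e06
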