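import Pool.Agent.Lib.MP_072e06_pr.TauMoment
import Pool.Agent.Lib.MP_072e06_pr.Degree
import Pool.Agent.Lib.MP_072e06_pr.BoxGeo

/-!
Growth of `E tau^Q`, case A.  Normalize by `G^n`, `G = 2^(β Q/d)`: with `x_n = E tau_n^Q / G^n`,
`x_{n+1} ≤ ρ x_n + f_n`, `ρ = 2 A^(2Q)/G < 1`, `f_n` bounded: `2^(nQ) rad^(-(d-β)Q) ≤ C 2^(nβQ/d)` since `2^n ≤ 2^d rad^d`.
-/

open MeasureTheory ENNReal
open scoped Classical

namespace MP072e06

private lemma ta_exp {d : ℕ} (hd : 0 < d) {β : ℝ} (hβd : β ≤ d) (Q n : ℕ) :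
    (2 : ℝ) ^ ((n + 1) * Q) * (rad d n : ℝ) ^ (-((d - β) * Q)) ≤
      (2 : ℝ) ^ ((Q : ℝ) + (d - β) * Q) * ((2 : ℝ) ^ (β / d * Q)) ^ n := by
  have hd' : (0 : ℝ) < d := by exact_mod_cast hd
  have hr : (rad d n : ℝ) = (2 : ℝ) ^ ((n / d : ℕ) : ℝ) := by
    unfold rad
    push_cast
    rw [← Real.rpow_natCast]
  have h1 : (2 : ℝ) ^ ((n + 1) * Q) = (2 : ℝ) ^ (((n : ℝ) + 1) * Q) := by
    rw [← Real.rpow_natCast]
    push_cast
    rfl
  rw [h1, hr, ← Real.rpow_mul (by norm_num), ← Real.rpow_add (by norm_num),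
    ← Real.rpow_natCast ((2 : ℝ) ^ (β / d * Q)) n, ← Real.rpow_mul (by norm_num),
    ← Real.rpow_add (by norm_num)]
  refine Real.rpow_le_rpow_of_exponent_le (by norm_num) ?_
  have hk : (n : ℝ) / d ≤ ((n / d : ℕ) : ℝ) + 1 := by
    rw [div_le_iff₀ hd']
    have h2 : n < d * (n / d + 1) := Nat.lt_mul_div_succ n hd
    have h3 : (n : ℝ) < d * (((n / d : ℕ) : ℝ) + 1) := by exact_mod_cast h2
    linarith
  have h4 : (n : ℝ) / d * (d - β) ≤ (((n / d : ℕ) : ℝ) + 1) * (d - β) :=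
    mul_le_mul_of_nonneg_right hk (by linarith)
  have h5 : (n : ℝ) / d * (d - β) = n - β / d * n := by
    field_simp
  rw [h5] at h4
  have hQ : (0 : ℝ) ≤ Q := Nat.cast_nonneg Q
  have h6 := mul_le_mul_of_nonneg_right h4 hQ
  nlinarith [h6]

theorem tail_A {d : ℕ} [NeZero d] {s : ℝ} (hs : (d : ℝ) < s) {β : ℝ} (hβ : 0 < β)
    (hβd : β ≤ d)
    (hphi : ∀ q : ℕ, 1 ≤ q → ∃ C : ℝ, 0 ≤ C ∧ ∀ n,
      ∫⁻ ω, phi n (0 : V d) (lrpGraph ω) ^ q ∂(LRP d s) ≤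
        ENNReal.ofReal (C * (rad d n : ℝ) ^ (-((d - β) * q))))
    {Q : ℕ} (hQ : 1 ≤ Q) {A : ℝ} (hA : 1 < A) (hAQ : 2 * A ^ (2 * Q) < (2 : ℝ) ^ (β / d * Q)) :
    ∃ b : ℝ, 0 ≤ b ∧ ∀ n, ∫⁻ ω, tau A n (0 : V d) (lrpGraph ω) ^ Q ∂(LRP d s) ≤
      ENNReal.ofReal (b * (2 : ℝ) ^ (β / d * n * Q)) := by
  have hd : 0 < d := Nat.pos_of_ne_zero (NeZero.ne d)
  obtain ⟨C, hC, hCb⟩ := hphi (2 * Q) (by omega)
  set D : ℝ≥0∞ := (∫⁻ ω, deg (lrpGraph ω) (0 : V d) ^ (2 * Q) ∂(LRP d s)) ^ (1 / 2 : ℝ) with hD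
  have hDtop : D ≠ ∞ := ENNReal.rpow_ne_top_of_nonneg (by norm_num)
    (deg_moment d s hs (2 * Q)).ne
  set g : ℝ := (2 : ℝ) ^ (β / d * Q) with hg
  have hg0 : 0 < g := Real.rpow_pos_of_pos (by norm_num) _
  set P : ℝ := (A / (A - 1)) ^ (2 * Q) with hP
  have hP0 : 0 ≤ P := by
    have : 0 < A - 1 := by linarith
    positivity
  set F : ℝ := P * D.toReal * C ^ (1 / 2 : ℝ) * (2 : ℝ) ^ ((Q : ℝ) + (d - β) * Q) with hF
  have hF0 : 0 ≤ F := by positivity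
  have hfn : ∀ n : ℕ, ENNReal.ofReal ((A / (A - 1)) ^ (2 * Q) * 2 ^ ((n + 1) * Q)) * D *
      (∫⁻ ω, phi n (0 : V d) (lrpGraph ω) ^ (2 * Q) ∂(LRP d s)) ^ (1 / 2 : ℝ) ≤
      ENNReal.ofReal (F * g ^ n) := by
    intro n
    have hr0 : (0 : ℝ) ≤ (rad d n : ℝ) := Nat.cast_nonneg _
    have h1 : (∫⁻ ω, phi n (0 : V d) (lrpGraph ω) ^ (2 * Q) ∂(LRP d s)) ^ (1 / 2 : ℝ) ≤
        ENNReal.ofReal (C ^ (1 / 2 : ℝ) * (rad d n : ℝ) ^ (-((d - β) * Q))) := by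
      refine (ENNReal.rpow_le_rpow (hCb n) (by norm_num)).trans (le_of_eq ?_)
      rw [ENNReal.ofReal_rpow_of_nonneg (by positivity) (by norm_num),
        Real.mul_rpow hC (by positivity), ← Real.rpow_mul hr0]
      congr 3
      push_cast
      ring
    have h2 : D = ENNReal.ofReal D.toReal := (ENNReal.ofReal_toReal hDtop).symm
    calc ENNReal.ofReal ((A / (A - 1)) ^ (2 * Q) * 2 ^ ((n + 1) * Q)) * D *
        (∫⁻ ω, phi n (0 : V d) (lrpGraph ω) ^ (2 * Q) ∂(LRP d s)) ^ (1 / 2 : ℝ)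
        ≤ ENNReal.ofReal (P * 2 ^ ((n + 1) * Q)) * ENNReal.ofReal D.toReal *
          ENNReal.ofReal (C ^ (1 / 2 : ℝ) * (rad d n : ℝ) ^ (-((d - β) * Q))) := by
          rw [← h2]
          exact mul_le_mul_right h1 _
      _ = ENNReal.ofReal (P * 2 ^ ((n + 1) * Q) * D.toReal *
          (C ^ (1 / 2 : ℝ) * (rad d n : ℝ) ^ (-((d - β) * Q)))) := by
          rw [← ENNReal.ofReal_mul (by positivity), ← ENNReal.ofReal_mul (by positivity)]
      _ ≤ ENNReal.ofReal (F * g ^ n) := by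
          refine ENNReal.ofReal_le_ofReal ?_
          have h3 := ta_exp hd hβd Q n
          have h4 : 0 ≤ P * D.toReal * C ^ (1 / 2 : ℝ) := by positivity
          have h5 := mul_le_mul_of_nonneg_left h3 h4
          rw [hF]
          calc P * 2 ^ ((n + 1) * Q) * D.toReal *
              (C ^ (1 / 2 : ℝ) * (rad d n : ℝ) ^ (-((d - β) * Q)))
              = P * D.toReal * C ^ (1 / 2 : ℝ) *
                (2 ^ ((n + 1) * Q) * (rad d n : ℝ) ^ (-((d - β) * Q))) := by ring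
            _ ≤ _ := h5
            _ = _ := by ring
  have hgap : 0 < g - 2 * A ^ (2 * Q) := by linarith
  refine ⟨F / (g - 2 * A ^ (2 * Q)), by positivity, ?_⟩
  set b : ℝ := F / (g - 2 * A ^ (2 * Q)) with hb
  have hb0 : 0 ≤ b := by positivity
  have hbF : 2 * A ^ (2 * Q) * b + F = b * g := by
    rw [hb]
    field_simp
    ring
  have hpow : ∀ n : ℕ, (2 : ℝ) ^ (β / d * n * Q) = g ^ n := by
    intro n
    rw [hg, ← Real.rpow_natCast ((2 : ℝ) ^ (β / d * Q)) n, ← Real.rpow_mul (by norm_num)]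
    congr 1
    ring
  intro n
  rw [hpow]
  induction n with
  | zero =>
    have h0 : ∀ ω : Env d, tau A 0 (0 : V d) (lrpGraph ω) ^ Q = 0 := by
      intro ω
      show (0 : ℝ≥0∞) ^ Q = 0
      rw [zero_pow (by omega)]
    simp only [h0, lintegral_zero]
    exact zero_le
  | succ n ih =>
    refine (tau_moment_step s hA hQ n).trans ?_
    have hA0 : 0 ≤ 2 * A ^ (2 * Q) := by positivity
    calc ENNReal.ofReal (2 * A ^ (2 * Q)) *
          ∫⁻ ω, tau A n (0 : V d) (lrpGraph ω) ^ Q ∂(LRP d s) +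
        ENNReal.ofReal ((A / (A - 1)) ^ (2 * Q) * 2 ^ ((n + 1) * Q)) * D *
          (∫⁻ ω, phi n (0 : V d) (lrpGraph ω) ^ (2 * Q) ∂(LRP d s)) ^ (1 / 2 : ℝ)
        ≤ ENNReal.ofReal (2 * A ^ (2 * Q)) * ENNReal.ofReal (b * g ^ n) +
          ENNReal.ofReal (F * g ^ n) := add_le_add (mul_le_mul_right ih _) (hfn n)
      _ = ENNReal.ofReal (2 * A ^ (2 * Q) * (b * g ^ n) + F * g ^ n) := by
          rw [← ENNReal.ofReal_mul hA0, ← ENNReal.ofReal_add (by positivity) (by positivity)]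
      _ = ENNReal.ofReal (b * g ^ (n + 1)) := by
          congr 1
          rw [pow_succ]
          linear_combination (g ^ n) * hbF

end MP072e06
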