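import Pool.Agent.Lib.MP_072e06_pr.TauMoment
import Pool.Agent.Lib.MP_072e06_pr.Degree
import Pool.Agent.Lib.MP_072e06_pr.BoxGeo

/-!
Growth of `E tau^Q`, case B (`β = 2`): as case A but `f_n → 0`, so `x_n → 0`.
-/

open MeasureTheory ENNReal
open scoped Classical

namespace MP072e06

private lemma tb_contract {x f : ℕ → ℝ≥0∞} {ρ : ℝ≥0∞} (hρ : ρ < 1) (hx : ∀ n, x n ≠ ∞)
    (hf : Filter.Tendsto f Filter.atTop (nhds 0)) (h : ∀ n, x (n + 1) ≤ ρ * x n + f n) :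
    Filter.Tendsto x Filter.atTop (nhds 0) := by
  rw [ENNReal.tendsto_nhds_zero] at hf ⊢
  intro ε hε
  by_cases hεt : ε = ∞
  · exact Filter.Eventually.of_forall fun n => hεt ▸ le_top
  have h1ρ : 0 < 1 - ρ := tsub_pos_of_lt hρ
  have hε2 : 0 < ε / 2 := ENNReal.half_pos hε.ne'
  have hδ : 0 < ε / 2 * (1 - ρ) := ENNReal.mul_pos hε2.ne' h1ρ.ne'
  obtain ⟨N, hN⟩ := Filter.eventually_atTop.1 (hf _ hδ)
  have hm : ∀ m, x (N + m) ≤ ρ ^ m * x N + ε / 2 := by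
    intro m
    induction m with
    | zero =>
      rw [pow_zero, one_mul, add_zero]
      exact le_self_add
    | succ m ih =>
      have h2 := h (N + m)
      rw [← add_assoc]
      refine h2.trans ?_
      calc ρ * x (N + m) + f (N + m) ≤ ρ * (ρ ^ m * x N + ε / 2) + ε / 2 * (1 - ρ) :=
            add_le_add (mul_le_mul_right ih _) (hN _ (by omega))
        _ = ρ ^ (m + 1) * x N + ε / 2 * (ρ + (1 - ρ)) := by
            rw [pow_succ]
            ring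
        _ = ρ ^ (m + 1) * x N + ε / 2 := by
            rw [add_tsub_cancel_of_le hρ.le, mul_one]
  have h3 : Filter.Tendsto (fun m => ρ ^ m * x N) Filter.atTop (nhds 0) := by
    have h4 := ENNReal.Tendsto.mul_const (b := x N)
      (ENNReal.tendsto_pow_atTop_nhds_zero_of_lt_one hρ) (Or.inr (hx N))
    rwa [zero_mul] at h4
  rw [ENNReal.tendsto_nhds_zero] at h3
  obtain ⟨M, hM⟩ := Filter.eventually_atTop.1 (h3 _ hε2)
  refine Filter.eventually_atTop.2 ⟨N + M, fun n hn => ?_⟩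
  have h5 := hm (n - N)
  rw [Nat.add_sub_cancel' (by omega)] at h5
  refine h5.trans ?_
  calc ρ ^ (n - N) * x N + ε / 2 ≤ ε / 2 + ε / 2 := by
        gcongr
        exact hM _ (by omega)
    _ = ε := ENNReal.add_halves ε

private lemma tb_exp {d : ℕ} (hd : 2 ≤ d) (Q n : ℕ) :
    (2 : ℝ) ^ ((n + 1) * Q) ≤
      (2 : ℝ) ^ (((d : ℝ) - 2) * Q) * ((rad d n : ℝ) ^ (((d : ℝ) - 2) * Q) *
        (2 : ℝ) ^ ((2 : ℝ) / d * ((n : ℝ) + 1) * Q)) := by
  have hd0 : 0 < d := by omega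
  have hd' : (0 : ℝ) < d := by exact_mod_cast hd0
  have hd2 : (2 : ℝ) ≤ d := by exact_mod_cast hd
  have hr : (rad d n : ℝ) = (2 : ℝ) ^ ((n / d : ℕ) : ℝ) := by
    unfold rad
    push_cast
    rw [← Real.rpow_natCast]
  have h1 : (2 : ℝ) ^ ((n + 1) * Q) = (2 : ℝ) ^ (((n : ℝ) + 1) * Q) := by
    rw [← Real.rpow_natCast]
    push_cast
    rfl
  rw [h1, hr, ← Real.rpow_mul (by norm_num), ← Real.rpow_add (by norm_num),
    ← Real.rpow_add (by norm_num)]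
  refine Real.rpow_le_rpow_of_exponent_le (by norm_num) ?_
  have hk : ((n : ℝ) + 1) / d ≤ ((n / d : ℕ) : ℝ) + 1 := by
    rw [div_le_iff₀ hd']
    have h2 : n + 1 ≤ d * (n / d + 1) := Nat.lt_mul_div_succ n hd0
    have h3 : ((n : ℝ) + 1) ≤ d * (((n / d : ℕ) : ℝ) + 1) := by exact_mod_cast h2
    linarith
  have h4 : ((n : ℝ) + 1) / d * (d - 2) ≤ (((n / d : ℕ) : ℝ) + 1) * (d - 2) :=
    mul_le_mul_of_nonneg_right hk (by linarith)
  have h5 : ((n : ℝ) + 1) / d * (d - 2) = (n + 1) - 2 / d * (n + 1) := by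
    field_simp
  rw [h5] at h4
  have hQ : (0 : ℝ) ≤ Q := Nat.cast_nonneg Q
  have h6 := mul_le_mul_of_nonneg_right h4 hQ
  nlinarith [h6]

theorem tail_B {d : ℕ} [NeZero d] (hd : 2 ≤ d) {s : ℝ} (hs : (d : ℝ) < s)
    (hphi : ∀ q : ℕ, 1 ≤ q → Filter.Tendsto (fun n =>
      ENNReal.ofReal ((rad d n : ℝ) ^ (((d : ℝ) - 2) * q)) *
        ∫⁻ ω, phi n (0 : V d) (lrpGraph ω) ^ q ∂(LRP d s)) Filter.atTop (nhds 0))
    (hfin : ∀ n, ∀ q : ℕ, ∫⁻ ω, phi n (0 : V d) (lrpGraph ω) ^ q ∂(LRP d s) < ∞)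
    {Q : ℕ} (hQ : 1 ≤ Q) {A : ℝ} (hA : 1 < A)
    (hAQ : 2 * A ^ (2 * Q) < (2 : ℝ) ^ ((2 : ℝ) / d * Q)) :
    Filter.Tendsto (fun n => (∫⁻ ω, tau A n (0 : V d) (lrpGraph ω) ^ Q ∂(LRP d s)) /
      ENNReal.ofReal ((2 : ℝ) ^ ((2 : ℝ) / d * n * Q))) Filter.atTop (nhds 0) := by
  set D : ℝ≥0∞ := (∫⁻ ω, deg (lrpGraph ω) (0 : V d) ^ (2 * Q) ∂(LRP d s)) ^ (1 / 2 : ℝ) with hD
  have hDtop : D ≠ ∞ := ENNReal.rpow_ne_top_of_nonneg (by norm_num)
    (deg_moment d s hs (2 * Q)).ne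
  set g : ℝ := (2 : ℝ) ^ ((2 : ℝ) / d * Q) with hg
  have hg0 : 0 < g := Real.rpow_pos_of_pos (by norm_num) _
  have hpow : ∀ n : ℕ, (2 : ℝ) ^ ((2 : ℝ) / d * n * Q) = g ^ n := by
    intro n
    rw [hg, ← Real.rpow_natCast ((2 : ℝ) ^ ((2 : ℝ) / d * Q)) n, ← Real.rpow_mul (by norm_num)]
    congr 1
    ring
  set P : ℝ := (A / (A - 1)) ^ (2 * Q) with hP
  have hP0 : 0 ≤ P := by
    have : 0 < A - 1 := by linarith
    positivity
  set I : ℕ → ℝ≥0∞ := fun n =>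
    (∫⁻ ω, phi n (0 : V d) (lrpGraph ω) ^ (2 * Q) ∂(LRP d s)) ^ (1 / 2 : ℝ) with hI
  have hItop : ∀ n, I n ≠ ∞ := fun n => ENNReal.rpow_ne_top_of_nonneg (by norm_num)
    (hfin n (2 * Q)).ne
  set X : ℕ → ℝ≥0∞ := fun n => ∫⁻ ω, tau A n (0 : V d) (lrpGraph ω) ^ Q ∂(LRP d s) with hX
  have hstep : ∀ n, X (n + 1) ≤ ENNReal.ofReal (2 * A ^ (2 * Q)) * X n +
      ENNReal.ofReal (P * 2 ^ ((n + 1) * Q)) * D * I n := fun n => tau_moment_step s hA hQ n
  have hX0 : X 0 = 0 := by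
    have h0 : ∀ ω : Env d, tau A 0 (0 : V d) (lrpGraph ω) ^ Q = 0 := by
      intro ω
      show (0 : ℝ≥0∞) ^ Q = 0
      rw [zero_pow (by omega)]
    simp only [hX, h0, lintegral_zero]
  have hXtop : ∀ n, X n ≠ ∞ := by
    intro n
    induction n with
    | zero =>
      rw [hX0]
      exact ENNReal.zero_ne_top
    | succ n ih =>
      refine ne_top_of_le_ne_top ?_ (hstep n)
      exact ENNReal.add_ne_top.2 ⟨ENNReal.mul_ne_top ENNReal.ofReal_ne_top ih,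
        ENNReal.mul_ne_top (ENNReal.mul_ne_top ENNReal.ofReal_ne_top hDtop) (hItop n)⟩
  have hgn : ∀ n : ℕ, ENNReal.ofReal (g ^ n) ≠ 0 := fun n => by
    simpa using pow_pos hg0 n
  have hI2 : Filter.Tendsto (fun n => ENNReal.ofReal ((rad d n : ℝ) ^ (((d : ℝ) - 2) * Q)) * I n)
      Filter.atTop (nhds 0) := by
    have h1 := (hphi (2 * Q) (by omega)).ennrpow_const (1 / 2 : ℝ)
    rw [ENNReal.zero_rpow_of_pos (by norm_num)] at h1
    refine h1.congr fun n => ?_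
    have hr0 : (0 : ℝ) ≤ (rad d n : ℝ) := Nat.cast_nonneg _
    rw [ENNReal.mul_rpow_of_nonneg _ _ (by norm_num),
      ENNReal.ofReal_rpow_of_nonneg (by positivity) (by norm_num), ← Real.rpow_mul hr0]
    congr 3
    push_cast
    ring
  set c : ℝ := P * (2 : ℝ) ^ (((d : ℝ) - 2) * Q) with hc
  have hc0 : 0 ≤ c := by positivity
  refine tb_contract (ρ := ENNReal.ofReal (2 * A ^ (2 * Q) / g))
    (f := fun n => ENNReal.ofReal c * D *
      (ENNReal.ofReal ((rad d n : ℝ) ^ (((d : ℝ) - 2) * Q)) * I n)) ?_ ?_ ?_ ?_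
  · rw [← ENNReal.ofReal_one]
    exact (ENNReal.ofReal_lt_ofReal_iff one_pos).2 ((div_lt_one hg0).2 hAQ)
  · intro n
    rw [hpow]
    exact ENNReal.div_ne_top (hXtop n) (hgn n)
  · have h1 := ENNReal.Tendsto.const_mul (a := ENNReal.ofReal c * D) hI2
      (Or.inr (ENNReal.mul_ne_top ENNReal.ofReal_ne_top hDtop))
    rwa [mul_zero] at h1
  · intro n
    rw [hpow, hpow]
    refine ENNReal.div_le_of_le_mul ?_
    refine (hstep n).trans ?_
    refine le_of_le_of_eq (add_le_add ?_ ?_) (add_mul _ _ _).symm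
    · refine le_of_eq ?_
      have h1 : ENNReal.ofReal (g ^ (n + 1)) = ENNReal.ofReal g * ENNReal.ofReal (g ^ n) := by
        rw [← ENNReal.ofReal_mul hg0.le, pow_succ, mul_comm]
      have h2 : ENNReal.ofReal (2 * A ^ (2 * Q) / g) * ENNReal.ofReal g =
          ENNReal.ofReal (2 * A ^ (2 * Q)) := by
        rw [← ENNReal.ofReal_mul (by positivity)]
        congr 1
        field_simp
      calc ENNReal.ofReal (2 * A ^ (2 * Q)) * X n
          = (ENNReal.ofReal (2 * A ^ (2 * Q) / g) * ENNReal.ofReal g) *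
            (X n / ENNReal.ofReal (g ^ n) * ENNReal.ofReal (g ^ n)) := by
            rw [h2, ENNReal.div_mul_cancel (hgn n) ENNReal.ofReal_ne_top]
        _ = _ := by
            rw [h1]
            ring
    · have h3 : P * 2 ^ ((n + 1) * Q) ≤
          c * (rad d n : ℝ) ^ (((d : ℝ) - 2) * Q) * g ^ (n + 1) := by
        have h4 := mul_le_mul_of_nonneg_left (tb_exp hd Q n) hP0
        rw [← hpow (n + 1), hc]
        refine h4.trans (le_of_eq ?_)
        push_cast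
        ring
      calc ENNReal.ofReal (P * 2 ^ ((n + 1) * Q)) * D * I n
          ≤ ENNReal.ofReal (c * (rad d n : ℝ) ^ (((d : ℝ) - 2) * Q) * g ^ (n + 1)) * D * I n := by
            gcongr
        _ = _ := by
            rw [ENNReal.ofReal_mul (by positivity), ENNReal.ofReal_mul hc0]
            ring

end MP072e06
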