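import Pool.Agent.Lib.MP_072e06_pr.Shift
import Pool.Agent.Lib.MP_072e06_pr.ShiftMeasure
import Pool.Agent.Lib.MP_072e06_pr.Meas

/-!
Moment recursion for `tau`: `(x+y)^Q ≤ A^Q x^Q + (A/(A-1))^Q y^Q`, `max(x,y)^Q ≤ x^Q + y^Q`,
Cauchy-Schwarz, `E (degS Box)^(2Q) ≤ |Box|^(2Q) E deg^(2Q)`.
-/

open MeasureTheory ENNReal
open scoped Classical

namespace MP072e06

private lemma tauM_add {A : ℝ} (hA : 1 < A) (Q : ℕ) (x y : ℝ≥0∞) :
    (x + y) ^ Q ≤ ENNReal.ofReal A ^ Q * x ^ Q + ENNReal.ofReal (A / (A - 1)) ^ Q * y ^ Q := by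
  have h0 : 0 < A - 1 := by linarith
  rcases le_total y (ENNReal.ofReal (A - 1) * x) with h | h
  · have h1 : x + y ≤ ENNReal.ofReal A * x := by
      calc x + y ≤ x + ENNReal.ofReal (A - 1) * x := by gcongr
        _ = (ENNReal.ofReal 1 + ENNReal.ofReal (A - 1)) * x := by rw [ENNReal.ofReal_one]; ring
        _ = ENNReal.ofReal A * x := by
            rw [← ENNReal.ofReal_add (by norm_num) h0.le]
            congr 2; ring
    calc (x + y) ^ Q ≤ (ENNReal.ofReal A * x) ^ Q := by gcongr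
      _ = ENNReal.ofReal A ^ Q * x ^ Q := mul_pow _ _ _
      _ ≤ _ := le_self_add
  · have h2 : x ≤ ENNReal.ofReal (1 / (A - 1)) * y := by
      calc x = ENNReal.ofReal (1 / (A - 1)) * (ENNReal.ofReal (A - 1) * x) := by
            rw [← mul_assoc, ← ENNReal.ofReal_mul (by positivity)]
            have : 1 / (A - 1) * (A - 1) = 1 := by field_simp
            rw [this]; simp
        _ ≤ _ := by gcongr
    have h1 : x + y ≤ ENNReal.ofReal (A / (A - 1)) * y := by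
      calc x + y ≤ ENNReal.ofReal (1 / (A - 1)) * y + y := by gcongr
        _ = (ENNReal.ofReal (1 / (A - 1)) + ENNReal.ofReal 1) * y := by
            rw [ENNReal.ofReal_one]; ring
        _ = _ := by
            rw [← ENNReal.ofReal_add (by positivity) (by norm_num)]
            congr 2; field_simp; ring
    calc (x + y) ^ Q ≤ (ENNReal.ofReal (A / (A - 1)) * y) ^ Q := by gcongr
      _ = ENNReal.ofReal (A / (A - 1)) ^ Q * y ^ Q := mul_pow _ _ _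
      _ ≤ _ := le_add_self

private lemma tauM_sum {κ : Type*} (S : Finset κ) (f : κ → ℝ≥0∞) (m : ℕ) (hm : 1 ≤ m) :
    (∑ x ∈ S, f x) ^ m * (S.card : ℝ≥0∞) ≤ (S.card : ℝ≥0∞) ^ m * ∑ x ∈ S, f x ^ m := by
  rcases S.eq_empty_or_nonempty with rfl | hS
  · simp
  have hc0 : (S.card : ℝ≥0∞) ≠ 0 := by rw [Nat.cast_ne_zero]; exact hS.card_pos.ne'
  have hct : (S.card : ℝ≥0∞) ≠ ∞ := ENNReal.natCast_ne_top _
  have h := ENNReal.rpow_arith_mean_le_arith_mean_rpow S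
    (fun _ => (S.card : ℝ≥0∞)⁻¹) f
    (by rw [Finset.sum_const, nsmul_eq_mul, ENNReal.mul_inv_cancel hc0 hct])
    (p := (m : ℝ)) (by exact_mod_cast hm)
  simp only [ENNReal.rpow_natCast] at h
  rw [← Finset.mul_sum, ← Finset.mul_sum, mul_pow] at h
  have h2 := mul_le_mul_right h ((S.card : ℝ≥0∞) ^ m * (S.card : ℝ≥0∞))
  have e1 : (S.card : ℝ≥0∞) ^ m * (S.card : ℝ≥0∞) *
      ((S.card : ℝ≥0∞)⁻¹ ^ m * (∑ x ∈ S, f x) ^ m) = (∑ x ∈ S, f x) ^ m * (S.card : ℝ≥0∞) := by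
    have : (S.card : ℝ≥0∞) ^ m * (S.card : ℝ≥0∞)⁻¹ ^ m = 1 := by
      rw [← mul_pow, ENNReal.mul_inv_cancel hc0 hct, one_pow]
    calc _ = ((S.card : ℝ≥0∞) ^ m * (S.card : ℝ≥0∞)⁻¹ ^ m) *
          ((∑ x ∈ S, f x) ^ m * (S.card : ℝ≥0∞)) := by ring
      _ = _ := by rw [this, one_mul]
  have e2 : (S.card : ℝ≥0∞) ^ m * (S.card : ℝ≥0∞) *
      ((S.card : ℝ≥0∞)⁻¹ * ∑ x ∈ S, f x ^ m) = (S.card : ℝ≥0∞) ^ m * ∑ x ∈ S, f x ^ m := by
    calc _ = ((S.card : ℝ≥0∞) * (S.card : ℝ≥0∞)⁻¹) *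
          ((S.card : ℝ≥0∞) ^ m * ∑ x ∈ S, f x ^ m) := by ring
      _ = _ := by rw [ENNReal.mul_inv_cancel hc0 hct, one_mul]
  rwa [e1, e2] at h2

private lemma tauM_deg {d : ℕ} (s : ℝ) (x : V d) (m : ℕ) :
    ∫⁻ ω, deg (lrpGraph ω) x ^ m ∂(LRP d s) =
      ∫⁻ ω, deg (lrpGraph ω) (0 : V d) ^ m ∂(LRP d s) := by
  rw [← lintegral_shiftEnv s x (fun ω => deg (lrpGraph ω) (0 : V d) ^ m)]
  congr 1
  funext ω
  rw [lrpGraph_shiftEnv, deg_shiftG, zero_add]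

private lemma tauM_degS {d : ℕ} [NeZero d] (s : ℝ) (n : ℕ) (v : V d) (m : ℕ) (hm : 1 ≤ m) :
    ∫⁻ ω, degS (lrpGraph ω) (Box n v) ^ m ∂(LRP d s) ≤
      (2 ^ n) ^ m * ∫⁻ ω, deg (lrpGraph ω) (0 : V d) ^ m ∂(LRP d s) := by
  have hd : 0 < d := Nat.pos_of_ne_zero (NeZero.ne d)
  have hcard : (Box n v).card = 2 ^ n := card_Box n v hd
  have hc0 : ((2 : ℝ≥0∞) ^ n) ≠ 0 := by positivity
  have hct : ((2 : ℝ≥0∞) ^ n) ≠ ∞ := ENNReal.pow_ne_top (by norm_num)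
  have h1 : ∀ ω : Env d, degS (lrpGraph ω) (Box n v) ^ m * (2 : ℝ≥0∞) ^ n ≤
      ((2 : ℝ≥0∞) ^ n) ^ m * ∑ x ∈ Box n v, deg (lrpGraph ω) x ^ m := by
    intro ω
    have := tauM_sum (Box n v) (fun x => deg (lrpGraph ω) x) m hm
    rw [hcard] at this
    push_cast at this
    exact this
  have h2 : (∫⁻ ω, degS (lrpGraph ω) (Box n v) ^ m ∂(LRP d s)) * (2 : ℝ≥0∞) ^ n ≤
      (((2 : ℝ≥0∞) ^ n) ^ m * ∫⁻ ω, deg (lrpGraph ω) (0 : V d) ^ m ∂(LRP d s)) *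
        (2 : ℝ≥0∞) ^ n := by
    rw [← lintegral_mul_const' _ _ hct]
    refine (lintegral_mono h1).trans ?_
    rw [lintegral_const_mul' _ _ (ENNReal.pow_ne_top hct),
      lintegral_finsetSum _ fun x _ => (measurable_deg x).pow_const _]
    rw [Finset.sum_congr rfl fun x _ => tauM_deg s x m, Finset.sum_const, hcard, nsmul_eq_mul]
    push_cast
    rw [mul_comm ((2 : ℝ≥0∞) ^ n) (∫⁻ ω, deg (lrpGraph ω) (0 : V d) ^ m ∂(LRP d s)), mul_assoc]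
  exact (ENNReal.mul_le_mul_iff_left hc0 hct).1 h2

theorem tau_moment_step {d : ℕ} [NeZero d] (s : ℝ) {A : ℝ} (hA : 1 < A) {Q : ℕ} (hQ : 1 ≤ Q)
    (n : ℕ) :
    ∫⁻ ω, tau A (n + 1) (0 : V d) (lrpGraph ω) ^ Q ∂(LRP d s) ≤
      ENNReal.ofReal (2 * A ^ (2 * Q)) *
        ∫⁻ ω, tau A n (0 : V d) (lrpGraph ω) ^ Q ∂(LRP d s) +
      ENNReal.ofReal ((A / (A - 1)) ^ (2 * Q) * 2 ^ ((n + 1) * Q)) *
        (∫⁻ ω, deg (lrpGraph ω) (0 : V d) ^ (2 * Q) ∂(LRP d s)) ^ (1 / 2 : ℝ) *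
        (∫⁻ ω, phi n (0 : V d) (lrpGraph ω) ^ (2 * Q) ∂(LRP d s)) ^ (1 / 2 : ℝ) := by
  have hA0 : 0 ≤ A := by linarith
  have hA1 : 0 < A - 1 := by linarith
  have hAA : 0 ≤ A / (A - 1) := by positivity
  set a := ENNReal.ofReal A with ha
  set b := ENNReal.ofReal (A / (A - 1)) with hb
  have hat : a ≠ ∞ := ENNReal.ofReal_ne_top
  have hbt : b ≠ ∞ := ENNReal.ofReal_ne_top
  have hmdS : Measurable fun ω : Env d => degS (lrpGraph ω) (Box (n + 1) (0 : V d)) := by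
    unfold degS
    exact Finset.measurable_sum _ fun x _ => measurable_deg x
  -- pointwise
  have hpt : ∀ ω : Env d, tau A (n + 1) (0 : V d) (lrpGraph ω) ^ Q ≤
      a ^ (2 * Q) * (tau A n (0 : V d) (lrpGraph ω) ^ Q +
        tau A n (nxt n (0 : V d)) (lrpGraph ω) ^ Q) +
      b ^ (2 * Q) * (degS (lrpGraph ω) (Box (n + 1) (0 : V d)) ^ Q *
        phi n (0 : V d) (lrpGraph ω) ^ Q) := by
    intro ω
    simp only [tau]
    refine (tauM_add hA Q _ _).trans ?_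
    rw [← ha, ← hb]
    have h1 : (max (tau A n (0 : V d) (lrpGraph ω)) (tau A n (nxt n (0 : V d)) (lrpGraph ω))) ^ Q
        ≤ tau A n (0 : V d) (lrpGraph ω) ^ Q + tau A n (nxt n (0 : V d)) (lrpGraph ω) ^ Q := by
      rcases le_total (tau A n (0 : V d) (lrpGraph ω))
        (tau A n (nxt n (0 : V d)) (lrpGraph ω)) with h | h
      · rw [max_eq_right h]; exact le_add_self
      · rw [max_eq_left h]; exact le_self_add
    calc a ^ Q * (a * max (tau A n (0 : V d) (lrpGraph ω))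
            (tau A n (nxt n (0 : V d)) (lrpGraph ω))) ^ Q +
          b ^ Q * (b * degS (lrpGraph ω) (Box (n + 1) (0 : V d)) *
            phi n (0 : V d) (lrpGraph ω)) ^ Q
        = a ^ (2 * Q) * (max (tau A n (0 : V d) (lrpGraph ω))
            (tau A n (nxt n (0 : V d)) (lrpGraph ω))) ^ Q +
          b ^ (2 * Q) * (degS (lrpGraph ω) (Box (n + 1) (0 : V d)) ^ Q *
            phi n (0 : V d) (lrpGraph ω) ^ Q) := by
          rw [mul_pow, mul_pow, mul_pow]; ring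
      _ ≤ _ := by gcongr
  have hm1 : Measurable fun ω : Env d => tau A n (0 : V d) (lrpGraph ω) ^ Q :=
    (measurable_tau A n 0).pow_const _
  have hm2 : Measurable fun ω : Env d => tau A n (nxt n (0 : V d)) (lrpGraph ω) ^ Q :=
    (measurable_tau A n _).pow_const _
  have hm3 : Measurable fun ω : Env d => a ^ (2 * Q) * (tau A n (0 : V d) (lrpGraph ω) ^ Q +
        tau A n (nxt n (0 : V d)) (lrpGraph ω) ^ Q) := (hm1.add hm2).const_mul _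
  refine (lintegral_mono hpt).trans ?_
  rw [lintegral_add_left hm3, lintegral_const_mul' _ _ (ENNReal.pow_ne_top hat),
    lintegral_add_left hm1, lintegral_const_mul' _ _ (ENNReal.pow_ne_top hbt)]
  have hshift : ∫⁻ ω, tau A n (nxt n (0 : V d)) (lrpGraph ω) ^ Q ∂(LRP d s) =
      ∫⁻ ω, tau A n (0 : V d) (lrpGraph ω) ^ Q ∂(LRP d s) := by
    rw [← lintegral_shiftEnv s (nxt n (0 : V d)) (fun ω => tau A n (0 : V d) (lrpGraph ω) ^ Q)]
    congr 1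
    funext ω
    rw [lrpGraph_shiftEnv, tau_shiftG, zero_add]
  rw [hshift]
  -- Cauchy-Schwarz
  have hCS := ENNReal.lintegral_mul_le_Lp_mul_Lq (LRP d s) (p := 2) (q := 2)
    (by rw [Real.holderConjugate_iff]; norm_num)
    (f := fun ω : Env d => degS (lrpGraph ω) (Box (n + 1) (0 : V d)) ^ Q)
    (g := fun ω : Env d => phi n (0 : V d) (lrpGraph ω) ^ Q)
    (hmdS.pow_const _).aemeasurable ((measurable_phi n 0).pow_const _).aemeasurable
  simp only [Pi.mul_apply] at hCS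
  have e1 : ∀ x : ℝ≥0∞, (x ^ Q) ^ (2 : ℝ) = x ^ (2 * Q) := by
    intro x
    rw [show (2 : ℝ) = ((2 : ℕ) : ℝ) by norm_num, ENNReal.rpow_natCast, ← pow_mul, mul_comm]
  simp only [e1] at hCS
  have hdS := tauM_degS s (n + 1) (0 : V d) (2 * Q) (by omega)
  have hdS' : (∫⁻ ω, degS (lrpGraph ω) (Box (n + 1) (0 : V d)) ^ (2 * Q) ∂(LRP d s)) ^
      (1 / 2 : ℝ) ≤ 2 ^ ((n + 1) * Q) *
        (∫⁻ ω, deg (lrpGraph ω) (0 : V d) ^ (2 * Q) ∂(LRP d s)) ^ (1 / 2 : ℝ) := by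
    refine (ENNReal.rpow_le_rpow hdS (by norm_num)).trans ?_
    rw [ENNReal.mul_rpow_of_nonneg _ _ (by norm_num)]
    gcongr
    apply le_of_eq
    rw [← pow_mul, ← ENNReal.rpow_natCast, ← ENNReal.rpow_mul, ← ENNReal.rpow_natCast]
    congr 1
    push_cast
    ring
  have e2 : ENNReal.ofReal (2 * A ^ (2 * Q)) = 2 * a ^ (2 * Q) := by
    rw [ENNReal.ofReal_mul (by norm_num), ENNReal.ofReal_pow hA0, ENNReal.ofReal_ofNat]
  have e3 : ENNReal.ofReal ((A / (A - 1)) ^ (2 * Q) * 2 ^ ((n + 1) * Q)) =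
      b ^ (2 * Q) * 2 ^ ((n + 1) * Q) := by
    rw [ENNReal.ofReal_mul (by positivity), ENNReal.ofReal_pow hAA,
      ENNReal.ofReal_pow (by norm_num), ENNReal.ofReal_ofNat]
  rw [e2, e3]
  calc a ^ (2 * Q) * (∫⁻ ω, tau A n (0 : V d) (lrpGraph ω) ^ Q ∂(LRP d s) +
          ∫⁻ ω, tau A n (0 : V d) (lrpGraph ω) ^ Q ∂(LRP d s)) +
        b ^ (2 * Q) * ∫⁻ ω, degS (lrpGraph ω) (Box (n + 1) (0 : V d)) ^ Q *
          phi n (0 : V d) (lrpGraph ω) ^ Q ∂(LRP d s)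
      ≤ a ^ (2 * Q) * (∫⁻ ω, tau A n (0 : V d) (lrpGraph ω) ^ Q ∂(LRP d s) +
          ∫⁻ ω, tau A n (0 : V d) (lrpGraph ω) ^ Q ∂(LRP d s)) +
        b ^ (2 * Q) * ((2 ^ ((n + 1) * Q) *
          (∫⁻ ω, deg (lrpGraph ω) (0 : V d) ^ (2 * Q) ∂(LRP d s)) ^ (1 / 2 : ℝ)) *
          (∫⁻ ω, phi n (0 : V d) (lrpGraph ω) ^ (2 * Q) ∂(LRP d s)) ^ (1 / 2 : ℝ)) := by
        gcongr
        exact hCS.trans (by gcongr)
    _ = _ := by ring

end MP072e06
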