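import Pool.Agent.Lib.MP_072e06_pr.BaseGeo

/-!
Geometry of the hops of length `2·4^m` (blocks of side `4^m` = boxes of level `2dm`).
-/

open MeasureTheory ENNReal
open scoped Classical

namespace MP072e06

variable {d : ℕ}

lemma up_ediv_eq_iff {y b q : ℤ} (hb : 0 < b) :
    (q * b ≤ y ∧ y < q * b + b) ↔ y / b = q := by
  constructor
  · rintro ⟨h1, h2⟩
    apply le_antisymm
    · have : y / b < q + 1 := (Int.ediv_lt_iff_lt_mul hb).2 (by linarith)
      omega
    · exact (Int.le_ediv_iff_mul_le hb).2 h1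
  · rintro rfl
    have h1 := Int.ediv_mul_le y hb.ne'
    have h2 := Int.lt_ediv_add_one_mul_self y hb
    constructor
    · exact h1
    · linarith

lemma up_mv_apply (a : Fin d) (l : ℤ) (x : V d) (i : Fin d) :
    mv a l x i = x i + if i = a then l else 0 := by
  unfold mv
  by_cases h : i = a
  · subst h; simp
  · simp [h]

/-- Membership in a moved block. -/
lemma mem_block_iff {m : ℕ} (a : Fin d) (c : ℤ) (x y : V d) :
    y ∈ Box (2 * d * m) (mv a (c * 4 ^ m) (base (2 * d * m) x)) ↔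
      ∀ i, y i / 4 ^ m = x i / 4 ^ m + if i = a then c else 0 := by
  have hb : (0 : ℤ) < 4 ^ m := by positivity
  rw [mem_Box]
  apply forall_congr'
  intro i
  rw [up_mv_apply, base, side_block]
  have e : x i / ((4 ^ m : ℕ) : ℤ) * ((4 ^ m : ℕ) : ℤ) + (if i = a then c * 4 ^ m else 0) =
      (x i / 4 ^ m + if i = a then c else 0) * 4 ^ m := by
    push_cast
    split_ifs <;> ring
  rw [e]
  push_cast
  exact up_ediv_eq_iff hb

/-- Membership in a block. -/
lemma mem_block_iff' {m : ℕ} (x y : V d) :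
    y ∈ Box (2 * d * m) (base (2 * d * m) x) ↔ ∀ i, y i / 4 ^ m = x i / 4 ^ m := by
  have hb : (0 : ℤ) < 4 ^ m := by positivity
  rw [mem_Box]
  apply forall_congr'
  intro i
  rw [base, side_block]
  push_cast
  exact up_ediv_eq_iff hb

variable [NeZero d]

/-- `mult` as the cardinality of a set of natural numbers. -/
lemma mult_eq (n m : ℕ) (x : V d) : mult n m x =
    ((Finset.range (rad d n / (2 * 4 ^ m))).filter
      fun l : ℕ => mv (dir d n) (-(2 * 4 ^ m * (l : ℤ))) x ∈ Box n (0 : V d)).card := by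
  unfold mult
  symm
  apply Finset.card_bij (fun (a : ℕ) _ => (a : ℤ))
  · intro a ha
    simp only [Finset.mem_filter, Finset.bind_def, Finset.mem_sup, Finset.pure_def,
      Finset.mem_singleton] at ha ⊢
    exact ⟨⟨a, ha.1, rfl⟩, ha.2⟩
  · intro a _ b _ h
    exact_mod_cast h
  · intro b hb
    simp only [Finset.mem_filter, Finset.bind_def, Finset.mem_sup, Finset.pure_def,
      Finset.mem_singleton] at hb
    obtain ⟨⟨a, ha, rfl⟩, h2⟩ := hb
    exact ⟨a, by simp only [Finset.mem_filter]; exact ⟨ha, h2⟩, rfl⟩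

lemma used_iff' {n m : ℕ} (x y : V d) : used n m x y ↔ Odd (par x - par y) ∧
    ∀ i, y i / 4 ^ m = x i / 4 ^ m + if i = dir d n then 2 else 0 := by
  unfold used
  rw [mem_block_iff]

lemma used_iff'' {n m : ℕ} (x y : V d) : used n m x y ↔ Odd (par x - par y) ∧
    x ∈ Box (2 * d * m) (mv (dir d n) (-2 * 4 ^ m) (base (2 * d * m) y)) := by
  rw [used_iff', mem_block_iff]
  apply and_congr_right
  intro _
  apply forall_congr'
  intro i
  constructor
  · intro h; rw [h]; split_ifs <;> ring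
  · intro h; rw [h]; split_ifs <;> ring

/-- The block condition: `x` moved back by `2·4^m·l` is in the box `Box n 0`. -/
def upP (n m l : ℕ) (x : V d) : Prop :=
  ∀ i, 0 ≤ x i / 4 ^ m - (if i = dir d n then 2 * (l : ℤ) else 0) ∧
    x i / 4 ^ m - (if i = dir d n then 2 * (l : ℤ) else 0) < (side d n i : ℤ) / 4 ^ m

lemma upP_iff {n m : ℕ} (hm : 2 * m + 1 ≤ n / d) (l : ℕ) (x : V d) :
    mv (dir d n) (-(2 * 4 ^ m * (l : ℤ))) x ∈ Box n (0 : V d) ↔ upP n m l x := by
  have hb : (0 : ℤ) < 4 ^ m := by positivity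
  rw [mem_Box]
  unfold upP
  apply forall_congr'
  intro i
  rw [up_mv_apply]
  have hdvd : (4 ^ m : ℤ) ∣ (side d n i : ℤ) := by
    rw [side_eq]
    push_cast
    rw [show (4 : ℤ) = 2 ^ 2 by norm_num, ← pow_mul]
    exact pow_dvd_pow 2 (by omega)
  obtain ⟨s, hs⟩ := hdvd
  set a : ℤ := x i + if i = dir d n then -(2 * 4 ^ m * (l : ℤ)) else 0 with ha
  have hab : a / 4 ^ m = x i / 4 ^ m - (if i = dir d n then 2 * (l : ℤ) else 0) := by
    rw [ha]
    split_ifs
    · rw [show x i + -(2 * 4 ^ m * (l : ℤ)) = x i + (-(2 * (l : ℤ))) * 4 ^ m by ring,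
        Int.add_mul_ediv_right _ _ hb.ne']
      ring
    · simp
  rw [← hab, hs, Int.mul_ediv_cancel_left _ hb.ne']
  simp only [Pi.zero_apply, zero_add]
  constructor
  · rintro ⟨h1, h2⟩
    exact ⟨Int.ediv_nonneg h1 hb.le, (Int.ediv_lt_iff_lt_mul hb).2 (by linarith)⟩
  · rintro ⟨h1, h2⟩
    constructor
    · have := (Int.le_ediv_iff_mul_le hb).1 h1
      linarith
    · have := (Int.ediv_lt_iff_lt_mul hb).1 h2
      linarith

lemma upP_shift {n m l : ℕ} {x y : V d}
    (h : ∀ i, y i / 4 ^ m = x i / 4 ^ m + if i = dir d n then 2 else 0) :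
    upP n m l x ↔ upP n m (l + 1) y := by
  unfold upP
  apply forall_congr'
  intro i
  have : y i / 4 ^ m - (if i = dir d n then 2 * ((l + 1 : ℕ) : ℤ) else 0) =
      x i / 4 ^ m - (if i = dir d n then 2 * (l : ℤ) else 0) := by
    rw [h]
    push_cast
    split_ifs <;> ring
  rw [this]

lemma upP_block {n m l : ℕ} {x y : V d}
    (h : ∀ i, y i / 4 ^ m = x i / 4 ^ m) : upP n m l x ↔ upP n m l y := by
  unfold upP
  apply forall_congr'
  intro i
  rw [h]

omit [NeZero d] in
lemma up_rad {n m : ℕ} (hm : 2 * m + 1 ≤ n / d) :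
    rad d n = 2 * 4 ^ m * (rad d n / (2 * 4 ^ m)) := by
  have : 2 * 4 ^ m ∣ rad d n := by
    unfold rad
    rw [show (4 : ℕ) = 2 ^ 2 by norm_num, ← pow_mul, ← pow_succ']
    exact pow_dvd_pow 2 hm
  exact (Nat.mul_div_cancel' this).symm

lemma upP_mem {n m l k : ℕ} (hm : 2 * m + 1 ≤ n / d)
    (hl : 2 * 4 ^ m * l + k ≤ rad d n)
    {x : V d} (h : upP n m l x) : mv (dir d n) k x ∈ Box (n + 1) (0 : V d) := by
  rw [← upP_iff hm, mem_Box] at h
  rw [mem_Box]
  intro i
  have hi := h i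
  rw [up_mv_apply] at hi ⊢
  rw [side_succ]
  have h1' : (2 * 4 ^ m * (l : ℤ)) + k ≤ rad d n := by exact_mod_cast hl
  have h2 : (0 : ℤ) ≤ 2 * 4 ^ m * (l : ℤ) := by positivity
  by_cases hid : i = dir d n
  · subst hid
    rw [if_pos rfl] at hi ⊢
    have hs : (side d n (dir d n) : ℤ) = rad d n := by exact_mod_cast side_dir n
    rw [if_pos rfl]
    push_cast
    rw [hs] at hi ⊢
    simp only [Pi.zero_apply, zero_add] at hi ⊢
    constructor <;> linarith [hi.1, hi.2]
  · rw [if_neg hid] at hi ⊢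
    rw [if_neg hid]
    simpa using hi

lemma mult_ne_zero {n m : ℕ} (hm : 2 * m + 1 ≤ n / d) {x : V d} (h : mult n m x ≠ 0) :
    ∃ l, l < rad d n / (2 * 4 ^ m) ∧ upP n m l x := by
  rw [mult_eq, ← Nat.pos_iff_ne_zero, Finset.card_pos] at h
  obtain ⟨l, hl⟩ := h
  rw [Finset.mem_filter, Finset.mem_range, upP_iff hm] at hl
  exact ⟨l, hl.1, hl.2⟩

/-- The coordinate in direction `dir d n` increases by between `4^m + 1` and `3·4^m - 1`. -/
theorem used_lt {n m : ℕ} {x y : V d} (h : used n m x y) :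
    (4 : ℤ) ^ m < y (dir d n) - x (dir d n) ∧ y (dir d n) - x (dir d n) < 3 * 4 ^ m := by
  have hb : (0 : ℤ) < 4 ^ m := by positivity
  have h1 := ((used_iff' x y).1 h).2 (dir d n)
  rw [if_pos rfl] at h1
  have h2 := (up_ediv_eq_iff hb).2 h1
  have h3 := (up_ediv_eq_iff (y := x (dir d n)) (q := x (dir d n) / 4 ^ m) hb).2 rfl
  constructor <;> nlinarith [h2.1, h2.2, h3.1, h3.2]

/-- The other coordinates change by at most `4^m`. -/
theorem used_abs_le {n m : ℕ} {x y : V d} (h : used n m x y) (i : Fin d) :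
    |x i - y i| ≤ 3 * 4 ^ m := by
  have hb : (0 : ℤ) < 4 ^ m := by positivity
  have h1 := ((used_iff' x y).1 h).2 i
  have h2 := (up_ediv_eq_iff hb).2 h1
  have h3 := (up_ediv_eq_iff (y := x i) (q := x i / 4 ^ m) hb).2 rfl
  rw [abs_le]
  split_ifs at h2 <;> constructor <;> nlinarith [h2.1, h2.2, h3.1, h3.2]

/-- A pair is used at most at one scale. -/
theorem used_unique {n m m' : ℕ} {x y : V d} (h : used n m x y) (h' : used n m' x y) : m = m' := by
  have h1 := used_lt h
  have h2 := used_lt h'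
  have key : ∀ a b : ℕ, a < b → (3 : ℤ) * 4 ^ a < 4 ^ b := by
    intro a b hab
    have : (4 : ℤ) ^ (a + 1) ≤ 4 ^ b := pow_le_pow_right₀ (by norm_num) hab
    have h0 : (0 : ℤ) < 4 ^ a := by positivity
    rw [pow_succ] at this
    linarith
  rcases lt_trichotomy m m' with hlt | heq | hgt
  · have := key _ _ hlt
    omega
  · exact heq
  · have := key _ _ hgt
    omega

theorem mult_le {n m : ℕ} (x : V d) : mult n m x ≤ rad d n / (2 * 4 ^ m) := by
  rw [mult_eq]
  exact (Finset.card_filter_le _ _).trans (by rw [Finset.card_range])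

/-- If the pair carries flow then both blocks and all straight paths between them are in the
parent box. -/
theorem used_mem {n m : ℕ} (hm : 2 * m + 1 ≤ n / d) {x y : V d} (h : used n m x y)
    (hx : mult n m x ≠ 0) {x' : V d} (hx' : x' ∈ Box (2 * d * m) (base (2 * d * m) x)) (k : ℕ)
    (hk : k ≤ 2 * 4 ^ m) : mv (dir d n) k x' ∈ Box (n + 1) (0 : V d) := by
  obtain ⟨l, hl, hP⟩ := mult_ne_zero hm hx
  rw [mem_block_iff'] at hx'
  refine upP_mem hm ?_ ((upP_block hx').1 hP)
  have hN := up_rad hm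
  calc 2 * 4 ^ m * l + k ≤ 2 * 4 ^ m * l + 2 * 4 ^ m := by omega
    _ = 2 * 4 ^ m * (l + 1) := by ring
    _ ≤ 2 * 4 ^ m * (rad d n / (2 * 4 ^ m)) := Nat.mul_le_mul_left _ hl
    _ = rad d n := hN.symm

end MP072e06
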