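import Pool.Agent.Lib.MP_072e06_pr.WalkA

/-!
Deterministic facts on simple random walk on a locally finite graph (finite sums; first the last-step
decomposition `walk (t+1) x y = ∑ z ~ y, walk t x z / deg z`, then reversibility).
-/

open MeasureTheory ENNReal
open scoped Classical

namespace MP072e06

variable {d : ℕ} [NeZero d] {G : SimpleGraph (V d)}

private lemma walk_succ' (G : SimpleGraph (V d)) (t : ℕ) (x y : V d) :
    walk G (t + 1) x y = (∑' z, if G.Adj x z then walk G t z y else 0) / deg G x := rfl

private lemma walk_ite (G : SimpleGraph (V d)) (x z : V d) (c : ℝ≥0∞) :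
    (if G.Adj x z then c else 0) = (if G.Adj x z then 1 else 0) * c := by
  split_ifs <;> simp

theorem walk_sum (hNN : NN G) (hLF : LF G) (t : ℕ) (x : V d) : ∑' y, walk G t x y = 1 := by
  induction t generalizing x with
  | zero =>
    show ∑' y, (if x = y then (1 : ℝ≥0∞) else 0) = 1
    exact tsum_ite_eq' x (fun _ => (1 : ℝ≥0∞))
  | succ t ih =>
    have hd0 : deg G x ≠ 0 := by
      have := two_le_deg hNN x
      intro h
      rw [h] at this
      norm_num at this
    have h1 : ∑' y, walk G (t + 1) x y =
        (∑' y, ∑' z, if G.Adj x z then walk G t z y else 0) / deg G x := by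
      simp only [walk_succ', div_eq_mul_inv]
      rw [ENNReal.tsum_mul_right]
    rw [h1, ENNReal.tsum_comm]
    have h2 : ∀ z, ∑' y, (if G.Adj x z then walk G t z y else 0) = if G.Adj x z then 1 else 0 := by
      intro z
      by_cases h : G.Adj x z
      · simp only [h, if_true]
        exact ih z
      · simp only [h, if_false, tsum_zero]
    simp only [h2]
    exact ENNReal.div_self hd0 (hLF x)

theorem walk_le_one (hNN : NN G) (t : ℕ) (x y : V d) : walk G t x y ≤ 1 := by
  induction t generalizing x with
  | zero =>
    show (if x = y then (1 : ℝ≥0∞) else 0) ≤ 1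
    split_ifs <;> simp
  | succ t ih =>
    rw [walk_succ']
    refine (ENNReal.div_le_div_right (ENNReal.tsum_le_tsum fun z => ?_) _).trans
      (ENNReal.div_self_le_one (a := deg G x))
    split_ifs
    · exact ih z
    · exact le_rfl

theorem walk_add' (G : SimpleGraph (V d)) (s t : ℕ) (x y : V d) :
    walk G (s + t) x y = ∑' z, walk G s x z * walk G t z y := by
  induction s generalizing x with
  | zero =>
    rw [zero_add]
    have h1 : ∀ z, walk G 0 x z * walk G t z y = if z = x then walk G t x y else 0 := by
      intro z
      show (if x = z then (1 : ℝ≥0∞) else 0) * walk G t z y = _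
      by_cases h : x = z
      · subst h; simp
      · rw [if_neg h, if_neg fun h' => h h'.symm, zero_mul]
    simp only [h1]
    rw [tsum_ite_eq]
  | succ s ih =>
    have h0 : s + 1 + t = (s + t) + 1 := by ring
    rw [h0, walk_succ']
    have h1 : ∀ z, (if G.Adj x z then walk G (s + t) z y else 0) =
        ∑' w, (if G.Adj x z then 1 else 0) * (walk G s z w * walk G t w y) := by
      intro z
      rw [walk_ite, ih z, ENNReal.tsum_mul_left]
    simp only [h1]
    rw [ENNReal.tsum_comm, div_eq_mul_inv, ← ENNReal.tsum_mul_right]
    refine tsum_congr fun w => ?_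
    rw [walk_succ', div_eq_mul_inv]
    have h2 : ∀ z, (if G.Adj x z then 1 else 0) * (walk G s z w * walk G t w y) =
        (if G.Adj x z then walk G s z w else 0) * walk G t w y := by
      intro z
      rw [walk_ite G x z (walk G s z w), mul_assoc]
    simp only [h2]
    rw [ENNReal.tsum_mul_right]
    ring

theorem walk_add (hNN : NN G) (hLF : LF G) (s t : ℕ) (x y : V d) :
    walk G (s + t) x y = ∑' z, walk G s x z * walk G t z y :=
  walk_add' G s t x y

private lemma walk_one' (G : SimpleGraph (V d)) (x y : V d) :
    walk G 1 x y = (if G.Adj x y then 1 else 0) / deg G x := by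
  rw [walk_succ']
  congr 1
  have h1 : ∀ z, (if G.Adj x z then walk G 0 z y else 0) = if z = y then
      (if G.Adj x y then 1 else 0) else 0 := by
    intro z
    show (if G.Adj x z then (if z = y then (1 : ℝ≥0∞) else 0) else 0) = _
    by_cases h : z = y
    · subst h; simp
    · simp [h]
  simp only [h1]
  rw [tsum_ite_eq]

theorem walk_rev (hNN : NN G) (hLF : LF G) (t : ℕ) (x y : V d) :
    deg G x * walk G t x y = deg G y * walk G t y x := by
  have hd0 : ∀ x, deg G x ≠ 0 := by
    intro x
    have := two_le_deg hNN x
    intro h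
    rw [h] at this
    norm_num at this
  induction t generalizing x y with
  | zero =>
    show deg G x * (if x = y then (1 : ℝ≥0∞) else 0) = deg G y * (if y = x then 1 else 0)
    by_cases h : x = y
    · subst h; rfl
    · rw [if_neg h, if_neg fun h' => h h'.symm, mul_zero, mul_zero]
  | succ t ih =>
    have h1 : deg G x * walk G (t + 1) x y = ∑' z, if G.Adj x z then walk G t z y else 0 := by
      rw [walk_succ', ENNReal.mul_div_cancel (hd0 x) (hLF x)]
    rw [h1, walk_add' G t 1 y x, ← ENNReal.tsum_mul_left]
    refine tsum_congr fun z => ?_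
    rw [walk_one', ← mul_assoc, ← ih z y]
    by_cases h : G.Adj x z
    · rw [if_pos h, if_pos h.symm, mul_comm (deg G z), mul_assoc,
        ENNReal.mul_div_cancel (hd0 z) (hLF z), mul_one]
    · rw [if_neg h, if_neg fun h' => h h'.symm, ENNReal.zero_div, mul_zero]

theorem walk_finite (hLF : LF G) (t : ℕ) (y : V d) : {x | walk G t x y ≠ 0}.Finite := by
  induction t with
  | zero =>
    refine (Set.finite_singleton y).subset ?_
    intro x hx
    have hx' : (if x = y then (1 : ℝ≥0∞) else 0) ≠ 0 := hx
    by_contra h
    exact hx' (if_neg h)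
  | succ t ih =>
    refine (ih.biUnion fun z _ => neighbor_finite hLF z).subset ?_
    intro x hx
    have hx' : (∑' z, if G.Adj x z then walk G t z y else 0) / deg G x ≠ 0 := hx
    rw [ENNReal.div_ne_zero] at hx'
    have h1 : ∃ z, (if G.Adj x z then walk G t z y else 0) ≠ 0 := by
      by_contra h
      push Not at h
      exact hx'.1 (ENNReal.tsum_eq_zero.2 h)
    obtain ⟨z, hz⟩ := h1
    rw [Set.mem_iUnion₂]
    by_cases hadj : G.Adj x z
    · rw [if_pos hadj] at hz
      exact ⟨z, hz, hadj.symm⟩
    · rw [if_neg hadj] at hz
      exact absurd rfl hz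

end MP072e06
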