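import Pool.Agent.Lib.MP_072e06_pr.EdgeProb
import Pool.Agent.Lib.MP_072e06_pr.Parity

/-!
Weights of the cross pairs: `p c = 2/4^n 1_odd`, `c ≤ C rad^(-(2d-s))` since `p ≥ κ (4 rad)^(-s)` and
`4^n ≥ rad^(2d)`; `∑_y p c^(2j) ≤ (max c)^(2j-1) ∑_y p c = (max c)^(2j-1)/2^n` and `max c ≤ C` as
`s < 2d` (so `(max c)^(2j-1) ≤ C^(j-1) (max c)^j`).
-/

open MeasureTheory ENNReal
open scoped Classical

namespace MP072e06

variable {d : ℕ} [NeZero d]

omit [NeZero d] in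
theorem cw_nonneg (s : ℝ) (n : ℕ) (x y : V d) : 0 ≤ cw d s n x y := by
  unfold cw
  split_ifs
  · have := edgeProb_nonneg d s x y
    positivity
  · exact le_rfl

lemma Weights_rad (d : ℕ) [NeZero d] (n : ℕ) : (1 : ℝ) ≤ rad d n := by
  unfold rad
  exact_mod_cast Nat.one_le_two_pow

lemma Weights_rad_pow (d : ℕ) [NeZero d] (n : ℕ) : (rad d n : ℝ) ^ d ≤ 2 ^ n := by
  unfold rad
  push_cast
  rw [← pow_mul]
  exact pow_le_pow_right₀ (by norm_num) (Nat.div_mul_le_self n d)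

/-- Lower bound of the edge probability between siblings. -/
lemma Weights_prob (d : ℕ) [NeZero d] (s : ℝ) (hs : 0 < s) : ∃ κ : ℝ, 0 < κ ∧
    ∀ (n : ℕ) (v x y : V d), x ∈ Box n v → y ∈ Box n (nxt n v) →
      κ * (rad d n : ℝ) ^ (-s) ≤ edgeProb d s x y := by
  obtain ⟨κ, hκ, h⟩ := edgeProb_lower d s hs
  refine ⟨κ * 4 ^ (-s), by positivity, fun n v x y hx hy => ?_⟩
  have h1 := Weights_rad d n
  have h2 := h (4 * rad d n) x y (by linarith) fun i =>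
    abs_sub_le_of_mem (v := v) (by rw [Box_succ]; exact Finset.mem_union_left _ hx)
      (by rw [Box_succ]; exact Finset.mem_union_right _ hy) i
  rw [Real.mul_rpow (by norm_num) (by linarith)] at h2
  linarith

/-- The weights are at most `C rad^(-(2d-s))`. -/
theorem cw_le (d : ℕ) [NeZero d] (s : ℝ) (hs : 0 < s) : ∃ C : ℝ, 1 ≤ C ∧
    ∀ (n : ℕ) (v x y : V d), x ∈ Box n v → y ∈ Box n (nxt n v) →
      cw d s n x y ≤ C * (rad d n : ℝ) ^ (-(2 * d - s)) := by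
  obtain ⟨κ, hκ, h⟩ := Weights_prob d s hs
  refine ⟨max 1 (2 / κ), le_max_left _ _, fun n v x y hx hy => ?_⟩
  have h1 := Weights_rad d n
  have h0 : (0 : ℝ) < rad d n := by linarith
  have hp := h n v x y hx hy
  have hR : 0 < (rad d n : ℝ) ^ (-s) := by positivity
  have hp0 : 0 < edgeProb d s x y := lt_of_lt_of_le (by positivity) hp
  unfold cw
  split_ifs
  · have h4 : ((rad d n : ℝ) ^ (2 * (d : ℝ))) ≤ 4 ^ n := by
      have := Weights_rad_pow d n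
      calc ((rad d n : ℝ) ^ (2 * (d : ℝ))) = ((rad d n : ℝ) ^ d) ^ 2 := by
            rw [mul_comm, Real.rpow_mul h0.le, Real.rpow_natCast]
            norm_num
        _ ≤ (2 ^ n) ^ 2 := by gcongr
        _ = 4 ^ n := by rw [← pow_mul, mul_comm, pow_mul]; norm_num
    have e1 : (rad d n : ℝ) ^ (-(2 * (d : ℝ) - s)) =
        ((rad d n : ℝ) ^ (2 * (d : ℝ)) * (rad d n : ℝ) ^ (-s))⁻¹ := by
      rw [← Real.rpow_add h0, ← Real.rpow_neg h0.le]
      ring_nf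
    calc 2 / (4 ^ n * edgeProb d s x y)
        ≤ 2 / ((rad d n : ℝ) ^ (2 * (d : ℝ)) * (κ * (rad d n : ℝ) ^ (-s))) := by
          gcongr
      _ = (2 / κ) * (rad d n : ℝ) ^ (-(2 * (d : ℝ) - s)) := by
          rw [e1]
          field_simp
      _ ≤ _ := by
          gcongr
          exact le_max_right _ _
  · positivity

lemma Weights_term (s : ℝ) (hs2 : s < 2 * d) (C0 : ℝ) (hC0 : 1 ≤ C0)
    {n : ℕ} {x y : V d} (hp : 0 < edgeProb d s x y)
    (hc : cw d s n x y ≤ C0 * (rad d n : ℝ) ^ (-(2 * d - s))) {j : ℕ} (hj : 1 ≤ j) :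
    edgeProb d s x y * cw d s n x y ^ (2 * j) ≤
      (C0 ^ 2 * (rad d n : ℝ) ^ (-(2 * d - s))) ^ j *
        ((2 / 4 ^ n) * (if Odd (par x - par y) then (1 : ℝ) else 0)) := by
  have h1 := Weights_rad d n
  set ρ : ℝ := (rad d n : ℝ) ^ (-(2 * d - s)) with hρ
  have hρ0 : 0 ≤ ρ := by positivity
  have hρ1 : ρ ≤ 1 := Real.rpow_le_one_of_one_le_of_nonpos h1 (by linarith)
  have hpc : edgeProb d s x y * cw d s n x y =
      (2 / 4 ^ n) * (if Odd (par x - par y) then (1 : ℝ) else 0) := by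
    unfold cw
    split_ifs
    · field_simp
    · simp
  obtain ⟨i, rfl⟩ : ∃ i, j = i + 1 := ⟨j - 1, by omega⟩
  have e1 : edgeProb d s x y * cw d s n x y ^ (2 * (i + 1)) =
      cw d s n x y ^ (2 * i + 1) * (edgeProb d s x y * cw d s n x y) := by ring
  rw [e1, hpc]
  refine mul_le_mul_of_nonneg_right ?_ (by split_ifs <;> positivity)
  calc cw d s n x y ^ (2 * i + 1) ≤ (C0 * ρ) ^ (2 * i + 1) := by
        gcongr
        exact cw_nonneg s n x y
    _ = C0 ^ (2 * i + 1) * (ρ ^ (i + 1) * ρ ^ i) := by ring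
    _ ≤ C0 ^ (2 * i + 2) * (ρ ^ (i + 1) * 1) := by
        have ha : C0 ^ (2 * i + 1) ≤ C0 ^ (2 * i + 2) := pow_le_pow_right₀ hC0 (by omega)
        have hb : ρ ^ i ≤ 1 := pow_le_one₀ hρ0 hρ1
        gcongr
    _ = _ := by ring

/-- Row sums of the powers of the weights. -/
theorem row_sum_le (d : ℕ) [NeZero d] (s : ℝ) (hs : 0 < s) (hs2 : s < 2 * d) (q : ℕ) :
    ∃ C : ℝ, 1 ≤ C ∧ ∀ (n : ℕ) (_ : 1 ≤ n) (v x : V d) (_ : x ∈ Box n v) (j : ℕ),
      1 ≤ j → j ≤ q →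
      ∑ y ∈ Box n (nxt n v), edgeProb d s x y * cw d s n x y ^ (2 * j) ≤
        (C * (rad d n : ℝ) ^ (-(2 * d - s))) ^ j / 2 ^ n := by
  obtain ⟨κ, hκ, hp⟩ := Weights_prob d s hs
  obtain ⟨C0, hC0, hc⟩ := cw_le d s hs
  refine ⟨C0 ^ 2, one_le_pow₀ hC0, fun n hn v x hx j hj _ => ?_⟩
  have h1 := Weights_rad d n
  calc ∑ y ∈ Box n (nxt n v), edgeProb d s x y * cw d s n x y ^ (2 * j)
      ≤ ∑ y ∈ Box n (nxt n v), (C0 ^ 2 * (rad d n : ℝ) ^ (-(2 * d - s))) ^ j *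
        ((2 / 4 ^ n) * (if Odd (par x - par y) then (1 : ℝ) else 0)) :=
        Finset.sum_le_sum fun y hy =>
          Weights_term s hs2 C0 hC0 (lt_of_lt_of_le (by positivity) (hp n v x y hx hy))
            (hc n v x y hx hy) hj
    _ = _ := by
        rw [← Finset.mul_sum, ← Finset.mul_sum, sum_odd hn]
        have h4 : (4 : ℝ) ^ n = 2 ^ n * 2 ^ n := by rw [← mul_pow]; norm_num
        rw [h4]
        field_simp

theorem col_sum_le (d : ℕ) [NeZero d] (s : ℝ) (hs : 0 < s) (hs2 : s < 2 * d) (q : ℕ) :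
    ∃ C : ℝ, 1 ≤ C ∧ ∀ (n : ℕ) (_ : 1 ≤ n) (v y : V d) (_ : y ∈ Box n (nxt n v)) (j : ℕ),
      1 ≤ j → j ≤ q →
      ∑ x ∈ Box n v, edgeProb d s x y * cw d s n x y ^ (2 * j) ≤
        (C * (rad d n : ℝ) ^ (-(2 * d - s))) ^ j / 2 ^ n := by
  obtain ⟨κ, hκ, hp⟩ := Weights_prob d s hs
  obtain ⟨C0, hC0, hc⟩ := cw_le d s hs
  refine ⟨C0 ^ 2, one_le_pow₀ hC0, fun n hn v y hy j hj _ => ?_⟩
  have h1 := Weights_rad d n
  calc ∑ x ∈ Box n v, edgeProb d s x y * cw d s n x y ^ (2 * j)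
      ≤ ∑ x ∈ Box n v, (C0 ^ 2 * (rad d n : ℝ) ^ (-(2 * d - s))) ^ j *
        ((2 / 4 ^ n) * (if Odd (par x - par y) then (1 : ℝ) else 0)) :=
        Finset.sum_le_sum fun x hx =>
          Weights_term s hs2 C0 hC0 (lt_of_lt_of_le (by positivity) (hp n v x y hx hy))
            (hc n v x y hx hy) hj
    _ = _ := by
        rw [← Finset.mul_sum, ← Finset.mul_sum, sum_odd' hn]
        have h4 : (4 : ℝ) ^ n = 2 ^ n * 2 ^ n := by rw [← mul_pow]; norm_num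
        rw [h4]
        field_simp

end MP072e06
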