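import Pool.Agent.Lib.MP_072e06_pr.Weights
import Pool.Agent.Lib.MP_072e06_pr.Rosenthal

/-!
Rosenthal with `H = ℝ`, `κ = V × V`, `T = Box n v ×ˢ Box n (nxt n v)`, `e z = s(z.1,z.2)`, `B = ∅`,
`v z = cw z`, `X = C rad^(-(2d-s))` constant (sum of `row_sum_le` over the `2^n` points `x`).
-/

open MeasureTheory ENNReal
open scoped Classical

namespace MP072e06

/-- Moments of the sum of the centred weights. -/
theorem zeta_moment (d : ℕ) [NeZero d] (s : ℝ) (hs : 0 < s) (hs2 : s < 2 * d) (q : ℕ)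
    (hq : 1 ≤ q) : ∃ C : ℝ, 1 ≤ C ∧ ∀ (n : ℕ) (_ : 1 ≤ n) (v : V d),
      ∫⁻ ω, ENNReal.ofReal |zeta s n v ω| ^ (2 * q) ∂(LRP d s) ≤
        ENNReal.ofReal (C * (rad d n : ℝ) ^ (-((2 * d - s) * q))) := by
  obtain ⟨D, hD, hros⟩ := rosenthal q hq
  obtain ⟨C0, hC0, hrow⟩ := row_sum_le d s hs hs2 q
  refine ⟨max 1 (D.toReal * C0 ^ q), le_max_left _ _, ?_⟩
  intro n hn v
  have hd : 0 < d := Nat.pos_of_ne_zero (NeZero.ne d)
  have hr : (0 : ℝ) < rad d n := by exact_mod_cast rad_pos n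
  have hN : 0 ≤ (rad d n : ℝ) ^ (-(2 * (d : ℝ) - s)) := (Real.rpow_pos_of_pos hr _).le
  have hcard : (Box n v).card = 2 ^ n := card_Box n v hd
  have hinj : Set.InjOn (fun z : V d × V d => s(z.1, z.2))
      (Box n v ×ˢ Box n (nxt n v) : Finset (V d × V d)) := by
    intro z hz z' hz' h
    simp only [Finset.coe_product, Set.mem_prod, Finset.mem_coe] at hz hz'
    simp only [Sym2.eq_iff] at h
    rcases h with ⟨h1, h2⟩ | ⟨h1, h2⟩
    · exact Prod.ext h1 h2
    · exfalso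
      exact Finset.disjoint_left.1 (Box_disj n v) hz.1 (h1 ▸ hz'.2)
  set a : ℝ := C0 * (rad d n : ℝ) ^ (-(2 * (d : ℝ) - s)) with ha
  have ha0 : 0 ≤ a := mul_nonneg (by linarith) hN
  have key := hros (Sym2 (V d)) (V d × V d) (edgeProb2 d s) ℝ (Box n v ×ˢ Box n (nxt n v))
    (fun z => s(z.1, z.2)) hinj ∅ (fun z _ => Finset.notMem_empty _)
    (fun z _ => cw d s n z.1 z.2) (fun z _ ω ω' _ => rfl)
    (fun _ => ENNReal.ofReal a) (fun ω ω' _ => rfl)
    (by
      intro ω j hj hjq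
      rw [Finset.sum_product, ← ENNReal.ofReal_pow ha0]
      calc ∑ x ∈ Box n v, ∑ y ∈ Box n (nxt n v),
              ENNReal.ofReal ((edgeProb2 d s s(x, y) : unitInterval) : ℝ) *
              ENNReal.ofReal ‖cw d s n x y‖ ^ (2 * j)
          = ∑ x ∈ Box n v, ENNReal.ofReal
              (∑ y ∈ Box n (nxt n v), edgeProb d s x y * cw d s n x y ^ (2 * j)) := by
            refine Finset.sum_congr rfl fun x _ => ?_
            rw [ENNReal.ofReal_sum_of_nonneg (fun y _ =>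
              mul_nonneg (edgeProb_nonneg _ _ _ _) (pow_nonneg (cw_nonneg _ _ _ _) _))]
            refine Finset.sum_congr rfl fun y _ => ?_
            rw [edgeProb2_mk, Real.norm_of_nonneg (cw_nonneg s n x y),
              ENNReal.ofReal_mul (edgeProb_nonneg _ _ _ _), ENNReal.ofReal_pow (cw_nonneg _ _ _ _)]
        _ ≤ ∑ x ∈ Box n v, ENNReal.ofReal (a ^ j / 2 ^ n) :=
            Finset.sum_le_sum fun x hx =>
              ENNReal.ofReal_le_ofReal (hrow n hn v x hx j hj hjq)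
        _ = ENNReal.ofReal (a ^ j) := by
            rw [Finset.sum_const, hcard, nsmul_eq_mul, ← ENNReal.ofReal_natCast,
              ← ENNReal.ofReal_mul (Nat.cast_nonneg _)]
            congr 1
            push_cast
            field_simp)
  have e1 : ∀ ω : Env d, ENNReal.ofReal |zeta s n v ω| =
      ENNReal.ofReal ‖∑ z ∈ Box n v ×ˢ Box n (nxt n v),
        (xi ω s(z.1, z.2) - ((edgeProb2 d s s(z.1, z.2) : unitInterval) : ℝ)) •
          cw d s n z.1 z.2‖ := by
    intro ω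
    rfl
  simp only [e1]
  refine key.trans ?_
  rw [lintegral_const, measure_univ, mul_one, ← ENNReal.ofReal_pow ha0,
    ← ENNReal.ofReal_toReal hD.ne, ← ENNReal.ofReal_mul ENNReal.toReal_nonneg]
  apply ENNReal.ofReal_le_ofReal
  have e2 : a ^ q = C0 ^ q * (rad d n : ℝ) ^ (-((2 * (d : ℝ) - s) * q)) := by
    rw [ha, mul_pow, ← Real.rpow_natCast ((rad d n : ℝ) ^ (-(2 * (d : ℝ) - s))),
      ← Real.rpow_mul hr.le]
    ring_nf
  rw [e2, ENNReal.toReal_ofReal ENNReal.toReal_nonneg, ← mul_assoc]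
  exact mul_le_mul_of_nonneg_right (le_max_right _ _) (Real.rpow_pos_of_pos hr _).le

end MP072e06
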